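import Pool.Agent.PTN.StF
import Pool.Agent.PTL.DOM

/-!
# The law of the ranks of prime twists for every `n`: averages over all `A` (module ALLA)
-/

set_option autoImplicit false

open NumberField IsDedekindDomain Finset
open scoped nonZeroDivisors Pointwise

namespace Pool.Agent.PTN

open Pool.Agent.Lib_helper18 Pool.Agent.Lib_helper18.Eis Pool.Agent.Lib_helper84.Cub
open Pool.Agent.PT Pool.Agent.PTE Pool.Agent.PT3 Pool.Agent.PTL

namespace ALLA

theorem tf_nn (P : Prop) : 0 ≤ tf P := by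
  unfold tf
  split_ifs
  · exact zero_le_one
  · exact le_refl _

/-- the lower bound `0` -/
theorem below_zero (n : ℤ) (a : ℕ) (W : ℤ → Prop) (F : ℤ → ℝ) : BelowA n a W F 0 := by
  refine ⟨0, fun σ _ _ => ⟨∅, ?_⟩⟩
  rw [zero_mul, sub_zero]
  unfold SumA
  refine Finset.sum_nonneg fun e _ => ?_
  rw [Finset.sum_empty]

/-- sum of the lower bounds over the classes with a property -/
theorem low (hSUMA : Stmt_SUMA) (n : ℤ) (a m : ℕ) (π : Fin m → PP) (F : ℤ → ℝ)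
    (hF : ∀ A, 0 ≤ F A) (P : ZMod 3 × (Fin m → ZMod 3) → Prop) (d : ℝ) (hd : 0 ≤ d)
    (h : ∀ y, P y → BelowA n a (Kl π y.1 y.2) F (d / 3 ^ (m + 1)))
    (hcard : 2 ^ (m + 1) ≤ Nat.card {x : ZMod 3 × (Fin m → ZMod 3) // P x}) :
    BelowA n a (fun _ => True) F (d * (2 / 3) ^ (m + 1)) := by
  classical
  obtain ⟨-, h2, -, h4⟩ := hSUMA n a m π F
  have h5 := h2 (fun y => if P y then d / 3 ^ (m + 1) else 0) hF (fun y => by
    by_cases hy : P y
    · simp only [if_pos hy]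
      exact h y hy
    · simp only [if_neg hy]
      exact below_zero _ _ _ _)
  refine h4 _ _ _ ?_ h5
  have h6 : ∑ y : ZMod 3 × (Fin m → ZMod 3), (if P y then d / 3 ^ (m + 1) else 0) =
      (Nat.card {x : ZMod 3 × (Fin m → ZMod 3) // P x} : ℝ) * (d / 3 ^ (m + 1)) := by
    rw [← Finset.sum_filter, Finset.sum_const, nsmul_eq_mul, Nat.card_eq_fintype_card,
      Fintype.card_subtype]
  rw [h6]
  have h7 : ((2 : ℝ) ^ (m + 1)) ≤ Nat.card {x : ZMod 3 × (Fin m → ZMod 3) // P x} := by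
    exact_mod_cast hcard
  calc d * (2 / 3) ^ (m + 1) = (2 : ℝ) ^ (m + 1) * (d / 3 ^ (m + 1)) := by
        rw [div_pow]
        ring
    _ ≤ _ := mul_le_mul_of_nonneg_right h7 (by positivity)

/-- sum of the upper bounds over the classes -/
theorem up (hSUMA : Stmt_SUMA) (n : ℤ) (a m : ℕ) (π : Fin m → PP) (F : ℤ → ℝ)
    (V : ZMod 3 × (Fin m → ZMod 3) → ℕ) (x : ZMod 3 × (Fin m → ZMod 3) → ℝ) (d : ℝ) (hd : 0 ≤ d)
    (h : ∀ y, AboveA n a (Kl π y.1 y.2) F (x y / 3 ^ (m + 1))) (hx : ∀ y, x y ≤ d * 3 ^ V y)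
    (hs : ∑ y : ZMod 3 × (Fin m → ZMod 3), 3 ^ V y ≤ 5 ^ (m + 1)) :
    AboveA n a (fun _ => True) F (d * (5 / 3) ^ (m + 1)) := by
  obtain ⟨h1, -, h3, -⟩ := hSUMA n a m π F
  refine h3 _ _ _ ?_ (h1 _ h)
  have h6 : ∑ y : ZMod 3 × (Fin m → ZMod 3), (3 : ℝ) ^ V y ≤ 5 ^ (m + 1) := by exact_mod_cast hs
  have h3' : (0 : ℝ) < 3 ^ (m + 1) := by positivity
  calc ∑ y : ZMod 3 × (Fin m → ZMod 3), x y / 3 ^ (m + 1) ≤
        ∑ y : ZMod 3 × (Fin m → ZMod 3), d * 3 ^ V y / 3 ^ (m + 1) :=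
        Finset.sum_le_sum fun y _ => div_le_div_of_nonneg_right (hx y) h3'.le
    _ = d * (∑ y : ZMod 3 × (Fin m → ZMod 3), (3 : ℝ) ^ V y) / 3 ^ (m + 1) := by
        rw [Finset.mul_sum, Finset.sum_div]
    _ ≤ d * 5 ^ (m + 1) / 3 ^ (m + 1) :=
        div_le_div_of_nonneg_right (mul_le_mul_of_nonneg_left h6 hd) h3'.le
    _ = d * (5 / 3) ^ (m + 1) := by
        rw [div_pow]
        ring

end ALLA

theorem ALLA_thm (hCAB : Stmt_CAB) (hCBE : Stmt_CBE) (hLAW : Stmt_LAW) (hSUMA : Stmt_SUMA)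
    (hNDIM : Stmt_NDIM) (hNSUM : Stmt_NSUM) (hNZER : Stmt_NZER) : Stmt_ALLA := by
  classical
  intro h n m k π p e r f hN hh
  obtain ⟨-, -, hL3, hL4, hL5, hL6, hL7, hL8⟩ := hLAW
  have hmono : Monotone fun j : ℕ => (3 : ℝ) ^ j := fun i j hij =>
    pow_le_pow_right₀ (by norm_num) hij
  have hz : (0 : ℝ) ≤ (fun j : ℕ => (3 : ℝ) ^ j) 0 := by norm_num
  have hC := fun y : ZMod 3 × (Fin m → ZMod 3) =>
    hCAB h n m k π p e r f y.1 y.2 hN hh (fun j : ℕ => (3 : ℝ) ^ j) hmono hz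
  have hB := fun y : ZMod 3 × (Fin m → ZMod 3) => hCBE h n m k π p e r f y.1 y.2 hN hh
  have hS := hNSUM h n m k π p e r f hN
  have hZ := hNZER h n m k π p e r f hN
  -- the classes with `v = 0`
  have hdim : ∀ y : ZMod 3 × (Fin m → ZMod 3), (vN h n π p e r y.1 y.2 = 0 ∧
      ¬ (h = 0 ∧ wt ((n : ℤ) ^ 2) + y.1 = 0)) →
      vN h n π p e r y.1 y.2 = 0 ∧
        sN h n π p e r y.1 y.2 = k + if h = 1 then 1 else 0 := by
    rintro y ⟨h1, h2⟩
    have h3 := hNDIM h n m k π p e r y.1 y.2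
    refine ⟨h1, ?_⟩
    rw [h1] at h3
    have hact : actR h n y.1 ↔ h = 2 := by
      unfold actR
      constructor
      · rintro (h4 | h4)
        · exact h4
        · exact absurd h4 h2
      · exact fun h4 => Or.inl h4
    simp only [hact] at h3
    have hcase : h = 0 ∨ h = 1 ∨ h = 2 := by omega
    rcases hcase with rfl | rfl | rfl
    · simp at h3 ⊢
      omega
    · simp at h3 ⊢
      omega
    · simp at h3 ⊢
      omega
  have hsol : ∀ A : ℤ, A ≠ 0 → CubeRank.GenBy A (CubeRank.rr A) → CubeRank.rr A < 1 →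
      ¬ ∃ X Y : ℚ, X ^ 3 + Y ^ 3 = (A : ℚ) := by
    intro A hA h1 h2
    have h3 : CubeRank.rr A = 0 := by omega
    rw [h3] at h1
    exact DOM.no_sol hA h1
  have hone : ∀ A : ℤ, A ≠ 0 → CubeRank.GenBy A (CubeRank.rr A) → CubeRank.rr A < 2 →
      CubeRank.rr A ≤ 1 := by
    intro A _ _ h2
    omega
  -- the two kinds of lower bounds
  have key2 : ∀ (t : ℕ) (R : ℤ → Prop),
      (∀ A : ℤ, A ≠ 0 → CubeRank.GenBy A (CubeRank.rr A) → CubeRank.rr A < t → R A) →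
      ∀ d : ℝ, 0 ≤ d → d ≤ 1 - LI (k + if h = 1 then 1 else 0) t →
      BelowA ((3 ^ h * n : ℕ) : ℤ) 2 (fun _ => True) (fun A => tf (R A))
        (d * (2 / 3) ^ (m + 1)) := by
    intro t R hR d hd hdl
    refine ALLA.low hSUMA _ 2 m π _ (fun A => ALLA.tf_nn _) _ d hd (fun y hy => ?_) hZ
    obtain ⟨h1, h2⟩ := hdim y hy
    have h3 := (hB y t R hR).1
    rw [h1, h2, Nat.sub_zero] at h3
    exact (hSUMA _ 2 m π _).2.2.2 _ _ _ (div_le_div_of_nonneg_right hdl (by positivity)) h3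
  have key1 : ∀ (t : ℕ) (R : ℤ → Prop),
      (∀ A : ℤ, A ≠ 0 → CubeRank.GenBy A (CubeRank.rr A) → CubeRank.rr A < t → R A) →
      ∀ d : ℝ, 0 ≤ d → d ≤ 1 - LS (k + if h = 1 then 1 else 0) 0 t →
      BelowA ((3 ^ h * n : ℕ) : ℤ) 1 (fun _ => True) (fun A => tf (R A))
        (d * (2 / 3) ^ (m + 1)) := by
    intro t R hR d hd hdl
    refine ALLA.low hSUMA _ 1 m π _ (fun A => ALLA.tf_nn _) _ d hd (fun y hy => ?_) hZ
    obtain ⟨h1, h2⟩ := hdim y hy
    have h3 := (hB y t R hR).2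
    rw [h1, h2] at h3
    exact (hSUMA _ 1 m π _).2.2.2 _ _ _ (div_le_div_of_nonneg_right hdl (by positivity)) h3
  refine ⟨?_, ?_, fun hk => ⟨?_, ?_⟩, fun hk => ⟨?_, ?_⟩⟩
  · exact ALLA.up hSUMA _ 2 m π _ (fun y => vN h n π p e r y.1 y.2) _ 4 (by norm_num)
      (fun y => (hC y).1) (fun y => hL7 _ _) hS
  · exact ALLA.up hSUMA _ 1 m π _ (fun y => vN h n π p e r y.1 y.2) _ 7 (by norm_num)
      (fun y => (hC y).2) (fun y => hL8 _ _) hS
  · refine key2 1 _ hsol _ (by norm_num) ?_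
    have := hL3 _ hk
    linarith
  · refine key1 2 _ hone _ (by norm_num) ?_
    have := hL6 _ hk
    linarith
  · refine key2 2 _ hone _ (by norm_num) ?_
    have := hL4 _ hk
    linarith
  · refine key1 1 _ hsol _ (by norm_num) ?_
    have := hL5 _ hk
    linarith

end Pool.Agent.PTN
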