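import Pool.Agent.PTN.StF
import Pool.Agent.PT.CLSC

/-!
# CAB: averages in a class
-/

set_option autoImplicit false

open NumberField IsDedekindDomain Finset
open scoped nonZeroDivisors Pointwise

namespace Pool.Agent.PTN

open Pool.Agent.Lib_helper18 Pool.Agent.Lib_helper18.Eis Pool.Agent.Lib_helper84.Cub
open Pool.Agent.PT Pool.Agent.PTE Pool.Agent.PT3 Pool.Agent.PTL

namespace CAB

theorem F_nonneg {F : ℕ → ℝ} (hF : Monotone F) (h0 : 0 ≤ F 0) (n : ℕ) : 0 ≤ F n :=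
  h0.trans (hF (Nat.zero_le n))

/-- the two descriptions of the class -/
theorem kl_iff (hSPP : SPP) {n m k : ℕ} {π : Fin m → PP} {p e : Fin m → ℕ} {r f : Fin k → ℕ}
    (hN : NF n π p e r f) (w0 : ZMod 3) (c : Fin m → ZMod 3) {q : ℕ} (hq : q.Prime)
    (hqp : ∀ i, q ≠ p i) (E : ℕ) : Kl π w0 c ((q : ℤ) ^ E) ↔ InCT E π w0 c q := by
  unfold Kl InCT
  refine and_congr_right fun _ => forall_congr' fun i => ?_
  have : Fact (p i).Prime := ⟨hN.pp i⟩
  have hn := CLSC.norm_of _ _ (hN.pπ i)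
  have hd : ¬ (π i).1 ∣ (q : Eis) := by
    rw [dvd_natCast_iff hn]
    intro h
    exact hqp i ((Nat.prime_dvd_prime_iff_eq (hN.pp i) hq).1 h).symm
  have h1 := Eis.sym_pow (π i).2.1 (hSPP.2.2.2.1 (π i)).1 hd E
  push_cast
  rw [h1]

open Classical in
/-- from the class in the sense of `InCT` to the class in the sense of `Kl` -/
theorem above_of (hSPP : SPP) {h n m k : ℕ} {π : Fin m → PP} {p e : Fin m → ℕ} {r f : Fin k → ℕ}
    (hN : NF n π p e r f) (w0 : ZMod 3) (c : Fin m → ZMod 3) (a : ℕ) {F : ℕ → ℝ}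
    (hF : Monotone F) (h0 : 0 ≤ F 0) {x : ℝ} (S : ℕ → Set ℕ)
    (hS : ∀ E q, q ∈ S E ↔ q % 3 = a ∧ InCT E π w0 c q)
    (H : ∃ K : ℝ, ∀ σ : ℝ, 1 < σ → σ ≤ 2 → ∀ T : Finset ℕ,
      ∑ E ∈ ({1, 2} : Finset ℕ), ∑ q ∈ T,
        (if q.Prime ∧ q ∈ S E then
          F (CubeRank.rr (BB h n E q)) * (q : ℝ) ^ (-σ) else 0) ≤
        x * Real.log (1 / (σ - 1)) + K) :
    AboveA ((3 ^ h * n : ℕ) : ℤ) a (Kl π w0 c) (fun A => F (CubeRank.rr A)) x := by
  obtain ⟨K, hK⟩ := H
  refine ⟨K + ∑ E ∈ ({1, 2} : Finset ℕ), ∑ q ∈ univ.image p,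
    F (CubeRank.rr (BB h n E q)), fun σ h1 h2 T => ?_⟩
  have e1 := hK σ h1 h2 T
  have e2 : SumA ((3 ^ h * n : ℕ) : ℤ) a (Kl π w0 c) (fun A => F (CubeRank.rr A)) σ T ≤
      ∑ E ∈ ({1, 2} : Finset ℕ), ∑ q ∈ T,
        (if q.Prime ∧ q ∈ S E then
          F (CubeRank.rr (BB h n E q)) * (q : ℝ) ^ (-σ) else 0) +
      ∑ E ∈ ({1, 2} : Finset ℕ), ∑ q ∈ univ.image p, F (CubeRank.rr (BB h n E q)) := by
    unfold SumA
    rw [← Finset.sum_add_distrib]
    refine Finset.sum_le_sum fun E _ => ?_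
    have hFn := F_nonneg hF h0
    have hB : ∀ q : ℕ, ((3 ^ h * n : ℕ) : ℤ) * (q : ℤ) ^ E = BB h n E q := by
      intro q
      unfold BB
      push_cast
      ring
    have e3 : ∑ q ∈ T, (if q ∈ univ.image p then F (CubeRank.rr (BB h n E q)) else 0) ≤
        ∑ q ∈ univ.image p, F (CubeRank.rr (BB h n E q)) := by
      rw [← Finset.sum_filter]
      refine Finset.sum_le_sum_of_subset_of_nonneg ?_ fun q _ _ => hFn _
      intro q hq
      exact (Finset.mem_filter.1 hq).2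
    refine le_trans ?_ (add_le_add_right e3 _)
    rw [← Finset.sum_add_distrib]
    refine Finset.sum_le_sum fun q _ => ?_
    have hpos : 0 ≤ F (CubeRank.rr (BB h n E q)) * (q : ℝ) ^ (-σ) :=
      mul_nonneg (hFn _) (Real.rpow_nonneg (Nat.cast_nonneg q) _)
    rw [hB]
    by_cases hqp : q ∈ univ.image p
    · rw [if_pos hqp]
      have hle : (if q.Prime ∧ q % 3 = a ∧ Kl π w0 c ((q : ℤ) ^ E) then
          F (CubeRank.rr (BB h n E q)) * (q : ℝ) ^ (-σ) else 0) ≤
          F (CubeRank.rr (BB h n E q)) := by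
        split_ifs with hc
        · refine mul_le_of_le_one_right (hFn _) ?_
          exact Real.rpow_le_one_of_one_le_of_nonpos (by exact_mod_cast hc.1.one_lt.le)
            (by linarith)
        · exact hFn _
      have hge : 0 ≤ (if q.Prime ∧ q ∈ S E then
          F (CubeRank.rr (BB h n E q)) * (q : ℝ) ^ (-σ) else 0) := by
        split_ifs
        · exact hpos
        · exact le_refl 0
      linarith
    · rw [if_neg hqp, add_zero]
      by_cases hq : q.Prime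
      · have hqi : ∀ i, q ≠ p i := fun i hi => hqp (Finset.mem_image.2 ⟨i, mem_univ _, hi.symm⟩)
        have hiff := kl_iff hSPP hN w0 c hq hqi E
        refine le_of_eq ?_
        refine if_congr ?_ rfl rfl
        rw [hS, hiff]
      · rw [if_neg fun hc => hq hc.1, if_neg fun hc => hq hc.1]
  linarith

end CAB

open CAB in
theorem CAB_thm (hSPP : SPP) (hCLN : Stmt_CLN) (hCLU : Stmt_CLU) (hDOMG : Stmt_DOMG)
    (hLAW : Stmt_LAW) : Stmt_CAB := by
  classical
  intro h n m k π p e r f w0 c hN hh F hF h0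
  obtain ⟨hL1, hL2, -⟩ := hLAW
  obtain ⟨⟨M, hM⟩, hT⟩ := hCLN h n m k π p e r f w0 c hN hh
  obtain ⟨⟨M', hM'⟩, hT'⟩ := hCLU h n m k π p e r f w0 c hN hh
  set s := sN h n π p e r w0 c with hs
  set v := vN h n π p e r w0 c with hv
  constructor
  · refine above_of hSPP hN w0 c 2 hF h0
      (fun E => {q : ℕ | q % 3 = 2 ∧ InCT E π w0 c q}) (fun E q => Iff.rfl) ?_
    obtain ⟨K, hK⟩ := hDOMG (fun E => {q : ℕ | q % 3 = 2 ∧ InCT E π w0 c q})
      (fun E q => CubeRank.rr (BB h n E q)) (fun t => LI s (t - v) / 3 ^ (m + 1)) M (v + s) F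
      (fun E q hE hq hMq hqS => CubeRank.rr_le (hM E q hE hq hMq hqS.1 hqS.2))
      (fun t => by
        obtain ⟨K, hK⟩ := hT t
        refine ⟨K, fun σ h1 h2 => ?_⟩
        have e1 := hK σ h1 h2
        have e2 : ∀ E : ℕ, {q : ℕ | q ∈ {q : ℕ | q % 3 = 2 ∧ InCT E π w0 c q} ∧
            t ≤ CubeRank.rr (BB h n E q)} = WR h n π w0 c 2 E t := by
          intro E
          ext q
          exact and_assoc
        rw [e2, e2]
        exact e1) hF h0
    refine ⟨K, fun σ h1 h2 T => (hK σ h1 h2 T).trans_eq ?_⟩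
    rw [← hL1 s v F, add_div, Finset.sum_div]
    simp only [mul_div_assoc]
  · refine above_of hSPP hN w0 c 1 hF h0
      (fun E => {q : ℕ | q % 3 = 1 ∧ InCT E π w0 c q}) (fun E q => Iff.rfl) ?_
    obtain ⟨K, hK⟩ := hDOMG (fun E => {q : ℕ | q % 3 = 1 ∧ InCT E π w0 c q})
      (fun E q => CubeRank.rr (BB h n E q)) (fun t => LS s v t / 3 ^ (m + 1)) M' (v + s + 1) F
      (fun E q hE hq hMq hqS =>
        (CubeRank.rr_le (hM' E q hE hq hMq hqS.1 hqS.2)).trans (by omega))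
      (fun t => by
        obtain ⟨K, hK⟩ := hT' t
        refine ⟨K, fun σ h1 h2 => ?_⟩
        have e1 := hK σ h1 h2
        have e2 : ∀ E : ℕ, {q : ℕ | q ∈ {q : ℕ | q % 3 = 1 ∧ InCT E π w0 c q} ∧
            t ≤ CubeRank.rr (BB h n E q)} = WR h n π w0 c 1 E t := by
          intro E
          ext q
          exact and_assoc
        rw [e2, e2]
        exact e1) hF h0
    refine ⟨K, fun σ h1 h2 T => (hK σ h1 h2 T).trans_eq ?_⟩
    rw [← hL2 s v F, add_div, Finset.sum_div]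
    simp only [mul_div_assoc]

end Pool.Agent.PTN
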