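import Pool.Agent.PTN.StF
import Pool.Agent.PT.BDENS

/-!
# From tails to averages
-/

set_option autoImplicit false

open Finset

namespace Pool.Agent.PTN

open Pool.Agent.PT Pool.Agent.PTL

namespace DOMG

open BDENS

/-- the tail sets -/
def TS (S : ℕ → Set ℕ) (R : ℕ → ℕ → ℕ) (E t : ℕ) : Set ℕ := {q | q ∈ S E ∧ t ≤ R E q}

theorem sum_ind_le (S : Set ℕ) {σ : ℝ} (hσ : 1 < σ) (T : Finset ℕ) :
    ∑ q ∈ T, ind S σ q ≤ sm S σ := by
  rw [sm_eq]
  exact (ind_summable S hσ).sum_le_tsum T fun n _ => ind_nonneg S σ n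

open Classical in
/-- one exponent, pointwise -/
theorem point (S : ℕ → Set ℕ) (R : ℕ → ℕ → ℕ) (F : ℕ → ℝ) (hF : Monotone F) (h0 : 0 ≤ F 0)
    {M N E : ℕ} (hM : ∀ q : ℕ, q.Prime → M < q → q ∈ S E → R E q ≤ N) {σ : ℝ} (hσ : 1 < σ)
    (q : ℕ) :
    (if q.Prime ∧ q ∈ S E then F (R E q) * (q : ℝ) ^ (-σ) else 0) ≤
    F 0 * ind (TS S R E 0) σ q +
      ∑ t ∈ Finset.range N, (F (t + 1) - F t) * ind (TS S R E (t + 1)) σ q +
      (if q ≤ M then F (R E q) else 0) := by
  have hFn : ∀ n, 0 ≤ F n := fun n => h0.trans (hF (Nat.zero_le n))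
  have hsum : 0 ≤ ∑ t ∈ Finset.range N, (F (t + 1) - F t) * ind (TS S R E (t + 1)) σ q :=
    Finset.sum_nonneg fun t _ => mul_nonneg (sub_nonneg.2 (hF (Nat.le_succ t)))
      (ind_nonneg _ _ _)
  have h00 : 0 ≤ F 0 * ind (TS S R E 0) σ q := mul_nonneg h0 (ind_nonneg _ _ _)
  have hlast : 0 ≤ (if q ≤ M then F (R E q) else 0) := by
    split_ifs
    · exact hFn _
    · exact le_rfl
  by_cases hq : q.Prime ∧ q ∈ S E
  · rw [if_pos hq]
    by_cases hqM : q ≤ M
    · rw [if_pos hqM]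
      have h1 : (q : ℝ) ^ (-σ) ≤ 1 :=
        Real.rpow_le_one_of_one_le_of_nonpos (by exact_mod_cast hq.1.one_lt.le) (by linarith)
      have h2 := mul_le_mul_of_nonneg_left h1 (hFn (R E q))
      rw [mul_one] at h2
      linarith
    · rw [if_neg hqM, add_zero]
      push Not at hqM
      have hrs := hM q hq.1 hqM hq.2
      obtain ⟨ρ, hρ⟩ : ∃ ρ, ρ = R E q := ⟨_, rfl⟩
      rw [← hρ] at hrs ⊢
      have e1 : ∀ t, ind (TS S R E (t + 1)) σ q = if t < ρ then (q : ℝ) ^ (-σ) else 0 := by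
        intro t
        by_cases ht : t < ρ
        · rw [if_pos ht]
          exact ind_mem hq.1 ⟨hq.2, by rw [← hρ]; exact ht⟩
        · rw [if_neg ht]
          refine ind_not fun h => ht ?_
          have h3 := h.2.2
          rw [← hρ] at h3
          exact h3
      have e2 : ∑ t ∈ Finset.range N, (F (t + 1) - F t) * ind (TS S R E (t + 1)) σ q =
          (F ρ - F 0) * (q : ℝ) ^ (-σ) := by
        have e3 : ∀ t ∈ Finset.range N, (F (t + 1) - F t) * ind (TS S R E (t + 1)) σ q =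
            if t < ρ then (F (t + 1) - F t) * (q : ℝ) ^ (-σ) else 0 := by
          intro t _
          rw [e1 t, mul_ite, mul_zero]
        rw [Finset.sum_congr rfl e3, ← Finset.sum_filter]
        have e4 : (Finset.range N).filter (fun t => t < ρ) = Finset.range ρ := by
          ext t
          simp only [Finset.mem_filter, Finset.mem_range]
          omega
        rw [e4, ← Finset.sum_mul, Finset.sum_range_sub]
      rw [e2, ind_mem hq.1 (show q ∈ TS S R E 0 from ⟨hq.2, Nat.zero_le _⟩)]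
      apply le_of_eq
      ring
  · rw [if_neg hq]
    linarith

end DOMG

open BDENS DOMG in
/-- from tails to averages -/
theorem DOMG_thm : Stmt_DOMG := by
  classical
  intro S R P M N F hR hC hF h0
  choose K hK using hC
  have hFn : ∀ n, 0 ≤ F n := fun n => h0.trans (hF (Nat.zero_le n))
  obtain ⟨B, hB⟩ : ∃ B : ℕ → ℝ, ∀ E, B E = ∑ q ∈ Finset.range (M + 1), F (R E q) :=
    ⟨_, fun _ => rfl⟩
  refine ⟨F 0 * K 0 + ∑ t ∈ Finset.range N, (F (t + 1) - F t) * K (t + 1) + B 1 + B 2,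
    fun σ h1 hσ2 T => ?_⟩
  have hone : ∀ E : ℕ, (E = 1 ∨ E = 2) →
      ∑ q ∈ T, (if q.Prime ∧ q ∈ S E then F (R E q) * (q : ℝ) ^ (-σ) else 0) ≤
      F 0 * sm (TS S R E 0) σ + ∑ t ∈ Finset.range N, (F (t + 1) - F t) *
        sm (TS S R E (t + 1)) σ + B E := by
    intro E hE
    refine (Finset.sum_le_sum fun q _ => point S R F hF h0 (N := N) (M := M)
      (fun q hq hqM hqW => hR E q hE hq hqM hqW) h1 q).trans ?_
    rw [Finset.sum_add_distrib, Finset.sum_add_distrib]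
    refine add_le_add (add_le_add ?_ ?_) ?_
    · rw [← Finset.mul_sum]
      exact mul_le_mul_of_nonneg_left (DOMG.sum_ind_le _ h1 T) h0
    · rw [Finset.sum_comm]
      refine Finset.sum_le_sum fun t _ => ?_
      rw [← Finset.mul_sum]
      exact mul_le_mul_of_nonneg_left (DOMG.sum_ind_le _ h1 T)
        (sub_nonneg.2 (hF (Nat.le_succ t)))
    · rw [← Finset.sum_filter, hB]
      refine Finset.sum_le_sum_of_subset_of_nonneg ?_ fun q _ _ => hFn _
      intro q hq
      rw [Finset.mem_range]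
      have := (Finset.mem_filter.1 hq).2
      omega
  rw [Finset.sum_pair (by norm_num : (1 : ℕ) ≠ 2)]
  have i1 := hone 1 (Or.inl rfl)
  have i2 := hone 2 (Or.inr rfl)
  have hK' : ∀ t, sm (TS S R 1 t) σ + sm (TS S R 2 t) σ ≤
      P t * Real.log (1 / (σ - 1)) + K t := fun t => hK t σ h1 hσ2
  have j0 := mul_le_mul_of_nonneg_left (hK' 0) h0
  have j1 : ∑ t ∈ Finset.range N, (F (t + 1) - F t) * (sm (TS S R 1 (t + 1)) σ +
      sm (TS S R 2 (t + 1)) σ) ≤ ∑ t ∈ Finset.range N, (F (t + 1) - F t) *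
      (P (t + 1) * Real.log (1 / (σ - 1)) + K (t + 1)) :=
    Finset.sum_le_sum fun t _ => mul_le_mul_of_nonneg_left (hK' (t + 1))
      (sub_nonneg.2 (hF (Nat.le_succ t)))
  have hE : (F 0 * P 0 + ∑ t ∈ Finset.range N, (F (t + 1) - F t) * P (t + 1)) *
        Real.log (1 / (σ - 1)) =
      F 0 * (P 0 * Real.log (1 / (σ - 1))) +
      ∑ t ∈ Finset.range N, (F (t + 1) - F t) * (P (t + 1) * Real.log (1 / (σ - 1))) := by
    rw [add_mul, Finset.sum_mul]
    congr 1
    · ring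
    · exact Finset.sum_congr rfl fun t _ => by ring
  rw [hE]
  have e1 : ∑ t ∈ Finset.range N, (F (t + 1) - F t) * (sm (TS S R 1 (t + 1)) σ +
      sm (TS S R 2 (t + 1)) σ) =
      ∑ t ∈ Finset.range N, (F (t + 1) - F t) * sm (TS S R 1 (t + 1)) σ +
      ∑ t ∈ Finset.range N, (F (t + 1) - F t) * sm (TS S R 2 (t + 1)) σ := by
    rw [← Finset.sum_add_distrib]
    exact Finset.sum_congr rfl fun t _ => by ring
  have e2 : ∑ t ∈ Finset.range N, (F (t + 1) - F t) *
      (P (t + 1) * Real.log (1 / (σ - 1)) + K (t + 1)) =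
      ∑ t ∈ Finset.range N, (F (t + 1) - F t) * (P (t + 1) * Real.log (1 / (σ - 1))) +
      ∑ t ∈ Finset.range N, (F (t + 1) - F t) * K (t + 1) := by
    rw [← Finset.sum_add_distrib]
    exact Finset.sum_congr rfl fun t _ => by ring
  rw [e1, e2] at j1
  rw [mul_add, mul_add] at j0
  linarith

end Pool.Agent.PTN
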