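import Pool.Agent.PTN.StF

/-!
# PTN_SUMA: sums over the classes
-/

set_option autoImplicit false

open NumberField IsDedekindDomain Finset
open scoped nonZeroDivisors Pointwise

namespace Pool.Agent.PTN

open Pool.Agent.Lib_helper18 Pool.Agent.Lib_helper18.Eis Pool.Agent.Lib_helper84.Cub
open Pool.Agent.PT Pool.Agent.PTE Pool.Agent.PT3 Pool.Agent.PTL

namespace SUMA

theorem log_nn {σ : ℝ} (h1 : 1 < σ) (h2 : σ ≤ 2) : 0 ≤ Real.log (1 / (σ - 1)) := by
  apply Real.log_nonneg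
  rw [le_div_iff₀ (by linarith)]
  linarith

theorem kl_iff {m : ℕ} (π : Fin m → PP) (y : ℤ) (x : ZMod 3 × (Fin m → ZMod 3)) :
    Kl π x.1 x.2 y ↔ (wt (y ^ 2), fun i => sym (π i).1 (y : Eis)) = x := by
  unfold Kl
  rw [Prod.ext_iff, funext_iff]

theorem sum_all {m : ℕ} (π : Fin m → PP) (n : ℤ) (a : ℕ) (F : ℤ → ℝ) (σ : ℝ) (T : Finset ℕ) :
    SumA n a (fun _ => True) F σ T =
      ∑ x : ZMod 3 × (Fin m → ZMod 3), SumA n a (Kl π x.1 x.2) F σ T := by
  classical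
  symm
  unfold SumA
  rw [Finset.sum_comm]
  refine Finset.sum_congr rfl fun e _ => ?_
  rw [Finset.sum_comm]
  refine Finset.sum_congr rfl fun q _ => ?_
  by_cases hq : q.Prime ∧ q % 3 = a
  · rw [if_pos ⟨hq.1, hq.2, trivial⟩]
    rw [Finset.sum_eq_single
      ((wt (((q : ℤ) ^ e) ^ 2), fun i => sym (π i).1 (((q : ℤ) ^ e : ℤ) : Eis)) :
        ZMod 3 × (Fin m → ZMod 3))]
    · rw [if_pos ⟨hq.1, hq.2, (kl_iff π _ _).2 rfl⟩]
    · intro x _ hx
      rw [if_neg fun h => hx ((kl_iff π _ _).1 h.2.2).symm]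
    · intro h
      exact absurd (Finset.mem_univ _) h
  · rw [if_neg fun h => hq ⟨h.1, h.2.1⟩]
    refine Finset.sum_eq_zero fun x _ => ?_
    rw [if_neg fun h => hq ⟨h.1, h.2.1⟩]

theorem sum_mono {n : ℤ} {a : ℕ} {W : ℤ → Prop} {F : ℤ → ℝ} (hF : ∀ A, 0 ≤ F A) {σ : ℝ}
    {T T' : Finset ℕ} (h : T ⊆ T') : SumA n a W F σ T ≤ SumA n a W F σ T' := by
  classical
  unfold SumA
  refine Finset.sum_le_sum fun e _ => Finset.sum_le_sum_of_subset_of_nonneg h fun q _ _ => ?_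
  split_ifs
  · exact mul_nonneg (hF _) (Real.rpow_nonneg (Nat.cast_nonneg q) _)
  · exact le_rfl

end SUMA

theorem SUMA_thm : Stmt_SUMA := by
  classical
  intro n a m π F
  refine ⟨?_, ?_, ?_, ?_⟩
  · intro x h
    choose K hK using h
    refine ⟨∑ y, K y, fun σ h1 h2 T => ?_⟩
    rw [SUMA.sum_all π, Finset.sum_mul, ← Finset.sum_add_distrib]
    exact Finset.sum_le_sum fun y _ => hK y σ h1 h2 T
  · intro x hF h
    choose K hK using h
    refine ⟨∑ y, K y, fun σ h1 h2 => ?_⟩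
    choose T hT using fun y => hK y σ h1 h2
    refine ⟨Finset.univ.biUnion T, ?_⟩
    rw [SUMA.sum_all π, Finset.sum_mul, ← Finset.sum_sub_distrib]
    refine Finset.sum_le_sum fun y _ => (hT y).trans ?_
    exact SUMA.sum_mono hF (Finset.subset_biUnion_of_mem T (Finset.mem_univ y))
  · rintro W x y hxy ⟨K, hK⟩
    refine ⟨K, fun σ h1 h2 T => (hK σ h1 h2 T).trans ?_⟩
    have := mul_le_mul_of_nonneg_right hxy (SUMA.log_nn h1 h2)
    linarith
  · rintro W x y hxy ⟨K, hK⟩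
    refine ⟨K, fun σ h1 h2 => ?_⟩
    obtain ⟨T, hT⟩ := hK σ h1 h2
    refine ⟨T, le_trans ?_ hT⟩
    have := mul_le_mul_of_nonneg_right hxy (SUMA.log_nn h1 h2)
    linarith

end Pool.Agent.PTN
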