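import Pool.Agent.PTN.StD
import Pool.Agent.PTE.DENSS

/-!
# The law of the ranks of prime twists for every `n`: module BDU (the exact bound for the density,
both exponents together, `Q = 1 (mod 3)`)
-/

set_option autoImplicit false

open NumberField IsDedekindDomain Finset
open scoped nonZeroDivisors Pointwise

namespace Pool.Agent.PTN

open Pool.Agent.Lib_helper18 Pool.Agent.Lib_helper18.Eis Pool.Agent.Lib_helper84.Cub
open Pool.Agent.PT Pool.Agent.PTE Pool.Agent.PT3 Pool.Agent.PTL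

namespace BDU

open BDENS

theorem M1_pow {f : ℕ} (hf : 0 < f) (h3 : 3 ∣ f) {a : (ZMod f)ˣ} (ha : M1 a) (k : ℕ) :
    M1 (a ^ k) := by
  have : NeZero f := ⟨hf.ne'⟩
  rw [DENSS.M1_iff h3] at ha ⊢
  rw [Units.val_pow_eq_pow_val, map_pow, ha, one_pow]

/-- Generators of a finite cyclic group are powers of each other with an exponent prime
to `3`. -/
theorem exists_pow3 {G : Type} [Group G] [Finite G] {g h : G}
    (hz : Subgroup.zpowers h = Subgroup.zpowers g) :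
    ∃ k : ℕ, k % 3 ≠ 0 ∧ h = g ^ k := by
  have h1 : h ∈ Subgroup.zpowers g := by
    rw [← hz]
    exact Subgroup.mem_zpowers h
  obtain ⟨k, hk⟩ := (isOfFinOrder_of_finite g).mem_powers_iff_mem_zpowers.2 h1
  have hk' : g ^ k = h := hk
  have h2 : orderOf h = orderOf g := by
    rw [← Nat.card_zpowers, ← Nat.card_zpowers, hz]
  have h3 : (orderOf g).gcd k = 1 := by
    have h5 : orderOf (g ^ k) = orderOf g / (orderOf g).gcd k := orderOf_pow g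
    rw [hk', h2] at h5
    have h6 : 0 < orderOf g := orderOf_pos g
    have h7 : (orderOf g).gcd k ∣ orderOf g := Nat.gcd_dvd_left _ _
    obtain ⟨c, hc⟩ := h7
    have h8 : 0 < (orderOf g).gcd k := Nat.gcd_pos_of_pos_left _ h6
    have h9 : orderOf g / (orderOf g).gcd k = c := Nat.div_eq_of_eq_mul_right h8 hc
    rw [h9] at h5
    rw [← h5] at hc
    have h10 : (orderOf g) * (orderOf g).gcd k = orderOf g * 1 := by
      rw [mul_one, mul_comm]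
      exact hc.symm
    exact Nat.eq_of_mul_eq_mul_left h6 h10
  by_cases h30 : k % 3 = 0
  · refine ⟨k + orderOf g, ?_, ?_⟩
    · intro h4
      have h5 : 3 ∣ (orderOf g).gcd k := Nat.dvd_gcd (by omega) (by omega)
      rw [h3] at h5
      omega
    · rw [pow_add, pow_orderOf_eq_one, mul_one, hk']
  · exact ⟨k, h30, hk'.symm⟩

section
variable {G : Type} [Group G] {f m s : ℕ} (χ : G →* (ZMod f)ˣ)
    (κ : (ZMod f)ˣ →* Multiplicative (Fin (m + 1) → ZMod 3)) (c : Fin (m + 1) → ZMod 3)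
    (C : Fin s → Fin s → ZMod 3) (Φ : (ZMod f)ˣ →* Multiplicative (Fin s → Fin s → ZMod 3))
    (t : ℕ) (F : G → Prop) (tt : G → Fin s → Fin s → ZMod 3)

/-- the elements with class `c` or `-c` -/
def InU (g : G) : Prop := M1 (χ g) ∧ ((κ (χ g)).toAdd = c ∨ (κ (χ g)).toAdd = -c)

/-- the elements of class `c` with the pattern and large kernel -/
def XP (g : G) : Prop := M1 (χ g) ∧ (κ (χ g)).toAdd = c ∧ F g ∧
  t ≤ s - (alt (C + (Φ (χ g)).toAdd + tt g)).rank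

/-- the elements of class `-c` with the pattern and large kernel -/
def XM (g : G) : Prop := M1 (χ g) ∧ (κ (χ g)).toAdd = -c ∧ F g ∧
  t ≤ s - (alt (C - (Φ (χ g)).toAdd - tt g)).rank

/-- passing to a power with exponent prime to `3` -/
theorem transfer (hf : 0 < f) (h3 : 3 ∣ f) {g h : G} {k : ℕ} (hk3 : k % 3 ≠ 0)
    (hχ : χ h = χ g ^ k) (hg : M1 (χ g)) (hF : F h → F g)
    (ht : F g → ∀ j i, j ≠ i → tt h j i = k * tt g j i) :
    (InU χ κ c g → InU χ κ c h) ∧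
      (((XP χ κ c C Φ t F tt h → XP χ κ c C Φ t F tt g) ∧
          (XM χ κ c C Φ t F tt h → XM χ κ c C Φ t F tt g)) ∨
        ((XP χ κ c C Φ t F tt h → XM χ κ c C Φ t F tt g) ∧
          (XM χ κ c C Φ t F tt h → XP χ κ c C Φ t F tt g))) := by
  have hM : M1 (χ h) := by
    rw [hχ]
    exact M1_pow hf h3 hg k
  have e1 : (κ (χ h)).toAdd = k • (κ (χ g)).toAdd := by
    rw [hχ, map_pow, toAdd_pow]
  have e2 : (Φ (χ h)).toAdd = k • (Φ (χ g)).toAdd := by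
    rw [hχ, map_pow, toAdd_pow]
  have hk12 : k % 3 = 1 ∨ k % 3 = 2 := by omega
  rcases hk12 with hk1 | hk2
  · rw [nsmul_one three_f hk1] at e1
    rw [nsmul_one three_ff hk1] at e2
    have ht' : F g → ∀ j i, j ≠ i → tt h j i = tt g j i := by
      intro hFg j i hji
      rw [ht hFg j i hji, cast_one hk1]
    refine ⟨?_, Or.inl ⟨?_, ?_⟩⟩
    · rintro ⟨-, h2⟩
      refine ⟨hM, ?_⟩
      rw [e1]
      exact h2
    · rintro ⟨-, h2, hFh, h4⟩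
      rw [e1] at h2
      rw [(DENSS.det_same e2 (ht' (hF hFh))).1] at h4
      exact ⟨hg, h2, hF hFh, h4⟩
    · rintro ⟨-, h2, hFh, h4⟩
      rw [e1] at h2
      rw [(DENSS.det_same e2 (ht' (hF hFh))).2] at h4
      exact ⟨hg, h2, hF hFh, h4⟩
  · rw [nsmul_two three_f hk2] at e1
    rw [nsmul_two three_ff hk2] at e2
    have ht' : F g → ∀ j i, j ≠ i → tt h j i = - tt g j i := by
      intro hFg j i hji
      rw [ht hFg j i hji, cast_two hk2]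
    refine ⟨?_, Or.inr ⟨?_, ?_⟩⟩
    · rintro ⟨-, h2⟩
      refine ⟨hM, ?_⟩
      rw [e1]
      rcases h2 with h2 | h2
      · exact Or.inr (by rw [h2])
      · exact Or.inl (by rw [h2, neg_neg])
    · rintro ⟨-, h2, hFh, h4⟩
      rw [e1] at h2
      rw [(DENSS.det_opp e2 (ht' (hF hFh))).1] at h4
      exact ⟨hg, by rw [← h2, neg_neg], hF hFh, h4⟩
    · rintro ⟨-, h2, hFh, h4⟩
      rw [e1] at h2
      rw [(DENSS.det_opp e2 (ht' (hF hFh))).2] at h4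
      exact ⟨hg, neg_injective h2, hF hFh, h4⟩

/-- a predicate which can be transferred -/
def Inv (B : G → Prop) : Prop := ∀ {g h : G} {k : ℕ}, k % 3 ≠ 0 → χ h = χ g ^ k →
  M1 (χ g) → (F h → F g) → (F g → ∀ j i, j ≠ i → tt h j i = k * tt g j i) →
  (InU χ κ c g → InU χ κ c h) ∧ (B h → B g)

theorem inv_or (hf : 0 < f) (h3 : 3 ∣ f) :
    Inv χ κ c F tt fun g => XP χ κ c C Φ t F tt g ∨ XM χ κ c C Φ t F tt g := by
  intro g h k hk3 hχ hg hF ht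
  obtain ⟨h1, h2⟩ := transfer χ κ c C Φ t F tt hf h3 hk3 hχ hg hF ht
  refine ⟨h1, ?_⟩
  rcases h2 with ⟨h4, h5⟩ | ⟨h4, h5⟩
  · rintro (h6 | h6)
    · exact Or.inl (h4 h6)
    · exact Or.inr (h5 h6)
  · rintro (h6 | h6)
    · exact Or.inr (h4 h6)
    · exact Or.inl (h5 h6)

theorem inv_and (hf : 0 < f) (h3 : 3 ∣ f) :
    Inv χ κ c F tt fun g => XP χ κ c C Φ t F tt g ∧ XM χ κ c C Φ t F tt g := by
  intro g h k hk3 hχ hg hF ht
  obtain ⟨h1, h2⟩ := transfer χ κ c C Φ t F tt hf h3 hk3 hχ hg hF ht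
  refine ⟨h1, ?_⟩
  rcases h2 with ⟨h4, h5⟩ | ⟨h4, h5⟩
  · rintro ⟨h6, h7⟩
    exact ⟨h4 h6, h5 h7⟩
  · rintro ⟨h6, h7⟩
    exact ⟨h5 h7, h4 h6⟩

/-- the data of generators of conjugate cyclic groups -/
theorem gen [Finite G] (hf : 0 < f) (h3 : 3 ∣ f)
    (hconj : ∀ g τ : G, M1 (χ g) → F g →
      F (τ * g * τ⁻¹) ∧ ∀ j i, j ≠ i → tt (τ * g * τ⁻¹) j i = tt g j i)
    (hpow : ∀ (g : G) (k : ℕ), M1 (χ g) → F g → ¬ 3 ∣ k →
      F (g ^ k) ∧ ∀ j i, j ≠ i → tt (g ^ k) j i = k * tt g j i)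
    {g h τ : G} (hM : M1 (χ g))
    (hz : Subgroup.zpowers h = Subgroup.zpowers (τ * g * τ⁻¹)) :
    ∃ k : ℕ, k % 3 ≠ 0 ∧ χ h = χ g ^ k ∧ (F h → F g) ∧
      (F g → ∀ j i, j ≠ i → tt h j i = k * tt g j i) := by
  have hχg : χ (τ * g * τ⁻¹) = χ g := by
    rw [map_mul, map_mul, map_inv, mul_comm (χ τ), mul_inv_cancel_right]
  have hM' : M1 (χ (τ * g * τ⁻¹)) := by
    rw [hχg]
    exact hM
  obtain ⟨k, hk3, hh⟩ := exists_pow3 hz
  obtain ⟨l, hl3, hl⟩ := exists_pow3 hz.symm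
  have h1 : χ h = χ g ^ k := by
    rw [hh, map_pow, hχg]
  have hMh : M1 (χ h) := by
    rw [h1]
    exact M1_pow hf h3 hM k
  refine ⟨k, hk3, h1, ?_, ?_⟩
  · intro hFh
    have h4 : F (τ * g * τ⁻¹) := by
      rw [hl]
      exact (hpow h l hMh hFh (by omega)).1
    have h5 := (hconj (τ * g * τ⁻¹) τ⁻¹ hM' h4).1
    have h6 : τ⁻¹ * (τ * g * τ⁻¹) * τ⁻¹⁻¹ = g := by group
    rwa [h6] at h5
  · intro hFg j i hji
    obtain ⟨h4, h5⟩ := hconj g τ hM hFg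
    rw [hh, (hpow _ k hM' h4 (by omega)).2 j i hji, h5 j i hji]

/-- the elements that are not bad are stable under conjugation and change of generator -/
theorem stable [Finite G] (hf : 0 < f) (h3 : 3 ∣ f) {B : G → Prop} (hB : Inv χ κ c F tt B)
    (hconj : ∀ g τ : G, M1 (χ g) → F g →
      F (τ * g * τ⁻¹) ∧ ∀ j i, j ≠ i → tt (τ * g * τ⁻¹) j i = tt g j i)
    (hpow : ∀ (g : G) (k : ℕ), M1 (χ g) → F g → ¬ 3 ∣ k →
      F (g ^ k) ∧ ∀ j i, j ≠ i → tt (g ^ k) j i = k * tt g j i)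
    {g h τ : G} (hg : InU χ κ c g ∧ ¬ B g)
    (hz : Subgroup.zpowers h = Subgroup.zpowers (τ * g * τ⁻¹)) :
    InU χ κ c h ∧ ¬ B h := by
  obtain ⟨k, hk3, h1, h2, h4⟩ := gen χ F tt hf h3 hconj hpow hg.1.1 hz
  obtain ⟨h5, h6⟩ := hB hk3 h1 hg.1.1 h2 h4
  exact ⟨h5 hg.1, fun h7 => hg.2 (h6 h7)⟩

/-- counting in one class -/
theorem card_cls [Finite G] (hEQX : Stmt_EQX)
    (heq : ∀ (a : (ZMod f)ˣ) (v v' : Fin s → Fin s → ZMod 3), M1 a →
      Nat.card {g : G // χ g = a ∧ F g ∧ ∀ j i, j < i → tt g j i = v j i} =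
        Nat.card {g : G // χ g = a ∧ F g ∧ ∀ j i, j < i → tt g j i = v' j i})
    (hcF : ∀ a : (ZMod f)ˣ, M1 a → 3 ^ (s + 1) * Nat.card {g : G // χ g = a ∧ F g} =
      2 * Nat.card {g : G // χ g = a})
    (hfib : ∀ a : (ZMod f)ˣ, Nat.card {g : G // χ g = a} = Nat.card χ.ker)
    (a : (ZMod f)ˣ) (D : Fin s → Fin s → ZMod 3) (ha : M1 a) :
    (3 ^ (s + 1) * Nat.card (Fin s → Fin s → ZMod 3)) *
        Nat.card {g : G // χ g = a ∧ F g ∧ t ≤ s - (alt (D + tt g)).rank} ≤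
        2 * NK s t * Nat.card χ.ker ∧
    (3 ^ (s + 1) * Nat.card (Fin s → Fin s → ZMod 3)) *
        Nat.card {g : G // χ g = a ∧ F g ∧ t ≤ s - (alt (D - tt g)).rank} ≤
        2 * NK s t * Nat.card χ.ker := by
  have key : ∀ R : G → Prop, Nat.card {x : {g : G // χ g = a ∧ F g} // R x} =
      Nat.card {g : G // χ g = a ∧ F g ∧ R g} := fun R =>
    Nat.card_congr ((Equiv.subtypeSubtypeEquivSubtypeInter (fun g : G => χ g = a ∧ F g) R).trans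
      (Equiv.subtypeEquivRight fun g => and_assoc))
  obtain ⟨h1, h2⟩ := hEQX s {g : G // χ g = a ∧ F g} (fun x => tt x) (by
    intro v v'
    rw [key (fun g => ∀ j i, j < i → tt g j i = v j i),
      key (fun g => ∀ j i, j < i → tt g j i = v' j i)]
    exact heq a v v' ha) D {M | t ≤ s - M.rank}
  have k1 := key (fun g => t ≤ s - (alt (D + tt g)).rank)
  have k2 := key (fun g => t ≤ s - (alt (D - tt g)).rank)
  have h3 := hcF a ha
  rw [hfib a] at h3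
  have h1' : Nat.card {g : G // χ g = a ∧ F g ∧ t ≤ s - (alt (D + tt g)).rank} *
      Nat.card (Fin s → Fin s → ZMod 3) = NK s t * Nat.card {g : G // χ g = a ∧ F g} := by
    rw [← k1]
    exact h1
  have h2' : Nat.card {g : G // χ g = a ∧ F g ∧ t ≤ s - (alt (D - tt g)).rank} *
      Nat.card (Fin s → Fin s → ZMod 3) = NK s t * Nat.card {g : G // χ g = a ∧ F g} := by
    rw [← k2]
    exact h2
  generalize Nat.card {g : G // χ g = a ∧ F g ∧ t ≤ s - (alt (D + tt g)).rank} = x1 at *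
  generalize Nat.card {g : G // χ g = a ∧ F g ∧ t ≤ s - (alt (D - tt g)).rank} = x2 at *
  generalize Nat.card {g : G // χ g = a ∧ F g} = X at *
  generalize Nat.card (Fin s → Fin s → ZMod 3) = A at *
  generalize Nat.card χ.ker = K at *
  generalize 3 ^ (s + 1) = T at *
  constructor
  · calc (T * A) * x1 = T * (x1 * A) := by ring
      _ = NK s t * (T * X) := by rw [h1']; ring
      _ = 2 * NK s t * K := by rw [h3]; ring
      _ ≤ _ := le_refl _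
  · calc (T * A) * x2 = T * (x2 * A) := by ring
      _ = NK s t * (T * X) := by rw [h2']; ring
      _ = 2 * NK s t * K := by rw [h3]; ring
      _ ≤ _ := le_refl _

/-- counting -/
theorem card_X [Finite G] (hEQX : Stmt_EQX) (hf : 0 < f) (hχ : Function.Surjective χ)
    (heq : ∀ (a : (ZMod f)ˣ) (v v' : Fin s → Fin s → ZMod 3), M1 a →
      Nat.card {g : G // χ g = a ∧ F g ∧ ∀ j i, j < i → tt g j i = v j i} =
        Nat.card {g : G // χ g = a ∧ F g ∧ ∀ j i, j < i → tt g j i = v' j i})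
    (hcF : ∀ a : (ZMod f)ˣ, M1 a → 3 ^ (s + 1) * Nat.card {g : G // χ g = a ∧ F g} =
      2 * Nat.card {g : G // χ g = a})
    (hκ : ∀ c : Fin (m + 1) → ZMod 3,
      Nat.card {a : (ZMod f)ˣ // M1 a ∧ (κ a).toAdd = c} * (2 * 3 ^ (m + 1)) = f.totient) :
    (3 ^ (s + 1) * Nat.card (Fin s → Fin s → ZMod 3)) *
        Nat.card {g : G // XP χ κ c C Φ t F tt g} *
        (2 * 3 ^ (m + 1)) ≤ 2 * NK s t * Nat.card G ∧
      (3 ^ (s + 1) * Nat.card (Fin s → Fin s → ZMod 3)) *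
        Nat.card {g : G // XM χ κ c C Φ t F tt g} *
        (2 * 3 ^ (m + 1)) ≤ 2 * NK s t * Nat.card G := by
  have : NeZero f := ⟨hf.ne'⟩
  obtain ⟨hfib, hcard⟩ := fibre χ hχ
  have hH : Nat.card (ZMod f)ˣ = f.totient := by
    rw [Nat.card_eq_fintype_card, ZMod.card_units_eq_totient]
  rw [hH] at hcard
  have hcls := card_cls χ t F tt hEQX heq hcF hfib
  have hP : (3 ^ (s + 1) * Nat.card (Fin s → Fin s → ZMod 3)) *
      Nat.card {g : G // (M1 (χ g) ∧ (κ (χ g)).toAdd = c) ∧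
        F g ∧ t ≤ s - (alt (C + (Φ (χ g)).toAdd + tt g)).rank} ≤
      Nat.card {a : (ZMod f)ˣ // M1 a ∧ (κ a).toAdd = c} * (2 * NK s t * Nat.card χ.ker) := by
    refine count_le χ (fun g => F g ∧ t ≤ s - (alt (C + (Φ (χ g)).toAdd + tt g)).rank)
      (fun a => M1 a ∧ (κ a).toAdd = c) _ _ fun a ha => ?_
    refine le_trans (Nat.mul_le_mul_left _ (le_of_eq ?_)) (hcls a (C + (Φ a).toAdd) ha.1).1
    refine Nat.card_congr (Equiv.subtypeEquivRight fun g => ?_)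
    constructor
    · rintro ⟨rfl, h⟩
      exact ⟨rfl, h⟩
    · rintro ⟨rfl, h⟩
      exact ⟨rfl, h⟩
  have hN : (3 ^ (s + 1) * Nat.card (Fin s → Fin s → ZMod 3)) *
      Nat.card {g : G // (M1 (χ g) ∧ (κ (χ g)).toAdd = -c) ∧
        F g ∧ t ≤ s - (alt (C - (Φ (χ g)).toAdd - tt g)).rank} ≤
      Nat.card {a : (ZMod f)ˣ // M1 a ∧ (κ a).toAdd = -c} * (2 * NK s t * Nat.card χ.ker) := by
    refine count_le χ (fun g => F g ∧ t ≤ s - (alt (C - (Φ (χ g)).toAdd - tt g)).rank)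
      (fun a => M1 a ∧ (κ a).toAdd = -c) _ _ fun a ha => ?_
    refine le_trans (Nat.mul_le_mul_left _ (le_of_eq ?_)) (hcls a (C - (Φ a).toAdd) ha.1).2
    refine Nat.card_congr (Equiv.subtypeEquivRight fun g => ?_)
    constructor
    · rintro ⟨rfl, h⟩
      exact ⟨rfl, h⟩
    · rintro ⟨rfl, h⟩
      exact ⟨rfl, h⟩
  have e1 : Nat.card {g : G // XP χ κ c C Φ t F tt g} =
      Nat.card {g : G // (M1 (χ g) ∧ (κ (χ g)).toAdd = c) ∧
        F g ∧ t ≤ s - (alt (C + (Φ (χ g)).toAdd + tt g)).rank} :=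
    Nat.card_congr (Equiv.subtypeEquivRight fun g => (and_assoc).symm)
  have e2 : Nat.card {g : G // XM χ κ c C Φ t F tt g} =
      Nat.card {g : G // (M1 (χ g) ∧ (κ (χ g)).toAdd = -c) ∧
        F g ∧ t ≤ s - (alt (C - (Φ (χ g)).toAdd - tt g)).rank} :=
    Nat.card_congr (Equiv.subtypeEquivRight fun g => (and_assoc).symm)
  rw [← e1] at hP
  rw [← e2] at hN
  have h1 := hκ c
  have h2 := hκ (-c)
  generalize Nat.card {g : G // XP χ κ c C Φ t F tt g} = nP at *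
  generalize Nat.card {g : G // XM χ κ c C Φ t F tt g} = nN at *
  generalize Nat.card {a : (ZMod f)ˣ // M1 a ∧ (κ a).toAdd = c} = cP at *
  generalize Nat.card {a : (ZMod f)ˣ // M1 a ∧ (κ a).toAdd = -c} = cN at *
  generalize 3 ^ (s + 1) * Nat.card (Fin s → Fin s → ZMod 3) = A at *
  generalize 3 ^ (m + 1) = T at *
  generalize Nat.card χ.ker = K at *
  rw [← hcard]
  constructor
  · calc A * nP * (2 * T) ≤ cP * (2 * NK s t * K) * (2 * T) := Nat.mul_le_mul_right _ hP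
      _ = 2 * NK s t * (K * (cP * (2 * T))) := by ring
      _ = 2 * NK s t * (K * f.totient) := by rw [h1]
  · calc A * nN * (2 * T) ≤ cN * (2 * NK s t * K) * (2 * T) := Nat.mul_le_mul_right _ hN
      _ = 2 * NK s t * (K * (cN * (2 * T))) := by ring
      _ = 2 * NK s t * (K * f.totient) := by rw [h2]

/-- counting the elements of `T` -/
theorem card_T [Finite G] (hf : 0 < f) (hχ : Function.Surjective χ) (B : G → Prop) :
    (Nat.card {a : (ZMod f)ˣ // M1 a ∧ ((κ a).toAdd = c ∨ (κ a).toAdd = -c)} : ℝ) *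
        (1 / (f.totient : ℝ)) -
      (Nat.card {g : G // InU χ κ c g ∧ ¬ B g} : ℝ) / Nat.card G ≤
      (Nat.card {g : G // B g} : ℝ) / Nat.card G := by
  have : NeZero f := ⟨hf.ne'⟩
  obtain ⟨hfib, hcard⟩ := fibre χ hχ
  have hH : Nat.card (ZMod f)ˣ = f.totient := by
    rw [Nat.card_eq_fintype_card, ZMod.card_units_eq_totient]
  rw [hH] at hcard
  have hU : Nat.card {g : G // InU χ κ c g} =
      Nat.card {a : (ZMod f)ˣ // M1 a ∧ ((κ a).toAdd = c ∨ (κ a).toAdd = -c)} *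
        Nat.card χ.ker :=
    count_eq χ (fun a => M1 a ∧ ((κ a).toAdd = c ∨ (κ a).toAdd = -c)) _ fun a _ => hfib a
  have hUT : Nat.card {g : G // InU χ κ c g} ≤
      Nat.card {g : G // InU χ κ c g ∧ ¬ B g} + Nat.card {g : G // B g} := by
    have h1 : {g : G | InU χ κ c g} ⊆
        {g : G | InU χ κ c g ∧ ¬ B g} ∪ {g : G | B g} := by
      intro g hg
      by_cases hb : B g
      · exact Or.inr hb
      · exact Or.inl ⟨hg, hb⟩
    exact (Set.ncard_le_ncard h1 (Set.toFinite _)).trans (Set.ncard_union_le _ _)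
  have hK : 0 < Nat.card χ.ker := Nat.card_pos
  have hφ : 0 < f.totient := Nat.totient_pos.2 hf
  rw [hU] at hUT
  generalize Nat.card {a : (ZMod f)ˣ // M1 a ∧ ((κ a).toAdd = c ∨ (κ a).toAdd = -c)} = nV at *
  generalize Nat.card {g : G // InU χ κ c g ∧ ¬ B g} = nT at *
  generalize Nat.card {g : G // B g} = nB at *
  generalize Nat.card χ.ker = K at *
  rw [← hcard]
  have hK' : (0 : ℝ) < K := Nat.cast_pos.2 hK
  have hφ' : (0 : ℝ) < f.totient := Nat.cast_pos.2 hφ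
  have h1 : (nV : ℝ) * K ≤ nT + nB := by exact_mod_cast hUT
  have h3 : (nV : ℝ) * (1 / (f.totient : ℝ)) - (nT : ℝ) / ((K * f.totient : ℕ) : ℝ) =
      (nV * K - nT) / (K * f.totient) := by
    push_cast
    field_simp
  rw [h3]
  push_cast
  exact div_le_div_of_nonneg_right (by linarith) (by positivity)

end

/-- the density of a set of primes -/
theorem dens (hDIR : DIR) {f m : ℕ} (hf : 0 < f) (h3 : 3 ∣ f)
    (κ : (ZMod f)ˣ →* Multiplicative (Fin (m + 1) → ZMod 3)) (c : Fin (m + 1) → ZMod 3)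
    (L : Type) [Field L] [NumberField L] [IsGalois ℚ L] (χ : (L ≃ₐ[ℚ] L) →* (ZMod f)ˣ)
    (N₀ : ℕ) (hχ : Function.Surjective χ) (R : ℕ → (L ≃ₐ[ℚ] L) → Prop)
    (hfrob : ∀ (Q : ℕ) (hQ : Q.Coprime f), Q.Prime → N₀ < Q → ∀ (P : Ideal (𝓞 L))
      (g : L ≃ₐ[ℚ] L), P.IsPrime → (Q : 𝓞 L) ∈ P →
      MulAction.stabilizer (L ≃ₐ[ℚ] L) P = Subgroup.zpowers g →
      ∃ k : ℕ, k.Coprime (orderOf g) ∧ χ (g ^ k) = ZMod.unitOfCoprime Q hQ ∧ R Q (g ^ k))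
    (B : (L ≃ₐ[ℚ] L) → Prop)
    (hst : ∀ g h τ : L ≃ₐ[ℚ] L, InU χ κ c g ∧ ¬ B g →
      Subgroup.zpowers h = Subgroup.zpowers (τ * g * τ⁻¹) → InU χ κ c h ∧ ¬ B h)
    (S : Set ℕ)
    (hS1 : ∀ n : ℕ, n.Prime → ∀ hQ : n.Coprime f, n ∈ S → n % 3 = 1 ∧
      ((κ (ZMod.unitOfCoprime n hQ)).toAdd = c ∨ (κ (ZMod.unitOfCoprime n hQ)).toAdd = -c))
    (hS2 : ∀ n : ℕ, n.Prime → ∀ hQ : n.Coprime f, n ∈ S → ∀ g : L ≃ₐ[ℚ] L,
      χ g = ZMod.unitOfCoprime n hQ → R n g → B g) :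
    ∃ K : ℝ, ∀ σ : ℝ, 1 < σ → σ ≤ 2 → sm S σ ≤
      (Nat.card {g : L ≃ₐ[ℚ] L // B g} : ℝ) / Nat.card (L ≃ₐ[ℚ] L) *
        Real.log (1 / (σ - 1)) + K := by
  classical
  have : NeZero f := ⟨hf.ne'⟩
  have hst' : ∀ g h τ : L ≃ₐ[ℚ] L, g ∈ {g | InU χ κ c g ∧ ¬ B g} →
      Subgroup.zpowers h = Subgroup.zpowers (τ * g * τ⁻¹) →
      h ∈ {g | InU χ κ c g ∧ ¬ B g} := fun g h τ hg hz => hst g h τ hg hz
  obtain ⟨C1, hC1⟩ := RI.FROBD_thm L _ hst'
  choose DC hDC using fun a : (ZMod f)ˣ => hDIR f a hf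
  have hT := card_T χ κ c hf hχ B
  obtain ⟨ST, hST⟩ : ∃ ST : Set ℕ, ST = {Q : ℕ | ∃ g ∈ {g | InU χ κ c g ∧
      ¬ B g}, ∃ P : Ideal (𝓞 L), P.IsPrime ∧ (Q : 𝓞 L) ∈ P ∧
      MulAction.stabilizer (L ≃ₐ[ℚ] L) P = Subgroup.zpowers g} := ⟨_, rfl⟩
  obtain ⟨V, hV⟩ : ∃ V : Finset (ZMod f)ˣ, V = Finset.univ.filter fun a =>
      M1 a ∧ ((κ a).toAdd = c ∨ (κ a).toAdd = -c) := ⟨_, rfl⟩
  have hVc : V.card =
      Nat.card {a : (ZMod f)ˣ // M1 a ∧ ((κ a).toAdd = c ∨ (κ a).toAdd = -c)} := by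
    rw [Nat.card_eq_fintype_card, Fintype.card_subtype, hV]
  have hM : ∀ (Q : ℕ) (hQ : Q.Coprime f), M1 (ZMod.unitOfCoprime Q hQ) ↔ Q % 3 = 1 := by
    intro Q hQ
    unfold M1
    rw [ZMod.coe_unitOfCoprime, ZMod.val_natCast, Nat.mod_mod_of_dvd _ h3]
  have hcop : ∀ n : ℕ, n.Prime → n ∉ Finset.range (max N₀ f + 1) → n.Coprime f ∧ N₀ < n := by
    intro n hn hA
    rw [Finset.mem_range, not_lt] at hA
    refine ⟨(Nat.Prime.coprime_iff_not_dvd hn).2 fun h => ?_, ?_⟩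
    · have h1 := Nat.le_of_dvd hf h
      have h2 := le_max_right N₀ f
      omega
    · have h2 := le_max_left N₀ f
      omega
  have hSTe : ∀ n : ℕ, n.Prime → n ∉ Finset.range (max N₀ f + 1) → n ∈ ST →
      ∃ (hQ : n.Coprime f) (g : L ≃ₐ[ℚ] L), (InU χ κ c g ∧ ¬ B g) ∧
        χ g = ZMod.unitOfCoprime n hQ ∧ R n g := by
    intro n hn hA hnST
    rw [hST] at hnST
    obtain ⟨g, hg, P, hP, hnP, hstab⟩ := hnST
    obtain ⟨hQ, hN⟩ := hcop n hn hA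
    obtain ⟨k, hk, hχk, htk⟩ := hfrob n hQ hn hN P g hP hnP hstab
    refine ⟨hQ, g ^ k, ?_, hχk, htk⟩
    refine hst g (g ^ k) 1 hg ?_
    rw [one_mul, inv_one, mul_one]
    exact zpowers_pow_eq hk
  refine ⟨2 * (Finset.range (max N₀ f + 1)).card + ∑ a ∈ V, DC a + C1, fun σ h1 h2 => ?_⟩
  have key := sm_add_le S ST {Q : ℕ | ∃ a ∈ V, (Q : ZMod f) = a}
    (Finset.range (max N₀ f + 1)) ?_ ?_ h1
  · have cov := sm_cover {Q : ℕ | ∃ a ∈ V, (Q : ZMod f) = a} V (fun n _ hn => hn) h1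
    have hfr := hC1 σ h1 h2
    have hfr' : ((Nat.card {g : L ≃ₐ[ℚ] L // InU χ κ c g ∧ ¬ B g} : ℝ) /
        Nat.card (L ≃ₐ[ℚ] L)) * Real.log (1 / (σ - 1)) - C1 ≤ sm ST σ := by
      rw [hST]
      exact hfr
    have hsum : ∑ a ∈ V, ∑' q : {q : ℕ // q.Prime ∧ (q : ZMod f) = a}, (q : ℝ) ^ (-σ) ≤
        ∑ a ∈ V, ((1 / (f.totient : ℝ)) * Real.log (1 / (σ - 1)) + DC a) :=
      Finset.sum_le_sum fun a _ => hDC a σ h1 h2
    rw [Finset.sum_add_distrib, Finset.sum_const, nsmul_eq_mul, hVc] at hsum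
    have hlog : 0 ≤ Real.log (1 / (σ - 1)) := by
      apply Real.log_nonneg
      rw [le_div_iff₀ (by linarith)]
      linarith
    have hmul := mul_le_mul_of_nonneg_right hT hlog
    rw [sub_mul, mul_assoc] at hmul
    linarith
  · intro n hn hA hnB
    obtain ⟨hQ, _⟩ := hcop n hn hA
    obtain ⟨hn3, hnc⟩ := hS1 n hn hQ hnB
    constructor
    · refine ⟨ZMod.unitOfCoprime n hQ, ?_, ZMod.coe_unitOfCoprime n hQ⟩
      rw [hV]
      exact Finset.mem_filter.2 ⟨Finset.mem_univ _, (hM n hQ).2 hn3, hnc⟩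
    · intro hnST
      obtain ⟨hQ', g, ⟨hgU, hgB⟩, hχg, htg⟩ := hSTe n hn hA hnST
      exact hgB (hS2 n hn hQ' hnB g hχg htg)
  · intro n hn hA hnST
    obtain ⟨hQ', g, ⟨hgU, hgB⟩, hχg, htg⟩ := hSTe n hn hA hnST
    refine ⟨ZMod.unitOfCoprime n hQ', ?_, ZMod.coe_unitOfCoprime n hQ'⟩
    rw [hV]
    have h5 := hgU
    unfold InU at h5
    rw [hχg] at h5
    exact Finset.mem_filter.2 ⟨Finset.mem_univ _, h5⟩

end BDU

open BDENS BDU in
/-- BDU: the exact bound for the density, both exponents together, `Q = 1 (mod 3)`. -/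
theorem BDU_thm (hGALDU : Stmt_GALDU) (hEQX : Stmt_EQX) (hDIR : DIR) : Stmt_BDU := by
  classical
  intro s b p q p' q' f m t κ c C Φ hSys hf h9 hκ
  obtain ⟨L, iF, iN, iG, χ, F, tt, N₀, hχ, hconj, hpow, heq, hcF, hfrob⟩ :=
    hGALDU s b p q p' q' f hSys hf h9
  have h3 : 3 ∣ f := Dvd.dvd.trans (by norm_num) h9
  have hM : ∀ (Q : ℕ) (hQ : Q.Coprime f), M1 (ZMod.unitOfCoprime Q hQ) ↔ Q % 3 = 1 := by
    intro Q hQ
    unfold M1
    rw [ZMod.coe_unitOfCoprime, ZMod.val_natCast, Nat.mod_mod_of_dvd _ h3]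
  let R : ℕ → (L ≃ₐ[ℚ] L) → Prop := fun Q g =>
    Q % 3 = 1 → ∀ ρ : PP, (Q : Eis) = ρ.1 * conj ρ.1 →
      (F g ↔ (∀ j : Fin s, sym ρ.1 (b j.castSucc : Eis) = 0) ∧
        sym ρ.1 (b (Fin.last s) : Eis) ≠ 0) ∧
      (F g → ∀ j i : Fin s, j ≠ i → ∀ r : ℤ, (Q : ℤ) ∣ r ^ 3 - b j.castSucc →
        tt g j i = TAUVS ρ.1 (rs p j i) (rs q j i) (rs p' j i) (rs q' j i) r)
  have hP : ∀ n : ℕ, n.Prime → ∀ hQ : n.Coprime f, n ∈ SPU b p q p' q' t κ c C Φ →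
      ∀ g : L ≃ₐ[ℚ] L, χ g = ZMod.unitOfCoprime n hQ → R n g → XP χ κ c C Φ t F tt g := by
    intro n hn hQ hnS g hg hR
    obtain ⟨hQ', ρ, ⟨h1, h2, h5, h6, h7⟩, h4⟩ := hnS
    obtain ⟨r1, r2⟩ := hR h1 ρ h5
    have hFg : F g := r1.2 ⟨h6, h7⟩
    refine ⟨?_, ?_, hFg, ?_⟩
    · rw [hg]
      exact (hM n hQ).2 h1
    · rw [hg]
      exact h2
    · rw [hg]
      exact h4 (tt g) (r2 hFg)
  have hN : ∀ n : ℕ, n.Prime → ∀ hQ : n.Coprime f, n ∈ SMU b p q p' q' t κ c C Φ →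
      ∀ g : L ≃ₐ[ℚ] L, χ g = ZMod.unitOfCoprime n hQ → R n g → XM χ κ c C Φ t F tt g := by
    intro n hn hQ hnS g hg hR
    obtain ⟨hQ', ρ, ⟨h1, h2, h5, h6, h7⟩, h4⟩ := hnS
    obtain ⟨r1, r2⟩ := hR h1 ρ h5
    have hFg : F g := r1.2 ⟨h6, h7⟩
    refine ⟨?_, ?_, hFg, ?_⟩
    · rw [hg]
      exact (hM n hQ).2 h1
    · rw [hg]
      exact h2
    · rw [hg]
      exact h4 (tt g) (r2 hFg)
  obtain ⟨K1, hK1⟩ := dens hDIR hf h3 κ c L χ N₀ hχ R hfrob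
    (fun g => XP χ κ c C Φ t F tt g ∨ XM χ κ c C Φ t F tt g)
    (fun g h τ hg hz => stable χ κ c F tt hf h3 (inv_or χ κ c C Φ t F tt hf h3) hconj hpow hg hz)
    (SPU b p q p' q' t κ c C Φ ∪ SMU b p q p' q' t κ c C Φ)
    (by
      rintro n hn hQ (⟨hQ', ρ, ⟨h1, h2, -⟩, -⟩ | ⟨hQ', ρ, ⟨h1, h2, -⟩, -⟩)
      · exact ⟨h1, Or.inl h2⟩
      · exact ⟨h1, Or.inr h2⟩)
    (by
      rintro n hn hQ (h | h) g hg htg
      · exact Or.inl (hP n hn hQ h g hg htg)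
      · exact Or.inr (hN n hn hQ h g hg htg))
  obtain ⟨K2, hK2⟩ := dens hDIR hf h3 κ c L χ N₀ hχ R hfrob
    (fun g => XP χ κ c C Φ t F tt g ∧ XM χ κ c C Φ t F tt g)
    (fun g h τ hg hz => stable χ κ c F tt hf h3 (inv_and χ κ c C Φ t F tt hf h3) hconj hpow hg hz)
    (SPU b p q p' q' t κ c C Φ ∩ SMU b p q p' q' t κ c C Φ)
    (by
      rintro n hn hQ ⟨⟨hQ', ρ, ⟨h1, h2, -⟩, -⟩, -⟩
      exact ⟨h1, Or.inl h2⟩)
    (by
      rintro n hn hQ ⟨h, h'⟩ g hg htg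
      exact ⟨hP n hn hQ h g hg htg, hN n hn hQ h' g hg htg⟩)
  obtain ⟨hX1, hX2⟩ := card_X χ κ c C Φ t F tt hEQX hf hχ heq hcF hκ
  have hincl := BD.card_incl (fun g => XP χ κ c C Φ t F tt g) (fun g => XM χ κ c C Φ t F tt g)
  refine ⟨K1 + K2, fun σ h1 h2 => ?_⟩
  have e1 := hK1 σ h1 h2
  have e2 := hK2 σ h1 h2
  have hlog : 0 ≤ Real.log (1 / (σ - 1)) := by
    apply Real.log_nonneg
    rw [le_div_iff₀ (by linarith)]
    linarith
  rw [BD.sm_union_inter _ _ h1]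
  have hG : 0 < Nat.card (L ≃ₐ[ℚ] L) := Nat.card_pos
  have hA : 0 < Nat.card (Fin s → Fin s → ZMod 3) := Nat.card_pos
  have hcnt : (Nat.card {g : L ≃ₐ[ℚ] L // XP χ κ c C Φ t F tt g ∨ XM χ κ c C Φ t F tt g} : ℝ) /
      Nat.card (L ≃ₐ[ℚ] L) +
      (Nat.card {g : L ≃ₐ[ℚ] L // XP χ κ c C Φ t F tt g ∧ XM χ κ c C Φ t F tt g} : ℝ) /
      Nat.card (L ≃ₐ[ℚ] L) ≤
      2 / 3 ^ (s + 1) * ((NK s t : ℝ) / Nat.card (Fin s → Fin s → ZMod 3)) / 3 ^ (m + 1) := by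
    generalize Nat.card {g : L ≃ₐ[ℚ] L // XP χ κ c C Φ t F tt g ∨ XM χ κ c C Φ t F tt g} = n1
      at *
    generalize Nat.card {g : L ≃ₐ[ℚ] L // XP χ κ c C Φ t F tt g ∧ XM χ κ c C Φ t F tt g} = n2
      at *
    generalize Nat.card {g : L ≃ₐ[ℚ] L // XP χ κ c C Φ t F tt g} = x1 at *
    generalize Nat.card {g : L ≃ₐ[ℚ] L // XM χ κ c C Φ t F tt g} = x2 at *
    generalize Nat.card (Fin s → Fin s → ZMod 3) = A at *
    generalize Nat.card (L ≃ₐ[ℚ] L) = g0 at *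
    have hG' : (0 : ℝ) < g0 := Nat.cast_pos.2 hG
    have hA' : (0 : ℝ) < A := Nat.cast_pos.2 hA
    have hT : (0 : ℝ) < 3 ^ (m + 1) := by positivity
    have hT' : (0 : ℝ) < 3 ^ (s + 1) := by positivity
    have i1 : (3 : ℝ) ^ (s + 1) * A * x1 * (2 * 3 ^ (m + 1)) ≤ 2 * NK s t * g0 := by
      exact_mod_cast hX1
    have i2 : (3 : ℝ) ^ (s + 1) * A * x2 * (2 * 3 ^ (m + 1)) ≤ 2 * NK s t * g0 := by
      exact_mod_cast hX2
    have i3 : (n1 : ℝ) + n2 = x1 + x2 := by exact_mod_cast hincl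
    have i4 : (2 : ℝ) / 3 ^ (s + 1) * ((NK s t : ℝ) / A) / 3 ^ (m + 1) =
        2 * NK s t / (3 ^ (s + 1) * A * 3 ^ (m + 1)) := by
      field_simp
    rw [← add_div, i3, i4, div_le_div_iff₀ hG' (by positivity)]
    nlinarith
  have hmul := mul_le_mul_of_nonneg_right hcnt hlog
  rw [add_mul] at hmul
  linarith

end Pool.Agent.PTN
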