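import Pool.Agent.PTN.StF
import Pool.Agent.PTL.DOM
import Pool.Agent.PT.CLSC

/-!
# CBE: lower bounds in a class
-/

set_option autoImplicit false

open NumberField IsDedekindDomain Finset
open scoped nonZeroDivisors Pointwise

namespace Pool.Agent.PTN

open Pool.Agent.Lib_helper18 Pool.Agent.Lib_helper18.Eis Pool.Agent.Lib_helper84.Cub
open Pool.Agent.PT Pool.Agent.PTE Pool.Agent.PT3 Pool.Agent.PTL

namespace CBE

open BDENS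

theorem low (S W G : ℕ → Set ℕ) (P D : ℝ) (M : ℕ)
    (hG : ∀ E q : ℕ, (E = 1 ∨ E = 2) → q.Prime → M < q → q ∈ S E → q ∉ W E → q ∈ G E)
    (hD : ∃ K : ℝ, ∀ σ : ℝ, 1 < σ → σ ≤ 2 →
      D * Real.log (1 / (σ - 1)) - K ≤ sm (S 1) σ + sm (S 2) σ)
    (hP : ∃ K : ℝ, ∀ σ : ℝ, 1 < σ → σ ≤ 2 →
      sm (W 1) σ + sm (W 2) σ ≤ P * Real.log (1 / (σ - 1)) + K) :
    ∃ K : ℝ, ∀ σ : ℝ, 1 < σ → σ ≤ 2 → ∃ T : Finset ℕ,
      (D - P) * Real.log (1 / (σ - 1)) - K ≤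
        ∑ E ∈ ({1, 2} : Finset ℕ), ∑ q ∈ T, ind (G E) σ q := by
  obtain ⟨K0, hK0⟩ := hD
  obtain ⟨K, hK⟩ := hP
  refine ⟨K + K0 + 2 * (2 * ((Finset.range (M + 1)).card : ℝ)) + 2, fun σ h1 hσ2 => ?_⟩
  have e1 := hK σ h1 hσ2
  have e2 := hK0 σ h1 hσ2
  have e3 : ∀ E : ℕ, (E = 1 ∨ E = 2) → sm (S E) σ ≤
      sm (W E) σ + sm (G E) σ + 2 * ((Finset.range (M + 1)).card : ℝ) := by
    intro E hE
    have i1 := CL.sm_le_add (S E) (W E ∪ G E) M (fun q hq hqM hqW => by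
      by_cases h : q ∈ W E
      · exact Or.inl h
      · exact Or.inr (hG E q hE hq hqM hqW h)) h1
    have i2 := BD.sm_union_inter (W E) (G E) h1
    have i3 := DL.sm_nonneg (W E ∩ G E) σ
    linarith
  obtain ⟨T1, hT1⟩ := DOM.approx (G 1) h1
  obtain ⟨T2, hT2⟩ := DOM.approx (G 2) h1
  refine ⟨T1 ∪ T2, ?_⟩
  rw [Finset.sum_pair (by norm_num : (1 : ℕ) ≠ 2)]
  have j1 : ∑ q ∈ T1, ind (G 1) σ q ≤ ∑ q ∈ T1 ∪ T2, ind (G 1) σ q :=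
    Finset.sum_le_sum_of_subset_of_nonneg Finset.subset_union_left fun q _ _ =>
      ind_nonneg _ _ _
  have j2 : ∑ q ∈ T2, ind (G 2) σ q ≤ ∑ q ∈ T1 ∪ T2, ind (G 2) σ q :=
    Finset.sum_le_sum_of_subset_of_nonneg Finset.subset_union_right fun q _ _ =>
      ind_nonneg _ _ _
  have e4 := e3 1 (Or.inl rfl)
  have e5 := e3 2 (Or.inr rfl)
  have e6 : (D - P) * Real.log (1 / (σ - 1)) =
      D * Real.log (1 / (σ - 1)) - P * Real.log (1 / (σ - 1)) := by ring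
  rw [e6]
  linarith

theorem n_ne {n m k : ℕ} {π : Fin m → PP} {p e : Fin m → ℕ} {r f : Fin k → ℕ}
    (hN : NF n π p e r f) : n ≠ 0 := by
  rw [hN.eq]
  refine mul_ne_zero ?_ ?_
  · exact Finset.prod_ne_zero_iff.2 fun i _ => pow_ne_zero _ (hN.pp i).ne_zero
  · exact Finset.prod_ne_zero_iff.2 fun i _ => pow_ne_zero _ (hN.rp i).ne_zero

/-- for large primes the two forms of the class agree -/
theorem kl_of (hSPP : SPP) {n m k : ℕ} {π : Fin m → PP} {p e : Fin m → ℕ} {r f : Fin k → ℕ}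
    (hN : NF n π p e r f) {w0 : ZMod 3} {c : Fin m → ZMod 3} {E q : ℕ} (hq : q.Prime)
    (hqp : ∀ i, p i < q) (h : InCT E π w0 c q) : Kl π w0 c ((q : ℤ) ^ E) := by
  refine ⟨h.1, fun i => ?_⟩
  have hn := CLSC.norm_of _ _ (hN.pπ i)
  have : Fact (p i).Prime := ⟨hN.pp i⟩
  have hd : ¬ (π i).1 ∣ (q : Eis) := by
    rw [dvd_natCast_iff hn]
    intro h1
    have h2 := (Nat.prime_dvd_prime_iff_eq (hN.pp i) hq).1 h1
    have h3 := hqp i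
    omega
  have h1 : (((q : ℤ) ^ E : ℤ) : Eis) = (q : Eis) ^ E := by
    push_cast
    rfl
  rw [h1, sym_pow (π i).2.1 (hSPP.2.2.2.1 (π i)).1 hd]
  exact h.2 i

theorem below (hSPP : SPP) {h n m k : ℕ} {π : Fin m → PP} {p e : Fin m → ℕ}
    {r f : Fin k → ℕ} {w0 : ZMod 3} {c : Fin m → ZMod 3} (hN : NF n π p e r f) (a t : ℕ)
    (R : ℤ → Prop)
    (hR : ∀ A : ℤ, A ≠ 0 → CubeRank.GenBy A (CubeRank.rr A) → CubeRank.rr A < t → R A)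
    (hgen : ∃ M : ℕ, ∀ E q : ℕ, (E = 1 ∨ E = 2) → q.Prime → M < q → q % 3 = a →
      InCT E π w0 c q → ∃ d, CubeRank.GenBy (BB h n E q) d)
    (D P : ℝ)
    (hD : ∃ K : ℝ, ∀ σ : ℝ, 1 < σ → σ ≤ 2 →
      D * Real.log (1 / (σ - 1)) - K ≤ sm {q : ℕ | q % 3 = a ∧ InCT 1 π w0 c q} σ +
        sm {q : ℕ | q % 3 = a ∧ InCT 2 π w0 c q} σ)
    (hP : ∃ K : ℝ, ∀ σ : ℝ, 1 < σ → σ ≤ 2 →
      sm (WR h n π w0 c a 1 t) σ + sm (WR h n π w0 c a 2 t) σ ≤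
        P * Real.log (1 / (σ - 1)) + K) :
    BelowA ((3 ^ h * n : ℕ) : ℤ) a (Kl π w0 c) (fun A => tf (R A)) (D - P) := by
  classical
  obtain ⟨M, hM⟩ := hgen
  have hBB : ∀ E q : ℕ, ((3 ^ h * n : ℕ) : ℤ) * (q : ℤ) ^ E = BB h n E q := by
    intro E q
    unfold BB
    push_cast
    rfl
  obtain ⟨K, hK⟩ := low (fun E => {q : ℕ | q % 3 = a ∧ InCT E π w0 c q})
    (fun E => WR h n π w0 c a E t)
    (fun E => {q : ℕ | q % 3 = a ∧ Kl π w0 c ((q : ℤ) ^ E) ∧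
      R (((3 ^ h * n : ℕ) : ℤ) * (q : ℤ) ^ E)}) P D (M + ∑ i, p i)
    (fun E q hE hq hqM hqS hqW => by
      have hp : ∀ i, p i < q := by
        intro i
        have := Finset.single_le_sum (f := p) (fun j _ => Nat.zero_le _) (Finset.mem_univ i)
        omega
      refine ⟨hqS.1, kl_of hSPP hN hq hp hqS.2, ?_⟩
      rw [hBB]
      obtain ⟨d, hd⟩ := hM E q hE hq (by omega) hqS.1 hqS.2
      refine hR _ ?_ (CubeRank.gen_rr hd) ?_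
      · unfold BB
        refine mul_ne_zero (mul_ne_zero (pow_ne_zero _ (by norm_num)) ?_) (pow_ne_zero _ ?_)
        · exact_mod_cast n_ne hN
        · exact_mod_cast hq.ne_zero
      · by_contra hlt
        exact hqW ⟨hqS.1, hqS.2, not_lt.1 hlt⟩) hD hP
  refine ⟨K, fun σ h1 h2 => ?_⟩
  obtain ⟨T, hT⟩ := hK σ h1 h2
  refine ⟨T, hT.trans (le_of_eq ?_)⟩
  unfold SumA
  refine Finset.sum_congr rfl fun E _ => Finset.sum_congr rfl fun q _ => ?_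
  show ind {q : ℕ | q % 3 = a ∧ Kl π w0 c ((q : ℤ) ^ E) ∧
    R (((3 ^ h * n : ℕ) : ℤ) * (q : ℤ) ^ E)} σ q = _
  unfold tf
  beta_reduce
  by_cases hq : q.Prime ∧ q % 3 = a ∧ Kl π w0 c ((q : ℤ) ^ E)
  · rw [if_pos hq]
    by_cases hRq : R (((3 ^ h * n : ℕ) : ℤ) * (q : ℤ) ^ E)
    · rw [ind_mem (S := {q : ℕ | q % 3 = a ∧ Kl π w0 c ((q : ℤ) ^ E) ∧
        R (((3 ^ h * n : ℕ) : ℤ) * (q : ℤ) ^ E)}) hq.1 ⟨hq.2.1, hq.2.2, hRq⟩, if_pos hRq,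
        one_mul]
    · rw [ind_not fun h => hRq h.2.2.2, if_neg hRq, zero_mul]
  · rw [if_neg hq, ind_not fun h => hq ⟨h.1, h.2.1, h.2.2.1⟩]

end CBE

theorem CBE_thm (hCLN : Stmt_CLN) (hCLU : Stmt_CLU) (hCLT : Stmt_CLT) (hSPP : SPP) :
    Stmt_CBE := by
  intro h n m k π p e r f w0 c hN hh t R hR
  constructor
  · obtain ⟨⟨M, hM⟩, hT⟩ := hCLN h n m k π p e r f w0 c hN hh
    obtain ⟨K, hK⟩ := hCLT m π p hN.pp hN.p1 hN.pπ hN.pinj w0 c 2 (Or.inr rfl)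
    have := CBE.below hSPP hN 2 t R hR
      ⟨M, fun E q hE hq hqM hq3 hqc => ⟨_, hM E q hE hq hqM hq3 hqc⟩⟩ (1 / 3 ^ (m + 1))
      (LI (sN h n π p e r w0 c) (t - vN h n π p e r w0 c) / 3 ^ (m + 1))
      ⟨K, fun σ h1 h2 => (hK σ h1 h2).1⟩ (hT t)
    rwa [← sub_div] at this
  · obtain ⟨⟨M, hM⟩, hT⟩ := hCLU h n m k π p e r f w0 c hN hh
    obtain ⟨K, hK⟩ := hCLT m π p hN.pp hN.p1 hN.pπ hN.pinj w0 c 1 (Or.inl rfl)
    have := CBE.below hSPP hN 1 t R hR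
      ⟨M, fun E q hE hq hqM hq3 hqc => ⟨_, hM E q hE hq hqM hq3 hqc⟩⟩ (1 / 3 ^ (m + 1))
      (LS (sN h n π p e r w0 c) (vN h n π p e r w0 c) t / 3 ^ (m + 1))
      ⟨K, fun σ h1 h2 => (hK σ h1 h2).1⟩ (hT t)
    rwa [← sub_div] at this

end Pool.Agent.PTN
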