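import Pool.Agent.PTN.StF

/-!
# The distribution of the rank in a class, `q = 1 (mod 3)`
-/

set_option autoImplicit false

open NumberField IsDedekindDomain Finset
open scoped nonZeroDivisors Pointwise

namespace Pool.Agent.PTN

open Pool.Agent.Lib_helper18 Pool.Agent.Lib_helper18.Eis Pool.Agent.Lib_helper84.Cub
open Pool.Agent.PT Pool.Agent.PTE Pool.Agent.PT3 Pool.Agent.PTL

namespace CLU

open BDENS

theorem sm_nonneg (S : Set ℕ) (σ : ℝ) : 0 ≤ sm S σ := by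
  rw [sm_eq]
  exact tsum_nonneg fun n => ind_nonneg S σ n

theorem sm_empty (σ : ℝ) : sm ∅ σ = 0 := by
  rw [sm_eq, tsum_congr fun n => ind_not (S := ∅) (σ := σ) (n := n) fun h => h.2, tsum_zero]

theorem sm_le (S T : Set ℕ) (M : ℕ) (h : ∀ n, n.Prime → M < n → n ∈ S → n ∈ T) :
    ∃ K : ℝ, ∀ σ : ℝ, 1 < σ → sm S σ ≤ sm T σ + K := by
  refine ⟨2 * ((Finset.range (M + 1)).card : ℝ), fun σ hσ => ?_⟩
  have h1 := sm_add_le S ∅ T (Finset.range (M + 1)) (fun n hn hA hS => ⟨h n hn (by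
    rw [Finset.mem_range, not_lt] at hA
    omega) hS, fun h => h⟩) (fun n _ _ h => absurd h (Set.notMem_empty n)) hσ
  have h2 := sm_nonneg ∅ σ
  linarith

theorem sm_small (S : Set ℕ) (M : ℕ) (h : ∀ n, n.Prime → M < n → n ∉ S) :
    ∃ K : ℝ, ∀ σ : ℝ, 1 < σ → sm S σ ≤ K := by
  obtain ⟨K, hK⟩ := sm_le S ∅ M fun n h1 h2 h3 => absurd h3 (h n h1 h2)
  refine ⟨K, fun σ hσ => ?_⟩
  have h1 := hK σ hσ
  rw [sm_empty] at h1
  linarith

theorem z3_cases : ∀ ε : ZMod 3, ε ≠ 0 → ε = 1 ∨ ε = -1 := by decide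

theorem z3_neg : ∀ y : ZMod 3, y = -y → y = 0 := by decide

theorem ne_neg {d : ℕ} {x : Fin d → ZMod 3} (hx : x ≠ 0) : x ≠ -x := by
  intro h
  apply hx
  funext i
  exact z3_neg _ (congrFun h i)

/-- the patterns of a large prime -/
theorem pat_iff (hSPLT : SPLT) {d : ℕ} (v : Fin d → ℤ) {q : ℕ} (hq : q.Prime) (h1 : q % 3 = 1)
    (hv : ∀ i, ¬ (q : ℤ) ∣ v i) {ρ : PP} (hρ : (q : Eis) = ρ.1 * conj ρ.1)
    (δ : Fin d → ZMod 3) :
    q ∈ Pat v δ ↔ δ = (fun i => sym ρ.1 (v i : Eis)) ∨ δ = -(fun i => sym ρ.1 (v i : Eis)) := by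
  obtain ⟨-, -, hσ, hdvd, hsym, -⟩ := hSPLT.2 q ρ hq h1 hρ
  have hs : ∀ i, sym (conj ρ.1) (v i : Eis) = - sym ρ.1 (v i : Eis) := by
    intro i
    have h2 := hsym (v i : Eis) fun h => hv i ((hdvd _).1 h)
    rwa [conj_intCast] at h2
  constructor
  · rintro ⟨ρ', hρ', ε, hε, h⟩
    have key : ∀ ε' : ZMod 3, ε' ≠ 0 → (∀ i, sym ρ.1 (v i : Eis) = ε' * δ i) →
        δ = (fun i => sym ρ.1 (v i : Eis)) ∨ δ = -(fun i => sym ρ.1 (v i : Eis)) := by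
      intro ε' hε' h'
      rcases z3_cases ε' hε' with rfl | rfl
      · left
        funext i
        rw [h' i, one_mul]
      · right
        funext i
        rw [Pi.neg_apply, h' i]
        ring
    rcases hσ ρ' (Dvd.intro _ hρ'.symm) with h2 | h2
    · rw [h2] at h
      exact key ε hε h
    · rw [h2] at h
      refine key (-ε) (neg_ne_zero.2 hε) fun i => ?_
      have h3 := h i
      rw [hs i] at h3
      rw [neg_mul, ← h3, neg_neg]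
  · rintro (rfl | rfl)
    · exact ⟨ρ, hρ, 1, one_ne_zero, fun i => (one_mul _).symm⟩
    · refine ⟨ρ, hρ, -1, by decide, fun i => ?_⟩
      rw [Pi.neg_apply]
      ring

/-- counting with the patterns -/
theorem comb (hSMT : Stmt_SMT) {d : ℕ} (M : ℕ) (W : Set ℕ) (P : (Fin d → ZMod 3) → Set ℕ)
    (x : ℕ → Fin d → ZMod 3)
    (hP : ∀ n, n.Prime → M < n → n ∈ W → ∀ δ, n ∈ P δ ↔ δ = x n ∨ δ = - x n) :
    (∃ K : ℝ, ∀ σ : ℝ, 1 < σ → σ ≤ 2 → 2 * sm (W \ P 0) σ ≤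
      ∑ i : {δ : Fin d → ZMod 3 // δ ≠ 0}, sm (W ∩ P i.1) σ + K) ∧
    ∃ K : ℝ, ∀ σ : ℝ, 1 < σ → σ ≤ 2 →
      ∑ i : {δ : Fin d → ZMod 3 // δ ≠ 0}, sm (W ∩ P i.1) σ ≤ 2 * sm (W \ P 0) σ + K := by
  classical
  have hx0 : ∀ n, n.Prime → M < n → n ∈ W → (n ∉ P 0 ↔ x n ≠ 0) := by
    intro n hn hM hW
    rw [hP n hn hM hW, not_iff_not]
    constructor
    · rintro (h | h)
      · exact h.symm
      · exact (neg_eq_zero.1 h.symm)
    · intro h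
      exact Or.inl h.symm
  obtain ⟨h1, h2, -⟩ := hSMT {δ : Fin d → ZMod 3 // δ ≠ 0} (W \ P 0) ∅ ∅
    (fun i => W ∩ P i.1) M
  refine ⟨h1 ?_, ?_⟩
  · intro n hn hM hS
    have hx := (hx0 n hn hM hS.1).1 hS.2
    refine ⟨⟨x n, hx⟩, ⟨-x n, neg_ne_zero.2 hx⟩, ?_, ⟨hS.1, ?_⟩, ⟨hS.1, ?_⟩⟩
    · intro h
      exact ne_neg hx (congrArg Subtype.val h)
    · exact (hP n hn hM hS.1 _).2 (Or.inl rfl)
    · exact (hP n hn hM hS.1 _).2 (Or.inr rfl)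
  · rcases isEmpty_or_nonempty {δ : Fin d → ZMod 3 // δ ≠ 0} with hE | ⟨⟨i0⟩⟩
    · refine ⟨0, fun σ _ _ => ?_⟩
      rw [Finset.sum_of_isEmpty]
      have := sm_nonneg (W \ P 0) σ
      linarith
    · apply h2
      · rintro n hn hM i ⟨hW, hi⟩
        refine ⟨hW, ?_⟩
        rw [hx0 n hn hM hW]
        rcases (hP n hn hM hW _).1 hi with h | h
        · rw [← h]
          exact i.2
        · intro h0
          rw [h0, neg_zero] at h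
          exact i.2 h
      · intro n hn hM
        by_cases hW : n ∈ W
        · by_cases hx : x n = 0
          · refine ⟨i0, i0, fun i hi => ?_⟩
            exfalso
            rcases (hP n hn hM hW _).1 hi.2 with h | h
            · exact i.2 (h.trans hx)
            · exact i.2 (by rw [h, hx, neg_zero])
          · refine ⟨⟨x n, hx⟩, ⟨-x n, neg_ne_zero.2 hx⟩, fun i hi => ?_⟩
            rcases (hP n hn hM hW _).1 hi.2 with h | h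
            · exact Or.inl (Subtype.ext h)
            · exact Or.inr (Subtype.ext h)
        · exact ⟨i0, i0, fun i hi => absurd hi.1 hW⟩

theorem card_ne (d : ℕ) :
    (Fintype.card {δ : Fin d → ZMod 3 // δ ≠ 0} : ℝ) = 3 ^ d - 1 := by
  classical
  have h1 : Fintype.card {δ : Fin d → ZMod 3 // δ ≠ 0} = 3 ^ d - 1 := by
    rw [Fintype.card_subtype_compl, Fintype.card_fun, ZMod.card, Fintype.card_fin]
    congr 1
  rw [h1, Nat.cast_sub (Nat.one_le_pow _ _ (by norm_num))]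
  push_cast
  rfl

end CLU

open CLU BDENS in
/-- CLU: the distribution of the rank in a class, `q = 1 (mod 3)`. -/
theorem CLU_thm (hNHPT : Stmt_NHPT) (hDLU : Stmt_DLU) (hDLL : Stmt_DLL) (hCLT : Stmt_CLT)
    (hSMT : Stmt_SMT) (hNBK0 : Stmt_NBK0) (hSPLT : SPLT) : Stmt_CLU := by
  classical
  intro h n m k π p e r f w0 c hNF hh
  have hn0 : 0 < n := by
    rw [hNF.eq]
    exact Nat.mul_pos (Finset.prod_pos fun i _ => pow_pos (hNF.pp i).pos _)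
      (Finset.prod_pos fun j _ => pow_pos (hNF.rp j).pos _)
  have hG : ∀ E q : ℕ, (E = 1 ∨ E = 2) → q.Prime → n + 3 < q → q % 3 = 1 → InCT E π w0 c q →
      CubeRank.GenBy (BB h n E q) (vN h n π p e r w0 c + 1 + sN h n π p e r w0 c) := by
    intro E q hE hq hM h1 hC
    refine hNBK0 h n m k π p e r f w0 c E q hNF hh hE hq (by omega) h1 hC fun hd => ?_
    have := Nat.le_of_dvd hn0 hd
    omega
  refine ⟨⟨n + 3, hG⟩, ?_⟩
  intro t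
  obtain ⟨d, V, hd, hAd, hspan, hHP⟩ := hNHPT h n m k π p e r f w0 c hNF hh
  have hHB : HB h n π w0 c V := ⟨hAd, hspan, hHP⟩
  rw [← hd]
  rw [← hd] at hG
  obtain ⟨vv, hvv⟩ : ∃ vv, vv = vN h n π p e r w0 c := ⟨_, rfl⟩
  have hU := hDLU h n m k π p e r f w0 c d V hNF hh hHB
  have hL := hDLL h n m k π p e r f w0 c d V hNF hh hHB
  rw [← hvv] at hG hU ⊢
  obtain ⟨M, hM⟩ : ∃ M, M = n + 3 + ∑ i, (V i).natAbs := ⟨_, rfl⟩
  have hV : ∀ q : ℕ, M < q → ∀ i, ¬ (q : ℤ) ∣ V i := by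
    intro q hq i hdv
    have h1 : q ∣ (V i).natAbs := Int.natCast_dvd.1 hdv
    have h2 := Nat.le_of_dvd (Int.natAbs_pos.2 (hAd i).1.ne) h1
    have h3 : (V i).natAbs ≤ ∑ i, (V i).natAbs :=
      Finset.single_le_sum (f := fun i => (V i).natAbs) (fun i _ => Nat.zero_le _)
        (Finset.mem_univ i)
    omega
  obtain ⟨x, hx⟩ : ∃ x : ℕ → Fin d → ZMod 3, ∀ q : ℕ, q.Prime → M < q → q % 3 = 1 → ∀ δ,
      q ∈ Pat V δ ↔ δ = x q ∨ δ = - x q := by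
    refine ⟨fun q => if hx : ∃ ρ : PP, (q : Eis) = ρ.1 * conj ρ.1 then
      fun i => sym hx.choose.1 (V i : Eis) else 0, fun q hq hMq h1 δ => ?_⟩
    have hex := hSPLT.1 q hq h1
    simp only [dif_pos hex]
    exact pat_iff hSPLT V hq h1 (hV q hMq) hex.choose_spec δ
  have hc : ∀ E t' : ℕ, _ := fun E t' => comb hSMT M (WR h n π w0 c 1 E t') (Pat V) x
    fun q hq hMq hW => hx q hq hMq hW.1
  obtain ⟨KA1, hA1⟩ := (hc 1 t).1
  obtain ⟨KA2, hA2⟩ := (hc 2 t).1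
  obtain ⟨KB1, hB1⟩ := (hc 1 0).2
  obtain ⟨KB2, hB2⟩ := (hc 2 0).2
  choose KU hKU using fun δ : {δ : Fin d → ZMod 3 // δ ≠ 0} => hU δ.1 δ.2 t
  choose KL hKL using fun δ : {δ : Fin d → ZMod 3 // δ ≠ 0} => hL δ.1 δ.2
  obtain ⟨KC, hKC⟩ := hCLT m π p hNF.pp hNF.p1 hNF.pπ hNF.pinj w0 c 1 (Or.inl rfl)
  have hWset : ∀ E : ℕ, {q : ℕ | q % 3 = 1 ∧ InCT E π w0 c q} = WR h n π w0 c 1 E 0 := by
    intro E
    ext q
    simp [WR]
  rw [hWset 1, hWset 2] at hKC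
  -- the zero pattern
  have hZ : ∀ E : ℕ, (E = 1 ∨ E = 2) → ∃ K : ℝ, ∀ σ : ℝ, 1 < σ →
      sm (WR h n π w0 c 1 E t) σ ≤ sm (WR h n π w0 c 1 E t \ Pat V 0) σ +
        (if t ≤ vv + d + 1 then sm (WR h n π w0 c 1 E 0 ∩ Pat V 0) σ else 0) + K := by
    intro E hE
    have h1 : ∀ σ : ℝ, 1 < σ → sm (WR h n π w0 c 1 E t) σ ≤
        sm (WR h n π w0 c 1 E t \ Pat V 0) σ + sm (WR h n π w0 c 1 E t ∩ Pat V 0) σ := by
      intro σ hσ
      rw [sm_eq, sm_eq, sm_eq, ← (ind_summable _ hσ).tsum_add (ind_summable _ hσ)]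
      refine (ind_summable _ hσ).tsum_le_tsum (fun q => ?_)
        ((ind_summable _ hσ).add (ind_summable _ hσ))
      by_cases hq : q.Prime ∧ q ∈ WR h n π w0 c 1 E t
      · by_cases hP : q ∈ Pat V 0
        · rw [ind_mem hq.1 hq.2, ind_mem (S := WR h n π w0 c 1 E t ∩ Pat V 0) hq.1 ⟨hq.2, hP⟩]
          have := ind_nonneg (WR h n π w0 c 1 E t \ Pat V 0) σ q
          linarith
        · rw [ind_mem hq.1 hq.2, ind_mem (S := WR h n π w0 c 1 E t \ Pat V 0) hq.1 ⟨hq.2, hP⟩]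
          have := ind_nonneg (WR h n π w0 c 1 E t ∩ Pat V 0) σ q
          linarith
      · rw [ind_not hq]
        exact add_nonneg (ind_nonneg _ _ _) (ind_nonneg _ _ _)
    by_cases ht : t ≤ vv + d + 1
    · obtain ⟨K, hK⟩ := sm_le (WR h n π w0 c 1 E t ∩ Pat V 0) (WR h n π w0 c 1 E 0 ∩ Pat V 0) 0
        fun q _ _ hq => ⟨⟨hq.1.1, hq.1.2.1, Nat.zero_le _⟩, hq.2⟩
      refine ⟨K, fun σ hσ => ?_⟩
      rw [if_pos ht]
      have := h1 σ hσ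
      have := hK σ hσ
      linarith
    · obtain ⟨K, hK⟩ := sm_small (WR h n π w0 c 1 E t ∩ Pat V 0) (n + 3)
        fun q hq hM hS => by
          have h2 := CubeRank.rr_le (hG E q hE hq hM hS.1.1 hS.1.2.1)
          have h3 := hS.1.2.2
          omega
      refine ⟨K, fun σ hσ => ?_⟩
      rw [if_neg ht]
      have := h1 σ hσ
      have := hK σ hσ
      linarith
  obtain ⟨KZ1, hZ1⟩ := hZ 1 (Or.inl rfl)
  obtain ⟨KZ2, hZ2⟩ := hZ 2 (Or.inr rfl)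
  have hNZ : ∀ E : ℕ, ∀ σ : ℝ, 1 < σ → sm (WR h n π w0 c 1 E 0 \ Pat V 0) σ +
      sm (WR h n π w0 c 1 E 0 ∩ Pat V 0) σ ≤ sm (WR h n π w0 c 1 E 0) σ := by
    intro E σ hσ
    have h1 := sm_add_le (WR h n π w0 c 1 E 0 \ Pat V 0) (WR h n π w0 c 1 E 0 ∩ Pat V 0)
      (WR h n π w0 c 1 E 0) ∅ (fun q _ _ hq => ⟨hq.1, fun h' => hq.2 h'.2⟩)
      (fun q _ _ hq => hq.1) hσ
    simpa using h1
  have hcard := card_ne d
  have hD : (0 : ℝ) < 3 ^ d := by positivity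
  have hN : (0 : ℝ) < 3 ^ (m + 1) := by positivity
  refine ⟨KZ1 + KZ2 + (KA1 + KA2 + ∑ i, KU i) / 2 + |KC + (KB1 + KB2 + ∑ i, KL i) / 2|,
    fun σ hσ hσ2 => ?_⟩
  have a1 := hA1 σ hσ hσ2
  have a2 := hA2 σ hσ hσ2
  have b1 := hB1 σ hσ hσ2
  have b2 := hB2 σ hσ hσ2
  have z1 := hZ1 σ hσ
  have z2 := hZ2 σ hσ
  have c0 := (hKC σ hσ hσ2).2
  have n1 := hNZ 1 σ hσ
  have n2 := hNZ 2 σ hσ
  obtain ⟨Lg, hLg⟩ : ∃ Lg, Lg = Real.log (1 / (σ - 1)) := ⟨_, rfl⟩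
  have u1 : ∑ i : {δ : Fin d → ZMod 3 // δ ≠ 0}, sm (WR h n π w0 c 1 1 t ∩ Pat V i.1) σ +
      ∑ i : {δ : Fin d → ZMod 3 // δ ≠ 0}, sm (WR h n π w0 c 1 2 t ∩ Pat V i.1) σ ≤
      (3 ^ d - 1) * (2 / 3 ^ d * LI (d - 1) (t - vv) / 3 ^ (m + 1) * Lg) + ∑ i, KU i := by
    rw [← Finset.sum_add_distrib, ← hcard, ← nsmul_eq_mul, ← Finset.card_univ,
      ← Finset.sum_const, ← Finset.sum_add_distrib, hLg]
    exact Finset.sum_le_sum fun i _ => hKU i σ hσ hσ2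
  have l1 : (3 ^ d - 1) * (2 / 3 ^ d / 3 ^ (m + 1) * Lg) - ∑ i, KL i ≤
      ∑ i : {δ : Fin d → ZMod 3 // δ ≠ 0}, sm (WR h n π w0 c 1 1 0 ∩ Pat V i.1) σ +
      ∑ i : {δ : Fin d → ZMod 3 // δ ≠ 0}, sm (WR h n π w0 c 1 2 0 ∩ Pat V i.1) σ := by
    rw [← Finset.sum_add_distrib, ← hcard, ← nsmul_eq_mul, ← Finset.card_univ,
      ← Finset.sum_const, ← Finset.sum_sub_distrib, hLg]
    exact Finset.sum_le_sum fun i _ => hKL i σ hσ hσ2
  rw [← hLg] at c0 ⊢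
  unfold LS
  have e1 : (3 ^ d - 1 : ℝ) * (2 / 3 ^ d * LI (d - 1) (t - vv) / 3 ^ (m + 1) * Lg) =
      2 * ((1 - 1 / 3 ^ d) * LI (d - 1) (t - vv) / 3 ^ (m + 1) * Lg) := by
    field_simp
  have e2 : (3 ^ d - 1 : ℝ) * (2 / 3 ^ d / 3 ^ (m + 1) * Lg) =
      2 * ((1 - 1 / 3 ^ d) / 3 ^ (m + 1) * Lg) := by
    field_simp
  have e3 : (1 / 3 ^ (m + 1) * Lg : ℝ) - (1 - 1 / 3 ^ d) / 3 ^ (m + 1) * Lg =
      1 / 3 ^ d / 3 ^ (m + 1) * Lg := by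
    ring
  rw [e1] at u1
  rw [e2] at l1
  have k1 := le_abs_self (KC + (KB1 + KB2 + ∑ i, KL i) / 2)
  have k2 := abs_nonneg (KC + (KB1 + KB2 + ∑ i, KL i) / 2)
  by_cases ht : t ≤ vv + d + 1
  · rw [if_pos ht] at z1 z2 ⊢
    have e4 : ((1 - 1 / 3 ^ d) * LI (d - 1) (t - vv) + 1 / 3 ^ d * 1) / 3 ^ (m + 1) * Lg =
        (1 - 1 / 3 ^ d) * LI (d - 1) (t - vv) / 3 ^ (m + 1) * Lg +
          1 / 3 ^ d / 3 ^ (m + 1) * Lg := by
      ring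
    rw [e4]
    linarith
  · rw [if_neg ht] at z1 z2 ⊢
    have e4 : ((1 - 1 / 3 ^ d) * LI (d - 1) (t - vv) + 1 / 3 ^ d * 0) / 3 ^ (m + 1) * Lg =
        (1 - 1 / 3 ^ d) * LI (d - 1) (t - vv) / 3 ^ (m + 1) * Lg := by
      ring
    rw [e4]
    linarith

end Pool.Agent.PTN
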