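import Pool.Agent.PTN.StF
import Pool.Agent.PTL.AL
import Pool.Agent.PTL.DOM

/-!
# PTN_LAW: the sums of `DOMG` for the two laws
-/

set_option autoImplicit false

open Finset

namespace Pool.Agent.PTN

open Pool.Agent.PT Pool.Agent.PTL

namespace LAW

theorem LI_zero (s : ℕ) : LI s 0 = 1 := by
  unfold LI
  rw [DOM.NK_zero]
  exact div_self (Nat.cast_ne_zero.2 Nat.card_pos.ne')

theorem LI_big {s t : ℕ} (h : s < t) : LI s t = 0 := by
  unfold LI
  have h1 : NK s t = 0 := by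
    unfold NK
    have : IsEmpty {v : Fin s → Fin s → ZMod 3 // t ≤ s - (alt v).rank} :=
      ⟨fun v => by
        have h2 := v.2
        omega⟩
    exact Nat.card_of_isEmpty
  rw [h1, Nat.cast_zero, zero_div]

theorem LI_nonneg (s t : ℕ) : 0 ≤ LI s t := by
  unfold LI
  positivity

theorem Esk_LI (s : ℕ) (G : ℕ → ℝ) : Esk s G = G 0 +
    ∑ t ∈ Finset.range s, (G (t + 1) - G t) * LI s (t + 1) :=
  AL.Esk_sum s G

theorem Esk_ind (s t : ℕ) : Esk s (fun c => if t ≤ c then 1 else 0) = LI s t := by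
  classical
  rw [AL.Esk_eq]
  unfold LI
  congr 1
  unfold NK
  rw [Nat.card_eq_fintype_card, Fintype.card_subtype, Finset.sum_ite, Finset.sum_const_zero,
    add_zero, Finset.sum_const, nsmul_eq_mul, mul_one]
  rfl

theorem main (s v k : ℕ) (F : ℕ → ℝ) : F 0 * LI s (0 - v) +
    ∑ t ∈ Finset.range (v + (s + k)), (F (t + 1) - F t) * LI s (t + 1 - v) =
      Esk s (fun c => F (v + c)) := by
  have h0 : 0 - v = 0 := by omega
  rw [h0, LI_zero, mul_one, Finset.sum_range_add, Esk_LI]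
  have h1 : ∑ x ∈ Finset.range v, (F (x + 1) - F x) * LI s (x + 1 - v) = F v - F 0 := by
    rw [← Finset.sum_range_sub]
    refine Finset.sum_congr rfl fun x hx => ?_
    rw [Finset.mem_range] at hx
    have h2 : x + 1 - v = 0 := by omega
    rw [h2, LI_zero, mul_one]
  have h3 : ∑ x ∈ Finset.range (s + k), (F (v + x + 1) - F (v + x)) * LI s (v + x + 1 - v) =
      ∑ x ∈ Finset.range s, (F (v + (x + 1)) - F (v + x)) * LI s (x + 1) := by
    rw [Finset.sum_range_add]
    have h4 : ∑ x ∈ Finset.range k, (F (v + (s + x) + 1) - F (v + (s + x))) *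
        LI s (v + (s + x) + 1 - v) = 0 := by
      refine Finset.sum_eq_zero fun x _ => ?_
      rw [LI_big (by omega), mul_zero]
    rw [h4, add_zero]
    refine Finset.sum_congr rfl fun x _ => ?_
    have h5 : v + x + 1 - v = x + 1 := by omega
    rw [h5, add_assoc]
  rw [h1, h3]
  show F 0 + (F v - F 0 + _) = F (v + 0) + _
  rw [add_zero]
  ring

theorem x_nonneg (s : ℕ) : (0 : ℝ) ≤ 1 / 3 ^ s := by positivity

theorem x_le (s n : ℕ) (h : n ≤ s) : (1 : ℝ) / 3 ^ s ≤ 1 / 3 ^ n :=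
  one_div_le_one_div_of_le (by positivity) (pow_le_pow_right₀ (by norm_num) h)

theorem pow_le (s v : ℕ) : Esk s (fun c => (3 : ℝ) ^ (v + c)) ≤ 4 * 3 ^ v := by
  have h := AL.Esk_le s (fun c => (3 : ℝ) ^ (v + c)) (3 ^ v) 0 (by positivity) fun c _ => by
    rw [pow_add, add_zero]
  have h3 : (0 : ℝ) ≤ 3 ^ v * (3 / 3 ^ s) := by positivity
  linarith

end LAW

open LAW in
theorem LAW_thm : Stmt_LAW := by
  refine ⟨fun s v F => main s v 0 F, ?_, ?_, ?_, ?_, ?_, pow_le, ?_⟩
  · intro s v F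
    have hb : F 0 * (if 0 ≤ v + s + 1 then (1 : ℝ) else 0) +
        ∑ t ∈ Finset.range (v + s + 1), (F (t + 1) - F t) *
          (if t + 1 ≤ v + s + 1 then (1 : ℝ) else 0) = F (v + s + 1) := by
      rw [if_pos (Nat.zero_le _), mul_one]
      have h1 : ∑ t ∈ Finset.range (v + s + 1), (F (t + 1) - F t) *
          (if t + 1 ≤ v + s + 1 then (1 : ℝ) else 0) = F (v + s + 1) - F 0 := by
        rw [← Finset.sum_range_sub]
        refine Finset.sum_congr rfl fun t ht => ?_
        rw [Finset.mem_range] at ht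
        rw [if_pos (by omega), mul_one]
      rw [h1]
      ring
    have ha : F 0 * LI (s - 1) (0 - v) +
        ∑ t ∈ Finset.range (v + s + 1), (F (t + 1) - F t) * LI (s - 1) (t + 1 - v) =
        Esk (s - 1) (fun c => F (v + c)) := by
      have h1 : v + s + 1 = v + (s - 1 + (s + 1 - (s - 1))) := by omega
      rw [h1]
      exact main (s - 1) v _ F
    rw [← ha, ← hb]
    unfold LS
    have e1 : ∀ t, (F (t + 1) - F t) * ((1 - 1 / 3 ^ s) * LI (s - 1) (t + 1 - v) +
        1 / 3 ^ s * (if t + 1 ≤ v + s + 1 then (1 : ℝ) else 0)) =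
        (1 - 1 / 3 ^ s) * ((F (t + 1) - F t) * LI (s - 1) (t + 1 - v)) +
        1 / 3 ^ s * ((F (t + 1) - F t) * (if t + 1 ≤ v + s + 1 then (1 : ℝ) else 0)) := by
      intro t
      ring
    rw [Finset.sum_congr rfl fun t _ => e1 t, Finset.sum_add_distrib, ← Finset.mul_sum,
      ← Finset.mul_sum]
    ring
  · intro s hs
    rw [← Esk_ind]
    exact AL.Esk_pos hs
  · intro s hs
    rw [← Esk_ind]
    exact AL.Esk_two hs
  · intro s hs
    unfold LS
    rw [if_pos (by omega), mul_one]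
    show (1 - 1 / 3 ^ s) * LI (s - 1) 1 + 1 / 3 ^ s ≤ 3 / 8
    obtain ⟨k, rfl⟩ := hs
    have h1 : LI (2 * k + 1 - 1) 1 ≤ 1 / 8 * (4 - 3 / 3 ^ (2 * k + 1 - 1)) + -(1 / 8) := by
      rw [← Esk_ind]
      refine AL.Esk_le _ (fun c => if 1 ≤ c then 1 else 0) (1 / 8) (-(1 / 8)) (by norm_num)
        fun c hc => ?_
      show (if 1 ≤ c then (1 : ℝ) else 0) ≤ _
      by_cases h0 : c = 0
      · subst h0
        norm_num
      · rw [if_pos (by omega)]
        have h2 : 3 ^ 2 ≤ 3 ^ c := Nat.pow_le_pow_right (by norm_num) (by omega)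
        have h4 : (3 ^ 2 : ℝ) ≤ 3 ^ c := by exact_mod_cast h2
        linarith
    have h2 := x_le (2 * k + 1) 1 (by omega)
    have h3 := x_nonneg (2 * k + 1)
    have h6 : (3 : ℝ) / 3 ^ (2 * k + 1 - 1) = 9 * (1 / 3 ^ (2 * k + 1)) := by
      have : (3 : ℝ) ^ (2 * k) ≠ 0 := by positivity
      rw [Nat.add_sub_cancel, pow_succ]
      field_simp
      norm_num
    rw [h6] at h1
    rw [pow_one] at h2
    generalize (1 : ℝ) / 3 ^ (2 * k + 1) = x at h1 h2 h3 ⊢
    generalize LI (2 * k + 1 - 1) 1 = y at h1 ⊢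
    have h4 : (0 : ℝ) ≤ 1 - x := by linarith
    have h5 := mul_le_mul_of_nonneg_left h1 h4
    nlinarith [mul_nonneg h3 (by linarith : (0 : ℝ) ≤ 1 / 3 - x)]
  · intro s hs
    unfold LS
    show (1 - 1 / 3 ^ s) * LI (s - 1) 2 + 1 / 3 ^ s * (if 2 ≤ 0 + s + 1 then (1 : ℝ) else 0) ≤
      1 / 9
    obtain ⟨k, rfl⟩ := hs
    rcases Nat.lt_or_ge k 2 with hk | hk
    · interval_cases k
      · norm_num
      · rw [LI_big (by norm_num), if_pos (by norm_num)]
        norm_num
    · rw [if_pos (by omega), mul_one]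
      have h1 : LI (k + k - 1) 2 ≤ 1 / 24 := by
        rw [← Esk_ind]
        exact AL.Esk_two ⟨k - 1, by omega⟩
      have h2 := x_le (k + k) 4 (by omega)
      have h3 := x_nonneg (k + k)
      have h6 : (1 : ℝ) / 3 ^ 4 = 1 / 81 := by norm_num
      rw [h6] at h2
      have h4 : (0 : ℝ) ≤ 1 - 1 / 3 ^ (k + k) := by linarith
      have h5 := mul_le_mul_of_nonneg_left h1 h4
      linarith
  · intro s v
    have h1 := pow_le (s - 1) v
    have h3 := x_nonneg s
    have h2 := x_le s 0 (Nat.zero_le _)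
    rw [pow_zero, div_one] at h2
    have h4 : (0 : ℝ) ≤ 1 - 1 / 3 ^ s := by linarith
    have h5 := mul_le_mul_of_nonneg_left h1 h4
    have h6 : 1 / 3 ^ s * (3 : ℝ) ^ (v + s + 1) = 3 * 3 ^ v := by
      have : (3 : ℝ) ^ s ≠ 0 := by positivity
      rw [pow_add, pow_add]
      field_simp
    have h7 : (0 : ℝ) ≤ 1 / 3 ^ s * (4 * 3 ^ v) := by positivity
    rw [h6]
    linarith

end Pool.Agent.PTN
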