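import Pool.Agent.PTN.StF
import Pool.Agent.PTL.FIN

/-!
# The law of the ranks of prime twists for every `n`: the theorem
-/

set_option autoImplicit false

open NumberField IsDedekindDomain Finset
open scoped nonZeroDivisors Pointwise

namespace Pool.Agent.PTN

open Pool.Agent.Lib_helper18 Pool.Agent.Lib_helper18.Eis Pool.Agent.Lib_helper84.Cub
open Pool.Agent.PT Pool.Agent.PTE Pool.Agent.PT3 Pool.Agent.PTL

namespace MAINN

theorem wt_zero_iff {A : ℤ} (hA : ¬ (3 : ℤ) ∣ A) : wt (A ^ 2) = 0 ↔ A % 9 = 1 ∨ A % 9 = 8 := by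
  have h := FIN.cls_iff (a := 1) (A := A) (Or.inl rfl) hA
  have w1 : wt ((1 : ℤ) ^ 2) = 0 := by rw [one_pow, wt_one]
  rw [w1] at h
  rw [← h]
  unfold PTL.Cls
  norm_num

section

variable {f : ℕ} [NeZero f] {m : ℕ} (π : Fin m → PP)

/-- the class of a unit -/
noncomputable def cl (u : (ZMod f)ˣ) : ZMod 3 × (Fin m → ZMod 3) :=
  (wt ((((u : ZMod f).val : ℕ) : ℤ) ^ 2),
    fun i => sym (π i).1 ((((u : ZMod f).val : ℕ) : ℤ) : Eis))

omit [NeZero f] in
theorem kl_iff (u : (ZMod f)ˣ) (x : ZMod 3 × (Fin m → ZMod 3)) :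
    Kl π x.1 x.2 (((u : ZMod f).val : ℕ) : ℤ) ↔ cl π u = x := by
  unfold Kl cl
  constructor
  · rintro ⟨h1, h2⟩
    exact Prod.ext h1 (funext h2)
  · rintro rfl
    exact ⟨rfl, fun _ => rfl⟩

/-- sums over the units -/
theorem sum_units (C : ℝ)
    (hc : ∀ x : ZMod 3 × (Fin m → ZMod 3), (Nat.card {u : (ZMod f)ˣ // cl π u = x} : ℝ) = C)
    (g : ZMod 3 × (Fin m → ZMod 3) → ℝ) :
    ∑ u : (ZMod f)ˣ, g (cl π u) = C * ∑ x, g x := by
  classical
  rw [← Finset.sum_fiberwise Finset.univ (cl π) (fun u => g (cl π u)), Finset.mul_sum]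
  refine Finset.sum_congr rfl fun x _ => ?_
  rw [Finset.sum_congr rfl (g := fun _ => g x) fun u hu => by
    rw [(Finset.mem_filter.1 hu).2]]
  rw [Finset.sum_const, nsmul_eq_mul, ← hc x, Nat.card_eq_fintype_card, Fintype.card_subtype]

end

/-- finitely many primes contribute a constant -/
theorem aboveA_mono {n : ℤ} {a : ℕ} {W W' : ℤ → Prop} {F : ℤ → ℝ} {x : ℝ} (hF : ∀ A, 0 ≤ F A)
    (M : ℕ) (hW : ∀ q e : ℕ, q.Prime → M < q → (e = 1 ∨ e = 2) → W ((q : ℤ) ^ e) →
      W' ((q : ℤ) ^ e)) (h : AboveA n a W' F x) : AboveA n a W F x := by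
  classical
  obtain ⟨K, hK⟩ := h
  refine ⟨K + ∑ e ∈ ({1, 2} : Finset ℕ), ∑ q ∈ Finset.range (M + 1), F (n * (q : ℤ) ^ e),
    fun σ h1 h2 T => ?_⟩
  have key : SumA n a W F σ T ≤ SumA n a W' F σ T +
      ∑ e ∈ ({1, 2} : Finset ℕ), ∑ q ∈ Finset.range (M + 1), F (n * (q : ℤ) ^ e) := by
    unfold SumA
    rw [← Finset.sum_add_distrib]
    refine Finset.sum_le_sum fun e he => ?_
    have he' : e = 1 ∨ e = 2 := by simpa using he
    have h3 : ∑ q ∈ T, (if q ∈ Finset.range (M + 1) then F (n * (q : ℤ) ^ e) else 0) ≤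
        ∑ q ∈ Finset.range (M + 1), F (n * (q : ℤ) ^ e) := by
      rw [← Finset.sum_filter]
      refine Finset.sum_le_sum_of_subset_of_nonneg ?_ fun q _ _ => hF _
      intro q hq
      exact (Finset.mem_filter.1 hq).2
    refine le_trans ?_ (add_le_add_right h3 _)
    rw [← Finset.sum_add_distrib]
    refine Finset.sum_le_sum fun q _ => ?_
    by_cases hc : q.Prime ∧ q % 3 = a ∧ W ((q : ℤ) ^ e)
    · rw [if_pos hc]
      by_cases hq : M < q
      · rw [if_pos ⟨hc.1, hc.2.1, hW q e hc.1 hq he' hc.2.2⟩]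
        have : (0 : ℝ) ≤ if q ∈ Finset.range (M + 1) then F (n * (q : ℤ) ^ e) else 0 := by
          split_ifs
          · exact hF _
          · exact le_rfl
        linarith
      · have hq' : q ∈ Finset.range (M + 1) := Finset.mem_range.2 (by omega)
        rw [if_pos hq']
        have h4 : (q : ℝ) ^ (-σ) ≤ 1 := by
          apply Real.rpow_le_one_of_one_le_of_nonpos
          · exact_mod_cast hc.1.one_lt.le
          · linarith
        have h5 : F (n * (q : ℤ) ^ e) * (q : ℝ) ^ (-σ) ≤ F (n * (q : ℤ) ^ e) :=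
          mul_le_of_le_one_right (hF _) h4
        have h6 : (0 : ℝ) ≤ if q.Prime ∧ q % 3 = a ∧ W' ((q : ℤ) ^ e) then
            F (n * (q : ℤ) ^ e) * (q : ℝ) ^ (-σ) else 0 := by
          split_ifs
          · exact mul_nonneg (hF _) (Real.rpow_nonneg (Nat.cast_nonneg q) _)
          · exact le_rfl
        linarith
    · rw [if_neg hc]
      have h6 : (0 : ℝ) ≤ if q.Prime ∧ q % 3 = a ∧ W' ((q : ℤ) ^ e) then
          F (n * (q : ℤ) ^ e) * (q : ℝ) ^ (-σ) else 0 := by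
        split_ifs
        · exact mul_nonneg (hF _) (Real.rpow_nonneg (Nat.cast_nonneg q) _)
        · exact le_rfl
      have h7 : (0 : ℝ) ≤ if q ∈ Finset.range (M + 1) then F (n * (q : ℤ) ^ e) else 0 := by
        split_ifs
        · exact hF _
        · exact le_rfl
      linarith
  have := hK σ h1 h2 T
  linarith

theorem n_three {n m k : ℕ} {π : Fin m → PP} {p e : Fin m → ℕ} {r f : Fin k → ℕ}
    (hN : NF n π p e r f) : ¬ 3 ∣ n := by
  rw [hN.eq]
  intro hd
  rcases (Nat.Prime.dvd_mul Nat.prime_three).1 hd with h1 | h1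
  · obtain ⟨i, -, hi⟩ := (Prime.dvd_finsetProd_iff Nat.prime_three.prime _).1 h1
    have h2 := Nat.prime_three.dvd_of_dvd_pow hi
    have := hN.p1 i
    omega
  · obtain ⟨i, -, hi⟩ := (Prime.dvd_finsetProd_iff Nat.prime_three.prime _).1 h1
    have h2 := Nat.prime_three.dvd_of_dvd_pow hi
    have := hN.r2 i
    omega

end MAINN

open MAINN in
/-- PTN_MAINN -/
theorem MAINN_thm (hNFE : Stmt_NFE) (hNDIM : Stmt_NDIM) (hNSUM : Stmt_NSUM) (hNZER : Stmt_NZER)
    (hCAB : Stmt_CAB) (hALLA : Stmt_ALLA) (hTRU : Stmt_TRU) (hCLN : Stmt_CLN)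
    (hCLU : Stmt_CLU) : Stmt_MAINN := by
  classical
  intro N hN0 hcf m0 k0 hm hk
  obtain ⟨h, n, m, k, π, p, e, r, f, hNF, hh, -, hNeq, hm', hk'⟩ := hNFE N hN0 hcf
  have hmm : m0 = m := by rw [hm, hm']
  have hkk : k0 = k := by rw [hk, hk']
  clear hm hk hm' hk'
  subst hmm hkk hNeq
  have hn3 : ¬ 3 ∣ n := n_three hNF
  have hn3' : ¬ (3 : ℤ) ∣ (n : ℤ) := by
    intro hd
    exact hn3 (by exact_mod_cast hd)
  have : NeZero (9 * (3 ^ h * n)) := ⟨by positivity⟩
  have d3 : (3 ∣ 3 ^ h * n ∧ ¬ 9 ∣ 3 ^ h * n) ↔ h = 1 := by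
    have : h = 0 ∨ h = 1 ∨ h = 2 := by omega
    rcases this with rfl | rfl | rfl
    · simp only [pow_zero, one_mul]
      constructor
      · intro h1
        exact absurd h1.1 hn3
      · intro h1
        exact absurd h1 (by norm_num)
    · simp only [pow_one, iff_true]
      constructor
      · exact Dvd.intro _ rfl
      · intro hd
        apply hn3
        omega
    · constructor
      · intro h1
        exact absurd (Dvd.dvd.mul_right (by norm_num) _) h1.2
      · intro h1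
        exact absurd h1 (by norm_num)
  have d30 : ¬ 3 ∣ 3 ^ h * n ↔ h = 0 := by
    have : h = 0 ∨ h = 1 ∨ h = 2 := by omega
    rcases this with rfl | rfl | rfl
    · simpa using hn3
    · constructor
      · intro h1
        exact absurd (Dvd.dvd.mul_right (by norm_num) _) h1
      · intro h1
        exact absurd h1 (by norm_num)
    · constructor
      · intro h1
        exact absurd (Dvd.dvd.mul_right (by norm_num) _) h1
      · intro h1
        exact absurd h1 (by norm_num)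
  have hcast : ((3 ^ h * n : ℕ) : ℤ) = (3 : ℤ) ^ h * n := by push_cast; rfl
  obtain ⟨T1, T2⟩ := hTRU h n m0 k0 π p e r f hNF
  have hC : ∀ x : ZMod 3 × (Fin m0 → ZMod 3),
      (Nat.card {u : (ZMod (9 * (3 ^ h * n)))ˣ // cl π u = x} : ℝ) =
        ((9 * (3 ^ h * n)).totient : ℝ) / 3 ^ (m0 + 1) := by
    intro x
    have h1 := T1 x.1 x.2
    have h2 : Nat.card {u : (ZMod (9 * (3 ^ h * n)))ˣ //
        Kl π x.1 x.2 (((u : ZMod (9 * (3 ^ h * n))).val : ℕ) : ℤ)} =
        Nat.card {u : (ZMod (9 * (3 ^ h * n)))ˣ // cl π u = x} :=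
      Nat.card_congr (Equiv.subtypeEquivRight fun u => kl_iff π u x)
    rw [h2] at h1
    rw [eq_div_iff (by positivity)]
    exact_mod_cast h1
  refine ⟨⟨fun u => vN h n π p e r (cl π u).1 (cl π u).2,
    fun u => sN h n π p e r (cl π u).1 (cl π u).2, ?_, ?_, ?_, ?_⟩, ?_, ?_⟩
  · intro u
    have hd := hNDIM h n m0 k0 π p e r (cl π u).1 (cl π u).2
    have hu3 : ¬ (3 : ℤ) ∣ (((u : ZMod (9 * (3 ^ h * n))).val : ℕ) : ℤ) := by
      intro hd
      have hd' : 3 ∣ (u : ZMod (9 * (3 ^ h * n))).val := by exact_mod_cast hd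
      have hco := ZMod.val_coe_unit_coprime u
      have h3 : 3 ∣ 9 * (3 ^ h * n) := Dvd.dvd.mul_right (by norm_num) _
      have := Nat.dvd_gcd hd' h3
      rw [hco] at this
      omega
    have key : h = 0 → ((wt ((n : ℤ) ^ 2) + (cl π u).1 = 0) ↔
        ((3 ^ h * n) * (u : ZMod (9 * (3 ^ h * n))).val) % 9 = 1 ∨
        ((3 ^ h * n) * (u : ZMod (9 * (3 ^ h * n))).val) % 9 = 8) := by
      intro h0
      have h1 : ¬ (3 : ℤ) ∣ (n : ℤ) * (((u : ZMod (9 * (3 ^ h * n))).val : ℕ) : ℤ) := by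
        intro hd
        rcases Int.prime_three.dvd_or_dvd hd with h1 | h1
        · exact hn3' h1
        · exact hu3 h1
      have h2 := wt_zero_iff h1
      rw [mul_pow, wt_mul (sq_mod_three hn3') (sq_mod_three hu3)] at h2
      show wt ((n : ℤ) ^ 2) + wt ((((u : ZMod (9 * (3 ^ h * n))).val : ℕ) : ℤ) ^ 2) = 0 ↔ _
      rw [h2]
      have h3 : (3 : ℕ) ^ h * n = n := by rw [h0, pow_zero, one_mul]
      generalize (u : ZMod (9 * (3 ^ h * n))).val = U
      rw [h3]
      constructor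
      · rintro (h4 | h4)
        · left; zify; exact h4
        · right; zify; exact h4
      · rintro (h4 | h4)
        · left; zify at h4; exact h4
        · right; zify at h4; exact h4
    have hcase : h = 0 ∨ h = 1 ∨ h = 2 := by omega
    rcases hcase with h0 | h0 | h0
    · have e1 : (if h = 0 then 0 else 1) = 0 := if_pos h0
      have e2 : (if 3 ∣ 3 ^ h * n ∧ ¬ 9 ∣ 3 ^ h * n then 1 else 0) = 0 :=
        if_neg fun h1 => by have := d3.1 h1; omega
      have e3 : (if actR h n (cl π u).1 then 1 else 0) = (if ¬ 3 ∣ 3 ^ h * n ∧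
          (((3 ^ h * n) * (u : ZMod (9 * (3 ^ h * n))).val) % 9 = 1 ∨
        ((3 ^ h * n) * (u : ZMod (9 * (3 ^ h * n))).val) % 9 = 8) then 1 else 0) := by
        have : actR h n (cl π u).1 ↔ (¬ 3 ∣ 3 ^ h * n ∧
          (((3 ^ h * n) * (u : ZMod (9 * (3 ^ h * n))).val) % 9 = 1 ∨
        ((3 ^ h * n) * (u : ZMod (9 * (3 ^ h * n))).val) % 9 = 8)) := by
          rw [← key h0, d30]
          unfold actR
          constructor
          · rintro (h1 | h1)
            · omega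
            · exact h1
          · intro h1
            exact Or.inr h1
        by_cases hA : actR h n (cl π u).1
        · rw [if_pos hA, if_pos (this.1 hA)]
        · rw [if_neg hA, if_neg fun h1 => hA (this.2 h1)]
      rw [e1, e3] at hd
      rw [e2]
      exact hd
    · have e1 : (if h = 0 then 0 else 1) = 1 := if_neg (by omega)
      have e2 : (if 3 ∣ 3 ^ h * n ∧ ¬ 9 ∣ 3 ^ h * n then 1 else 0) = 1 := if_pos (d3.2 h0)
      have e3 : (if actR h n (cl π u).1 then 1 else 0) = 0 := if_neg fun h1 => by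
        unfold actR at h1
        omega
      have e4 : (if ¬ 3 ∣ 3 ^ h * n ∧
          (((3 ^ h * n) * (u : ZMod (9 * (3 ^ h * n))).val) % 9 = 1 ∨
        ((3 ^ h * n) * (u : ZMod (9 * (3 ^ h * n))).val) % 9 = 8) then 1 else 0) = 0 :=
        if_neg fun h1 => by
          have := d30.1 h1.1
          omega
      rw [e1, e3] at hd
      rw [e2, e4]
      exact hd
    · have e1 : (if h = 0 then 0 else 1) = 1 := if_neg (by omega)
      have e2 : (if 3 ∣ 3 ^ h * n ∧ ¬ 9 ∣ 3 ^ h * n then 1 else 0) = 0 :=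
        if_neg fun h1 => by have := d3.1 h1; omega
      have e3 : (if actR h n (cl π u).1 then 1 else 0) = 1 := if_pos (Or.inl h0)
      have e4 : (if ¬ 3 ∣ 3 ^ h * n ∧
          (((3 ^ h * n) * (u : ZMod (9 * (3 ^ h * n))).val) % 9 = 1 ∨
        ((3 ^ h * n) * (u : ZMod (9 * (3 ^ h * n))).val) % 9 = 8) then 1 else 0) = 0 :=
        if_neg fun h1 => by
          have := d30.1 h1.1
          omega
      rw [e1, e3] at hd
      rw [e2, e4]
      exact Nat.succ_injective hd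
  · rw [finsum_eq_sum_of_fintype]
    rw [sum_units π _ hC fun x => (3 : ℝ) ^ vN h n π p e r x.1 x.2]
    have h1 := hNSUM h n m0 k0 π p e r f hNF
    have h2 : ∑ x : ZMod 3 × (Fin m0 → ZMod 3), (3 : ℝ) ^ vN h n π p e r x.1 x.2 ≤
        5 ^ (m0 + 1) := by exact_mod_cast h1
    have h3 : (0 : ℝ) ≤ ((9 * (3 ^ h * n)).totient : ℝ) / 3 ^ (m0 + 1) := by positivity
    calc _ ≤ ((9 * (3 ^ h * n)).totient : ℝ) / 3 ^ (m0 + 1) * 5 ^ (m0 + 1) :=
          mul_le_mul_of_nonneg_left h2 h3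
      _ = (5 / 3) ^ (m0 + 1) * ((9 * (3 ^ h * n)).totient : ℝ) := by
          rw [div_pow]
          ring
  · have h1 := hNZER h n m0 k0 π p e r f hNF
    have h2 : (2 : ℝ) ^ (m0 + 1) ≤ ∑ x : ZMod 3 × (Fin m0 → ZMod 3),
        (if vN h n π p e r x.1 x.2 = 0 then (1 : ℝ) else 0) := by
      rw [← Finset.sum_filter, Finset.sum_const, nsmul_eq_mul, mul_one]
      have h3 : Nat.card {x : ZMod 3 × (Fin m0 → ZMod 3) // vN h n π p e r x.1 x.2 = 0 ∧
          ¬ (h = 0 ∧ wt ((n : ℤ) ^ 2) + x.1 = 0)} ≤ (Finset.univ.filter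
            fun x : ZMod 3 × (Fin m0 → ZMod 3) => vN h n π p e r x.1 x.2 = 0).card := by
        rw [Nat.card_eq_fintype_card, Fintype.card_subtype]
        apply Finset.card_le_card
        intro x hx
        rw [Finset.mem_filter] at hx ⊢
        exact ⟨hx.1, hx.2.1⟩
      exact_mod_cast h1.trans h3
    have h4 : (Nat.card {u : (ZMod (9 * (3 ^ h * n)))ˣ //
        vN h n π p e r (cl π u).1 (cl π u).2 = 0} : ℝ) =
        ∑ u : (ZMod (9 * (3 ^ h * n)))ˣ,
          (if vN h n π p e r (cl π u).1 (cl π u).2 = 0 then (1 : ℝ) else 0) := by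
      rw [← Finset.sum_filter, Finset.sum_const, nsmul_eq_mul, mul_one,
        Nat.card_eq_fintype_card, Fintype.card_subtype]
    rw [h4, sum_units π _ hC fun x => if vN h n π p e r x.1 x.2 = 0 then (1 : ℝ) else 0]
    have h3 : (0 : ℝ) ≤ ((9 * (3 ^ h * n)).totient : ℝ) / 3 ^ (m0 + 1) := by positivity
    calc (2 / 3 : ℝ) ^ (m0 + 1) * ((9 * (3 ^ h * n)).totient : ℝ) =
          ((9 * (3 ^ h * n)).totient : ℝ) / 3 ^ (m0 + 1) * 2 ^ (m0 + 1) := by
          rw [div_pow]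
          ring
      _ ≤ _ := mul_le_mul_of_nonneg_left h2 h3
  · intro u F hF hF0
    have hcab := hCAB h n m0 k0 π p e r f (cl π u).1 (cl π u).2 hNF hh F hF hF0
    have hFn : ∀ A : ℤ, 0 ≤ F (CubeRank.rr A) := fun A => hF0.trans (hF (Nat.zero_le _))
    have hW : ∀ q E : ℕ, q.Prime → 9 * (3 ^ h * n) < q → (E = 1 ∨ E = 2) →
        (∃ x : ℤ, ((9 * (3 ^ h * n) : ℕ) : ℤ) ∣ (q : ℤ) ^ E -
          ((u : ZMod (9 * (3 ^ h * n))).val : ℤ) * x ^ 3) →
        Kl π (cl π u).1 (cl π u).2 ((q : ℤ) ^ E) := by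
      rintro q E hq hqN hE ⟨x, hx⟩
      refine T2 u (cl π u).1 (cl π u).2 _ x ((kl_iff π u _).2 rfl) ?_ hx
      have h1 : Nat.Coprime q (9 * (3 ^ h * n)) := by
        rw [Nat.Prime.coprime_iff_not_dvd hq]
        intro hd
        have := Nat.le_of_dvd (Nat.pos_of_ne_zero (NeZero.ne _)) hd
        omega
      exact (Nat.isCoprime_iff_coprime.2 h1).pow_left
    exact ⟨aboveA_mono hFn _ hW hcab.1, aboveA_mono hFn _ hW hcab.2⟩
  · have h1 : ∀ x : ZMod 3 × (Fin m0 → ZMod 3), ∃ M : ℕ, ∀ E q : ℕ, (E = 1 ∨ E = 2) →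
        q.Prime → M < q → InCT E π x.1 x.2 q → ∃ d, CubeRank.GenBy (BB h n E q) d := by
      intro x
      obtain ⟨M1, hM1⟩ := (hCLN h n m0 k0 π p e r f x.1 x.2 hNF hh).1
      obtain ⟨M2, hM2⟩ := (hCLU h n m0 k0 π p e r f x.1 x.2 hNF hh).1
      refine ⟨M1 + M2 + 3, fun E q hE hq hM hI => ?_⟩
      have h3 : q % 3 = 1 ∨ q % 3 = 2 := by
        have : ¬ 3 ∣ q := fun hd => by
          have := (Nat.prime_dvd_prime_iff_eq Nat.prime_three hq).1 hd
          omega
        omega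
      rcases h3 with h3 | h3
      · exact ⟨_, hM2 E q hE hq (by omega) h3 hI⟩
      · exact ⟨_, hM1 E q hE hq (by omega) h3 hI⟩
    choose M hM using h1
    refine ⟨Finset.univ.sup M, fun q E hq hqM hE => ?_⟩
    obtain ⟨d, hd⟩ := hM (wt (((q : ℤ) ^ E) ^ 2), fun i => (E : ZMod 3) * sym (π i).1 (q : Eis)) E q hE
      hq (lt_of_le_of_lt (Finset.le_sup (Finset.mem_univ _)) hqM) ⟨rfl, fun _ => rfl⟩
    have h2 : ((3 ^ h * n : ℕ) : ℤ) * (q : ℤ) ^ E = BB h n E q := by
      rw [hcast]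
      rfl
    rw [h2]
    exact CubeRank.gen_rr hd
  · obtain ⟨a1, a2, a3, a4⟩ := hALLA h n m0 k0 π p e r f hNF hh
    have e1 : (if 3 ∣ 3 ^ h * n ∧ ¬ 9 ∣ 3 ^ h * n then 1 else 0) = if h = 1 then 1 else 0 := by
      by_cases h1 : h = 1
      · rw [if_pos h1, if_pos (d3.2 h1)]
      · rw [if_neg h1, if_neg fun h2 => h1 (d3.1 h2)]
    rw [e1]
    exact ⟨a1, a2, a3, a4⟩

end Pool.Agent.PTN
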