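import Pool.Agent.PTN.StA
import Pool.Agent.PT.EADM
import Pool.Agent.PT.BKER
import Pool.Agent.CubeRank.Main

/-!
# NBKN: the bound for the rank, `q = 2 (mod 3)`
-/

set_option autoImplicit false

namespace Pool.Agent.PTN

open Pool.Agent.Lib_helper18 Pool.Agent.Lib_helper18.Eis Pool.Agent.Lib_helper84.Cub
open Pool.Agent.PT Pool.Agent.PTE Pool.Agent.PT3

namespace NBKN

/-! ### The class `1` -/

theorem tm_one (hSPP : SPP) (π : PP) (x : Eis) : tm π.1 1 x = 0 := by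
  have hπ : Prime π.1 := π.2.1
  have h1 : ¬ π.1 ∣ 1 := hπ.not_dvd_one
  have h2 := EADM.up_eq (k := 0) hπ h1 (by rw [pow_zero, one_mul] : (1 : Eis) = π.1 ^ 0 * 1)
  unfold tm ch
  rw [h2.1, h2.2, sym_one hπ (hSPP.2.2.2.1 π).1]
  simp

theorem sl_one (hSPP : SPP) (x : Eis) : sl 1 x = 0 := by
  unfold sl
  rw [finsum_eq_zero_of_forall_eq_zero (fun π : PP => tm_one hSPP π x), neg_zero]

theorem selM_one (hSPP : SPP) (B : ℤ) : SelM B 1 where
  ne := one_ne_zero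
  nrm := ⟨1, by simp⟩
  sym := fun π => tm_one hSPP π _
  unr := fun π _ => by
    rw [V_eq_zero π.2.1.not_dvd_one]
    exact dvd_zero 3
  lam := fun _ => ⟨sl_one hSPP 3, sl_one hSPP 4⟩

/-! ### The number `B` -/

section BBs

variable {h n m k E q : ℕ} {π : Fin m → PP} {p e : Fin m → ℕ} {r f : Fin k → ℕ}

theorem natAbs_BB (h n E q : ℕ) : (BB h n E q).natAbs = 3 ^ h * n * q ^ E := by
  have e1 : BB h n E q = ((3 ^ h * n * q ^ E : ℕ) : ℤ) := by
    unfold BB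
    push_cast
    ring
  rw [e1, Int.natAbs_natCast]

theorem cubeFree_BB (hN : NF n π p e r f) (hh : h ≤ 2) (hE : E = 1 ∨ E = 2) (hq : q.Prime)
    (hq3 : 3 < q) (hqn : ¬ q ∣ n) : CubeRank.CubeFree (BB h n E q) := by
  intro t ht hd
  have hl : t.natAbs.Prime := Int.prime_iff_natAbs_prime.1 ht
  have h1 : t.natAbs ^ 3 ∣ 3 ^ h * n * q ^ E := by
    have h2 := Int.natAbs_dvd_natAbs.2 hd
    rw [Int.natAbs_pow, natAbs_BB] at h2
    exact h2
  have hn0 := EADM.n_ne hN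
  have h30 : (3 : ℕ) ^ h ≠ 0 := pow_ne_zero _ (by norm_num)
  have hq0 : q ^ E ≠ 0 := pow_ne_zero _ hq.ne_zero
  have h3 : 3 ≤ (3 ^ h * n * q ^ E).factorization t.natAbs :=
    (hl.pow_dvd_iff_le_factorization (mul_ne_zero (mul_ne_zero h30 hn0) hq0)).1 h1
  rw [Nat.factorization_mul (mul_ne_zero h30 hn0) hq0, Nat.factorization_mul h30 hn0,
    Finsupp.add_apply, Finsupp.add_apply, Nat.prime_three.factorization_pow,
    hq.factorization_pow, Finsupp.single_apply, Finsupp.single_apply] at h3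
  have h4 := EADM.fac_le hN t.natAbs
  by_cases c3 : 3 = t.natAbs
  · have h5 : n.factorization t.natAbs = 0 := by
      rw [← c3]
      exact Nat.factorization_eq_zero_of_not_dvd (EADM.three_not hN)
    have h6 : ¬ q = t.natAbs := by omega
    rw [if_pos c3, if_neg h6, h5] at h3
    omega
  · rw [if_neg c3] at h3
    by_cases cq : q = t.natAbs
    · have h5 : n.factorization t.natAbs = 0 := by
        rw [← cq]
        exact Nat.factorization_eq_zero_of_not_dvd hqn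
      rw [if_pos cq, h5] at h3
      omega
    · rw [if_neg cq] at h3
      omega

theorem three_le_BB (hN : NF n π p e r f) (hE : E = 1 ∨ E = 2) (hq3 : 3 < q) :
    3 ≤ (BB h n E q).natAbs := by
  rw [natAbs_BB]
  have h1 : 0 < 3 ^ h * n := Nat.mul_pos (pow_pos (by norm_num) _)
    (Nat.pos_of_ne_zero (EADM.n_ne hN))
  have h2 : q ≤ q ^ E := Nat.le_self_pow (by omega) q
  calc 3 ≤ q ^ E := by omega
    _ ≤ 3 ^ h * n * q ^ E := Nat.le_mul_of_pos_left _ h1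

end BBs

/-! ### The classes in the plus part -/

theorem key (hA : Stmt_NADT) (hL : Stmt_NPLU) (hTENT : TENT) {h n m k : ℕ} {π : Fin m → PP}
    {p e : Fin m → ℕ} {r f : Fin k → ℕ} {w0 : ZMod 3} {c : Fin m → ZMod 3} {s : ℕ}
    {τ : Fin s → Fin 3} {b X Y : Fin s → ℤ} {P Q P' Q' : Fin s → Fin s → ℤ} {E q : ℕ}
    (hNF : NF n π p e r f) (hh : h ≤ 2) (hAdm : ∀ i, AdN h n π w0 c (b i))
    (hSys : SysG b P Q P' Q') (hSw : SwS P Q P' Q')
    (hLam : ∀ B : ℤ, TyB h n w0 B → LamS B τ b X Y)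
    (hgen : ∀ x : ℤ, AdN h n π w0 c x → ∃ (g : Fin s → ℕ) (u v : ℤ), u ≠ 0 ∧ v ≠ 0 ∧
      x * u ^ 3 = (∏ i, b i ^ g i) * v ^ 3)
    (hEE : E = 1 ∨ E = 2) (hq : q.Prime) (hq3 : 3 < q) (hq2 : q % 3 = 2)
    (hInC : InCT E π w0 c q) (hqn : ¬ q ∣ n) (z : ℤ) (hz : S2 (BB h n E q) z) :
    ∃ (g : Fin s → ℕ) (u y : ℤ) (j : ℕ), u ≠ 0 ∧ y ≠ 0 ∧
      (∏ i, b i ^ g i) * u ^ 3 = z * BB h n E q ^ j * y ^ 3 ∧
      ∀ a, ∑ i, MaT b X Y P Q P' Q' (BB h n E q) a i * (g i : ZMod 3) = 0 := by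
  obtain ⟨hBG, hTy, hE⟩ := hA h n m k π p e r f w0 c E q hNF hh hEE hq hq2 hInC hqn
  rcases hz with rfl | ⟨A, m', hA0, hsum, hprod, hcop, rfl⟩
  · refine ⟨0, 1, 1, 0, one_ne_zero, one_ne_zero, by simp, fun a => by simp⟩
  · obtain ⟨z', X1, Y1, u, v, j, hu, hv, hzz, hPt, hAG, hLoc, hsupp⟩ :=
      hL h n m k π p e r f E q A m' hNF hh hEE hq (by omega) hqn hA0 hsum hprod hcop
    obtain ⟨g, u1, v1, hu1, hv1, hg⟩ := hgen z' ((hE z' hsupp).2 ⟨hAG, hLoc⟩)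
    refine ⟨g, v1 * u, v * u1, j, mul_ne_zero hv1 hu, mul_ne_zero hv hu1, ?_, ?_⟩
    · generalize (∏ i, b i ^ g i) = W at *
      generalize BB h n E q ^ j = Bj at *
      linear_combination (-(u ^ 3)) * hg + u1 ^ 3 * hzz
    · by_cases hex : ∃ i, ¬ 3 ∣ g i
      · obtain ⟨c0, hc0, h1⟩ := hPt.eq
        have hPt' : Pt (BB h n E q) (∏ i, b i ^ g i) (u1 * v1 * X1) (v1 ^ 2 * Y1) := by
          refine ⟨mul_ne_zero (mul_ne_zero hu1 hv1) hPt.hX, mul_ne_zero (pow_ne_zero 2 hv1) hPt.hY,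
            c0 * u1 ^ 2, mul_ne_zero hc0 (pow_ne_zero 2 hu1), ?_⟩
          generalize (∏ i, b i ^ g i) = W at *
          have e1 : W * ((u1 * v1 * X1) ^ 3 + W * (v1 ^ 2 * Y1) ^ 3) =
              (W * v1 ^ 3) * (u1 ^ 3 * X1 ^ 3 + (W * v1 ^ 3) * Y1 ^ 3) := by ring
          rw [e1, ← hg]
          have e2 : z' * u1 ^ 3 * (u1 ^ 3 * X1 ^ 3 + z' * u1 ^ 3 * Y1 ^ 3) =
              u1 ^ 6 * (z' * (X1 ^ 3 + z' * Y1 ^ 3)) := by ring
          rw [e2, h1]
          ring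
        exact (hTENT s τ b X Y P Q P' Q' (BB h n E q) hSys hSw hBG
          (fun i => ((hE _ (hAdm i).1.supp).1 (hAdm i)).1) (hLam _ hTy)
          (fun i => (hAdm i).1.ne)).2 g _ _ hex hPt'
      · push Not at hex
        intro a
        refine Finset.sum_eq_zero (fun i _ => ?_)
        rw [(ZMod.natCast_eq_zero_iff (g i) 3).2 (hex i), mul_zero]

end NBKN

open NBKN in
/-- NBKN: the bound for the rank, `q = 2 (mod 3)`. -/
theorem NBKN_thm (hK : Stmt_KID) (hP : Stmt_NPSI) (hI : Stmt_NKIN) (hA : Stmt_NADT)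
    (hL : Stmt_NPLU) (hTENT : TENT) (hSPP : SPP) : Stmt_NBKN := by
  classical
  intro h n m k π p e r f w0 c s τ b X Y P Q P' Q' E q hNF hh hAdm hSys hSw hLam hgen hEE hq hq3
    hq2 hInC hqn
  obtain ⟨hBG, hTy, hE⟩ := hA h n m k π p e r f w0 c E q hNF hh hEE hq hq2 hInC hqn
  obtain ⟨W₁, hfin, Y₁, hW₁, hY₁⟩ := hP h n m k π p e r f w0 c E q hNF hh hEE hq hq2 hInC hqn
  have H := key hA hL hTENT hNF hh hAdm hSys hSw hLam hgen hEE hq hq3 hq2 hInC hqn
  have hcf : CubeRank.CubeFree (BB h n E q) := cubeFree_BB hNF hh hEE hq hq3 hqn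
  have h3B : 3 ≤ (BB h n E q).natAbs := three_le_BB hNF hEE hq3
  obtain ⟨B, hB⟩ : ∃ B : ℤ, B = BB h n E q := ⟨_, rfl⟩
  rw [← hB] at hBG hTy hE hY₁ H hcf h3B ⊢
  have hB0 : B ≠ 0 := hTy.1
  have habs : 3 ≤ |B| := by
    rw [Int.abs_eq_natAbs]
    exact_mod_cast h3B
  have hnc : ¬ ∃ t : ℤ, t ^ 3 = B := CubeRank.GenPf.not_cube hcf habs
  have h27 : ¬ (27 : ℤ) ∣ B := by
    intro hd
    refine hcf 3 Int.prime_three ?_
    have e27 : (3 : ℤ) ^ 3 = 27 := by norm_num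
    rw [e27]
    exact hd
  obtain ⟨M, hM⟩ : ∃ M : Matrix (Fin s) (Fin s) (ZMod 3), M = MaT b X Y P Q P' Q' B := ⟨_, rfl⟩
  rw [← hM] at H ⊢
  choose g u y j hu hy hz hker using H
  let Ψ₂ : ℤ → LinearMap.ker M.mulVecLin := fun z =>
    if hs : S2 B z then ⟨fun i => (g z hs i : ZMod 3), by
      rw [LinearMap.mem_ker]
      funext a
      exact hker z hs a⟩ else 0
  have hsel : ∀ ζ : Eis, S1 B ζ → SelM B ζ := by
    rintro ζ (rfl | ⟨x1, y1, z1, hc1, hz1, he1, rfl⟩)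
    · exact selM_one hSPP B
    · exact hI B x1 y1 z1 hB0 h27 hc1 hz1 he1
  have hidx := hK B hB0 hcf hnc W₁ (LinearMap.ker M.mulVecLin) Y₁ Ψ₂
    (fun ζ ζ' h1 h2 h12 => hY₁ ζ ζ' (hsel ζ h1) (hsel ζ' h2) h12)
    (by
      intro z z' h1 h2 h12
      have h3 : ∀ i, (g z h1 i : ZMod 3) = g z' h2 i := by
        intro i
        have h4 := congrArg (fun x : LinearMap.ker M.mulVecLin => (x : Fin s → ZMod 3) i) h12
        simp only [Ψ₂, dif_pos h1, dif_pos h2] at h4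
        exact h4
      obtain ⟨A1, A2, hA1, hA2, hAA⟩ := BKER.prod_cube b (fun i => (hAdm i).1.ne) (g z h1)
        (g z' h2) h3
      have e1 := hz z h1
      have e2 := hz z' h2
      have hu1 := hu z h1
      have hu2 := hu z' h2
      have hy1 := hy z h1
      have hy2 := hy z' h2
      generalize (∏ i, b i ^ g z h1 i) = P1 at *
      generalize (∏ i, b i ^ g z' h2 i) = P2 at *
      generalize u z h1 = u1 at *
      generalize u z' h2 = u2 at *
      generalize y z h1 = y1 at *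
      generalize y z' h2 = y2 at *
      generalize j z h1 = j1 at *
      generalize j z' h2 = j2 at *
      refine ⟨B ^ j1 * y1 * A1 * u2, y2 * A2 * u1, j2 + 2 * j1, ?_, ?_, ?_⟩
      · exact mul_ne_zero (mul_ne_zero (mul_ne_zero (pow_ne_zero _ hB0) hy1) hA1) hu2
      · exact mul_ne_zero (mul_ne_zero hy2 hA2) hu1
      · have e3 : B ^ (j2 + 2 * j1) = B ^ j2 * (B ^ j1) ^ 2 := by
          rw [pow_add, mul_comm 2 j1, pow_mul]
        rw [e3]
        generalize B ^ j1 = C1 at *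
        generalize B ^ j2 = C2 at *
        linear_combination (-(C1 ^ 2 * A1 ^ 3 * u2 ^ 3)) * e1 +
          (C1 ^ 2 * u1 ^ 3 * u2 ^ 3) * hAA + (C1 ^ 2 * A2 ^ 3 * u1 ^ 3) * e2)
  have hkr : Module.finrank (ZMod 3) (LinearMap.ker M.mulVecLin) = s - M.rank := by
    have h1 := LinearMap.finrank_range_add_finrank_ker M.mulVecLin
    rw [Module.finrank_fintype_fun_eq_card, Fintype.card_fin] at h1
    have h2 : Module.finrank (ZMod 3) (LinearMap.range M.mulVecLin) = M.rank := rfl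
    omega
  refine CubeRank.gen' B hcf h3B _ hidx.1 (hidx.2.trans ?_)
  rw [Module.natCard_eq_pow_finrank (K := ZMod 3) (V := LinearMap.ker M.mulVecLin),
    Nat.card_zmod, hkr, pow_add]
  exact Nat.mul_le_mul_right _ hW₁

end Pool.Agent.PTN
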