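import Mathlib
import Pool.Agent.CubeRank.Main
import Pool.Agent.PT.Defs

/-!
# The law of the ranks of prime twists for every `n`: the group of `K`-points, `K = Q(w)`

`H = E_A(K)`, `E_A : y² = x³ - 432 A²`, `s = 12 A (w - w²)`, `s² = -432 A²`, `T = (0, s)`.
`om (x, y) = (w x, y)`, `θ = om - om²` (so `θ² = -3`), `cc` is complex conjugation.
`kap (x, y) = y - s` modulo cubes is a homomorphism with kernel `θ H`.

The group `GA A` of rational points and the coordinates `Crd A P a b c` are those of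
`Pool/Agent/CubeRank/Defs.lean`; `CubeRank.basics : BasicsStmt`, `CubeRank.coll`, `CubeRank.gen' :
GenStmt` are proved. `CubeRank/Coll.lean: line_of_sum` treats three collinear points over `ℚ`.
-/

set_option autoImplicit false

namespace Pool.Agent.PTN

open Pool.Agent.Lib_helper18 Pool.Agent.Lib_helper18.Eis Pool.Agent.Lib_helper84.Cub
open Pool.Agent.PT WeierstrassCurve.Affine

/-! ### The field `K = Q(w)` -/

/-- The data of the field `K = Q(w)`: `ι` is the embedding of `Z[w]` and `c` the complex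
conjugation. -/
structure KF (K : Type) [Field K] [CharZero K] (ι : Eis →+* K) (c : K →ₐ[ℚ] K) : Prop where
  inj : Function.Injective ι
  conj : ∀ e : Eis, c (ι e) = ι (conj e)
  frac : ∀ z : K, ∃ (e : Eis) (d : ℤ), d ≠ 0 ∧ z * d = ι e

/-- PTN_KEX: existence of the field `K`.
Proof. `K = FractionRing Eis` (`Eis` is an integral domain of characteristic `0`; instance
`CharZero (FractionRing Eis)` by injectivity of `algebraMap`), `ι = algebraMap`, `c` the ring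
homomorphism induced by `conj` (`IsFractionRing.lift` or `IsFractionRing.ringEquivOfRingEquiv`; a ring
homomorphism between fields of characteristic `0` is a `ℚ`-algebra homomorphism,
`RingHom.toRatAlgHom`), `frac`: an element is `ι a / ι b`, `b ≠ 0`, and
`ι a / ι b * (b * conj b) = ι (a * conj b)` with `b * conj b = (norm b : ℤ) ≠ 0` (`mul_conj`). -/
def Stmt_KEX : Prop := ∃ (K : Type) (_ : Field K) (_ : CharZero K) (_ : DecidableEq K) (ι : Eis →+* K)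
  (c : K →ₐ[ℚ] K), KF K ι c

/-- The group of `K`-points of `y² = x³ - 432 A²`. -/
abbrev HH (A : ℤ) (K : Type) [Field K] [CharZero K] : Type :=
  (WeierstrassCurve.Affine.baseChange (CubeRank.EA A).toAffine K).Point

/-- the square root `12 A (w - w²)` of `-432 A²` -/
def sD {K : Type} [Field K] (ι : Eis →+* K) (A : ℤ) : K := 12 * A * (ι w - ι w ^ 2)

/-- PTN_KEQ: the points.
Proof. The base change has `a₆ = algebraMap ℚ K (-432 A²) = -432 A²` and the other coefficients `0`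
(`WeierstrassCurve.map`, `simp`); `nonsingular_iff`, `equation_iff`: the equation is
`y² = x³ - 432 A²`; nonsingular: `x ≠ 0 ∨ y ≠ 0`, more precisely `3 x² ≠ 0 ∨ 2 y ≠ 0`, and `x = y = 0`
would give `432 A² = 0`. Second part: `(ι w - ι w²)² = -3` (`w² + w + 1 = 0`, lemma `w_rel`) and it
is not `0`. Third: `c (ι w) = ι (conj w) = ι w²`. -/
def Stmt_KEQ : Prop := ∀ (K : Type) [Field K] [CharZero K] [DecidableEq K] (ι : Eis →+* K) (c : K →ₐ[ℚ] K) (A : ℤ),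
  KF K ι c → A ≠ 0 →
  (∀ x y : K, (WeierstrassCurve.Affine.baseChange (CubeRank.EA A).toAffine K).Nonsingular x y ↔
    y ^ 2 = x ^ 3 - 432 * (A : K) ^ 2) ∧
  sD ι A ^ 2 = -432 * (A : K) ^ 2 ∧ sD ι A ≠ 0 ∧ c (sD ι A) = - sD ι A ∧
  (ι w) ^ 2 + ι w + 1 = 0 ∧ ι w ≠ 1

/-- PTN_KEMB: the rational points.
Proof. Complex conjugation is `WeierstrassCurve.Affine.Point.map c` (Mathlib) and the embedding is
the map of `GA A` with `P = (x, y) ↦ ((x : K), (y : K))`; to get it as a homomorphism use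
`Point.map (Algebra.ofId ℚ K)` and the identification of `GA A` with the points over `ℚ` of the base
change to `ℚ` (the same curve: `WeierstrassCurve.map_id`), or prove additivity directly from the
addition formulas as in the proof of `Point.map`. `cc Q = Q` means that `x` and `y` are fixed by
`c`; `x d = ι e`, `c x = x` gives `conj e = e`, so `e` is a rational integer (`conj e = e` implies
`e.im = 0`) and `x = e / d` is rational. -/
def Stmt_KEMB : Prop := ∀ (K : Type) [Field K] [CharZero K] [DecidableEq K] (ι : Eis →+* K) (c : K →ₐ[ℚ] K) (A : ℤ),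
  KF K ι c → A ≠ 0 →
  ∃ (cc : HH A K →+ HH A K) (j : CubeRank.GA A →+ HH A K),
    (∀ x y h, ∃ h', cc (.some x y h) = .some (c x) (c y) h') ∧
    (∀ x y h, ∃ h', j (.some x y h) = .some (x : K) (y : K) h') ∧
    Function.Injective j ∧ (∀ Q, cc (cc Q) = Q) ∧ ∀ Q, cc Q = Q ↔ ∃ P, j P = Q

/-- PTN_KOM: multiplication by `w`.
Proof. `om 0 = 0`, `om (x, y) = (w x, y)` (`w³ = 1`, `KEQ`). Additive: if `x₁ = x₂` and
`y₁ = -y₂` both sides are `0`; otherwise the slope of the images is `w²` times the slope `ℓ` (in both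
cases of `WeierstrassCurve.Affine.slope`: `(y₁ - y₂) / (x₁ - x₂)`, and `3 x² / (2 y)` for a tangent),
so `addX = ℓ² - x₁ - x₂` becomes `w⁴ ℓ² - w x₁ - w x₂ = w addX` and
`negAddY = ℓ (addX - x₁) + y₁` is unchanged. See the proof of `Point.map` in Mathlib
(`add_of_Y_eq`, `add_some`). Sum: `Q + om Q = - om (om Q)` for `Q = (x, y)`: for `x ≠ 0` the two points
have different first coordinates, the slope is `0`, `addX = - x - w x = w² x`, `negAddY = y`; for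
`x = 0` (then `y ≠ 0`) `om Q = Q` and the tangent has slope `0`, so `Q + Q = (0, -y) = -Q`. Last part:
both sides are `(c w · c x, c y)`, `c w = w²`. -/
def Stmt_KOM : Prop := ∀ (K : Type) [Field K] [CharZero K] [DecidableEq K] (ι : Eis →+* K) (c : K →ₐ[ℚ] K) (A : ℤ),
  KF K ι c → A ≠ 0 →
  ∃ om : HH A K →+ HH A K, (∀ x y h, ∃ h', om (.some x y h) = .some (ι w * x) y h') ∧
    (∀ Q, Q + om Q + om (om Q) = 0) ∧
    ∀ cc : HH A K →+ HH A K, (∀ x y h, ∃ h', cc (.some x y h) = .some (c x) (c y) h') →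
      ∀ Q, cc (om Q) = om (om (cc Q))

open Classical in
/-- the Kummer map -/
noncomputable def kap {A : ℤ} {K : Type} [Field K] [CharZero K] (ι : Eis →+* K) : HH A K → K
  | .zero => 1
  | .some _ y _ => if y = sD ι A then (y + sD ι A) ^ 2 else y - sD ι A

/-- PTN_KAD: the Kummer map is a homomorphism modulo cubes.
Proof. Write `s = sD ι A`. (0) `kap Q ≠ 0` (`y = s` gives `2 s ≠ 0`). (1) `kap (-Q) kap Q` is a cube:
`-Q = (x, -y)`; if `y ≠ ± s` it is `(y - s)(-y - s) = -(y² - s²) = (-x)³`; if `y = s` it is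
`(2 s)² (-2 s) = (-2 s)³`, the same for `y = -s`. (2) If `P₁ + P₂ + P₃ = 0` with three affine points
then `kap P₁ kap P₂ kap P₃` is a cube: by `line_of_sum` (CubeRank/Coll.lean, same proof over `K`)
`y_k = ℓ x_k + μ`, `x₁ + x₂ + x₃ = ℓ²`, `e₂ = -2 ℓ μ`, `x₁ x₂ x₃ = μ² - s²`. Then
`∏ (y_k - s) = ℓ³ e₃ + ℓ² e₂ (μ - s) + ℓ e₁ (μ - s)² + (μ - s)³ = (μ - s)³`. If no `y_k = s` this is
the claim. If `y₁ = s` then `x₁ = 0` (`x₁³ = y₁² - s² = 0`), `μ = s`, `x₂ x₃ = -2 ℓ s`. If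
`x₂ ≠ 0 ≠ x₃` then `y₂ - s = ℓ x₂`, `y₃ - s = ℓ x₃`; both are nonzero because `y₂ = s` would imply
`x₂ = 0`, and `kap P₂ kap P₃ = ℓ² x₂ x₃ = -2 s ℓ³`, `kap P₁ = (2 s)²`, product
`(-2 s ℓ)³`. If `x₂ = 0` then `ℓ = 0` (`x₂ x₃ = -2 ℓ s`), `x₃ = ℓ² = 0` and all three points are `(0, s)`:
product `(4 s²)³`. (3) General `P, Q`: if `P = 0` or `Q = 0` take `g = 1`; if `P + Q = 0` use (1);
otherwise use (2) for `P, Q, -(P + Q)` and (1) for `P + Q`. -/
def Stmt_KAD : Prop := ∀ (K : Type) [Field K] [CharZero K] [DecidableEq K] (ι : Eis →+* K) (c : K →ₐ[ℚ] K) (A : ℤ),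
  KF K ι c → A ≠ 0 → (∀ Q : HH A K, kap ι Q ≠ 0) ∧
  ∀ P Q : HH A K, ∃ g : K, g ≠ 0 ∧ kap ι (P + Q) = kap ι P * kap ι Q * g ^ 3

/-- PTN_KKE: the kernel of the Kummer map.
Proof. `Q = 0`: `R = 0`. `Q = (x, y)`. If `y = s`: `4 s² = g³`; `4 s² = -1728 A² = (-12)³ A²`, so `A²`,
hence `A = (A²)² / A³`, is a cube in `K`. If `y = -s`: `-2 s = g³`,
`-2 s = -24 A (w - w²)` and `(w - w²)³ = -3 (w - w²)`, so `-2 s = 8 A (w - w²)³` and `A` is a cube in
`K`. A rational integer that is a cube `z³` in `K` is a cube: `z d = ι e`, `e³ = A d³` in `Eis`;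
taking norms `N(e)³ = (A d³)²`, so `A²` is a cube of a rational number, hence `A` is; a rational
number whose cube is an integer is an integer. Contradiction with the hypothesis. So
`y ≠ ± s`, `x ≠ 0`, `y - s = g³`, put `h = x / g`: `h³ = y + s`, `g h = x`, `h³ - g³ = 2 s`, `h ≠ g`.
Put `X = -2 s / (h - g)`, `Y = ε (w - w²) s (h + g) / (h - g)` with a sign `ε = ± 1`. Then
`Y² = X³ - 432 A² = X³ + s²` (use `s = (h³ - g³) / 2`, `field_simp; ring` and `(w - w²)² = -3`) and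
`om R - om (om R) = Q` for `R = (X, Y)` and the right sign: the points `om R = (w X, Y)` and
`-(om (om R)) = (w² X, -Y)` have different first coordinates, slope
`m = (Y + Y) / (w X - w² X)`, `addX = m² - w X - w² X = m² + X = h g = x`, and
`negAddY = m (x - w X) + Y`, the second coordinate of the sum is its negative, `= ± y` according to
the sign `ε`. (`Point.add_some`, `slope_of_X_ne`.) -/
def Stmt_KKE : Prop := ∀ (K : Type) [Field K] [CharZero K] [DecidableEq K] (ι : Eis →+* K) (c : K →ₐ[ℚ] K) (A : ℤ),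
  KF K ι c → A ≠ 0 → (¬ ∃ n : ℤ, n ^ 3 = A) → ∀ om : HH A K →+ HH A K,
  (∀ x y h, ∃ h', om (.some x y h) = .some (ι w * x) y h') → (∀ Q, Q + om Q + om (om Q) = 0) →
  ∀ Q : HH A K, (∃ g : K, kap ι Q = g ^ 3) → ∃ R, Q = om R - om (om R)

/-- PTN_KIX: the index of `3 G` (pure group theory).
Proof. Put `θ R = om R - om (om R)`. (a) `om³ = 1` (apply `1 + om + om² = 0` to `om Q` and subtract),
`θ (θ R) = om² R - 2 R + om R·... = -3 R`: `θ θ = om² - 2 om³ + om⁴ = om² + om - 2 = -3`.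
(b) `cc (θ R) = om² (cc R) - om (cc R) = - θ (cc R)` (`cc om² = om cc` follows from `cc om = om² cc`).
(c) `3 T = 0` (`T + T + T = 0`). (d) If `cc (θ R) = - θ R` there is `R'` in the range of `j` with
`θ R' = θ R`: `θ (cc R - R) = 0`, so `cc R = R + i T`; `R' = R - i T`: `cc R' = R + i T + i T`
`= R' + 3 i T = R'`, and `θ R' = θ R` as `θ T = 0`. (e) If `cc (θ R) = θ R` then `cc R = -R`:
`θ (cc R + R) = 0`, `cc R = -R + i T`, apply `cc`: `R = -cc R - i T = R - 2 i T`, so `2 i T = 0`,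
`i T = 0`. (f) Choose for every value `α` of `Ψ₁` a `P_α ∈ G` with `Ψ₁ P_α = α`, and for every value
`β` of `Ψ₂` on `{Q | cc Q = -Q}` such a `Q_β`; `cc (θ Q_β) = θ Q_β`, so `θ Q_β = j (S_β)`. For `P ∈ G`,
`α = Ψ₁ P`: `j (P - P_α) ∈ N`, `= θ Q`, and it is fixed by `cc`, so `cc Q = -Q` by (e). With
`β = Ψ₂ Q`: `Q - Q_β - i T ∈ N`, `= θ R`, `cc (θ R) = - θ R`, so by (d) we may take `R = j U`. Then
`j (P - P_α) = θ Q = θ Q_β + θ θ (j U) = j (S_β - 3 U)`. So every `P` is congruent modulo `3 G` to one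
of the at most `|W₁| |W₂|` elements `P_α + S_β`: the map `W₁ × W₂ → G ⧸ 3 G` is surjective. -/
def Stmt_KIX : Prop := ∀ (G H : Type) [AddCommGroup G] [AddCommGroup H] (j : G →+ H)
  (om cc : H →+ H) (T : H) (N : AddSubgroup H) (W₁ W₂ : Type) [Finite W₁] [Finite W₂]
  (Ψ₁ : G → W₁) (Ψ₂ : H → W₂),
  Function.Injective j → (∀ Q, Q + om Q + om (om Q) = 0) →
  (∀ Q, cc (om Q) = om (om (cc Q))) → (∀ Q, cc (cc Q) = Q) → (∀ Q, cc Q = Q ↔ ∃ P, j P = Q) →
  om T = T → cc T = -T → (∀ R, om R = om (om R) → ∃ i : ℕ, R = i • T) →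
  (∀ Q ∈ N, ∃ R, Q = om R - om (om R)) →
  (∀ P P', Ψ₁ P = Ψ₁ P' → j (P - P') ∈ N) →
  (∀ Q Q', cc Q = -Q → cc Q' = -Q' → Ψ₂ Q = Ψ₂ Q' → ∃ i : ℕ, Q - Q' - i • T ∈ N) →
  ((nsmulAddMonoidHom (α := G) 3).range).FiniteIndex ∧
    ((nsmulAddMonoidHom (α := G) 3).range).index ≤ Nat.card W₁ * Nat.card W₂

/-- PTN_KMI: the class of a rational point.
Proof. `x = 12 A c / (a + b)`, `y = 36 A (a - b) / (a + b)` (`a + b ≠ 0`: `a³ + b³ = A c³ ≠ 0`),
`y ≠ s` since `y` is rational, `s ≠ 0` and `c(s) = -s`. With `δ = w - w²`, `δ² = -3`: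
`y - s = (12 A / (a + b)) (3 (a - b) - δ (a + b)) = (12 A / (a + b)) (-δ) ((a + b) + δ (a - b))` and
`(a + b) + δ (a - b) = -2 w² (a + w² b)` (check: `1 + δ = -2 w²`, `1 - δ = -2 w = -2 w² w²`).
So `y - s = 24 A δ w² (a + w² b) / (a + b)`; `24 δ = (-2 δ)³` as `δ³ = -3 δ`; and
`A = (a + b)(a + w b)(a + w² b) / c³`. -/
def Stmt_KMI : Prop := ∀ (K : Type) [Field K] [CharZero K] [DecidableEq K] (ι : Eis →+* K) (c : K →ₐ[ℚ] K) (A : ℤ),
  KF K ι c → A ≠ 0 → ∀ j : CubeRank.GA A →+ HH A K,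
  (∀ x y h, ∃ h', j (.some x y h) = .some (x : K) (y : K) h') →
  ∀ (P : CubeRank.GA A) (a b z : ℤ), CubeRank.Crd A P a b z →
    ∃ g : K, g ≠ 0 ∧
      kap ι (j P) = ι (w ^ 2 * (((a : Eis) + w * b) * ((a : Eis) + w ^ 2 * b) ^ 2)) * g ^ 3

/-- PTN_KPL: the class of a point with `cc Q = -Q`.
Proof. `Q = 0`: first case, `i = 0`, `g = 1`. `Q = (x, y)`, `c x = x`, `c y = -y`: `x` is rational
(see `KEMB`), `y = δ η` with `η` rational, `δ = w - w²` (`c (y / δ) = y / δ`). `x = 0`: `y = ± s`,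
`kap Q = 4 s² = (-12)³ A²`, resp. `kap Q = -2 s = (2 δ)³ A`: first case with `i = 2` or `1`.
`x ≠ 0`: `-3 η² = x³ - 432 A²`. With `u = 12 A - η`, `v = 12 A + η`: `x³ = 3 u v`,
`u + v - 24 A = 0`, `u v (-24 A) = A (-2 x)³`, and `kap Q = y - s = δ (η - 12 A) = -δ u`. Multiply
`(u, v, -24 A)` by a common denominator and divide by the greatest common divisor: integers
`(a₀, a₁, a₂) = t (u, v, -24 A)`, `t` rational, without a common prime divisor, `a₀ + a₁ + a₂ = 0`, so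
pairwise coprime, `a₀ a₁ a₂ = A m³` with `m = -2 x t` rational, and `m` is an integer because `A` is
cube-free (`A m³` is an integer: if a prime `l` divides the denominator of `m` then `l³ ∣ A`). Class:
`-δ u` is `u / 3` up to the cube `δ³ = -3 δ`; `v = x³ / (3 u)`, so
`a₀² a₁ = t³ u² v = t³ u x³ / 3`, which is `u / 3` times a cube. -/
def Stmt_KPL : Prop := ∀ (K : Type) [Field K] [CharZero K] [DecidableEq K] (ι : Eis →+* K) (c : K →ₐ[ℚ] K) (A : ℤ),
  KF K ι c → A ≠ 0 → CubeRank.CubeFree A → ∀ cc : HH A K →+ HH A K,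
  (∀ x y h, ∃ h', cc (.some x y h) = .some (c x) (c y) h') → ∀ Q : HH A K, cc Q = -Q →
    (∃ (i : ℕ) (g : K), g ≠ 0 ∧ kap ι Q = (A : K) ^ i * g ^ 3) ∨
    ∃ (a : Fin 3 → ℤ) (m : ℤ) (g : K), (∀ k, a k ≠ 0) ∧ a 0 + a 1 + a 2 = 0 ∧
      a 0 * a 1 * a 2 = A * m ^ 3 ∧ (∀ i j, i ≠ j → IsCoprime (a i) (a j)) ∧ g ≠ 0 ∧
      kap ι Q = ((a 0 ^ 2 * a 1 : ℤ) : K) * g ^ 3

/-! ### The result -/

/-- the classes of the rational points in the minus part -/
def S1 (A : ℤ) (ζ : Eis) : Prop := ζ = 1 ∨ ∃ x y z : ℤ, IsCoprime x y ∧ z ≠ 0 ∧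
  x ^ 3 + y ^ 3 = A * z ^ 3 ∧ ζ = w ^ 2 * (((x : Eis) + w * y) * ((x : Eis) + w ^ 2 * y) ^ 2)

/-- the classes of the points of the isogenous curve in the plus part -/
def S2 (A : ℤ) (z : ℤ) : Prop := z = 1 ∨ ∃ (a : Fin 3 → ℤ) (m : ℤ), (∀ k, a k ≠ 0) ∧
  a 0 + a 1 + a 2 = 0 ∧ a 0 * a 1 * a 2 = A * m ^ 3 ∧ (∀ i j, i ≠ j → IsCoprime (a i) (a j)) ∧
  z = a 0 ^ 2 * a 1

/-- PTN_KID: the bound for the index of the subgroup of the multiples of `3` by the two descents.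
Proof. Uses `KEX`, `KEQ`, `KEMB`, `KOM`, `KAD`, `KKE`, `KIX`, `KMI`, `KPL` and `CubeRank.basics`
(existence of `Crd` for `P ≠ 0`). `N = {Q | kap Q is a cube}` is a subgroup by `KAD` (for `-Q`: use `KAD` for
`Q` and `-Q`; `kap 0 = 1`). `T = (0, s)`, `om T = T`, `cc T = (0, -s) = -T`; `om R = om (om R)`:
`R = 0` or `w x = w² x`, so `x = 0`, `y = ± s`: `R = T` or `R = -T = 2 T`. For `P ∈ GA A` choose `ζ_P`:
`1` if `P = 0`, otherwise from coordinates; `kap (j P) = ι ζ_P g³`, `S1 A ζ_P`. `Ψ₁' P = Ψ₁ ζ_P`: if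
`Ψ₁' P = Ψ₁' P'` then `ζ_P g³ = ζ_P' g'³`, so `kap (j P) / kap (j P')` and hence
`kap (j (P - P'))` is a cube. For `Q` with `cc Q = -Q` choose `z_Q` with `S2 A z_Q` and
`kap Q = z_Q A^i g³` by `KPL` (in the first case `z_Q = 1`); `Ψ₂' Q = Ψ₂ z_Q` (arbitrary for other
`Q`); if they agree then `kap (Q - Q') = A^k g³` for some `k : ℕ` (use `A^(-1) = A² / A³`), and
`kap T = 4 s² = (-12)³ A²`, so `kap (Q - Q' - i • T)` is a cube for a suitable `i`.
`threeMul A` is by definition the range in `KIX`. -/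
def Stmt_KID : Prop := ∀ A : ℤ, A ≠ 0 → CubeRank.CubeFree A → (¬ ∃ n : ℤ, n ^ 3 = A) →
  ∀ (W₁ W₂ : Type) [Finite W₁] [Finite W₂] (Ψ₁ : Eis → W₁) (Ψ₂ : ℤ → W₂),
  (∀ ζ ζ', S1 A ζ → S1 A ζ' → Ψ₁ ζ = Ψ₁ ζ' →
    ∃ g g' : Eis, g ≠ 0 ∧ g' ≠ 0 ∧ ζ * g ^ 3 = ζ' * g' ^ 3) →
  (∀ z z', S2 A z → S2 A z' → Ψ₂ z = Ψ₂ z' →
    ∃ (u v : ℤ) (j : ℕ), u ≠ 0 ∧ v ≠ 0 ∧ z * u ^ 3 = z' * A ^ j * v ^ 3) →
  (CubeRank.threeMul A).FiniteIndex ∧
    (CubeRank.threeMul A).index ≤ Nat.card W₁ * Nat.card W₂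

end Pool.Agent.PTN
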