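import Mathlib
import Pool.Agent.PTN.StG

/-!
# The two descents bound the index of the multiples of 3
-/

set_option autoImplicit false

namespace Pool.Agent.PTN.KID

open Pool.Agent.Lib_helper18 Pool.Agent.Lib_helper18.Eis Pool.Agent.Lib_helper84.Cub
open Pool.Agent.PT WeierstrassCurve.Affine

variable {K : Type} [Field K] [CharZero K] [DecidableEq K] {ι : Eis →+* K} {A : ℤ}

omit [DecidableEq K] in
theorem kap_zero : kap ι (0 : HH A K) = 1 := rfl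

/-- the class of a difference -/
theorem kap_sub (h0 : ∀ Q : HH A K, kap ι Q ≠ 0)
    (hadd : ∀ P Q : HH A K, ∃ g : K, g ≠ 0 ∧ kap ι (P + Q) = kap ι P * kap ι Q * g ^ 3)
    (P Q : HH A K) : ∃ g : K, g ≠ 0 ∧ kap ι (P - Q) = kap ι P / kap ι Q * g ^ 3 := by
  obtain ⟨g, hg, h⟩ := hadd (P - Q) Q
  rw [sub_add_cancel] at h
  refine ⟨g⁻¹, inv_ne_zero hg, ?_⟩
  have h1 := h0 Q
  rw [h]
  field_simp

/-- the subgroup of the points whose class is a cube -/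
noncomputable def cubes (hadd : ∀ P Q : HH A K, ∃ g : K, g ≠ 0 ∧
      kap ι (P + Q) = kap ι P * kap ι Q * g ^ 3)
    (h0 : ∀ Q : HH A K, kap ι Q ≠ 0) : AddSubgroup (HH A K) where
  carrier := {Q | ∃ g : K, kap ι Q = g ^ 3}
  zero_mem' := ⟨1, by rw [kap_zero]; ring⟩
  add_mem' := by
    rintro P Q ⟨a, ha⟩ ⟨b, hb⟩
    obtain ⟨g, -, hg⟩ := hadd P Q
    exact ⟨a * b * g, by rw [hg, ha, hb]; ring⟩
  neg_mem' := by
    rintro Q ⟨a, ha⟩
    obtain ⟨g, -, hg⟩ := kap_sub h0 hadd 0 Q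
    rw [zero_sub, kap_zero, ha] at hg
    exact ⟨a⁻¹ * g, by rw [hg, mul_pow, inv_pow, one_div]⟩

theorem mem_cubes {hadd : ∀ P Q : HH A K, ∃ g : K, g ≠ 0 ∧
      kap ι (P + Q) = kap ι P * kap ι Q * g ^ 3}
    {h0 : ∀ Q : HH A K, kap ι Q ≠ 0} {Q : HH A K} :
    Q ∈ cubes hadd h0 ↔ ∃ g : K, kap ι Q = g ^ 3 := Iff.rfl

end Pool.Agent.PTN.KID

namespace Pool.Agent.PTN

open Pool.Agent.Lib_helper18 Pool.Agent.Lib_helper18.Eis Pool.Agent.Lib_helper84.Cub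
open Pool.Agent.PT WeierstrassCurve.Affine
open Pool.Agent.PTN.KID

theorem KID_thm (h0 : Stmt_KEX) (h1 : Stmt_KEQ) (h2 : Stmt_KEMB) (h3 : Stmt_KOM) (h4 : Stmt_KAD)
    (h5 : Stmt_KKE) (h6 : Stmt_KIX) (h7 : Stmt_KMI) (h8 : Stmt_KPL) : Stmt_KID := by
  classical
  intro A hA hcf hnc W₁ W₂ _ _ Ψ₁ Ψ₂ hΨ₁ hΨ₂
  obtain ⟨K, fK, cK, dK, ι, c, hK⟩ := h0
  obtain ⟨hns, hs2, hs0, hcs, hw, hw1⟩ := h1 K ι c A hK hA
  obtain ⟨cc, j, hcc, hj, hjinj, hcc2, hccj⟩ := h2 K ι c A hK hA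
  obtain ⟨om, hom, hom3, homcc⟩ := h3 K ι c A hK hA
  obtain ⟨hk0, hadd⟩ := h4 K ι c A hK hA
  have hker := h5 K ι c A hK hA hnc om hom hom3
  have hAK : (A : K) ≠ 0 := by exact_mod_cast hA
  -- the point T
  have hT : (WeierstrassCurve.Affine.baseChange (CubeRank.EA A).toAffine K).Nonsingular 0
      (sD ι A) := by
    rw [hns, hs2]; ring
  obtain ⟨T, hTdef⟩ : ∃ T : HH A K, T = .some 0 (sD ι A) hT := ⟨_, rfl⟩
  have homT : om T = T := by
    obtain ⟨h', e⟩ := hom 0 (sD ι A) hT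
    rw [hTdef, e]
    simp
  have hccT : cc T = -T := by
    obtain ⟨h', e⟩ := hcc 0 (sD ι A) hT
    rw [hTdef, e, WeierstrassCurve.Affine.Point.neg_some]
    simp only [map_zero, WeierstrassCurve.Affine.Point.some.injEq, true_and]
    rw [hcs, WeierstrassCurve.Affine.negY]
    simp [WeierstrassCurve.Affine.baseChange, CubeRank.EA]
  have h3T : T + T + T = 0 := by
    have := hom3 T
    rwa [homT, homT] at this
  have hfix : ∀ R, om R = om (om R) → ∃ i : ℕ, R = i • T := by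
    intro R hR
    match R, hR with
    | .zero, _ => exact ⟨0, by rw [zero_smul]; rfl⟩
    | .some x y h, hR =>
      obtain ⟨h', e⟩ := hom x y h
      obtain ⟨h'', e'⟩ := hom (ι w * x) y h'
      rw [e, e'] at hR
      rw [WeierstrassCurve.Affine.Point.some.injEq] at hR
      have hx : x = 0 := by
        have h5 := hR.1
        have h6 : (ι w - ι w ^ 2) * x = 0 := by linear_combination h5
        rcases mul_eq_zero.1 h6 with h7 | h7
        · exfalso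
          have h8 : ι w * (1 - ι w) = 0 := by linear_combination h7
          rcases mul_eq_zero.1 h8 with h9 | h9
          · rw [h9] at hw; simp at hw
          · exact hw1 (sub_eq_zero.1 h9).symm
        · exact h7
      subst hx
      have hy := (hns 0 y).1 h
      have hy2 : (y - sD ι A) * (y + sD ι A) = 0 := by linear_combination hy - hs2
      rcases mul_eq_zero.1 hy2 with h7 | h7
      · refine ⟨1, ?_⟩
        rw [one_smul, hTdef, WeierstrassCurve.Affine.Point.some.injEq]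
        exact ⟨rfl, sub_eq_zero.1 h7⟩
      · refine ⟨2, ?_⟩
        have h8 : (2 : ℕ) • T = -T := by
          rw [two_smul]
          exact eq_neg_of_add_eq_zero_left h3T
        rw [h8, ← hccT, hTdef]
        obtain ⟨h', e⟩ := hcc 0 (sD ι A) hT
        rw [e, WeierstrassCurve.Affine.Point.some.injEq, map_zero, hcs]
        exact ⟨rfl, by linear_combination h7⟩
  -- the classes of the rational points
  have hζ : ∀ P : CubeRank.GA A, ∃ ζ : Eis, S1 A ζ ∧ ∃ g : K, g ≠ 0 ∧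
      kap ι (j P) = ι ζ * g ^ 3 := by
    intro P
    by_cases hP : P = 0
    · refine ⟨1, Or.inl rfl, 1, one_ne_zero, ?_⟩
      rw [hP, map_zero, kap_zero, map_one]; ring
    · obtain ⟨a, b, z, hC⟩ := (CubeRank.basics A hA).1 hcf P hP
      obtain ⟨g, hg, e⟩ := h7 K ι c A hK hA j hj P a b z hC
      exact ⟨_, Or.inr ⟨a, b, z, hC.2.1, hC.1, hC.2.2.1, rfl⟩, g, hg, e⟩
  choose ζ hζS gζ hgζ hζe using hζ
  -- the classes of the points of the plus part
  have hz : ∀ Q : HH A K, ∃ z : ℤ, cc Q = -Q → S2 A z ∧ ∃ (i : ℕ) (g : K), g ≠ 0 ∧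
      kap ι Q = (z : K) * (A : K) ^ i * g ^ 3 := by
    intro Q
    by_cases hQ : cc Q = -Q
    · rcases h8 K ι c A hK hA hcf cc hcc Q hQ with ⟨i, g, hg, e⟩ | ⟨a, m, g, ha0, hs, hp, hco, hg, e⟩
      · exact ⟨1, fun _ => ⟨Or.inl rfl, i, g, hg, by rw [e]; push_cast; ring⟩⟩
      · exact ⟨a 0 ^ 2 * a 1, fun _ => ⟨Or.inr ⟨a, m, ha0, hs, hp, hco, rfl⟩, 0, g, hg,
          by rw [e]; ring⟩⟩
    · exact ⟨1, fun h => absurd h hQ⟩
  choose z hzS using hz
  -- multiples of T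
  have hkT : kap ι T = (A : K) ^ 2 * (-12) ^ 3 := by
    have e : kap ι T = (sD ι A + sD ι A) ^ 2 := by
      rw [hTdef]
      simp only [kap, if_true]
    rw [e]
    linear_combination 4 * hs2
  have hnT : ∀ n : ℕ, ∃ g : K, g ≠ 0 ∧ kap ι (n • T) = (A : K) ^ (2 * n) * g ^ 3 := by
    intro n
    induction n with
    | zero => exact ⟨1, one_ne_zero, by rw [zero_smul, kap_zero]; ring⟩
    | succ n ih =>
      obtain ⟨g, hg, e⟩ := ih
      obtain ⟨g', hg', e'⟩ := hadd (n • T) T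
      refine ⟨g * (-12) * g', mul_ne_zero (mul_ne_zero hg (by norm_num)) hg', ?_⟩
      rw [succ_nsmul, e', e, hkT]
      ring
  refine h6 (CubeRank.GA A) (HH A K) j om cc T (cubes hadd hk0) W₁ W₂ (fun P => Ψ₁ (ζ P))
    (fun Q => Ψ₂ (z Q)) hjinj hom3 (homcc cc hcc) hcc2 hccj homT hccT hfix ?_ ?_ ?_
  · intro Q hQ
    exact hker Q (mem_cubes.1 hQ)
  · intro P P' hPP
    rw [mem_cubes, map_sub]
    obtain ⟨g, g', hg, hg', e⟩ := hΨ₁ _ _ (hζS P) (hζS P') hPP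
    obtain ⟨k, -, ek⟩ := kap_sub hk0 hadd (j P) (j P')
    have hk1 := hk0 (j P')
    have e1 := hζe P
    have e2 := hζe P'
    have hz' : ι (ζ P') ≠ 0 := by
      intro h
      rw [e2, h, zero_mul] at hk1
      exact hk1 rfl
    have hgK : ι g ≠ 0 := by
      intro h
      exact hg (hK.inj (by rw [h, map_zero]))
    have e3 : ι (ζ P) * ι g ^ 3 = ι (ζ P') * ι g' ^ 3 := by
      have := congrArg ι e
      simpa using this
    have hg1 := hgζ P'
    refine ⟨ι g' * gζ P * k / (ι g * gζ P'), ?_⟩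
    rw [ek, e1, e2]
    field_simp
    linear_combination (gζ P) ^ 3 * k ^ 3 * e3
  · intro Q Q' hQ hQ' hQQ
    obtain ⟨hS, i, g, hg, e⟩ := hzS Q hQ
    obtain ⟨hS', i', g', hg', e'⟩ := hzS Q' hQ'
    obtain ⟨u, v, l, hu, hv, euv⟩ := hΨ₂ _ _ hS hS' hQQ
    obtain ⟨n, hn⟩ : ∃ n, n = 2 * (l + i + 2 * i') := ⟨_, rfl⟩
    refine ⟨n, ?_⟩
    rw [mem_cubes]
    obtain ⟨k, -, ek⟩ := kap_sub hk0 hadd (Q - Q') (n • T)
    obtain ⟨k', -, ek'⟩ := kap_sub hk0 hadd Q Q'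
    obtain ⟨t, ht, et⟩ := hnT n
    have hk1 := hk0 Q'
    have hz' : (z Q' : K) ≠ 0 := by
      intro h
      rw [e', h, zero_mul, zero_mul] at hk1
      exact hk1 rfl
    have huK : (u : K) ≠ 0 := by exact_mod_cast hu
    have euvK : (z Q : K) * (u : K) ^ 3 = (z Q' : K) * (A : K) ^ l * (v : K) ^ 3 := by
      exact_mod_cast euv
    refine ⟨(v : K) * g * k' * k / ((u : K) * g' * t * (A : K) ^ (l + i + 3 * i')), ?_⟩
    rw [ek, ek', e, e', et, hn]
    have hpow : (A : K) ^ (2 * (2 * (l + i + 2 * i'))) * (A : K) ^ i' =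
        (A : K) ^ l * (A : K) ^ i * ((A : K) ^ (l + i + 3 * i')) ^ 3 := by
      rw [← pow_mul, ← pow_add, ← pow_add, ← pow_add]
      congr 1
      ring
    have hA1 : (A : K) ^ i' ≠ 0 := pow_ne_zero _ hAK
    have hA2 : (A : K) ^ (2 * (2 * (l + i + 2 * i'))) ≠ 0 := pow_ne_zero _ hAK
    have hA3 : (A : K) ^ (l + i + 3 * i') ≠ 0 := pow_ne_zero _ hAK
    obtain ⟨X, hX⟩ : ∃ X, X = (A : K) ^ (2 * (2 * (l + i + 2 * i'))) := ⟨_, rfl⟩
    obtain ⟨Y, hY⟩ : ∃ Y, Y = (A : K) ^ i' := ⟨_, rfl⟩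
    obtain ⟨Z, hZ⟩ : ∃ Z, Z = (A : K) ^ (l + i + 3 * i') := ⟨_, rfl⟩
    obtain ⟨U, hU⟩ : ∃ U, U = (A : K) ^ l := ⟨_, rfl⟩
    obtain ⟨V, hV⟩ : ∃ V, V = (A : K) ^ i := ⟨_, rfl⟩
    rw [← hX, ← hY, ← hU, ← hV, ← hZ] at hpow
    rw [← hU] at euvK
    rw [← hX, ← hY, ← hV, ← hZ]
    rw [← hY] at hA1
    rw [← hX] at hA2
    rw [← hZ] at hA3
    have hzQ : (z Q : K) = (z Q' : K) * U * (v : K) ^ 3 / (u : K) ^ 3 := by
      rw [eq_div_iff (pow_ne_zero _ huK)]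
      exact euvK
    have hXe : X = U * V * Z ^ 3 / Y := by
      rw [eq_div_iff hA1]
      exact hpow
    have hUV : U * V ≠ 0 := by
      rw [hU, hV]
      exact mul_ne_zero (pow_ne_zero _ hAK) (pow_ne_zero _ hAK)
    have hU0 : U ≠ 0 := left_ne_zero_of_mul hUV
    have hV0 : V ≠ 0 := right_ne_zero_of_mul hUV
    rw [hzQ, hXe]
    field_simp

end Pool.Agent.PTN
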