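import Pool.Agent.PTN.StD
import Pool.Agent.PTE.GFRS

/-!
# Frobenius elements and the pattern, for both prime factors
-/

open NumberField IsDedekindDomain Finset
open scoped nonZeroDivisors Pointwise

namespace Pool.Agent.PTN

open Pool.Agent.Lib_helper18 Pool.Agent.Lib_helper18.Eis Pool.Agent.Lib_helper84.Cub
open Pool.Agent.PT Pool.Agent.PTE Pool.Agent.PT3 Pool.Agent.PTL

namespace GFRU

theorem conj_lf1 (p q r : ℤ) : conj (Lf p q 1 r) = Lf p q 2 r := by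
  simp only [Lf, map_add, map_mul, conj_intCast, pow_one, conj_w]

theorem conj_lf2 (p q r : ℤ) : conj (Lf p q 2 r) = Lf p q 1 r := by
  rw [← conj_lf1, conj_conj]

/-- complex conjugation and the symbols of rational integers and of the linear forms -/
structure CJ (ρ : Eis) (Q : ℕ) : Prop where
  hd : ∀ x : ℤ, ρ ∣ (x : Eis) ↔ (Q : ℤ) ∣ x
  cj : ∀ a : Eis, ¬ ρ ∣ a → sym (conj ρ) (conj a) = - sym ρ a

theorem CJ.int {ρ : Eis} {Q : ℕ} (h : CJ ρ Q) {x : ℤ} (hx : ¬ (Q : ℤ) ∣ x) :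
    sym (conj ρ) (x : Eis) = - sym ρ (x : Eis) := by
  have h1 := h.cj (x : Eis) (fun h2 => hx ((h.hd x).1 h2))
  rwa [conj_intCast] at h1

theorem CJ.tauvs {ρ : Eis} {Q : ℕ} (h : CJ ρ Q) {b p q p' q' r : ℤ}
    (h1 : ¬ (Q : ℤ) ∣ p ^ 3 + b * q ^ 3) (h2 : ¬ (Q : ℤ) ∣ p' ^ 3 + b * q' ^ 3)
    (hr : (Q : ℤ) ∣ r ^ 3 - b) : TAUVS (conj ρ) p q p' q' r = TAUVS ρ p q p' q' r := by
  obtain ⟨e1, e2⟩ := PTE.GFRS.lf_not_dvd h.hd h1 hr
  obtain ⟨e1', e2'⟩ := PTE.GFRS.lf_not_dvd h.hd h2 hr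
  have a1 := h.cj _ e1
  have a2 := h.cj _ e2
  have a1' := h.cj _ e1'
  have a2' := h.cj _ e2'
  rw [conj_lf1] at a1 a1'
  rw [conj_lf2] at a2 a2'
  unfold TAUVS
  rw [a1, a2, a1', a2']
  ring

end GFRU

theorem GFRU_thm (hSPLT : SPLT) (hSPP : SPP) : Stmt_GFRU := by
  classical
  intro s b p q p' q' f L _ _ ζ ω hS hG
  let B : Fin (s + 1) → Fin (s + 1) → ℕ := fun j i => (b j).natAbs +
    (p j i ^ 3 + b j * q j i ^ 3).natAbs + (p' j i ^ 3 + b j * q' j i ^ 3).natAbs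
  refine ⟨∑ j, ∑ i, B j i, fun Q hQ hQN hQ3 P hP hQP φ hφ ρ hρQ => ?_⟩
  have hB : ∀ j i, B j i < Q := by
    intro j i
    refine lt_of_le_of_lt ?_ hQN
    have h1 : B j i ≤ ∑ i, B j i :=
      Finset.single_le_sum (f := fun i => B j i) (fun _ _ => Nat.zero_le _) (Finset.mem_univ i)
    refine h1.trans ?_
    exact Finset.single_le_sum (f := fun j => ∑ i, B j i) (fun _ _ => Nat.zero_le _)
      (Finset.mem_univ j)
  have hb : ∀ j, ¬ (Q : ℤ) ∣ b j := fun j =>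
    GFR.not_dvd_of_lt (PTE.GFRS.ne_zero hS j)
      (by have := hB j j; simp only [B] at this; omega)
  have hd1 : ∀ j i : Fin s, j ≠ i →
      ¬ (Q : ℤ) ∣ rs p j i ^ 3 + b j.castSucc * rs q j i ^ 3 ∧
      ¬ (Q : ℤ) ∣ rs p' j i ^ 3 + b j.castSucc * rs q' j i ^ 3 := by
    intro j i hji
    have hji' : j.castSucc ≠ i.castSucc := fun h => hji (Fin.castSucc_injective _ h)
    have hsol := hS.sol j.castSucc i.castSucc hji'
    have h2 : p' j.castSucc i.castSucc ^ 3 + b j.castSucc * q' j.castSucc i.castSucc ^ 3 ≠ 0 := by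
      intro h0
      refine hsol.n1 ?_
      rw [hsol.eq, h0, mul_zero]
    have hBji := hB j.castSucc i.castSucc
    simp only [B] at hBji
    have e1 := GFR.not_dvd_of_lt (Q := Q) hsol.n1 (by omega)
    have e2 := GFR.not_dvd_of_lt (Q := Q) h2 (by omega)
    exact ⟨e1, e2⟩
  obtain ⟨ωB, ρ₀, F, _, mk, z, ψ, rfl, hρ₀, D⟩ :=
    PTE.GFRS.exists_dat hSPLT hSPP hQ hP hQP hQ3 hφ hG.rel
  -- the statement for the prime factor compatible with `P`
  have key1 : Fx b φ ↔ (∀ j : Fin s, sym ρ₀.1 (b j.castSucc : Eis) = 0) ∧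
      sym ρ₀.1 (b (Fin.last s) : Eis) ≠ 0 := by
    constructor
    · intro hF
      refine ⟨fun j => ?_, ?_⟩
      · obtain ⟨θ, hθ⟩ := hG.root j.castSucc
        obtain ⟨θB, rfl, hθB⟩ := PTE.GFRS.exists_int hθ
        exact D.sym_zero hθB (hb _) (RingOfIntegers.coe_injective (hF.1 j _ hθ))
      · obtain ⟨θ, hθ⟩ := hG.root (Fin.last s)
        obtain ⟨θB, rfl, hθB⟩ := PTE.GFRS.exists_int hθ
        exact D.sym_ne hθB (hb _) fun h => hF.2 _ hθ (congrArg (fun x : 𝓞 L => (x : L)) h)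
    · rintro ⟨h1, h2⟩
      refine ⟨fun j θ hθ => ?_, fun θ hθ h => ?_⟩
      · obtain ⟨θB, rfl, hθB⟩ := PTE.GFRS.exists_int hθ
        by_contra h3
        exact D.sym_ne hθB (hb _)
          (fun h => h3 (congrArg (fun x : 𝓞 L => (x : L)) h)) (h1 j)
      · obtain ⟨θB, rfl, hθB⟩ := PTE.GFRS.exists_int hθ
        exact h2 (D.sym_zero hθB (hb _) (RingOfIntegers.coe_injective h))
  have key2 : Fx b φ → ∀ j i : Fin s, j ≠ i → ∀ (r : ℤ) (t : ZMod 3),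
      (Q : ℤ) ∣ r ^ 3 - b j.castSucc →
      IsTS b p q p' q' (ωB : L) φ j.castSucc i.castSucc t →
      t = TAUVS ρ₀.1 (rs p j i) (rs q j i) (rs p' j i) (rs q' j i) r := by
    intro hF j i hji r t hr ht
    have hji' : j.castSucc ≠ i.castSucc := fun h => hji (Fin.castSucc_injective _ h)
    obtain ⟨e1, e2⟩ := hd1 j i hji
    obtain ⟨θ₀, hθ₀⟩ := hG.root j.castSucc
    obtain ⟨θ₁, rfl, hθ₁⟩ := PTE.GFRS.exists_int hθ₀
    obtain ⟨θ, hθ, hrθ⟩ := D.exists_root hr hθ₁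
    have hθL : (θ : L) ^ 3 = (b j.castSucc : L) := by
      rw [← map_pow, hθ, map_intCast]
    obtain ⟨A, hA⟩ := hG.A j.castSucc i.castSucc hji' θ hθL
    exact D.core e1 e2 hr hrθ (hF.1 j θ hθL) hA (ht θ A hθL hA)
  -- the other prime factor
  obtain ⟨-, -, h3, h4, h5, -⟩ := hSPLT.2 Q ρ₀ hQ hQ3 hρ₀
  have hC : GFRU.CJ ρ₀.1 Q := ⟨h4, h5⟩
  rcases h3 ρ ⟨conj ρ.1, hρQ⟩ with h6 | h6
  · rw [h6]
    exact ⟨key1, key2⟩
  · rw [h6]
    refine ⟨?_, fun hF j i hji r t hr ht => ?_⟩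
    · rw [key1]
      refine and_congr (forall_congr' fun j => ?_) ?_
      · rw [hC.int (hb _), neg_eq_zero]
      · rw [hC.int (hb _), ne_eq, ne_eq, neg_eq_zero]
    · rw [hC.tauvs (hd1 j i hji).1 (hd1 j i hji).2 hr]
      exact key2 hF j i hji r t hr ht

end Pool.Agent.PTN
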