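import Pool.Agent.PTN.StA
import Pool.Agent.PT.BKER
import Pool.Agent.PT3.ECLU
import Pool.Agent.PT.EADM
import Pool.Agent.PT.EHYP
import Pool.Agent.PT.F3R

/-!
# PTN_NBKU: the bound for the rank, `q = 1 (mod 3)`, generic case
-/

set_option autoImplicit false

namespace Pool.Agent.PTN

open Pool.Agent.Lib_helper18 Pool.Agent.Lib_helper18.Eis Pool.Agent.Lib_helper84.Cub
open Pool.Agent.PT Pool.Agent.PTE Pool.Agent.PT3

namespace NBKU

theorem BB_nat (h n E q : ℕ) : BB h n E q = ((3 ^ h * (n * q ^ E) : ℕ) : ℤ) := by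
  unfold BB
  push_cast
  ring

variable {h n m k : ℕ} {π : Fin m → PP} {p e : Fin m → ℕ} {r f : Fin k → ℕ} {E q : ℕ}

theorem nat_ne (hN : NF n π p e r f) (hq : q.Prime) : 3 ^ h * (n * q ^ E) ≠ 0 :=
  mul_ne_zero (pow_ne_zero _ (by norm_num)) (mul_ne_zero (EADM.n_ne hN) (pow_ne_zero _ hq.ne_zero))

theorem BB_ne (hN : NF n π p e r f) (hq : q.Prime) : BB h n E q ≠ 0 := by
  rw [BB_nat]
  exact_mod_cast nat_ne hN hq

/-- no cube divides `B` -/
theorem fac (hN : NF n π p e r f) (hh : h ≤ 2) (hE : E = 1 ∨ E = 2) (hq : q.Prime) (hq3 : q ≠ 3)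
    (hqn : ¬ q ∣ n) {l : ℕ} (hl : l.Prime) : (3 ^ h * (n * q ^ E)).factorization l ≤ 2 := by
  have hn0 : n ≠ 0 := EADM.n_ne hN
  have hn3 : ¬ 3 ∣ n := EADM.three_not hN
  rw [Nat.factorization_mul (pow_ne_zero _ (by norm_num))
    (mul_ne_zero hn0 (pow_ne_zero _ hq.ne_zero)), Finsupp.add_apply,
    Nat.factorization_mul hn0 (pow_ne_zero _ hq.ne_zero), Finsupp.add_apply]
  have h1 := EADM.fac_le hN l
  by_cases hl3 : l = 3
  · subst hl3
    have h2 : n.factorization 3 = 0 := Nat.factorization_eq_zero_of_not_dvd hn3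
    have h3 : (q ^ E).factorization 3 = 0 := by
      apply Nat.factorization_eq_zero_of_not_dvd
      intro h4
      exact hq3 ((Nat.prime_dvd_prime_iff_eq Nat.prime_three hq).1
        (Nat.prime_three.dvd_of_dvd_pow h4)).symm
    have h5 : (3 ^ h).factorization 3 = h := by
      rw [Nat.prime_three.factorization_pow, Finsupp.single_eq_same]
    omega
  · have h0 : (3 ^ h).factorization l = 0 := by
      apply Nat.factorization_eq_zero_of_not_dvd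
      intro h2
      exact hl3 ((Nat.prime_dvd_prime_iff_eq hl Nat.prime_three).1 (hl.dvd_of_dvd_pow h2))
    by_cases hlq : l = q
    · have h2 : n.factorization l = 0 := by
        rw [hlq]
        exact Nat.factorization_eq_zero_of_not_dvd hqn
      have h3 : (q ^ E).factorization l = E := by
        rw [hlq, hq.factorization_pow, Finsupp.single_eq_same]
      omega
    · have h3 : (q ^ E).factorization l = 0 := by
        apply Nat.factorization_eq_zero_of_not_dvd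
        intro h2
        exact hlq ((Nat.prime_dvd_prime_iff_eq hl hq).1 (hl.dvd_of_dvd_pow h2))
      omega

theorem no_cube (hN : NF n π p e r f) (hh : h ≤ 2) (hE : E = 1 ∨ E = 2) (hq : q.Prime)
    (hq3 : q ≠ 3) (hqn : ¬ q ∣ n) {l : ℕ} (hl : l.Prime) : ¬ l ^ 3 ∣ 3 ^ h * (n * q ^ E) := by
  intro hd
  have h1 := (hl.pow_dvd_iff_le_factorization (nat_ne hN hq)).1 hd
  have h2 := fac hN hh hE hq hq3 hqn hl
  omega

theorem cubeFree (hN : NF n π p e r f) (hh : h ≤ 2) (hE : E = 1 ∨ E = 2) (hq : q.Prime)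
    (hq3 : q ≠ 3) (hqn : ¬ q ∣ n) : CubeRank.CubeFree (BB h n E q) := by
  intro l hl hd
  have h1 := Int.prime_iff_natAbs_prime.1 hl
  apply no_cube hN hh hE hq hq3 hqn h1
  rw [BB_nat] at hd
  have h2 := Int.natAbs_dvd_natAbs.2 hd
  rwa [Int.natAbs_pow, Int.natAbs_natCast] at h2

theorem not27 (hN : NF n π p e r f) (hh : h ≤ 2) (hE : E = 1 ∨ E = 2) (hq : q.Prime)
    (hq3 : q ≠ 3) (hqn : ¬ q ∣ n) : ¬ (27 : ℤ) ∣ BB h n E q := by
  intro hd
  apply no_cube hN hh hE hq hq3 hqn Nat.prime_three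
  rw [BB_nat] at hd
  have h2 : (27 : ℕ) ∣ 3 ^ h * (n * q ^ E) := by exact_mod_cast hd
  simpa using h2

theorem abs_ge (hN : NF n π p e r f) (hE : E = 1 ∨ E = 2) (hq : q.Prime) (hq3 : 3 < q) :
    3 ≤ (BB h n E q).natAbs := by
  rw [BB_nat, Int.natAbs_natCast]
  have h1 : q ∣ 3 ^ h * (n * q ^ E) := by
    apply Dvd.dvd.mul_left
    apply Dvd.dvd.mul_left
    exact dvd_pow_self q (by omega)
  have h2 := Nat.le_of_dvd (Nat.pos_of_ne_zero (nat_ne hN hq)) h1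
  omega

theorem tm_one (σ : PP) (b : Eis) : tm σ.1 1 b = 0 := by
  have h1 : ¬ σ.1 ∣ 1 := fun h => σ.2.1.not_isUnit (isUnit_of_dvd_one h)
  unfold tm
  rw [V_eq_zero h1, EHYP.ch_of_not_dvd σ.2.1 h1, sym_one σ.2.1 (F3R.not_dvd_three σ)]
  simp

theorem sl_one (b : Eis) : sl 1 b = 0 := by
  unfold sl
  simp_rw [tm_one]
  simp

theorem selM_one (B : ℤ) : SelM B 1 where
  ne := one_ne_zero
  nrm := ⟨1, by rw [map_one]; ring⟩
  sym σ := tm_one σ _
  unr σ _ := by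
    have h1 : ¬ σ.1 ∣ 1 := fun h => σ.2.1.not_isUnit (isUnit_of_dvd_one h)
    rw [V_eq_zero h1]
    exact dvd_zero 3
  lam _ := ⟨sl_one _, sl_one _⟩

/-- transport of a point -/
theorem pt_transport {B z W X1 Y1 u v : ℤ} (hPt : Pt B z X1 Y1) (hu : u ≠ 0) (hv : v ≠ 0)
    (hg : z * u ^ 3 = W * v ^ 3) : Pt B W (u * v * X1) (v ^ 2 * Y1) := by
  refine ⟨mul_ne_zero (mul_ne_zero hu hv) hPt.hX, mul_ne_zero (pow_ne_zero 2 hv) hPt.hY, ?_⟩
  obtain ⟨c0, hc0, h1⟩ := hPt.eq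
  refine ⟨c0 * u ^ 2, mul_ne_zero hc0 (pow_ne_zero 2 hu), ?_⟩
  have e1 : W * ((u * v * X1) ^ 3 + W * (v ^ 2 * Y1) ^ 3) =
      (W * v ^ 3) * (u ^ 3 * X1 ^ 3 + (W * v ^ 3) * Y1 ^ 3) := by ring
  rw [e1, ← hg]
  have e2 : z * u ^ 3 * (u ^ 3 * X1 ^ 3 + z * u ^ 3 * Y1 ^ 3) =
      u ^ 6 * (z * (X1 ^ 3 + z * Y1 ^ 3)) := by ring
  rw [e2, h1]
  ring

end NBKU

open NBKU in
/-- PTN_NBKU: the bound for the rank, `q = 1 (mod 3)`, generic case. -/
theorem NBKU_thm (hK : Stmt_KID) (hP : Stmt_NPSU) (hI : Stmt_NKIN) (hA : Stmt_NADU)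
    (hL : Stmt_NPLU) (hTENT : TENT) : Stmt_NBKU := by
  classical
  intro h n m k π p e r f w0 c s τ b X Y P Q P' Q' E q ρ hN hh hAd hSys hSw hT hgen hE hq hq3 hq1
    hIn hqn hqρ h0 h1
  have hq3' : q ≠ 3 := by omega
  have hB0 : BB h n E q ≠ 0 := BB_ne hN hq
  have hcf := cubeFree (h := h) hN hh hE hq hq3' hqn
  have h27 := not27 (h := h) hN hh hE hq hq3' hqn
  have habs := abs_ge (h := h) hN hE hq hq3
  have hnc : ¬ ∃ t : ℤ, t ^ 3 = BB h n E q := by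
    apply CubeRank.GenPf.not_cube hcf
    have h2 : ((BB h n E q).natAbs : ℤ) = |BB h n E q| := Int.natCast_natAbs _
    rw [← h2]
    exact_mod_cast habs
  obtain ⟨hBG, hTy, hAdm⟩ := hA h n m k π p e r f w0 c E q ρ hN hh hE hq hq1 hIn hqn hqρ
  obtain ⟨W, _, Ψ₁, hW, hΨ₁⟩ := hP h n m k π p e r f w0 c E q ρ hN hh hE hq hq1 hIn hqn hqρ
  rw [if_pos ⟨_, hAd (Fin.last s), h1⟩, add_zero] at hW
  set B := BB h n E q with hBdef
  set M := MaT (rv b) X Y (rs P) (rs Q) (rs P') (rs Q') B with hM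
  have hsupp : ∀ i : Fin (s + 1), ∀ l : ℕ, l.Prime → (l : ℤ) ∣ b i → l ∣ 3 * n := fun i =>
    (hAd i).1.supp
  have hAG : ∀ i : Fin s, AG B (rv b i) := fun i =>
    ((hAdm (b i.castSucc) (hsupp _)).1 ⟨hAd _, h0 i⟩).1
  have hne : ∀ i : Fin s, rv b i ≠ 0 := fun i => (hAd i.castSucc).1.ne
  have hker := (hTENT s τ (rv b) X Y _ _ _ _ B (ECLU.sysG_restr hSys) (ECLU.sw_restr hSw) hBG hAG
    (hT B hTy) hne).2
  -- the class of a point of the isogenous curve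
  have hz : ∀ z : ℤ, S2 B z → ∃ (g : Fin s → ℕ) (u v : ℤ) (j : ℕ), u ≠ 0 ∧ v ≠ 0 ∧
      z * B ^ j * u ^ 3 = (∏ i, rv b i ^ g i) * v ^ 3 ∧
      ∀ j, ∑ i, M j i * (g i : ZMod 3) = 0 := by
    rintro z (rfl | ⟨A, m', hA0, hsum, hprod, hcop, rfl⟩)
    · exact ⟨fun _ => 0, 1, 1, 0, one_ne_zero, one_ne_zero, by simp, fun j => by simp⟩
    · obtain ⟨z', X1, Y1, u, v, j, hu, hv, hz', hPt, hAGz, hLoc, hs⟩ :=
        hL h n m k π p e r f E q A m' hN hh hE hq hq3' hqn hA0 hsum hprod hcop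
      obtain ⟨g1, g2⟩ := (hAdm z' hs).2 ⟨hAGz, hLoc⟩
      obtain ⟨g, u', v', hu', hv', hg⟩ := hgen z' g1 g2
      change z' * u' ^ 3 = (∏ i, rv b i ^ g i) * v' ^ 3 at hg
      refine ⟨g, v * u', v' * u, j, mul_ne_zero hv hu', mul_ne_zero hv' hu, ?_, ?_⟩
      · have e1 : A 0 ^ 2 * A 1 * B ^ j * (v * u') ^ 3 =
            (A 0 ^ 2 * A 1 * B ^ j * v ^ 3) * u' ^ 3 := by ring
        rw [e1, ← hz']
        linear_combination (u ^ 3) * hg
      · by_cases hex : ∃ i, ¬ 3 ∣ g i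
        · exact hker g _ _ hex (pt_transport hPt hu' hv' hg)
        · push Not at hex
          intro j
          refine Finset.sum_eq_zero (fun i _ => ?_)
          rw [(ZMod.natCast_eq_zero_iff (g i) 3).2 (hex i), mul_zero]
  choose! g u v j hu hv hzg hzM using hz
  let Ψ₂ : ℤ → LinearMap.ker M.mulVecLin := fun z =>
    if hS : S2 B z then ⟨fun i => (g z i : ZMod 3), by
      rw [LinearMap.mem_ker]
      funext j'
      exact hzM z hS j'⟩ else 0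
  have hΨ₂ : ∀ z z', S2 B z → S2 B z' → Ψ₂ z = Ψ₂ z' →
      ∃ (u v : ℤ) (j : ℕ), u ≠ 0 ∧ v ≠ 0 ∧ z * u ^ 3 = z' * B ^ j * v ^ 3 := by
    intro z z' hS hS' hΨ
    have h2 : ∀ i, (g z i : ZMod 3) = g z' i := by
      intro i
      have h3 := congrArg (fun x : LinearMap.ker M.mulVecLin => (x : Fin s → ZMod 3) i) hΨ
      simp only [Ψ₂, dif_pos hS, dif_pos hS'] at h3
      exact h3
    obtain ⟨A, A', hA0, hA0', hAA⟩ := BKER.prod_cube (rv b) hne (g z) (g z') h2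
    refine ⟨B ^ j z * (u z * A * v z'), u z' * A' * v z, j z' + 2 * j z,
      mul_ne_zero (pow_ne_zero _ hB0) (mul_ne_zero (mul_ne_zero (hu z hS) hA0) (hv z' hS')),
      mul_ne_zero (mul_ne_zero (hu z' hS') hA0') (hv z hS), ?_⟩
    have e1 := hzg z hS
    have e2 := hzg z' hS'
    generalize (∏ i, rv b i ^ g z i) = w1 at *
    generalize (∏ i, rv b i ^ g z' i) = w2 at *
    rw [pow_add, mul_comm 2 (j z), pow_mul]
    generalize B ^ j z = β at *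
    generalize B ^ j z' = β' at *
    linear_combination (β ^ 2 * A ^ 3 * v z' ^ 3) * e1 - (β ^ 2 * A' ^ 3 * v z ^ 3) * e2 +
      (β ^ 2 * v z ^ 3 * v z' ^ 3) * hAA
  have hΨ₁' : ∀ ζ ζ', S1 B ζ → S1 B ζ' → Ψ₁ ζ = Ψ₁ ζ' →
      ∃ g g' : Eis, g ≠ 0 ∧ g' ≠ 0 ∧ ζ * g ^ 3 = ζ' * g' ^ 3 := by
    have hsel : ∀ ζ, S1 B ζ → SelM B ζ := by
      rintro ζ (rfl | ⟨x, y, z, hxy, hz0, heq, rfl⟩)
      · exact selM_one B
      · exact hI B x y z hB0 h27 hxy hz0 heq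
    intro ζ ζ' h2 h3 h4
    exact hΨ₁ ζ ζ' (hsel ζ h2) (hsel ζ' h3) h4
  obtain ⟨hfin, hidx⟩ := hK B hB0 hcf hnc W (LinearMap.ker M.mulVecLin) Ψ₁ Ψ₂ hΨ₁' hΨ₂
  have hkerd : Module.finrank (ZMod 3) (LinearMap.ker M.mulVecLin) = s - M.rank := by
    have h2 := LinearMap.finrank_range_add_finrank_ker M.mulVecLin
    rw [Module.finrank_fintype_fun_eq_card, Fintype.card_fin] at h2
    have h3 : Module.finrank (ZMod 3) (LinearMap.range M.mulVecLin) = M.rank := rfl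
    omega
  rw [Module.natCard_eq_pow_finrank (K := ZMod 3) (V := LinearMap.ker M.mulVecLin), Nat.card_zmod,
    hkerd] at hidx
  refine CubeRank.gen' B hcf habs _ hfin (hidx.trans ?_)
  rw [pow_add]
  exact Nat.mul_le_mul_right _ hW

end Pool.Agent.PTN
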