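import Pool.Agent.PTN.StA
import Pool.Agent.PT.EADM
import Pool.Agent.PTE.Stmts
import Pool.Agent.CubeRank.Main

/-!
# NBK0: the bound of the first descent, `q = 1 (mod 3)`
-/

set_option autoImplicit false

open NumberField IsDedekindDomain Finset
open scoped nonZeroDivisors Pointwise

namespace Pool.Agent.PTN

open Pool.Agent.Lib_helper18 Pool.Agent.Lib_helper18.Eis Pool.Agent.Lib_helper84.Cub
open Pool.Agent.PT Pool.Agent.PTE Pool.Agent.PT3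

namespace NBK0

/-! ### the number `3 ^ h n q ^ E` -/

theorem BB_eq (h n E q : ℕ) : BB h n E q = ((3 ^ h * n * q ^ E : ℕ) : ℤ) := by
  unfold BB
  push_cast
  rfl

section B

variable {h n m k : ℕ} {π : Fin m → PP} {p e : Fin m → ℕ} {r f : Fin k → ℕ} {E q : ℕ}

theorem N_ne (hN : NF n π p e r f) (hq : q.Prime) : 3 ^ h * n * q ^ E ≠ 0 :=
  mul_ne_zero (mul_ne_zero (pow_ne_zero _ (by norm_num)) (EADM.n_ne hN))
    (pow_ne_zero _ hq.ne_zero)

theorem fac_le (hN : NF n π p e r f) (hh : h ≤ 2) (hE : E = 1 ∨ E = 2) (hq : q.Prime)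
    (hq3 : 3 < q) (hqn : ¬ q ∣ n) (l : ℕ) : (3 ^ h * n * q ^ E).factorization l ≤ 2 := by
  have hn0 := EADM.n_ne hN
  have h30 : (3 : ℕ) ^ h ≠ 0 := pow_ne_zero _ (by norm_num)
  rw [Nat.factorization_mul (mul_ne_zero h30 hn0) (pow_ne_zero _ hq.ne_zero),
    Nat.factorization_mul h30 hn0, Finsupp.add_apply, Finsupp.add_apply,
    Nat.prime_three.factorization_pow, hq.factorization_pow, Finsupp.single_apply,
    Finsupp.single_apply]
  by_cases h3 : 3 = l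
  · subst h3
    rw [if_pos rfl, if_neg (by omega), Nat.factorization_eq_zero_of_not_dvd (EADM.three_not hN)]
    omega
  · by_cases hql : q = l
    · subst hql
      rw [if_neg h3, if_pos rfl, Nat.factorization_eq_zero_of_not_dvd hqn]
      omega
    · rw [if_neg h3, if_neg hql]
      have := EADM.fac_le hN l
      omega

theorem cubeFree_BB (hN : NF n π p e r f) (hh : h ≤ 2) (hE : E = 1 ∨ E = 2) (hq : q.Prime)
    (hq3 : 3 < q) (hqn : ¬ q ∣ n) : CubeRank.CubeFree (BB h n E q) := by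
  intro z hz hd
  have hl : z.natAbs.Prime := Int.prime_iff_natAbs_prime.1 hz
  rw [BB_eq] at hd
  have h1 : z.natAbs ^ 3 ∣ 3 ^ h * n * q ^ E := by
    have h2 := Int.natAbs_dvd_natAbs.2 hd
    rwa [Int.natAbs_pow, Int.natAbs_natCast] at h2
  have h3 := (hl.pow_dvd_iff_le_factorization (N_ne hN hq)).1 h1
  have h4 := fac_le hN hh hE hq hq3 hqn z.natAbs
  omega

theorem BB_ne (hN : NF n π p e r f) (hq : q.Prime) : BB h n E q ≠ 0 := by
  rw [BB_eq]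
  exact_mod_cast N_ne hN hq

theorem three_le (hN : NF n π p e r f) (hE : E = 1 ∨ E = 2) (hq : q.Prime) (hq3 : 3 < q) :
    3 ≤ (BB h n E q).natAbs := by
  rw [BB_eq, Int.natAbs_natCast]
  have h1 : q ∣ 3 ^ h * n * q ^ E := by
    refine Dvd.dvd.mul_left (dvd_pow_self q ?_) _
    omega
  have := Nat.le_of_dvd (Nat.pos_of_ne_zero (N_ne hN hq)) h1
  omega

theorem not_27 (hN : NF n π p e r f) (hh : h ≤ 2) (hE : E = 1 ∨ E = 2) (hq : q.Prime)
    (hq3 : 3 < q) (hqn : ¬ q ∣ n) : ¬ (27 : ℤ) ∣ BB h n E q := by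
  intro h1
  refine cubeFree_BB hN hh hE hq hq3 hqn 3 Int.prime_three ?_
  norm_num
  exact h1

end B

/-! ### the class `1` in the minus part -/

theorem tm_one (hSPP : SPP) (π : PP) (b : Eis) : tm π.1 1 b = 0 := by
  have hd : ¬ π.1 ∣ 1 := fun h => π.2.1.not_isUnit (isUnit_of_dvd_one h)
  unfold tm
  rw [EADM.ch_unit π.2.1 hd, sym_one π.2.1 (hSPP.2.2.2.1 π).1, V_eq_zero hd]
  simp

theorem sl_one' (hSPP : SPP) (b : Eis) : sl 1 b = 0 := by
  unfold sl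
  rw [finsum_eq_zero_of_forall_eq_zero fun π => tm_one hSPP π b, neg_zero]

theorem selM_one (hSPP : SPP) (B : ℤ) : SelM B 1 where
  ne := one_ne_zero
  nrm := ⟨1, by rw [map_one]; ring⟩
  sym π := tm_one hSPP π _
  unr π _ := by
    rw [V_eq_zero fun h => π.2.1.not_isUnit (isUnit_of_dvd_one h)]
    exact dvd_zero 3
  lam _ := ⟨sl_one' hSPP _, sl_one' hSPP _⟩

theorem selM_of_S1 (hSPP : SPP) (hI : Stmt_NKIN) {B : ℤ} (hB : B ≠ 0) (h27 : ¬ (27 : ℤ) ∣ B)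
    {ζ : Eis} (h : S1 B ζ) : SelM B ζ := by
  rcases h with rfl | ⟨x, y, z, hc, hz, he, rfl⟩
  · exact selM_one hSPP B
  · exact hI B x y z hB h27 hc hz he

/-! ### the plus part -/

/-- a representative supported on `3 n` with an exponent vector in `US` -/
def Rp (h n : ℕ) {m k : ℕ} (π : Fin m → PP) (p e : Fin m → ℕ) (r : Fin k → ℕ)
    (w0 : ZMod 3) (c : Fin m → ZMod 3) (A z z' : ℤ) : Prop :=
  z' ≠ 0 ∧ (∀ l : ℕ, l.Prime → (l : ℤ) ∣ z' → l ∣ 3 * n) ∧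
    exv p r z' ∈ US h n π p e r w0 c ∧
    ∃ (u v : ℤ) (j : ℕ), u ≠ 0 ∧ v ≠ 0 ∧ z' * u ^ 3 = z * A ^ j * v ^ 3

theorem exv_one {m k : ℕ} (p : Fin m → ℕ) (r : Fin k → ℕ) : exv p r 1 = 0 := by
  funext b
  simp [exv]

theorem join {A z₁ z₂ z₁' z₂' u₁ v₁ u₂ v₂ a b : ℤ} {i j : ℕ}
    (h₁ : z₁' * u₁ ^ 3 = z₁ * A ^ i * v₁ ^ 3) (h₂ : z₂' * u₂ ^ 3 = z₂ * A ^ j * v₂ ^ 3)
    (h : z₁' * a ^ 3 = z₂' * b ^ 3) :
    z₁ * (A ^ i * v₁ * a * u₂) ^ 3 = z₂ * A ^ (j + 2 * i) * (v₂ * b * u₁) ^ 3 := by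
  have e1 : z₁ * (A ^ i * v₁ * a * u₂) ^ 3 =
      (z₁ * A ^ i * v₁ ^ 3) * (A ^ i) ^ 2 * a ^ 3 * u₂ ^ 3 := by ring
  have e2 : z₂ * A ^ (j + 2 * i) * (v₂ * b * u₁) ^ 3 =
      (z₂ * A ^ j * v₂ ^ 3) * (A ^ i) ^ 2 * b ^ 3 * u₁ ^ 3 := by
    rw [pow_add, pow_mul']
    ring
  rw [e1, e2, ← h₁, ← h₂]
  linear_combination ((A ^ i) ^ 2 * u₁ ^ 3 * u₂ ^ 3) * h

end NBK0

open NBK0 in
theorem NBK0_thm (hK : Stmt_KID) (hP : Stmt_NPSU) (hI : Stmt_NKIN) (hA : Stmt_NADU)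
    (hL : Stmt_NPLU) (hV : Stmt_NVEC) (hSPP : SPP) (hSPLT : SPLT) : Stmt_NBK0 := by
  classical
  intro h n m k π p e r f w0 c E q hN hh hE hq hq3 hq1 hcl hqn
  obtain ⟨ρ, hρ⟩ := hSPLT.1 q hq hq1
  have hB0 : BB h n E q ≠ 0 := BB_ne hN hq
  have hcf := cubeFree_BB hN hh hE hq hq3 hqn
  have h3le : 3 ≤ (BB h n E q).natAbs := three_le hN hE hq hq3
  have hnc : ¬ ∃ t : ℤ, t ^ 3 = BB h n E q :=
    CubeRank.GenPf.not_cube hcf (by rw [Int.abs_eq_natAbs]; exact_mod_cast h3le)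
  have h27 := not_27 hN hh hE hq hq3 hqn
  obtain ⟨W, hWfin, Y, hWc, hY⟩ := hP h n m k π p e r f w0 c E q ρ hN hh hE hq hq1 hcl hqn hρ
  obtain ⟨-, -, hAd⟩ := hA h n m k π p e r f w0 c E q ρ hN hh hE hq hq1 hcl hqn hρ
  obtain ⟨hV1, hV2, -⟩ := hV h n m k π p e r f w0 c hN hh
  have hrep : ∀ z : ℤ, S2 (BB h n E q) z →
      ∃ z' : ℤ, Rp h n π p e r w0 c (BB h n E q) z z' := by
    rintro z (rfl | ⟨a, m', ha, hs, hpr, hco, rfl⟩)
    · refine ⟨1, one_ne_zero, ?_, ?_, 1, 1, 0, one_ne_zero, one_ne_zero, by ring⟩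
      · intro l hl hd
        have h1 : l ∣ 1 := by exact_mod_cast hd
        exact absurd (Nat.dvd_one.1 h1) hl.one_lt.ne'
      · rw [exv_one]
        exact Submodule.zero_mem _
    · obtain ⟨z', X, Y', u, v, j, hu, hv, he, -, hag, hloc, hsupp⟩ :=
        hL h n m k π p e r f E q a m' hN hh hE hq (by omega) hqn ha hs hpr hco
      have hadm := ((hAd z' hsupp).2 ⟨hag, hloc⟩).1
      exact ⟨z', hag.ne, hsupp, (hV1 z' hag.ne hsupp).1 hadm, u, v, j, hu, hv, he⟩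
  have hUfin : Finite (US h n π p e r w0 c) := inferInstance
  let Ψ : ℤ → US h n π p e r w0 c := fun z =>
    if hz : ∃ z' : ℤ, Rp h n π p e r w0 c (BB h n E q) z z' then
      ⟨exv p r hz.choose, hz.choose_spec.2.2.1⟩ else 0
  have hΨ : ∀ z (hz : ∃ z' : ℤ, Rp h n π p e r w0 c (BB h n E q) z z'),
      (Ψ z : Col m k → ZMod 3) = exv p r hz.choose := by
    intro z hz
    change ((if hz : ∃ z' : ℤ, Rp h n π p e r w0 c (BB h n E q) z z' then
      (⟨exv p r hz.choose, hz.choose_spec.2.2.1⟩ : US h n π p e r w0 c) else 0 :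
      US h n π p e r w0 c) : Col m k → ZMod 3) = _
    rw [dif_pos hz]
  have hkid := hK (BB h n E q) hB0 hcf hnc W (US h n π p e r w0 c) Y Ψ ?_ ?_
  · obtain ⟨hfi, hidx⟩ := hkid
    refine CubeRank.gen' (BB h n E q) hcf h3le _ hfi (hidx.trans ?_)
    have hU : Nat.card (US h n π p e r w0 c) = 3 ^ sN h n π p e r w0 c := by
      have h1 := Module.natCard_eq_pow_finrank (K := ZMod 3) (V := US h n π p e r w0 c)
      rw [Nat.card_zmod] at h1
      exact h1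
    have hW1 : Nat.card W ≤ 3 ^ (vN h n π p e r w0 c + 1) := by
      refine hWc.trans (Nat.pow_le_pow_right (by norm_num) ?_)
      split_ifs <;> omega
    rw [hU, pow_add]
    exact Nat.mul_le_mul_right _ hW1
  · intro ζ ζ' h1 h2 he
    exact hY ζ ζ' (selM_of_S1 hSPP hI hB0 h27 h1) (selM_of_S1 hSPP hI hB0 h27 h2) he
  · intro z z' h1 h2 he
    have hz := hrep z h1
    have hz' := hrep z' h2
    have he' : exv p r hz.choose = exv p r hz'.choose := by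
      rw [← hΨ z hz, ← hΨ z' hz', he]
    obtain ⟨g1, g2, -, u1, v1, j1, hu1, hv1, e1⟩ := hz.choose_spec
    obtain ⟨g1', g2', -, u2, v2, j2, hu2, hv2, e2⟩ := hz'.choose_spec
    obtain ⟨a, b, ha, hb, hab⟩ := (hV2 _ _ g1 g1' g2 g2').2 he'
    exact ⟨BB h n E q ^ j1 * v1 * a * u2, v2 * b * u1, j2 + 2 * j1,
      mul_ne_zero (mul_ne_zero (mul_ne_zero (pow_ne_zero _ hB0) hv1) ha) hu2,
      mul_ne_zero (mul_ne_zero hv2 hb) hu1, join e1 e2 hab⟩

end Pool.Agent.PTN
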