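import Pool.Agent.PTN.StA
import Pool.Agent.PT3.HYPU
import Pool.Agent.PT3.EHPT

/-!
# NPSU: the minus part, `q = 1 (mod 3)`
-/

set_option autoImplicit false

namespace Pool.Agent.PTN

open Pool.Agent.Lib_helper18 Pool.Agent.Lib_helper18.Eis Pool.Agent.Lib_helper84.Cub
open Pool.Agent.PT Pool.Agent.PTE Pool.Agent.PT3 Pool.Agent.PT.EHYP

namespace NPSU

/-! ### The space of the pairs -/

/-- the space of the pairs -/
def WS (h n : ℕ) {m k : ℕ} (π : Fin m → PP) (p e : Fin m → ℕ) (r : Fin k → ℕ)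
    (w0 : ZMod 3) (c : Fin m → ZMod 3) (σ : Col m k → ZMod 3) :
    Submodule (ZMod 3) ((Fin (m + 1) → ZMod 3) × ZMod 3) where
  carrier := {y | (¬ actR h n w0 → y.1 0 = 0) ∧ ∀ b : Col m k, (h = 0 → b ≠ Sum.inl 0) →
    Matrix.vecMul y.1 (Nm h n π p e r w0 c) b + y.2 * σ b = 0}
  add_mem' := by
    rintro u v ⟨h1, h2⟩ ⟨g1, g2⟩
    refine ⟨fun ha => ?_, fun b hb => ?_⟩
    · rw [Prod.fst_add, Pi.add_apply, h1 ha, g1 ha, add_zero]
    · rw [Prod.fst_add, Prod.snd_add, Matrix.add_vecMul, Pi.add_apply, add_mul]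
      linear_combination h2 b hb + g2 b hb
  zero_mem' := by
    refine ⟨fun ha => rfl, fun b hb => ?_⟩
    rw [Prod.fst_zero, Prod.snd_zero, Matrix.zero_vecMul, Pi.zero_apply, zero_mul, add_zero]
  smul_mem' := by
    rintro t u ⟨h1, h2⟩
    refine ⟨fun ha => ?_, fun b hb => ?_⟩
    · rw [Prod.smul_fst, Pi.smul_apply, h1 ha, smul_zero]
    · rw [Prod.smul_fst, Prod.smul_snd, Matrix.smul_vecMul, Pi.smul_apply, smul_eq_mul,
        smul_eq_mul]
      linear_combination t * h2 b hb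

section

variable {h n m k : ℕ} {π : Fin m → PP} {p e : Fin m → ℕ} {r f : Fin k → ℕ} {w0 : ZMod 3}
  {c : Fin m → ZMod 3}

theorem mem_WS {σ : Col m k → ZMod 3} {y : (Fin (m + 1) → ZMod 3) × ZMod 3} :
    y ∈ WS h n π p e r w0 c σ ↔ (¬ actR h n w0 → y.1 0 = 0) ∧
      ∀ b : Col m k, (h = 0 → b ≠ Sum.inl 0) →
        Matrix.vecMul y.1 (Nm h n π p e r w0 c) b + y.2 * σ b = 0 := Iff.rfl

theorem mem_VS {y : Fin (m + 1) → ZMod 3} :
    y ∈ VS h n π p e r w0 c ↔ (¬ actR h n w0 → y 0 = 0) ∧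
      ∀ b : Col m k, (h = 0 → b ≠ Sum.inl 0) →
        Matrix.vecMul y (Nm h n π p e r w0 c) b = 0 := Iff.rfl

theorem fst_mem {σ : Col m k → ZMod 3} {y : (Fin (m + 1) → ZMod 3) × ZMod 3}
    (hy : y ∈ WS h n π p e r w0 c σ) (h0 : y.2 = 0) : y.1 ∈ VS h n π p e r w0 c := by
  rw [mem_WS] at hy
  rw [mem_VS]
  refine ⟨hy.1, fun b hb => ?_⟩
  have h1 := hy.2 b hb
  rw [h0, zero_mul, add_zero] at h1
  exact h1

theorem fin_le0 (σ : Col m k → ZMod 3)
    (hT : ∀ y ∈ WS h n π p e r w0 c σ, y.2 = 0) :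
    Module.finrank (ZMod 3) (WS h n π p e r w0 c σ) ≤ vN h n π p e r w0 c := by
  let J : WS h n π p e r w0 c σ →ₗ[ZMod 3] VS h n π p e r w0 c :=
    LinearMap.codRestrict _ ((LinearMap.fst (ZMod 3) _ _).comp (WS h n π p e r w0 c σ).subtype)
      fun y => fst_mem y.2 (hT _ y.2)
  have hJ : Function.Injective J := by
    intro y y' hy
    have h1 : y.1.1 = y'.1.1 := congrArg Subtype.val hy
    apply Subtype.ext
    refine Prod.ext h1 ?_
    rw [hT _ y.2, hT _ y'.2]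
  exact LinearMap.finrank_le_finrank_of_injective hJ

theorem fin_le1 (σ : Col m k → ZMod 3) :
    Module.finrank (ZMod 3) (WS h n π p e r w0 c σ) ≤ vN h n π p e r w0 c + 1 := by
  let T : WS h n π p e r w0 c σ →ₗ[ZMod 3] ZMod 3 :=
    (LinearMap.snd (ZMod 3) _ _).comp (WS h n π p e r w0 c σ).subtype
  have h1 := LinearMap.finrank_range_add_finrank_ker T
  have h2 : Module.finrank (ZMod 3) (LinearMap.range T) ≤ 1 := by
    refine (Submodule.finrank_le _).trans ?_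
    rw [Module.finrank_self]
  let J : LinearMap.ker T →ₗ[ZMod 3] VS h n π p e r w0 c :=
    LinearMap.codRestrict _ (((LinearMap.fst (ZMod 3) _ _).comp
      (WS h n π p e r w0 c σ).subtype).comp (LinearMap.ker T).subtype)
      fun y => fst_mem y.1.2 (LinearMap.mem_ker.1 y.2)
  have hJ : Function.Injective J := by
    intro y y' hy
    have h3 : y.1.1.1 = y'.1.1.1 := congrArg Subtype.val hy
    apply Subtype.ext
    apply Subtype.ext
    refine Prod.ext h3 ?_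
    have h4 : y.1.1.2 = 0 := LinearMap.mem_ker.1 y.2
    have h5 : y'.1.1.2 = 0 := LinearMap.mem_ker.1 y'.2
    rw [h4, h5]
  have h3 : Module.finrank (ZMod 3) (LinearMap.ker T) ≤ vN h n π p e r w0 c :=
    LinearMap.finrank_le_finrank_of_injective hJ
  omega

/-- the pairing of an admissible class with the space of the pairs -/
theorem snd_zero {σ : Col m k → ZMod 3} {u : Col m k → ZMod 3}
    (hu : u ∈ US h n π p e r w0 c) (hs : ∑ b, u b * σ b ≠ 0) :
    ∀ y ∈ WS h n π p e r w0 c σ, y.2 = 0 := by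
  intro y hy
  obtain ⟨hu1, hu2, hu3⟩ := hu
  rw [mem_WS] at hy
  have h1 : ∑ b, u b * (Matrix.vecMul y.1 (Nm h n π p e r w0 c) b + y.2 * σ b) = 0 := by
    refine Finset.sum_eq_zero fun b _ => ?_
    by_cases hb : h = 0 ∧ b = Sum.inl 0
    · rw [hb.2, hu3 hb.1, zero_mul]
    · rw [hy.2 b fun h0 hb' => hb ⟨h0, hb'⟩, mul_zero]
  have h2 : ∑ b, u b * Matrix.vecMul y.1 (Nm h n π p e r w0 c) b = 0 := by
    have h3 : ∑ b, u b * Matrix.vecMul y.1 (Nm h n π p e r w0 c) b =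
        dotProduct (Matrix.vecMul y.1 (Nm h n π p e r w0 c)) u := by
      unfold dotProduct
      exact Finset.sum_congr rfl fun b _ => mul_comm _ _
    rw [h3, ← Matrix.dotProduct_mulVec]
    unfold dotProduct
    rw [Fin.sum_univ_succ]
    have h4 : y.1 0 * (Nm h n π p e r w0 c).mulVec u 0 = 0 := by
      by_cases ha : actR h n w0
      · rw [hu2 ha, mul_zero]
      · rw [hy.1 ha, zero_mul]
    rw [h4, zero_add]
    exact Finset.sum_eq_zero fun i _ => by rw [hu1 i, mul_zero]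
  have h5 : y.2 * ∑ b, u b * σ b = 0 := by
    rw [Finset.mul_sum]
    have h6 : ∑ b, u b * (Matrix.vecMul y.1 (Nm h n π p e r w0 c) b + y.2 * σ b) =
        ∑ b, u b * Matrix.vecMul y.1 (Nm h n π p e r w0 c) b + ∑ b, y.2 * (u b * σ b) := by
      rw [← Finset.sum_add_distrib]
      exact Finset.sum_congr rfl fun b _ => by ring
    rw [h6, h2, zero_add] at h1
    exact h1
  have hF3 : Fact (Nat.Prime 3) := ⟨Nat.prime_three⟩
  exact (mul_eq_zero.1 h5).resolve_right hs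

/-! ### The setting -/

/-- facts about `B` -/
structure Dat (h n E q : ℕ) {m : ℕ} (π : Fin m → PP) (e : Fin m → ℕ) (w0 : ZMod 3)
    (c : Fin m → ZMod 3) (ρ : PP) : Prop where
  ne : BB h n E q ≠ 0
  bv : lv (BB h n E q) = h
  bw : lw (BB h n E q) = wt ((n : ℤ) ^ 2) + w0
  vb : ∀ σ : PP, V σ.1 ((BB h n E q : ℤ) : Eis) = V σ.1 ((n * q ^ E : ℕ) : Eis)
  db : ∀ σ : PP, ¬ σ.1 ∣ ((n * q ^ E : ℕ) : Eis) → ¬ σ.1 ∣ ((BB h n E q : ℤ) : Eis)
  vi : ∀ i, V (π i).1 ((BB h n E q : ℤ) : Eis) = e i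
  ci : ∀ i, ch (π i).1 ((BB h n E q : ℤ) : Eis) = ch (π i).1 ((3 ^ h * n : ℕ) : Eis) + c i
  rn : ¬ ρ.1 ∣ (n : Eis)
  vr : V ρ.1 ((BB h n E q : ℤ) : Eis) = E

theorem dat (hSPP : SPP) (hLCL : LCL) {E q : ℕ} {ρ : PP} (hN : NF n π p e r f)
    (hE : E = 1 ∨ E = 2) (hq : q.Prime) (hq1 : q % 3 = 1) (hcl : InCT E π w0 c q)
    (hqn : ¬ q ∣ n) (hρ : (q : Eis) = ρ.1 * conj ρ.1) : Dat h n E q π e w0 c ρ := by
  obtain ⟨hcw, hci⟩ := hcl
  have h' := HYPU.ext hN hE ρ hq hq1 hqn hρ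
  have hn0 := HYPS.n_ne0 hN
  have hn1 := n_ne hN
  have h3n := three_n hN
  have hq0 : (q : Eis) ≠ 0 := by
    rw [hρ]
    exact mul_ne_zero ρ.2.1.ne_zero (prime_conj ρ.2.1).ne_zero
  obtain ⟨hBne, hBv, hBw⟩ := HYPU.l_BB hLCL (h := h) (E := E) h3n hq (Or.inl hq1) hn1
  rw [hcw] at hBw
  have h30 : (3 : Eis) ≠ 0 := by
    have := HYPU.cast_ne (x := 3) (by norm_num)
    exact_mod_cast this
  have hσ3 : ∀ σ : PP, ¬ σ.1 ∣ 3 := fun σ => (hSPP.2.2.2.1 σ).1
  have hBe : ((BB h n E q : ℤ) : Eis) = (3 : Eis) ^ h * ((n * q ^ E : ℕ) : Eis) := by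
    unfold BB
    push_cast
    ring
  have hn'0 := HYPS.n_ne0 h'
  have hVB : ∀ σ : PP, V σ.1 ((BB h n E q : ℤ) : Eis) = V σ.1 ((n * q ^ E : ℕ) : Eis) := by
    intro σ
    rw [hBe, V_mul σ.2.1 (pow_ne_zero _ h30) hn'0, V_pow σ.2.1 h30, V_eq_zero (hσ3 σ)]
    omega
  have hdB : ∀ σ : PP, ¬ σ.1 ∣ ((n * q ^ E : ℕ) : Eis) → ¬ σ.1 ∣ ((BB h n E q : ℤ) : Eis) := by
    intro σ h1 h2
    rw [hBe] at h2
    rcases σ.2.1.dvd_or_dvd h2 with h2 | h2
    · exact hσ3 σ (σ.2.1.dvd_of_dvd_pow h2)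
    · exact h1 h2
  have hi : ∀ i, Prime (π i).1 := fun i => (π i).2.1
  have h3 : ∀ i, ¬ (π i).1 ∣ 3 := fun i => hσ3 (π i)
  have hqi : ∀ i, ¬ (π i).1 ∣ (q : Eis) := fun i h5 => by
    rw [hρ] at h5
    have h6 := not_assoc h' i.succ 0
    have h7 := mt (assoc_iff h' i.succ 0) (Fin.succ_ne_zero i)
    simp only [Fin.cons_zero, Fin.cons_succ] at h6 h7
    rcases (hi i).dvd_or_dvd h5 with h5 | h5
    · exact h7 ((hi i).associated_of_dvd ρ.2.1 h5)
    · exact h6 ((hi i).associated_of_dvd (prime_conj ρ.2.1) h5)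
  refine ⟨hBne, hBv, hBw, hVB, hdB, fun i => ?_, fun i => ?_, ?_, ?_⟩
  · rw [hVB (π i)]
    have h1 := V_n_i hSPP h' i.succ
    simpa only [Fin.cons_succ] using h1
  · have h1 : ((BB h n E q : ℤ) : Eis) = ((3 ^ h * n : ℕ) : Eis) * (q : Eis) ^ E := by
      unfold BB
      push_cast
      ring
    have h2 : ((3 ^ h * n : ℕ) : Eis) ≠ 0 := by
      push_cast
      exact mul_ne_zero (pow_ne_zero _ h30) hn0
    rw [h1, ch_mul (hi i) (h3 i) h2 (pow_ne_zero _ hq0),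
      (add3_ch (hi i) (h3 i)).pow hq0 E, ch_of_not_dvd (hi i) (hqi i), hci i]
  · intro h1
    rcases HYPS.cls hSPP hN ρ.2.1 h1 with ⟨i, h2 | h2⟩ | ⟨j, h2⟩
    · have h7 := mt (assoc_iff h' 0 i.succ) (Fin.succ_ne_zero i).symm
      simp only [Fin.cons_zero, Fin.cons_succ] at h7
      exact h7 h2
    · have h6 := not_assoc h' 0 i.succ
      simp only [Fin.cons_zero, Fin.cons_succ] at h6
      exact h6 h2
    · have h6 := not_assoc_nat h' 0 (r j)
      simp only [Fin.cons_zero] at h6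
      exact h6 h2
  · rw [hVB ρ]
    have h1 := V_n_i hSPP h' 0
    simpa only [Fin.cons_zero] using h1

/-- the primes of the columns -/
theorem prm_dvd (hN : NF n π p e r f) (b : Col m k) : prm p r b ∣ 3 * n := by
  rcases b with b | j
  · refine Fin.cases ?_ (fun i => ?_) b
    · exact Dvd.intro _ rfl
    · refine Dvd.dvd.mul_left ?_ _
      change p i ∣ n
      rw [hN.eq]
      refine Dvd.dvd.mul_right ?_ _
      have h1 : p i ^ e i ∣ ∏ i, p i ^ e i := Finset.dvd_prod_of_mem _ (Finset.mem_univ i)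
      refine (dvd_pow_self _ ?_).trans h1
      have := hN.pe i
      omega
  · refine Dvd.dvd.mul_left ?_ _
    change r j ∣ n
    rw [hN.eq]
    refine Dvd.dvd.mul_left ?_ _
    have h1 : r j ^ f j ∣ ∏ j, r j ^ f j := Finset.dvd_prod_of_mem _ (Finset.mem_univ j)
    refine (dvd_pow_self _ ?_).trans h1
    have := hN.rf j
    omega

theorem prm_ne (hN : NF n π p e r f) (b : Col m k) : ((prm p r b : ℕ) : ℤ) ≠ 0 := by
  have h1 := prm_dvd hN b
  have h2 := n_ne hN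
  intro h3
  have h4 : prm p r b = 0 := by exact_mod_cast h3
  rw [h4] at h1
  have h5 := Nat.eq_zero_of_zero_dvd h1
  omega

/-- a prime of `PP` that divides the prime of a column divides `n` -/
theorem prm_supp (hSPP : SPP) (hN : NF n π p e r f) (b : Col m k) (σ : PP)
    (hσ : σ.1 ∣ (((prm p r b : ℕ) : ℤ) : Eis)) : σ.1 ∣ (n : Eis) := by
  obtain ⟨d, hd⟩ := prm_dvd hN b
  have h1 : σ.1 ∣ ((3 * n : ℕ) : Eis) := by
    rw [hd]
    push_cast
    rw [Int.cast_natCast] at hσ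
    exact Dvd.dvd.mul_right hσ _
  push_cast at h1
  rcases σ.2.1.dvd_or_dvd h1 with h2 | h2
  · exact absurd h2 (hSPP.2.2.2.1 σ).1
  · exact h2

/-- the entries of the matrix in the rows of the primes `π i` -/
theorem entry (hSPP : SPP) {E q : ℕ} {ρ : PP} (hN : NF n π p e r f)
    (hD : Dat h n E q π e w0 c ρ) (b : Col m k) (i : Fin m) :
    tm (π i).1 (((prm p r b : ℕ) : ℤ) : Eis) ((BB h n E q : ℤ) : Eis) =
      Nm h n π p e r w0 c i.succ b := by
  have hi : ∀ i, Prime (π i).1 := fun i => (π i).2.1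
  have h3 : ∀ i, ¬ (π i).1 ∣ 3 := fun i => (hSPP.2.2.2.1 (π i)).1
  rw [Int.cast_natCast]
  rcases b with b | j
  · refine Fin.cases ?_ (fun i' => ?_) b
    · change tm (π i).1 ((3 : ℕ) : Eis) _ = (e i : ZMod 3) * sym (π i).1 3
      rw [Nat.cast_ofNat]
      unfold tm
      rw [hD.vi i, V_eq_zero (h3 i), ch_of_not_dvd (hi i) (h3 i)]
      simp
    · change tm (π i).1 (p i' : Eis) _ = if i' = i then
            (e i : ZMod 3) * sym (π i).1 (conj (π i).1) -
              ch (π i).1 ((3 ^ h * n : ℕ) : Eis) - c i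
          else (e i : ZMod 3) * sym (π i).1 (p i' : Eis)
      unfold tm
      rw [hD.vi i, hD.ci i]
      split_ifs with hii
      · subst hii
        have hcj : ¬ (π i').1 ∣ conj (π i').1 := fun h5 =>
          not_assoc hN i' i' ((hi i').associated_of_dvd (prime_conj (π i').2.1) h5)
        rw [hN.pπ i', V_mul (hi i') (hi i').ne_zero (prime_conj (π i').2.1).ne_zero, V_self,
          V_eq_zero hcj, ch_mul (hi i') (h3 i') (hi i').ne_zero
            (prime_conj (π i').2.1).ne_zero, ch_self (hi i') (h3 i'),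
          ch_of_not_dvd (hi i') hcj]
        push_cast
        ring
      · have hnd : ¬ (π i).1 ∣ (p i' : Eis) := by
          rw [hN.pπ i']
          intro h5
          rcases (hi i).dvd_or_dvd h5 with h5 | h5
          · exact hii (assoc_iff hN i i' ((hi i).associated_of_dvd (π i').2.1 h5)).symm
          · exact not_assoc hN i i' ((hi i).associated_of_dvd (prime_conj (π i').2.1) h5)
        rw [V_eq_zero hnd, ch_of_not_dvd (hi i) hnd]
        push_cast
        ring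
  · change tm (π i).1 (r j : Eis) _ = (e i : ZMod 3) * sym (π i).1 (r j : Eis)
    have hnd : ¬ (π i).1 ∣ (r j : Eis) := fun h5 =>
      not_assoc_nat hN i (r j) ((hi i).associated_of_dvd (inert hSPP (hN.rp j) (hN.r2 j)).1 h5)
    unfold tm
    rw [hD.vi i, V_eq_zero hnd, ch_of_not_dvd (hi i) hnd]
    simp

/-- the values of the symbol at `lam` -/
theorem row (hSSL : SSL) (hLCL : LCL) {E q : ℕ} {ρ : PP} (hN : NF n π p e r f) (hh : h ≤ 2)
    (hD : Dat h n E q π e w0 c ρ) {z : Eis} (hz : SelM (BB h n E q) z) (b : Col m k)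
    (hb : h = 0 → b ≠ Sum.inl 0) :
    sl z (((prm p r b : ℕ) : ℤ) : Eis) = -sl z 4 * Nm h n π p e r w0 c 0 b := by
  have hlin := fun x hx => HYPU.sl_lin hSSL hLCL hz.ne x hx
  have hslB : sl z ((BB h n E q : ℤ) : Eis) = 0 := by
    unfold sl
    rw [finsum_eq_zero_of_forall_eq_zero fun σ => hz.sym σ, neg_zero]
  have hB := hlin _ hD.ne
  rw [hslB, hD.bv, hD.bw] at hB
  -- the classes at `lam` of the primes of the columns
  have hx : ∀ x : ℤ, x ≠ 0 → (h = 0 → lv x = 0) → sl z (x : Eis) =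
      -sl z 4 * (lw x + lv x * (wt ((n : ℤ) ^ 2) + w0)) := by
    intro x hx h0
    rw [hlin x hx]
    have hcase : h = 0 ∨ h = 1 ∨ h = 2 := by omega
    rcases hcase with hh0 | hh1 | hh2
    · rw [h0 hh0]
      ring
    · have h1 : lv (BB h n E q) = 1 := by
        rw [hD.bv, hh1]
        exact Nat.cast_one
      obtain ⟨h2, h5⟩ := hz.lam h1
      rw [h2, h5]
      ring
    · rw [hh2] at hB
      have h2 := three_zero (lv x * sl z 3)
      push_cast at hB
      linear_combination (lv x) * hB + h2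
  rw [hx _ (prm_ne hN b)]
  · congr 1
    rcases b with b | j
    · revert hb
      refine Fin.cases ?_ (fun i' => ?_) b
      · intro _
        change lw ((3 : ℕ) : ℤ) + lv ((3 : ℕ) : ℤ) * (wt ((n : ℤ) ^ 2) + w0) =
          wt ((n : ℤ) ^ 2) + w0
        rw [Nat.cast_ofNat, hLCL.2.2.1.1, hLCL.2.2.1.2]
        ring
      · intro _
        change lw ((p i' : ℕ) : ℤ) + lv ((p i' : ℕ) : ℤ) * (wt ((n : ℤ) ^ 2) + w0) =
          wt ((p i' : ℤ) ^ 2)
        have hp3 : ¬ (3 : ℤ) ∣ (p i' : ℤ) := by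
          intro h4
          have h5 : 3 ∣ p i' := by exact_mod_cast h4
          have := hN.p1 i'
          omega
        rw [(hLCL.2.2.2.1 _ hp3).1, (hLCL.2.2.2.1 _ hp3).2]
        ring
    · change lw ((r j : ℕ) : ℤ) + lv ((r j : ℕ) : ℤ) * (wt ((n : ℤ) ^ 2) + w0) =
          wt ((r j : ℤ) ^ 2)
      have hp3 : ¬ (3 : ℤ) ∣ (r j : ℤ) := by
        intro h4
        have h5 : 3 ∣ r j := by exact_mod_cast h4
        have := hN.r2 j
        omega
      rw [(hLCL.2.2.2.1 _ hp3).1, (hLCL.2.2.2.1 _ hp3).2]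
      ring
  · intro h0
    rcases b with b | j
    · revert hb
      refine Fin.cases ?_ (fun i' => ?_) b
      · intro hb
        exact absurd rfl (hb h0)
      · intro _
        have hp3 : ¬ (3 : ℤ) ∣ (p i' : ℤ) := by
          intro h4
          have h5 : 3 ∣ p i' := by exact_mod_cast h4
          have := hN.p1 i'
          omega
        exact (hLCL.2.2.2.1 _ hp3).1
    · have hp3 : ¬ (3 : ℤ) ∣ (r j : ℤ) := by
        intro h4
        have h5 : 3 ∣ r j := by exact_mod_cast h4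
        have := hN.r2 j
        omega
      exact (hLCL.2.2.2.1 _ hp3).1

/-- the pair of a class of the minus part -/
noncomputable def YY {m : ℕ} (π : Fin m → PP) (e : Fin m → ℕ) (ρ : PP) (z : Eis) :
    (Fin (m + 1) → ZMod 3) × ZMod 3 :=
  (Fin.cons (-sl z 4) fun i => (e i : ZMod 3) * (V (π i).1 z : ZMod 3), (V ρ.1 z : ZMod 3))

theorem mem_YY (hSPP : SPP) (hSSL : SSL) (hSCJ : SCJ) (hLCL : LCL) {E q : ℕ} {ρ : PP}
    (hN : NF n π p e r f) (hh : h ≤ 2) (hE : E = 1 ∨ E = 2) (hq : q.Prime) (hq1 : q % 3 = 1)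
    (hqn : ¬ q ∣ n) (hρ : (q : Eis) = ρ.1 * conj ρ.1)
    (hD : Dat h n E q π e w0 c ρ) {z : Eis} (hz : SelM (BB h n E q) z) :
    YY π e ρ z ∈ WS h n π p e r w0 c fun b => sym ρ.1 (((prm p r b : ℕ) : ℤ) : Eis) := by
  have h' := HYPU.ext hN hE ρ hq hq1 hqn hρ
  have hB0 := HYPU.cast_ne hD.ne
  have hE2 : (E : ZMod 3) * (E : ZMod 3) = 1 := by
    rcases hE with h1 | h1 <;> rw [h1] <;> decide
  have hF3 : Fact (Nat.Prime 3) := ⟨Nat.prime_three⟩
  obtain ⟨t, hzt⟩ := hz.nrm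
  rw [mem_WS]
  constructor
  · intro ha
    change -sl z 4 = 0
    have hcase : h = 0 ∨ h = 1 ∨ h = 2 := by omega
    rcases hcase with hh0 | hh1 | hh2
    · have hw : wt ((n : ℤ) ^ 2) + w0 ≠ 0 := fun h1 => ha (Or.inr ⟨hh0, h1⟩)
      have hslB : sl z ((BB h n E q : ℤ) : Eis) = 0 := by
        unfold sl
        rw [finsum_eq_zero_of_forall_eq_zero fun σ => hz.sym σ, neg_zero]
      have hB := HYPU.sl_lin hSSL hLCL hz.ne _ hD.ne
      rw [hslB, hD.bv, hD.bw, hh0] at hB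
      have h1 : (wt ((n : ℤ) ^ 2) + w0) * -sl z 4 = 0 := by
        push_cast at hB
        linear_combination -hB
      exact (mul_eq_zero.1 h1).resolve_left hw
    · have h1 : lv (BB h n E q) = 1 := by
        rw [hD.bv, hh1]
        exact Nat.cast_one
      rw [(hz.lam h1).2, neg_zero]
    · exact absurd (Or.inl hh2) ha
  · intro b hb
    have h6 := HYPU.finsum_tm hSPP hSCJ h' hB0 hD.vb hz.ne hzt hz.sym
      (fun σ h1 => hz.unr σ (hD.db σ h1)) _ (prm_ne hN b) fun σ hσ => by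
        push_cast
        exact Dvd.dvd.mul_right (prm_supp hSPP hN b σ hσ) _
    rw [Fin.sum_univ_succ] at h6
    simp only [Fin.cons_zero, Fin.cons_succ] at h6
    have h7 : sl z (((prm p r b : ℕ) : ℤ) : Eis) +
        ((E : ZMod 3) * (V ρ.1 z : ZMod 3) *
        tm ρ.1 (((prm p r b : ℕ) : ℤ) : Eis) ((BB h n E q : ℤ) : Eis) +
        ∑ i, (e i : ZMod 3) * (V (π i).1 z : ZMod 3) *
          tm (π i).1 (((prm p r b : ℕ) : ℤ) : Eis) ((BB h n E q : ℤ) : Eis)) = 0 := by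
      rw [← h6]
      unfold sl
      rw [neg_add_cancel]
    have htmρ : tm ρ.1 (((prm p r b : ℕ) : ℤ) : Eis) ((BB h n E q : ℤ) : Eis) =
        (E : ZMod 3) * sym ρ.1 (((prm p r b : ℕ) : ℤ) : Eis) := by
      have hx : ¬ ρ.1 ∣ (((prm p r b : ℕ) : ℤ) : Eis) := fun h1 =>
        hD.rn (prm_supp hSPP hN b ρ h1)
      unfold tm
      rw [hD.vr, V_eq_zero hx, ch_of_not_dvd ρ.2.1 hx]
      simp
    rw [row hSSL hLCL hN hh hD hz b hb, htmρ] at h7
    have h8 : Matrix.vecMul (YY π e ρ z).1 (Nm h n π p e r w0 c) b =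
        -sl z 4 * Nm h n π p e r w0 c 0 b + ∑ i, (e i : ZMod 3) * (V (π i).1 z : ZMod 3) *
          tm (π i).1 (((prm p r b : ℕ) : ℤ) : Eis) ((BB h n E q : ℤ) : Eis) := by
      unfold Matrix.vecMul dotProduct YY
      rw [Fin.sum_univ_succ]
      simp only [Fin.cons_zero, Fin.cons_succ]
      congr 1
      exact Finset.sum_congr rfl fun i _ => by rw [entry hSPP hN hD b i]
    rw [h8]
    change _ + (V ρ.1 z : ZMod 3) * sym ρ.1 (((prm p r b : ℕ) : ℤ) : Eis) = 0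
    linear_combination h7 - (V ρ.1 z : ZMod 3) * sym ρ.1 (((prm p r b : ℕ) : ℤ) : Eis) * hE2

/-- a class of the minus part with trivial pair is a cube -/
theorem cube (hSPP : SPP) (hSSL : SSL) (hLCL : LCL) {E q : ℕ} {ρ : PP}
    (hN : NF n π p e r f) (hE : E = 1 ∨ E = 2) (hq : q.Prime) (hq1 : q % 3 = 1)
    (hqn : ¬ q ∣ n) (hρ : (q : Eis) = ρ.1 * conj ρ.1)
    (hD : Dat h n E q π e w0 c ρ) {z : Eis} (hz : SelM (BB h n E q) z) (h4 : sl z 4 = 0)
    (hVi : ∀ i, (V (π i).1 z : ZMod 3) = 0) (hV0 : (V ρ.1 z : ZMod 3) = 0) :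
    ∃ γ : Eis, z = γ ^ 3 := by
  have h' := HYPU.ext hN hE ρ hq hq1 hqn hρ
  obtain ⟨t, hzt⟩ := hz.nrm
  have h40 : (4 : Eis) ≠ 0 := by
    have := HYPU.cast_ne (x := 4) (by norm_num)
    exact_mod_cast this
  have h4' : ((4 : ℤ) : Eis) = 4 := by push_cast; rfl
  have hun2 : ∀ σ : PP, ¬ σ.1 ∣ ((((n * q ^ E : ℕ) : ℤ) * (2 : ℕ) : ℤ) : Eis) →
      3 ∣ V σ.1 z := by
    intro σ hσ
    refine hz.unr σ (hD.db σ fun h1 => hσ ?_)
    rw [Int.cast_mul, Int.cast_natCast]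
    exact Dvd.dvd.mul_right h1 _
  obtain ⟨a, hF, hcube⟩ := decomp hSPP h' Nat.prime_two rfl hz.ne hzt hun2
  have hVall : ∀ i : Fin (m + 1), (V ((Fin.cons ρ π : Fin (m + 1) → PP) i).1 z : ZMod 3) = 0 := by
    intro i
    refine Fin.cases ?_ (fun i => ?_) i
    · exact hV0
    · exact hVi i
  have ha : (a : ZMod 3) = 0 := by
    have h1 := hF _ (add3_sl hSSL h40)
    have h5 : sl w 4 = 1 := by
      have h6 := hLCL.2.2.2.2.1 4 (by norm_num)
      rw [(HYPU.l_four hLCL).2, neg_neg, h4'] at h6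
      exact h6
    rw [h4, h5, Finset.sum_congr rfl fun i _ => by rw [hVall i, zero_mul], Finset.sum_const_zero,
      add_zero, mul_one] at h1
    exact h1.symm
  exact hcube ha hVall

end

/-- the minus part is closed under products with squares -/
theorem SelM_mul (hSTM : STM) (hSPP : SPP) (hSSL : SSL) {B : ℤ} (hB : B ≠ 0) {z z' : Eis}
    (hz : SelM B z) (hz' : SelM B z') : SelM B (z * z' ^ 2) := by
  have hB0 := HYPU.cast_ne hB
  have h30 : (3 : Eis) ≠ 0 := by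
    have := HYPU.cast_ne (x := 3) (by norm_num)
    exact_mod_cast this
  have h40 : (4 : Eis) ≠ 0 := by
    have := HYPU.cast_ne (x := 4) (by norm_num)
    exact_mod_cast this
  have hne := hz.ne
  have hne' := hz'.ne
  obtain ⟨t, ht⟩ := hz.nrm
  obtain ⟨t', ht'⟩ := hz'.nrm
  have hsl : ∀ b : Eis, b ≠ 0 → sl (z * z' ^ 2) b = sl z b + 2 * sl z' b := by
    intro b hb
    have h1 := add3_sl hSSL hb
    have h2 := h1 z (z' ^ 2) hne (pow_ne_zero _ hne')
    have h3 := h1.pow hne' 2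
    simp only at h2 h3
    rw [h2, h3]
    push_cast
    ring
  refine ⟨mul_ne_zero hne (pow_ne_zero _ hne'), ⟨t * t' ^ 2, ?_⟩, fun σ => ?_, fun σ hσ => ?_,
    fun hl => ⟨?_, ?_⟩⟩
  · rw [map_mul, map_pow]
    calc z * z' ^ 2 * (conj z * conj z' ^ 2) = (z * conj z) * (z' * conj z') ^ 2 := by ring
      _ = (t * t' ^ 2) ^ 3 := by
        rw [ht, ht']
        ring
  · have h1 := add3_tm hSTM σ.2.1 (hSPP.2.2.2.1 σ).1 hB0
    have h2 := h1 z (z' ^ 2) hne (pow_ne_zero _ hne')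
    have h3 := h1.pow hne' 2
    simp only at h2 h3
    rw [h2, h3, hz.sym σ, hz'.sym σ, mul_zero, add_zero]
  · rw [V_mul σ.2.1 hne (pow_ne_zero _ hne'), V_pow σ.2.1 hne']
    exact (Nat.dvd_add_right (hz.unr σ hσ)).2 (Dvd.dvd.mul_left (hz'.unr σ hσ) _)
  · rw [hsl 3 h30, (hz.lam hl).1, (hz'.lam hl).1]
    ring
  · rw [hsl 4 h40, (hz.lam hl).2, (hz'.lam hl).2]
    ring

/-- the sum over the columns -/
theorem sum_col (hSPP : SPP) {n m k : ℕ} {π : Fin m → PP} {p e : Fin m → ℕ} {r f : Fin k → ℕ}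
    (hN : NF n π p e r f) (ρ : PP) (hρn : ¬ ρ.1 ∣ (n : Eis)) {x : ℤ} (hx : x ≠ 0)
    (hs : ∀ l : ℕ, l.Prime → (l : ℤ) ∣ x → l ∣ 3 * n) :
    ∑ b : Col m k, exv p r x b * sym ρ.1 (((prm p r b : ℕ) : ℤ) : Eis) = sym ρ.1 (x : Eis) := by
  rw [EHPT.sym_eq hSPP hN ρ hρn hx hs, Fintype.sum_sum_type, Fin.sum_univ_succ]
  have h1 : ∀ b : Col m k, ch ρ.1 ((prm p r b : ℕ) : Eis) =
      sym ρ.1 (((prm p r b : ℕ) : ℤ) : Eis) := by
    intro b
    have h2 : ¬ ρ.1 ∣ (((prm p r b : ℕ) : ℤ) : Eis) := fun h3 =>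
      hρn (prm_supp hSPP hN b ρ h3)
    rw [Int.cast_natCast] at h2 ⊢
    exact ch_of_not_dvd ρ.2.1 h2
  rw [add_assoc]
  congr 1
  change _ = (∑ i, (padicValInt (p i) x : ZMod 3) * ch ρ.1 (p i : Eis)) +
    ∑ j, (padicValInt (r j) x : ZMod 3) * ch ρ.1 (r j : Eis)
  congr 1
  · refine Finset.sum_congr rfl fun i _ => ?_
    have h3 := h1 (Sum.inl i.succ)
    change ch ρ.1 (p i : Eis) = _ at h3
    rw [h3]
    rfl
  · refine Finset.sum_congr rfl fun j _ => ?_
    have h3 := h1 (Sum.inr j)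
    change ch ρ.1 (r j : Eis) = _ at h3
    rw [h3]
    rfl

end NPSU

open NPSU in
/-- PTN_NPSU: the minus part, `q = 1 (mod 3)`. -/
theorem NPSU_thm (hV : Stmt_NVEC) (hSTM : STM) (hSPP : SPP) (hSSL : SSL) (_hSLC : SLC)
    (_hSREC : SREC) (hSCJ : SCJ) (_hLCI : LCI) (_hSPLT : SPLT) (hLCL : LCL) : Stmt_NPSU := by
  classical
  intro h n m k π p e r f w0 c E q ρ hN hh hE hq hq1 hcl hqn hρ
  have hD : Dat h n E q π e w0 c ρ := dat hSPP hLCL hN hE hq hq1 hcl hqn hρ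
  obtain ⟨hV1, -, -⟩ := hV h n m k π p e r f w0 c hN hh
  set σ : Col m k → ZMod 3 := fun b => sym ρ.1 (((prm p r b : ℕ) : ℤ) : Eis) with hσ
  have hmem : ∀ z, SelM (BB h n E q) z → YY π e ρ z ∈ WS h n π p e r w0 c σ := fun z hz =>
    mem_YY hSPP hSSL hSCJ hLCL hN hh hE hq hq1 hqn hρ hD hz
  have hF3 : Fact (Nat.Prime 3) := ⟨Nat.prime_three⟩
  refine ⟨WS h n π p e r w0 c σ, inferInstance,
    fun z => if hz : SelM (BB h n E q) z then ⟨YY π e ρ z, hmem z hz⟩ else 0, ?_, ?_⟩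
  · rw [Module.natCard_eq_pow_finrank (K := ZMod 3), Nat.card_zmod]
    refine Nat.pow_le_pow_right (by norm_num) ?_
    split_ifs with hx
    · obtain ⟨x, hx1, hx2⟩ := hx
      have h1 := (hV1 x hx1.1.ne hx1.1.supp).1 hx1
      have h2 := sum_col hSPP hN ρ hD.rn hx1.1.ne hx1.1.supp
      rw [add_zero]
      refine fin_le0 σ (snd_zero h1 ?_)
      rw [hσ]
      dsimp only
      rw [h2]
      exact hx2
    · exact fin_le1 σ
  · intro z z' hz hz' hY
    dsimp only at hY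
    rw [dif_pos hz, dif_pos hz'] at hY
    have hY1 : YY π e ρ z = YY π e ρ z' := congrArg Subtype.val hY
    have h40 : (4 : Eis) ≠ 0 := by
      have := HYPU.cast_ne (x := 4) (by norm_num)
      exact_mod_cast this
    have h1 := congrArg Prod.fst hY1
    have h2 : (V ρ.1 z : ZMod 3) = (V ρ.1 z' : ZMod 3) := congrArg Prod.snd hY1
    have h3 : -sl z 4 = -sl z' 4 := congrFun h1 0
    have h4 : ∀ i : Fin m, (e i : ZMod 3) * (V (π i).1 z : ZMod 3) =
        (e i : ZMod 3) * (V (π i).1 z' : ZMod 3) := fun i => congrFun h1 i.succ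
    have h5 : ∀ i : Fin m, (V (π i).1 z : ZMod 3) = (V (π i).1 z' : ZMod 3) := by
      intro i
      have h6 := HYPS.e_sq hN i
      linear_combination (e i : ZMod 3) * h4 i - ((V (π i).1 z : ZMod 3) -
        (V (π i).1 z' : ZMod 3)) * h6
    have hz2 := SelM_mul hSTM hSPP hSSL hD.ne hz hz'
    have hne := hz.ne
    have hne' := hz'.ne
    have hVz : ∀ τ : PP, (V τ.1 z : ZMod 3) = (V τ.1 z' : ZMod 3) →
        (V τ.1 (z * z' ^ 2) : ZMod 3) = 0 := by
      intro τ hτ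
      rw [V_mul τ.2.1 hne (pow_ne_zero _ hne'), V_pow τ.2.1 hne']
      push_cast
      rw [hτ]
      linear_combination three_zero (V τ.1 z' : ZMod 3)
    have h6 : sl (z * z' ^ 2) 4 = 0 := by
      have h7 := add3_sl hSSL h40
      have h8 := h7 z (z' ^ 2) hne (pow_ne_zero _ hne')
      have h9 := h7.pow hne' 2
      simp only at h8 h9
      rw [h8, h9]
      push_cast
      linear_combination three_zero (sl z' 4) - h3
    obtain ⟨γ, hγ⟩ := cube hSPP hSSL hLCL hN hE hq hq1 hqn hρ hD hz2 h6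
      (fun i => hVz _ (h5 i)) (hVz _ h2)
    refine ⟨z', γ, hne', ?_, ?_⟩
    · rintro rfl
      rw [zero_pow (by norm_num)] at hγ
      exact mul_ne_zero hne (pow_ne_zero _ hne') hγ
    · rw [← hγ]
      ring

end Pool.Agent.PTN
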