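import Pool.Agent.PTN.StD

/-!
# The law of the ranks of prime twists for every `n`: densities (module BDG)
-/

set_option autoImplicit false

open NumberField IsDedekindDomain Finset
open scoped nonZeroDivisors Pointwise

namespace Pool.Agent.PTN

open Pool.Agent.Lib_helper18 Pool.Agent.Lib_helper18.Eis Pool.Agent.Lib_helper84.Cub
open Pool.Agent.PT Pool.Agent.PTE Pool.Agent.PT3 Pool.Agent.PTL
open Pool.Agent.PT.BDENS Pool.Agent.PTL.BD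

theorem BDG_thm (hGALG : GALG) (hEQD : EQD) (hDIR : DIR) : Stmt_BDG := by
  classical
  intro s b p q p' q' f m t κ c C Φ hSys hf h9 hκ
  obtain ⟨L, iF, iN, iG, χ, tt, N₀, hχ, hconj, hpow, heq, hfrob⟩ :=
    hGALG s b p q p' q' f hSys hf h9
  have h3 : 3 ∣ f := Dvd.dvd.trans (by norm_num) h9
  have hM : ∀ (Q : ℕ) (hQ : Q.Coprime f), M2 (ZMod.unitOfCoprime Q hQ) ↔ Q % 3 = 2 := by
    intro Q hQ
    unfold M2
    rw [ZMod.coe_unitOfCoprime, ZMod.val_natCast, Nat.mod_mod_of_dvd _ h3]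
  have hP : ∀ n : ℕ, n.Prime → ∀ hQ : n.Coprime f, n ∈ SP b p q p' q' t κ c C Φ →
      ∀ g : L ≃ₐ[ℚ] L, χ g = ZMod.unitOfCoprime n hQ →
      (∀ j i, j ≠ i → ∀ r : ℤ, (n : ℤ) ∣ r ^ 3 - b j →
        tt g j i = TAUV n (p j i) (q j i) (p' j i) (q' j i) r) → XP χ κ c C Φ t tt g := by
    intro n hn hQ hnS g hg htg
    obtain ⟨hQ', h1, h2, h4⟩ := hnS
    refine ⟨?_, ?_, ?_⟩
    · rw [hg]
      exact (hM n hQ).2 h1
    · rw [hg]
      exact h2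
    · rw [hg]
      exact h4 (tt g) htg
  have hN : ∀ n : ℕ, n.Prime → ∀ hQ : n.Coprime f, n ∈ SM b p q p' q' t κ c C Φ →
      ∀ g : L ≃ₐ[ℚ] L, χ g = ZMod.unitOfCoprime n hQ →
      (∀ j i, j ≠ i → ∀ r : ℤ, (n : ℤ) ∣ r ^ 3 - b j →
        tt g j i = TAUV n (p j i) (q j i) (p' j i) (q' j i) r) → XM χ κ c C Φ t tt g := by
    intro n hn hQ hnS g hg htg
    obtain ⟨hQ', h1, h2, h4⟩ := hnS
    refine ⟨?_, ?_, ?_⟩
    · rw [hg]
      exact (hM n hQ).2 h1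
    · rw [hg]
      exact h2
    · rw [hg]
      exact h4 (tt g) htg
  obtain ⟨K1, hK1⟩ := dens hDIR hf h3 κ c L χ tt N₀ hχ hconj hpow hfrob
    (fun g => XP χ κ c C Φ t tt g ∨ XM χ κ c C Φ t tt g)
    (inv_or χ κ c C Φ t tt hf h3) (SP b p q p' q' t κ c C Φ ∪ SM b p q p' q' t κ c C Φ)
    (by
      rintro n hn hQ (⟨hQ', h1, h2, -⟩ | ⟨hQ', h1, h2, -⟩)
      · exact ⟨h1, Or.inl h2⟩
      · exact ⟨h1, Or.inr h2⟩)
    (by
      rintro n hn hQ (h | h) g hg htg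
      · exact Or.inl (hP n hn hQ h g hg htg)
      · exact Or.inr (hN n hn hQ h g hg htg))
  obtain ⟨K2, hK2⟩ := dens hDIR hf h3 κ c L χ tt N₀ hχ hconj hpow hfrob
    (fun g => XP χ κ c C Φ t tt g ∧ XM χ κ c C Φ t tt g)
    (inv_and χ κ c C Φ t tt hf h3) (SP b p q p' q' t κ c C Φ ∩ SM b p q p' q' t κ c C Φ)
    (by
      rintro n hn hQ ⟨⟨hQ', h1, h2, -⟩, -⟩
      exact ⟨h1, Or.inl h2⟩)
    (by
      rintro n hn hQ ⟨h, h'⟩ g hg htg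
      exact ⟨hP n hn hQ h g hg htg, hN n hn hQ h' g hg htg⟩)
  obtain ⟨hX1, hX2⟩ := card_X χ κ c C Φ t tt hEQD hf hχ heq hκ
  have hincl := card_incl (fun g => XP χ κ c C Φ t tt g) (fun g => XM χ κ c C Φ t tt g)
  refine ⟨K1 + K2, fun σ h1 h2 => ?_⟩
  have e1 := hK1 σ h1 h2
  have e2 := hK2 σ h1 h2
  have hlog : 0 ≤ Real.log (1 / (σ - 1)) := by
    apply Real.log_nonneg
    rw [le_div_iff₀ (by linarith)]
    linarith
  rw [sm_union_inter _ _ h1]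
  have hG : 0 < Nat.card (L ≃ₐ[ℚ] L) := Nat.card_pos
  have hA : 0 < Nat.card (Fin s → Fin s → ZMod 3) := Nat.card_pos
  have hcnt : (Nat.card {g : L ≃ₐ[ℚ] L // XP χ κ c C Φ t tt g ∨ XM χ κ c C Φ t tt g} : ℝ) /
      Nat.card (L ≃ₐ[ℚ] L) +
      (Nat.card {g : L ≃ₐ[ℚ] L // XP χ κ c C Φ t tt g ∧ XM χ κ c C Φ t tt g} : ℝ) /
      Nat.card (L ≃ₐ[ℚ] L) ≤
      (NK s t : ℝ) / Nat.card (Fin s → Fin s → ZMod 3) / 3 ^ (m + 1) := by
    generalize Nat.card {g : L ≃ₐ[ℚ] L // XP χ κ c C Φ t tt g ∨ XM χ κ c C Φ t tt g} = n1 at *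
    generalize Nat.card {g : L ≃ₐ[ℚ] L // XP χ κ c C Φ t tt g ∧ XM χ κ c C Φ t tt g} = n2 at *
    generalize Nat.card {g : L ≃ₐ[ℚ] L // XP χ κ c C Φ t tt g} = x1 at *
    generalize Nat.card {g : L ≃ₐ[ℚ] L // XM χ κ c C Φ t tt g} = x2 at *
    generalize Nat.card (Fin s → Fin s → ZMod 3) = A at *
    generalize Nat.card (L ≃ₐ[ℚ] L) = g0 at *
    have hG' : (0 : ℝ) < g0 := Nat.cast_pos.2 hG
    have hA' : (0 : ℝ) < A := Nat.cast_pos.2 hA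
    have hF : (0 : ℝ) < 3 ^ (m + 1) := by positivity
    have i1 : (A : ℝ) * x1 * (2 * 3 ^ (m + 1)) ≤ NK s t * g0 := by exact_mod_cast hX1
    have i2 : (A : ℝ) * x2 * (2 * 3 ^ (m + 1)) ≤ NK s t * g0 := by exact_mod_cast hX2
    have i3 : (n1 : ℝ) + n2 = x1 + x2 := by exact_mod_cast hincl
    rw [← add_div, i3, div_div, div_le_div_iff₀ hG' (by positivity)]
    nlinarith
  have hmul := mul_le_mul_of_nonneg_right hcnt hlog
  rw [add_mul] at hmul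
  linarith

end Pool.Agent.PTN
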