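import Pool.Agent.PTN.StD
import Pool.Agent.PTE.DENSS

/-!
# PTN_BDL: the lower bound for the number of the primes with a given pattern
-/

set_option autoImplicit false

open NumberField IsDedekindDomain Finset
open scoped nonZeroDivisors Pointwise

namespace Pool.Agent.PTN

open Pool.Agent.Lib_helper18 Pool.Agent.Lib_helper18.Eis Pool.Agent.Lib_helper84.Cub
open Pool.Agent.PT Pool.Agent.PTE Pool.Agent.PT3 Pool.Agent.PTL

namespace BDL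

/-- Generators of a finite cyclic group are powers with exponent prime to `3`. -/
theorem exists_pow3 {G : Type} [Group G] [Finite G] {g h : G}
    (hz : Subgroup.zpowers h = Subgroup.zpowers g) : ∃ k : ℕ, ¬ 3 ∣ k ∧ h = g ^ k := by
  have h1 : h ∈ Subgroup.zpowers g := by
    rw [← hz]
    exact Subgroup.mem_zpowers h
  obtain ⟨k, hk⟩ := (isOfFinOrder_of_finite g).mem_powers_iff_mem_zpowers.2 h1
  have hk' : g ^ k = h := hk
  by_cases h3 : 3 ∣ k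
  · refine ⟨k + orderOf g, ?_, ?_⟩
    · intro h4
      have h5 : 3 ∣ orderOf g := (Nat.dvd_add_right h3).1 h4
      have h6 : orderOf h = orderOf g := by
        rw [← Nat.card_zpowers, ← Nat.card_zpowers, hz]
      obtain ⟨l, rfl⟩ := h3
      obtain ⟨n, hn⟩ := h5
      have h7 : h ^ n = 1 := by
        rw [← hk', ← pow_mul, show 3 * l * n = (3 * n) * l by ring, ← hn, pow_mul,
          pow_orderOf_eq_one, one_pow]
      have h8 : orderOf g ∣ n := h6 ▸ orderOf_dvd_of_pow_eq_one h7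
      have h9 : 0 < orderOf g := orderOf_pos g
      have h10 : 0 < n := by
        rcases Nat.eq_zero_or_pos n with h | h
        · rw [h, Nat.mul_zero] at hn
          omega
        · exact h
      have h11 := Nat.le_of_dvd h10 h8
      omega
    · rw [pow_add, pow_orderOf_eq_one, mul_one, hk']
  · exact ⟨k, h3, hk'.symm⟩

section
variable {G : Type} [Group G] [Finite G] {f m : ℕ} [NeZero f] (χ : G →* (ZMod f)ˣ)
    (κ : (ZMod f)ˣ →* Multiplicative (Fin (m + 1) → ZMod 3)) (F : G → Prop)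

/-- the elements of class `c` with the pattern -/
def YP (c : Fin (m + 1) → ZMod 3) (g : G) : Prop := M1 (χ g) ∧ (κ (χ g)).toAdd = c ∧ F g

omit [NeZero f] in
/-- The exponents prime to `3`. -/
theorem cases3 {k : ℕ} (hk : ¬ 3 ∣ k) (v : Fin (m + 1) → ZMod 3) : k • v = v ∨ k • v = -v := by
  rw [← Nat.cast_smul_eq_nsmul (ZMod 3)]
  have h0 : (k : ZMod 3) ≠ 0 := fun h => hk ((ZMod.natCast_eq_zero_iff k 3).1 h)
  have hc : (k : ZMod 3) = 1 ∨ (k : ZMod 3) = -1 := by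
    revert h0
    generalize (k : ZMod 3) = x
    revert x
    decide
  rcases hc with h | h
  · left
    rw [h, one_smul]
  · right
    rw [h, neg_smul, one_smul]

variable {χ κ F} in
/-- Stability. -/
theorem step (h3 : 3 ∣ f)
    (hconj : ∀ g τ : G, M1 (χ g) → F g → F (τ * g * τ⁻¹))
    (hpow : ∀ (g : G) (k : ℕ), M1 (χ g) → F g → ¬ 3 ∣ k → F (g ^ k))
    {g h τ : G} (hg : M1 (χ g)) (hF : F g)
    (hz : Subgroup.zpowers h = Subgroup.zpowers (τ * g * τ⁻¹)) :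
    M1 (χ h) ∧ F h ∧ ((κ (χ h)).toAdd = (κ (χ g)).toAdd ∨
      (κ (χ h)).toAdd = -(κ (χ g)).toAdd) := by
  have hχ : χ (τ * g * τ⁻¹) = χ g := by
    rw [map_mul, map_mul, map_inv, mul_comm (χ τ) (χ g), mul_inv_cancel_right]
  have hg' : M1 (χ (τ * g * τ⁻¹)) := by rw [hχ]; exact hg
  have hF' := hconj g τ hg hF
  obtain ⟨k, hk3, hk⟩ := exists_pow3 hz
  have c1 : χ h = χ g ^ k := by rw [hk, map_pow, hχ]
  have hFh : F h := by
    rw [hk]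
    exact hpow _ k hg' hF' hk3
  have hM : M1 (χ h) := by
    rw [DENSS.M1_iff h3] at hg ⊢
    rw [c1, Units.val_pow_eq_pow_val, map_pow, hg, one_pow]
  refine ⟨hM, hFh, ?_⟩
  have e1 : (κ (χ h)).toAdd = k • (κ (χ g)).toAdd := by rw [c1, map_pow, toAdd_pow]
  rw [e1]
  exact cases3 hk3 _

/-- Counting. -/
theorem count (s : ℕ) (c : Fin (m + 1) → ZMod 3) (hf : 0 < f) (hχ : Function.Surjective χ)
    (hcnt : ∀ a : (ZMod f)ˣ, M1 a → 3 ^ (s + 1) * Nat.card {g : G // χ g = a ∧ F g} =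
      2 * Nat.card {g : G // χ g = a})
    (hκ : Nat.card {a : (ZMod f)ˣ // M1 a ∧ (κ a).toAdd = c} * (2 * 3 ^ (m + 1)) = f.totient) :
    3 ^ (s + 1) * 3 ^ (m + 1) * Nat.card {g : G // YP χ κ F c g} = Nat.card G := by
  classical
  obtain ⟨hfib, hcard⟩ := BDENS.fibre χ hχ
  have hH : Nat.card (ZMod f)ˣ = f.totient := by
    rw [Nat.card_eq_fintype_card, ZMod.card_units_eq_totient]
  rw [hH] at hcard
  have e1 : Nat.card {g : G // YP χ κ F c g} =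
      Nat.card {g : G // (M1 (χ g) ∧ (κ (χ g)).toAdd = c) ∧ F g} :=
    Nat.card_congr (Equiv.subtypeEquivRight fun g => (and_assoc).symm)
  have e2 := DENS.card_fib (G := G) (β := (ZMod f)ˣ) χ
    (fun a => M1 a ∧ (κ a).toAdd = c) F
  have e3 : 3 ^ (s + 1) * Nat.card {g : G // YP χ κ F c g} =
      Nat.card {a : (ZMod f)ˣ // M1 a ∧ (κ a).toAdd = c} * (2 * Nat.card χ.ker) := by
    rw [e1, e2, Finset.mul_sum, Nat.card_eq_fintype_card, Fintype.card_subtype,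
      ← smul_eq_mul (Finset.card _), ← Finset.sum_const]
    refine Finset.sum_congr rfl fun a ha => ?_
    simp only [Finset.mem_filter, Finset.mem_univ, true_and] at ha
    rw [hcnt a ha.1, hfib a]
  generalize Nat.card {g : G // YP χ κ F c g} = n at *
  generalize Nat.card {a : (ZMod f)ˣ // M1 a ∧ (κ a).toAdd = c} = u at *
  generalize Nat.card χ.ker = K at *
  rw [← hcard, ← hκ]
  calc 3 ^ (s + 1) * 3 ^ (m + 1) * n = 3 ^ (s + 1) * n * 3 ^ (m + 1) := by ring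
    _ = u * (2 * K) * 3 ^ (m + 1) := by rw [e3]
    _ = K * (u * (2 * 3 ^ (m + 1))) := by ring

end

end BDL

open BDENS BDL in
/-- PTN_BDL. -/
theorem BDL_thm (hGALDU : Stmt_GALDU) (hSPLT : SPLT) : Stmt_BDL := by
  classical
  intro s b p q p' q' f m κ c hSys hf h9 hκ
  have : NeZero f := ⟨hf.ne'⟩
  have h3f : 3 ∣ f := dvd_trans (by norm_num) h9
  obtain ⟨L, iF, iN, iG, χ, F, t, N₀, hχ, hconj, hpow, -, hcnt, hfrob⟩ :=
    hGALDU s b p q p' q' f hSys hf h9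
  have hconj' : ∀ g τ : L ≃ₐ[ℚ] L, M1 (χ g) → F g → F (τ * g * τ⁻¹) :=
    fun g τ h1 h2 => (hconj g τ h1 h2).1
  have hpow' : ∀ (g : L ≃ₐ[ℚ] L) (k : ℕ), M1 (χ g) → F g → ¬ 3 ∣ k → F (g ^ k) :=
    fun g k h1 h2 h3 => (hpow g k h1 h2 h3).1
  have hcP := count χ κ F s c hf hχ hcnt (hκ c)
  have hcM := count χ κ F s (-c) hf hχ hcnt (hκ (-c))
  have hincl := BD.card_incl (fun g => YP χ κ F c g) (fun g => YP χ κ F (-c) g)
  -- stability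
  have hT1 : ∀ g h τ : L ≃ₐ[ℚ] L, g ∈ {g | YP χ κ F c g ∨ YP χ κ F (-c) g} →
      Subgroup.zpowers h = Subgroup.zpowers (τ * g * τ⁻¹) →
      h ∈ {g | YP χ κ F c g ∨ YP χ κ F (-c) g} := by
    rintro g h τ (⟨h1, h2, h4⟩ | ⟨h1, h2, h4⟩) hz
    · obtain ⟨g1, g2, g3⟩ := step (κ := κ) h3f hconj' hpow' h1 h4 hz
      rw [h2] at g3
      rcases g3 with g3 | g3
      · exact Or.inl ⟨g1, g3, g2⟩
      · exact Or.inr ⟨g1, g3, g2⟩
    · obtain ⟨g1, g2, g3⟩ := step (κ := κ) h3f hconj' hpow' h1 h4 hz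
      rw [h2, neg_neg] at g3
      rcases g3 with g3 | g3
      · exact Or.inr ⟨g1, g3, g2⟩
      · exact Or.inl ⟨g1, g3, g2⟩
  have hT2 : ∀ g h τ : L ≃ₐ[ℚ] L, g ∈ {g | YP χ κ F c g ∧ YP χ κ F (-c) g} →
      Subgroup.zpowers h = Subgroup.zpowers (τ * g * τ⁻¹) →
      h ∈ {g | YP χ κ F c g ∧ YP χ κ F (-c) g} := by
    rintro g h τ ⟨⟨h1, h2, h4⟩, -, h6, -⟩ hz
    obtain ⟨g1, g2, g3⟩ := step (κ := κ) h3f hconj' hpow' h1 h4 hz
    have h7 : c = -c := h2.symm.trans h6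
    rw [h2, ← h7, or_self] at g3
    exact ⟨⟨g1, g3, g2⟩, ⟨g1, g3.trans h7, g2⟩⟩
  -- the primes
  have hprime : ∀ (T : Set (L ≃ₐ[ℚ] L)), (∀ g h τ : L ≃ₐ[ℚ] L, g ∈ T →
      Subgroup.zpowers h = Subgroup.zpowers (τ * g * τ⁻¹) → h ∈ T) →
      ∀ Q ∈ {q : ℕ | ∃ g ∈ T, ∃ P : Ideal (𝓞 L), P.IsPrime ∧ (q : 𝓞 L) ∈ P ∧
        MulAction.stabilizer (L ≃ₐ[ℚ] L) P = Subgroup.zpowers g}, Q.Prime →
      Q ∉ Finset.range (N₀ + f + 1) → ∃ (hQ : Q.Coprime f) (ρ : PP) (g : L ≃ₐ[ℚ] L), g ∈ T ∧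
        χ g = ZMod.unitOfCoprime Q hQ ∧ (Q % 3 = 1 → (Q : Eis) = ρ.1 * conj ρ.1 ∧
          (F g → (∀ j : Fin s, sym ρ.1 (b j.castSucc : Eis) = 0) ∧
            sym ρ.1 (b (Fin.last s) : Eis) ≠ 0)) := by
    rintro T hT Q ⟨g, hg, P, hP, hQP, hst⟩ hQ hQA
    rw [Finset.mem_range, not_lt] at hQA
    have hcf : Q.Coprime f := by
      rw [Nat.Prime.coprime_iff_not_dvd hQ]
      intro hd
      have := Nat.le_of_dvd hf hd
      omega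
    obtain ⟨k, hk, hχk, hcl⟩ := hfrob Q hcf hQ (by omega) P g hP hQP hst
    have hφT : g ^ k ∈ T := by
      refine hT g (g ^ k) 1 hg ?_
      rw [one_mul, inv_one, mul_one]
      exact DENS.zp hk
    by_cases h1 : Q % 3 = 1
    · obtain ⟨ρ, hρ⟩ := hSPLT.1 Q hQ h1
      exact ⟨hcf, ρ, g ^ k, hφT, hχk, fun _ => ⟨hρ, ((hcl h1 ρ hρ).1).1⟩⟩
    · obtain ⟨ρ, -⟩ := hSPLT.1 7 (by norm_num) (by norm_num)
      exact ⟨hcf, ρ, g ^ k, hφT, hχk, fun h => absurd h h1⟩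
  have hcl : ∀ (Q : ℕ) (hQ : Q.Coprime f) (ρ : PP) (g : L ≃ₐ[ℚ] L)
      (d : Fin (m + 1) → ZMod 3), YP χ κ F d g → χ g = ZMod.unitOfCoprime Q hQ →
      (Q % 3 = 1 → (Q : Eis) = ρ.1 * conj ρ.1 ∧
          (F g → (∀ j : Fin s, sym ρ.1 (b j.castSucc : Eis) = 0) ∧
            sym ρ.1 (b (Fin.last s) : Eis) ≠ 0)) → ClQ b κ d Q hQ ρ := by
    rintro Q hQ ρ g d ⟨h1, h2, h4⟩ hg h5
    rw [hg] at h1 h2
    have h6 := DENSS.M1_Q h3f hQ h1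
    obtain ⟨h7, h8⟩ := h5 h6
    exact ⟨h6, h2, h7, h8 h4⟩
  obtain ⟨K1, hK1⟩ := RI.PDGE_thm _
    ({Q : ℕ | ∃ (hQ : Q.Coprime f) (ρ : PP), ClQ b κ c Q hQ ρ} ∪
      {Q : ℕ | ∃ (hQ : Q.Coprime f) (ρ : PP), ClQ b κ (-c) Q hQ ρ})
    (Finset.range (N₀ + f + 1)) _ (RI.FROBD_thm L _ hT1) (by
      intro Q hQS hQ hQA
      obtain ⟨hQf, ρ, g, hgT, hg, h5⟩ := hprime _ hT1 Q hQS hQ hQA
      rcases hgT with h | h
      · exact Or.inl ⟨hQf, ρ, hcl Q hQf ρ g c h hg h5⟩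
      · exact Or.inr ⟨hQf, ρ, hcl Q hQf ρ g (-c) h hg h5⟩)
  obtain ⟨K2, hK2⟩ := RI.PDGE_thm _
    ({Q : ℕ | ∃ (hQ : Q.Coprime f) (ρ : PP), ClQ b κ c Q hQ ρ} ∩
      {Q : ℕ | ∃ (hQ : Q.Coprime f) (ρ : PP), ClQ b κ (-c) Q hQ ρ})
    (Finset.range (N₀ + f + 1)) _ (RI.FROBD_thm L _ hT2) (by
      intro Q hQS hQ hQA
      obtain ⟨hQf, ρ, g, hgT, hg, h5⟩ := hprime _ hT2 Q hQS hQ hQA
      exact ⟨⟨hQf, ρ, hcl Q hQf ρ g c hgT.1 hg h5⟩, ⟨hQf, ρ, hcl Q hQf ρ g (-c) hgT.2 hg h5⟩⟩)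
  refine ⟨K1 + K2, fun σ h1 h2 => ?_⟩
  have e1 := hK1 σ h1 h2
  have e2 := hK2 σ h1 h2
  rw [BD.sm_union_inter _ _ h1]
  have hG : 0 < Nat.card (L ≃ₐ[ℚ] L) := Nat.card_pos
  have hcount : (2 : ℝ) / 3 ^ (s + 1) / 3 ^ (m + 1) =
      (Nat.card {g : L ≃ₐ[ℚ] L | YP χ κ F c g ∨ YP χ κ F (-c) g} : ℝ) /
        Nat.card (L ≃ₐ[ℚ] L) +
      (Nat.card {g : L ≃ₐ[ℚ] L | YP χ κ F c g ∧ YP χ κ F (-c) g} : ℝ) /
        Nat.card (L ≃ₐ[ℚ] L) := by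
    have i3 : (Nat.card {g : L ≃ₐ[ℚ] L | YP χ κ F c g ∨ YP χ κ F (-c) g} : ℝ) +
        Nat.card {g : L ≃ₐ[ℚ] L | YP χ κ F c g ∧ YP χ κ F (-c) g} =
        Nat.card {g : L ≃ₐ[ℚ] L // YP χ κ F c g} +
          Nat.card {g : L ≃ₐ[ℚ] L // YP χ κ F (-c) g} := by exact_mod_cast hincl
    rw [← add_div, i3]
    generalize Nat.card {g : L ≃ₐ[ℚ] L // YP χ κ F c g} = x1 at *
    generalize Nat.card {g : L ≃ₐ[ℚ] L // YP χ κ F (-c) g} = x2 at *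
    generalize Nat.card (L ≃ₐ[ℚ] L) = g0 at *
    have hG' : (0 : ℝ) < g0 := Nat.cast_pos.2 hG
    have i1 : (3 : ℝ) ^ (s + 1) * 3 ^ (m + 1) * x1 = g0 := by exact_mod_cast hcP
    have i2 : (3 : ℝ) ^ (s + 1) * 3 ^ (m + 1) * x2 = g0 := by exact_mod_cast hcM
    rw [div_div, div_eq_div_iff (by positivity) hG'.ne']
    linear_combination (-1 : ℝ) * i1 - i2
  rw [hcount, add_mul]
  have e1' : (Nat.card {g : L ≃ₐ[ℚ] L | YP χ κ F c g ∨ YP χ κ F (-c) g} : ℝ) /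
        Nat.card (L ≃ₐ[ℚ] L) * Real.log (1 / (σ - 1)) - K1 ≤
      sm ({Q : ℕ | ∃ (hQ : Q.Coprime f) (ρ : PP), ClQ b κ c Q hQ ρ} ∪
      {Q : ℕ | ∃ (hQ : Q.Coprime f) (ρ : PP), ClQ b κ (-c) Q hQ ρ}) σ := e1
  have e2' : (Nat.card {g : L ≃ₐ[ℚ] L | YP χ κ F c g ∧ YP χ κ F (-c) g} : ℝ) /
        Nat.card (L ≃ₐ[ℚ] L) * Real.log (1 / (σ - 1)) - K2 ≤
      sm ({Q : ℕ | ∃ (hQ : Q.Coprime f) (ρ : PP), ClQ b κ c Q hQ ρ} ∩
      {Q : ℕ | ∃ (hQ : Q.Coprime f) (ρ : PP), ClQ b κ (-c) Q hQ ρ}) σ := e2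
  linarith

end Pool.Agent.PTN
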