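import Pool.Agent.PTN.StD
import Pool.Agent.PTE.DIRS
import Pool.Agent.PTL.DL

/-!
# CLT: the number of the primes in a class, both exponents together
-/

set_option autoImplicit false

open NumberField IsDedekindDomain Finset
open scoped nonZeroDivisors Pointwise

namespace Pool.Agent.PTN

open Pool.Agent.Lib_helper18 Pool.Agent.Lib_helper18.Eis Pool.Agent.Lib_helper84.Cub
open Pool.Agent.PT Pool.Agent.PTE Pool.Agent.PT3 Pool.Agent.PTL

namespace CLT

open BDENS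

/-- the primes of finitely many residue classes -/
theorem two_sided (hDIR : DIR) {f : ℕ} (hf : 0 < f) (V : Finset (ZMod f)ˣ) (S : Set ℕ)
    (h : ∀ (n : ℕ) (hn : n.Coprime f), n.Prime → (n ∈ S ↔ ZMod.unitOfCoprime n hn ∈ V)) :
    ∃ K : ℝ, ∀ σ : ℝ, 1 < σ → σ ≤ 2 →
      (V.card : ℝ) / f.totient * Real.log (1 / (σ - 1)) - K ≤ sm S σ ∧
      sm S σ ≤ (V.card : ℝ) / f.totient * Real.log (1 / (σ - 1)) + K := by
  classical
  have : NeZero f := ⟨hf.ne'⟩
  have hcop : ∀ n : ℕ, n.Prime → n ∉ f.divisors → n.Coprime f := by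
    intro n hn hd
    rw [Nat.Prime.coprime_iff_not_dvd hn]
    intro hd'
    exact hd (Nat.mem_divisors.mpr ⟨hd', hf.ne'⟩)
  obtain ⟨C0, hC0⟩ := DL.total
  obtain ⟨K1, hK1⟩ := DIRS.upper hDIR hf V f.divisors S (by
    intro q hq hp hd
    have hc := hcop q hp hd
    exact ⟨ZMod.unitOfCoprime q hc, (h q hc hp).1 hq, (ZMod.coe_unitOfCoprime q hc).symm⟩)
  obtain ⟨K2, hK2⟩ := DIRS.upper hDIR hf Vᶜ f.divisors Sᶜ (by
    intro q hq hp hd
    have hc := hcop q hp hd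
    refine ⟨ZMod.unitOfCoprime q hc, ?_, (ZMod.coe_unitOfCoprime q hc).symm⟩
    rw [Finset.mem_compl]
    exact fun h' => hq ((h q hc hp).2 h'))
  refine ⟨max (C0 + K2) K1, fun σ h1 h2 => ?_⟩
  have e0 := hC0 σ h1 h2
  have e1 : sm S σ ≤ (V.card : ℝ) / f.totient * Real.log (1 / (σ - 1)) + K1 := hK1 σ h1 h2
  have e2 : sm Sᶜ σ ≤ (Vᶜ.card : ℝ) / f.totient * Real.log (1 / (σ - 1)) + K2 := hK2 σ h1 h2
  have e3 := BD.sm_union_inter S Sᶜ h1
  rw [Set.union_compl_self, Set.inter_compl_self] at e3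
  have e4 := DL.sm_nonneg ∅ σ
  have e5 : (Vᶜ.card : ℝ) / f.totient = 1 - (V.card : ℝ) / f.totient := by
    have hφ : (0 : ℝ) < f.totient := by exact_mod_cast Nat.totient_pos.mpr hf
    have h3 : V.card + Vᶜ.card = f.totient := by
      rw [Finset.card_add_card_compl, ZMod.card_units_eq_totient]
    have h4 : (V.card : ℝ) + Vᶜ.card = f.totient := by exact_mod_cast h3
    rw [eq_sub_iff_add_eq, ← add_div, add_comm, h4, div_self hφ.ne']
  rw [e5, sub_mul, one_mul] at e2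
  have m1 := le_max_left (C0 + K2) K1
  have m2 := le_max_right (C0 + K2) K1
  constructor
  · linarith
  · linarith

theorem wt_four {q : ℤ} (hq : ¬ (3 : ℤ) ∣ q) : wt ((q ^ 2) ^ 2) = 2 * wt (q ^ 2) := by
  have h := wt_mul (sq_mod_three hq) (sq_mod_three hq)
  rw [sq (q ^ 2), h]
  ring

theorem two_iff : ∀ x y : ZMod 3, 2 * x = y ↔ x = -y := by decide

end CLT

open CLT in
theorem CLT_thm (hDIR : DIR) (hCLSC : CLSC) (hCLSCS : CLSCS) : Stmt_CLT := by
  classical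
  intro m π p hp hp3 hpπ hinj w0 c a ha
  set f : ℕ := 9 * ∏ i, p i with hfdef
  have hf : 0 < f := Nat.mul_pos (by norm_num) (Finset.prod_pos fun i _ => (hp i).pos)
  have h9 : 9 ∣ f := Dvd.intro _ rfl
  have hpf : ∀ i, p i ∣ f := fun i => Dvd.dvd.mul_left (Finset.dvd_prod_of_mem _ (mem_univ i)) 9
  have : NeZero f := ⟨hf.ne'⟩
  have h3f : 3 ∣ f := dvd_trans (by norm_num) h9
  obtain ⟨κ, hκ, hM2⟩ := hCLSC m π p hp hp3 hpπ hinj f hf h9 hpf
  have hM1 := hCLSCS f m κ hf h9 hM2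
  have hcard : ∀ d : Fin (m + 1) → ZMod 3,
      Nat.card {u : (ZMod f)ˣ // (u : ZMod f).val % 3 = a ∧ (κ u).toAdd = d} *
        (2 * 3 ^ (m + 1)) = f.totient := by
    intro d
    rcases ha with rfl | rfl
    · exact hM1 d
    · exact hM2 d
  have hφ : 0 < f.totient := Nat.totient_pos.mpr hf
  have hV : ∀ d : Fin (m + 1) → ZMod 3,
      (((univ.filter (fun u : (ZMod f)ˣ => (u : ZMod f).val % 3 = a ∧
        (κ u).toAdd = d)).card : ℕ) : ℝ) / f.totient = 1 / (2 * 3 ^ (m + 1)) := by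
    intro d
    have h1 := hcard d
    rw [Nat.card_eq_fintype_card, Fintype.card_subtype] at h1
    rw [div_eq_div_iff (by exact_mod_cast hφ.ne') (by positivity), one_mul]
    exact_mod_cast h1
  have hmod : ∀ (n : ℕ) (hn : n.Coprime f),
      ((ZMod.unitOfCoprime n hn : (ZMod f)ˣ) : ZMod f).val % 3 = n % 3 := by
    intro n hn
    rw [ZMod.coe_unitOfCoprime, ZMod.val_natCast, Nat.mod_mod_of_dvd _ h3f]
  have hn3 : ∀ (n : ℕ), n.Coprime f → ¬ (3 : ℤ) ∣ (n : ℤ) := by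
    intro n hn hd
    have h1 : 3 ∣ n := by exact_mod_cast hd
    have h2 : 3 ∣ n.gcd f := Nat.dvd_gcd h1 h3f
    rw [hn] at h2
    omega
  obtain ⟨K1, hK1⟩ := two_sided hDIR hf
    (univ.filter (fun u : (ZMod f)ˣ => (u : ZMod f).val % 3 = a ∧
      (κ u).toAdd = (Fin.cons w0 c : Fin (m + 1) → ZMod 3)))
    {q : ℕ | q % 3 = a ∧ InCT 1 π w0 c q} (by
      intro n hn _
      rw [Finset.mem_filter, hmod, hκ, Set.mem_ofPred_eq, InCT, pow_one, Nat.cast_one]
      simp only [mem_univ, true_and, one_mul]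
      refine and_congr_right fun _ => ?_
      rw [Fin.cons_inj, funext_iff])
  obtain ⟨K2, hK2⟩ := two_sided hDIR hf
    (univ.filter (fun u : (ZMod f)ˣ => (u : ZMod f).val % 3 = a ∧
      (κ u).toAdd = (Fin.cons (-w0) (-c) : Fin (m + 1) → ZMod 3)))
    {q : ℕ | q % 3 = a ∧ InCT 2 π w0 c q} (by
      intro n hn _
      rw [Finset.mem_filter, hmod, hκ, Set.mem_ofPred_eq, InCT, wt_four (hn3 n hn)]
      simp only [mem_univ, true_and, Nat.cast_ofNat, two_iff]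
      refine and_congr_right fun _ => ?_
      rw [Fin.cons_inj, funext_iff]
      rfl)
  refine ⟨K1 + K2, fun σ h1 h2 => ?_⟩
  obtain ⟨a1, a2⟩ := hK1 σ h1 h2
  obtain ⟨b1, b2⟩ := hK2 σ h1 h2
  rw [hV] at a1 a2 b1 b2
  have e : (1 : ℝ) / 3 ^ (m + 1) * Real.log (1 / (σ - 1)) =
      1 / (2 * 3 ^ (m + 1)) * Real.log (1 / (σ - 1)) +
        1 / (2 * 3 ^ (m + 1)) * Real.log (1 / (σ - 1)) := by
    field_simp
    ring
  rw [e]
  constructor
  · linarith
  · linarith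

end Pool.Agent.PTN
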