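import Pool.Agent.PTN.StF
import Pool.Agent.PTL.CL
import Pool.Agent.PTN.CLT

/-!
# PTN_DLL: the number of the primes of a given pattern, lower bound
-/

set_option autoImplicit false

open NumberField IsDedekindDomain Finset
open scoped nonZeroDivisors Pointwise

namespace Pool.Agent.PTN

open Pool.Agent.Lib_helper18 Pool.Agent.Lib_helper18.Eis Pool.Agent.Lib_helper84.Cub
open Pool.Agent.PT Pool.Agent.PTE Pool.Agent.PT3 Pool.Agent.PTL

namespace DLL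

/-- a number in normal form is positive -/
theorem nf_pos {n m k : ℕ} {π : Fin m → PP} {p e : Fin m → ℕ} {r f : Fin k → ℕ}
    (h : NF n π p e r f) : 0 < n := by
  rw [h.eq]
  exact Nat.mul_pos (Finset.prod_pos fun i _ => pow_pos (h.pp i).pos _)
    (Finset.prod_pos fun j _ => pow_pos (h.rp j).pos _)

theorem neg_cancel3 : ∀ x y : ZMod 3, x = -y → 2 * x = y := by decide

end DLL

open DLL in
theorem DLL_thm (hESYT : ESYT) (hCLSC : CLSC) (hCLSCS : CLSCS) (hBDL : Stmt_BDL)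
    (hSPLT : SPLT) : Stmt_DLL := by
  intro h n m k π p e r f w0 c d v hNF hh hHB δ hδ
  obtain ⟨-, -, hHB3⟩ := hHB
  obtain ⟨s, τ, b, X, Y, hs, hAdm, hV, hind, h3, -, hρ⟩ := hHB3 δ hδ
  obtain ⟨P, Q, P', Q', hSys, -⟩ := hESYT h n m k π p e r f w0 c (s + 1) b hNF
    (fun i => (hAdm i).1) hV hind h3
  have hn0 := nf_pos hNF
  -- the classes
  set F : ℕ := 9 * ∏ i, p i with hF
  have hF0 : 0 < F := Nat.mul_pos (by norm_num) (Finset.prod_pos fun i _ => (hNF.pp i).pos)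
  have h9 : 9 ∣ F := Dvd.intro _ rfl
  have hpF : ∀ i, p i ∣ F :=
    fun i => Dvd.dvd.mul_left (Finset.dvd_prod_of_mem _ (mem_univ i)) 9
  have h3F : 3 ∣ F := dvd_trans (by norm_num) h9
  obtain ⟨κ, hκ, hM2⟩ := hCLSC m π p hNF.pp hNF.p1 hNF.pπ hNF.pinj F hF0 h9 hpF
  have hM1 := hCLSCS F m κ hF0 h9 hM2
  obtain ⟨K, hK⟩ := hBDL s b P Q P' Q' F m κ (Fin.cons w0 c) hSys hF0 h9 hM1
  -- the pattern
  have hpat : ∀ (q : ℕ) (hq : q.Coprime F) (ρ : PP) (c' : Fin (m + 1) → ZMod 3), q.Prime → n < q →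
      ClQ b κ c' q hq ρ → q ∈ Pat v δ := by
    intro q hq ρ c' hqp hnq hCl
    obtain ⟨h1, -, h2, h4, h5⟩ := hCl
    have hρn : ¬ ρ.1 ∣ (n : Eis) := by
      intro h6
      have h7 := (hSPLT.2 q ρ hqp h1 h2).2.2.2.1 (n : ℤ)
      rw [Int.cast_natCast] at h7
      exact absurd (Nat.le_of_dvd hn0 (Int.natCast_dvd_natCast.1 (h7.1 h6))) (by omega)
    exact ⟨ρ, h2, ((hρ ρ hρn).1).1 ⟨h4, h5⟩⟩
  have e1 : ∀ q : ℕ, q.Prime → n < q →
      q ∈ {q : ℕ | ∃ (hq : q.Coprime F) (ρ : PP), ClQ b κ (Fin.cons w0 c) q hq ρ} →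
      q ∈ WR h n π w0 c 1 1 0 ∩ Pat v δ := by
    rintro q hqp hnq ⟨hq, ρ, hCl⟩
    refine ⟨⟨hCl.1, ?_, Nat.zero_le _⟩, hpat q hq ρ _ hqp hnq hCl⟩
    have h1 := hCl.2.1
    rw [hκ, Fin.cons_inj] at h1
    refine ⟨by rw [pow_one]; exact h1.1, fun i => ?_⟩
    rw [Nat.cast_one, one_mul]
    exact congrFun h1.2 i
  have e2 : ∀ q : ℕ, q.Prime → n < q →
      q ∈ {q : ℕ | ∃ (hq : q.Coprime F) (ρ : PP), ClQ b κ (-Fin.cons w0 c) q hq ρ} →
      q ∈ WR h n π w0 c 1 2 0 ∩ Pat v δ := by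
    rintro q hqp hnq ⟨hq, ρ, hCl⟩
    refine ⟨⟨hCl.1, ?_, Nat.zero_le _⟩, hpat q hq ρ _ hqp hnq hCl⟩
    have h1 := hCl.2.1
    rw [hκ] at h1
    have hq3 : ¬ (3 : ℤ) ∣ (q : ℤ) := by
      intro hd
      have h1 : 3 ∣ q := by exact_mod_cast hd
      have h2 : 3 ∣ q.gcd F := Nat.dvd_gcd h1 h3F
      rw [hq] at h2
      omega
    refine ⟨?_, fun i => ?_⟩
    · rw [CLT.wt_four hq3]
      apply neg_cancel3
      have h2 := congrFun h1 0
      rw [Fin.cons_zero, Pi.neg_apply, Fin.cons_zero] at h2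
      exact h2
    · rw [Nat.cast_ofNat]
      apply neg_cancel3
      have h2 := congrFun h1 i.succ
      rw [Fin.cons_succ, Pi.neg_apply, Fin.cons_succ] at h2
      exact h2
  refine ⟨K + 2 * ((Finset.range (n + 1)).card : ℝ) + 2 * ((Finset.range (n + 1)).card : ℝ),
    fun σ h1 h2 => ?_⟩
  have a1 := hK σ h1 h2
  have a2 := CL.sm_le_add _ _ n e1 h1
  have a3 := CL.sm_le_add _ _ n e2 h1
  rw [hs] at a1
  linarith

end Pool.Agent.PTN
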