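import Pool.Agent.PTN.StD
import Pool.Agent.PT.EQD

/-!
# PTN_EQX: equidistribution
-/

namespace Pool.Agent.PTN

open Pool.Agent.PT

theorem EQX_thm : Stmt_EQX := by
  intro s X _ t hf C S
  constructor
  · refine EQD.main (fun x : X => C + t x) ?_ S
    intro e e'
    have h2 : ∀ e : EQD.Pr s → ZMod 3,
        Nat.card {x : X // EQD.rst (C + t x) = e} =
          Nat.card {x : X // ∀ j i, j < i → t x j i = (EQD.lft e - C) j i} := by
      intro e
      refine Nat.card_congr (Equiv.subtypeEquivRight fun x => ?_)
      rw [EQD.rst_eq_iff]
      refine forall₃_congr fun j i _ => ?_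
      show C j i + t x j i = EQD.lft e j i ↔ t x j i = EQD.lft e j i - C j i
      constructor
      · intro h3
        rw [← h3]
        ring
      · intro h3
        rw [h3]
        ring
    rw [h2, h2]
    exact hf _ _
  · refine EQD.main (fun x : X => C - t x) ?_ S
    intro e e'
    have h2 : ∀ e : EQD.Pr s → ZMod 3,
        Nat.card {x : X // EQD.rst (C - t x) = e} =
          Nat.card {x : X // ∀ j i, j < i → t x j i = (C - EQD.lft e) j i} := by
      intro e
      refine Nat.card_congr (Equiv.subtypeEquivRight fun x => ?_)
      rw [EQD.rst_eq_iff]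
      refine forall₃_congr fun j i _ => ?_
      show C j i - t x j i = EQD.lft e j i ↔ t x j i = C j i - EQD.lft e j i
      constructor
      · intro h3
        rw [← h3]
        ring
      · intro h3
        rw [h3]
        ring
    rw [h2, h2]
    exact hf _ _

end Pool.Agent.PTN
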