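import Pool.Agent.PTN.StG

/-!
# PTN_KAD: the Kummer map is a homomorphism modulo cubes
-/

set_option autoImplicit false

namespace Pool.Agent.PTN

open Pool.Agent.Lib_helper18 Pool.Agent.Lib_helper18.Eis Pool.Agent.Lib_helper84.Cub
open Pool.Agent.PT WeierstrassCurve.Affine

namespace KAD

/-- the line through three points of sum zero -/
lemma line_of_sum {K : Type} [Field K] [DecidableEq K] {W : WeierstrassCurve.Affine K} {d : K}
    (a1 : W.a₁ = 0) (a2 : W.a₂ = 0) (a3 : W.a₃ = 0) (a4 : W.a₄ = 0) (a6 : W.a₆ = d)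
    {x1 y1 x2 y2 x3 y3 : K} {h1 : W.Nonsingular x1 y1}
    {h2 : W.Nonsingular x2 y2} {h3 : W.Nonsingular x3 y3}
    (h : (Point.some x1 y1 h1 + Point.some x2 y2 h2 + Point.some x3 y3 h3 : W.Point) = 0) :
    ∃ ℓ μ : K, y1 = ℓ * x1 + μ ∧ y2 = ℓ * x2 + μ ∧ y3 = ℓ * x3 + μ ∧ x1 + x2 + x3 = ℓ ^ 2 ∧
      x1 * x2 + x1 * x3 + x2 * x3 = -2 * ℓ * μ ∧ x1 * x2 * x3 = μ ^ 2 - d := by
  by_cases hxy : x1 = x2 ∧ y1 = W.negY x2 y2
  · rw [Point.add_of_Y_eq hxy.1 hxy.2, zero_add] at h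
    exact absurd h (Point.some_ne_zero _)
  have hR : (Point.some x3 y3 h3 : W.Point) = -(Point.some x1 y1 h1 + Point.some x2 y2 h2) := by
    rw [eq_neg_iff_add_eq_zero, add_comm]
    exact h
  rw [Point.add_some hxy, Point.neg_some, Point.some.injEq] at hR
  obtain ⟨hx3, hy3⟩ := hR
  have hp := addPolynomial_slope h1.1 h2.1 hxy
  set ℓ := W.slope x1 x2 y1 y2 with hℓ
  rw [addPolynomial_eq, neg_inj, Cubic.prod_X_sub_C_eq, Cubic.toPoly_injective] at hp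
  rw [← hx3] at hp
  simp only [Cubic.mk.injEq] at hp
  obtain ⟨-, hb, hc, hd⟩ := hp
  have hx3' : x3 = ℓ ^ 2 - x1 - x2 := by
    rw [hx3, addX, a1, a2]
    ring
  have hy3' : y3 = ℓ * (x3 - x1) + y1 := by
    rw [hy3, addY, negY_negY, negAddY, ← hx3]
  rw [a1, a3, a4] at hc
  rw [a3, a6] at hd
  refine ⟨ℓ, y1 - ℓ * x1, by ring, ?_, ?_, ?_, ?_, ?_⟩
  · by_cases hx : x1 = x2
    · have hy : y1 ≠ W.negY x2 y2 := fun h => hxy ⟨hx, h⟩
      have := Y_eq_of_Y_ne h1.1 h2.1 hx hy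
      rw [← this, ← hx]
      ring
    · rw [hℓ, slope_of_X_ne hx]
      have : x1 - x2 ≠ 0 := sub_ne_zero.2 hx
      field_simp
      ring
  · rw [hy3']
    ring
  · rw [hx3']
    ring
  · linear_combination (-1 : K) * hc
  · linear_combination hd

variable {K : Type} [Field K] [CharZero K]

/-- the value of the Kummer map -/
def kv [DecidableEq K] (s y : K) : K := if y = s then (y + s) ^ 2 else y - s

variable [DecidableEq K]

lemma kv_pos (s : K) : kv s s = (2 * s) ^ 2 := by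
  unfold kv
  rw [if_pos rfl]
  ring

lemma kv_neg {s y : K} (h : y ≠ s) : kv s y = y - s := if_neg h

lemma kv_ne {s : K} (hs : s ≠ 0) (y : K) : kv s y ≠ 0 := by
  by_cases h : y = s
  · rw [h, kv_pos]
    exact pow_ne_zero _ (mul_ne_zero two_ne_zero hs)
  · rw [kv_neg h]
    exact sub_ne_zero.2 h

lemma kv_cube_neg {s x y : K} (hs : s ≠ 0) (h : y ^ 2 = x ^ 3 + s ^ 2) :
    ∃ g : K, g ≠ 0 ∧ kv s (-y) * kv s y = g ^ 3 := by
  have key : ∃ g : K, kv s (-y) * kv s y = g ^ 3 := by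
    by_cases h1 : y = s
    · have h2 : -s ≠ s := by
        intro h3
        have h4 : 2 * s = 0 := by linear_combination -h3
        rcases mul_eq_zero.1 h4 with h5 | h5
        · exact two_ne_zero h5
        · exact hs h5
      rw [h1, kv_pos, kv_neg h2]
      exact ⟨-2 * s, by ring⟩
    · by_cases h2 : -y = s
      · rw [h2, kv_pos, kv_neg h1]
        exact ⟨-2 * s, by rw [← h2]; ring⟩
      · rw [kv_neg h1, kv_neg h2]
        exact ⟨-x, by linear_combination -h⟩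
  obtain ⟨g, hg⟩ := key
  refine ⟨g, ?_, hg⟩
  rintro rfl
  have h3 := mul_ne_zero (kv_ne hs (-y)) (kv_ne hs y)
  rw [hg] at h3
  simp at h3

lemma kv_line {s ℓ μ x1 x2 x3 y1 y2 y3 : K} (hs : s ≠ 0) (e1 : y1 ^ 2 = x1 ^ 3 + s ^ 2)
    (e2 : y2 ^ 2 = x2 ^ 3 + s ^ 2) (e3 : y3 ^ 2 = x3 ^ 3 + s ^ 2)
    (l1 : y1 = ℓ * x1 + μ) (l2 : y2 = ℓ * x2 + μ) (l3 : y3 = ℓ * x3 + μ)
    (s1 : x1 + x2 + x3 = ℓ ^ 2) (s2 : x1 * x2 + x1 * x3 + x2 * x3 = -2 * ℓ * μ)
    (s3 : x1 * x2 * x3 = μ ^ 2 - s ^ 2) (h1 : y1 = s) :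
    ∃ g : K, kv s y1 * kv s y2 * kv s y3 = g ^ 3 := by
  have hx : ∀ {x y : K}, y ^ 2 = x ^ 3 + s ^ 2 → y = s → x = 0 := by
    intro x y h h'
    rw [h'] at h
    have h2 : x ^ 3 = 0 := by linear_combination -h
    exact pow_eq_zero_iff (three_ne_zero) |>.1 h2
  have x10 : x1 = 0 := hx e1 h1
  have hμ : μ = s := by rw [← h1, l1, x10]; ring
  have h23 : x2 * x3 = -2 * ℓ * s := by
    rw [← hμ, ← s2, x10]
    ring
  by_cases h2 : x2 = 0
  · have hl : ℓ = 0 := by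
      rw [h2, zero_mul] at h23
      have h4 : ℓ * s = 0 := by
        have h5 : (2 : K) * (ℓ * s) = 0 := by linear_combination h23
        exact (mul_eq_zero.1 h5).resolve_left two_ne_zero
      exact (mul_eq_zero.1 h4).resolve_right hs
    have y2s : y2 = s := by rw [l2, h2, hl, hμ]; ring
    have y3s : y3 = s := by rw [l3, hl, hμ]; ring
    rw [h1, y2s, y3s, kv_pos]
    exact ⟨(2 * s) ^ 2, by ring⟩
  · by_cases h3 : x3 = 0
    · have hl : ℓ = 0 := by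
        rw [h3, mul_zero] at h23
        have h4 : ℓ * s = 0 := by
          have h5 : (2 : K) * (ℓ * s) = 0 := by linear_combination h23
          exact (mul_eq_zero.1 h5).resolve_left two_ne_zero
        exact (mul_eq_zero.1 h4).resolve_right hs
      have y2s : y2 = s := by rw [l2, hl, hμ]; ring
      exact absurd (hx e2 y2s) h2
    · have y2s : y2 ≠ s := fun h => h2 (hx e2 h)
      have y3s : y3 ≠ s := fun h => h3 (hx e3 h)
      rw [h1, kv_pos, kv_neg y2s, kv_neg y3s]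
      refine ⟨-2 * s * ℓ, ?_⟩
      rw [l2, l3, hμ]
      linear_combination (2 * s) ^ 2 * ℓ ^ 2 * h23

lemma kv_sum {s ℓ μ x1 x2 x3 y1 y2 y3 : K} (hs : s ≠ 0) (e1 : y1 ^ 2 = x1 ^ 3 + s ^ 2)
    (e2 : y2 ^ 2 = x2 ^ 3 + s ^ 2) (e3 : y3 ^ 2 = x3 ^ 3 + s ^ 2)
    (l1 : y1 = ℓ * x1 + μ) (l2 : y2 = ℓ * x2 + μ) (l3 : y3 = ℓ * x3 + μ)
    (s1 : x1 + x2 + x3 = ℓ ^ 2) (s2 : x1 * x2 + x1 * x3 + x2 * x3 = -2 * ℓ * μ)
    (s3 : x1 * x2 * x3 = μ ^ 2 - s ^ 2) :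
    ∃ g : K, g ≠ 0 ∧ kv s y1 * kv s y2 * kv s y3 = g ^ 3 := by
  have key : ∃ g : K, kv s y1 * kv s y2 * kv s y3 = g ^ 3 := by
    by_cases h1 : y1 = s
    · exact kv_line hs e1 e2 e3 l1 l2 l3 s1 s2 s3 h1
    · by_cases h2 : y2 = s
      · obtain ⟨g, hg⟩ := kv_line hs e2 e1 e3 l2 l1 l3 (by rw [← s1]; ring)
          (by rw [← s2]; ring) (by rw [← s3]; ring) h2
        exact ⟨g, by rw [← hg]; ring⟩
      · by_cases h3 : y3 = s
        · obtain ⟨g, hg⟩ := kv_line hs e3 e2 e1 l3 l2 l1 (by rw [← s1]; ring)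
            (by rw [← s2]; ring) (by rw [← s3]; ring) h3
          exact ⟨g, by rw [← hg]; ring⟩
        · rw [kv_neg h1, kv_neg h2, kv_neg h3]
          refine ⟨μ - s, ?_⟩
          rw [l1, l2, l3]
          linear_combination ℓ ^ 3 * s3 + ℓ ^ 2 * (μ - s) * s2 + ℓ * (μ - s) ^ 2 * s1
  obtain ⟨g, hg⟩ := key
  refine ⟨g, ?_, hg⟩
  rintro rfl
  have h3 := mul_ne_zero (mul_ne_zero (kv_ne hs y1) (kv_ne hs y2)) (kv_ne hs y3)
  rw [hg] at h3
  simp at h3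

end KAD

open KAD in
theorem KAD_thm (h0 : Stmt_KEQ) : Stmt_KAD := by
  intro K _ _ _ ι c A hK hA
  obtain ⟨hns, hs2, hs, -, -, -⟩ := h0 K ι c A hK hA
  set s := sD ι A with hsd
  set W := WeierstrassCurve.Affine.baseChange (CubeRank.EA A).toAffine K with hW
  have a1 : W.a₁ = 0 := by
    change algebraMap ℚ K (CubeRank.EA A).a₁ = 0
    simp [CubeRank.EA]
  have a2 : W.a₂ = 0 := by
    change algebraMap ℚ K (CubeRank.EA A).a₂ = 0
    simp [CubeRank.EA]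
  have a3 : W.a₃ = 0 := by
    change algebraMap ℚ K (CubeRank.EA A).a₃ = 0
    simp [CubeRank.EA]
  have a4 : W.a₄ = 0 := by
    change algebraMap ℚ K (CubeRank.EA A).a₄ = 0
    simp [CubeRank.EA]
  have a6 : W.a₆ = s ^ 2 := by
    rw [hs2]
    change algebraMap ℚ K (CubeRank.EA A).a₆ = _
    simp [CubeRank.EA]
  have heq : ∀ {x y : K}, W.Nonsingular x y → y ^ 2 = x ^ 3 + s ^ 2 := by
    intro x y h
    rw [(hns x y).1 h, hs2]
    ring
  have hkz : kap ι (0 : HH A K) = 1 := rfl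
  have hks : ∀ (x y : K) (h : W.Nonsingular x y), kap ι (Point.some x y h : HH A K) = kv s y := by
    intro x y h
    by_cases hy : y = s
    · have e1 : kap ι (Point.some x y h : HH A K) = (y + s) ^ 2 := if_pos hy
      have e2 : kv s y = (y + s) ^ 2 := if_pos hy
      rw [e1, e2]
    · have e1 : kap ι (Point.some x y h : HH A K) = y - s := if_neg hy
      have e2 : kv s y = y - s := if_neg hy
      rw [e1, e2]
  have hne : ∀ Q : HH A K, kap ι Q ≠ 0 := by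
    intro Q
    rcases Q with _ | ⟨x, y, h⟩
    · change (1 : K) ≠ 0
      exact one_ne_zero
    · rw [hks]
      exact kv_ne hs y
  have hneg : ∀ Q : HH A K, ∃ g : K, g ≠ 0 ∧ kap ι (-Q) * kap ι Q = g ^ 3 := by
    intro Q
    rcases Q with _ | ⟨x, y, h⟩
    · refine ⟨1, one_ne_zero, ?_⟩
      change (1 : K) * 1 = 1 ^ 3
      ring
    · have hy : W.negY x y = -y := by
        rw [negY, a1, a3]
        ring
      rw [Point.neg_some, hks, hks, hy]
      exact kv_cube_neg hs (heq h)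
  have hsum : ∀ P Q R : HH A K, P ≠ 0 → Q ≠ 0 → R ≠ 0 → P + Q + R = 0 →
      ∃ g : K, g ≠ 0 ∧ kap ι P * kap ι Q * kap ι R = g ^ 3 := by
    intro P Q R hP hQ hR h
    rcases P with _ | ⟨x1, y1, h1⟩
    · exact absurd rfl hP
    rcases Q with _ | ⟨x2, y2, h2⟩
    · exact absurd rfl hQ
    rcases R with _ | ⟨x3, y3, h3⟩
    · exact absurd rfl hR
    obtain ⟨ℓ, μ, l1, l2, l3, s1, s2, s3⟩ := line_of_sum a1 a2 a3 a4 a6 h
    rw [hks, hks, hks]
    exact kv_sum hs (heq h1) (heq h2) (heq h3) l1 l2 l3 s1 s2 s3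
  refine ⟨hne, fun P Q => ?_⟩
  by_cases hP : P = 0
  · refine ⟨1, one_ne_zero, ?_⟩
    rw [hP, zero_add, hkz]
    ring
  by_cases hQ : Q = 0
  · refine ⟨1, one_ne_zero, ?_⟩
    rw [hQ, add_zero, hkz]
    ring
  by_cases hPQ : P + Q = 0
  · obtain ⟨b, hb, hb'⟩ := hneg P
    have hQP : Q = -P := (neg_eq_of_add_eq_zero_right hPQ).symm
    refine ⟨b⁻¹, inv_ne_zero hb, ?_⟩
    rw [hPQ, hkz, hQP, mul_comm (kap ι P), hb', inv_pow, mul_inv_cancel₀ (pow_ne_zero _ hb)]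
  obtain ⟨a, ha, ha'⟩ := hsum P Q (-(P + Q)) hP hQ (neg_ne_zero.2 hPQ) (add_neg_cancel _)
  obtain ⟨b, hb, hb'⟩ := hneg (P + Q)
  refine ⟨b / a, div_ne_zero hb ha, ?_⟩
  have h1 := hne (-(P + Q))
  apply mul_left_cancel₀ h1
  rw [hb', div_pow]
  have h2 : kap ι (-(P + Q)) * (kap ι P * kap ι Q * (b ^ 3 / a ^ 3)) =
      (kap ι P * kap ι Q * kap ι (-(P + Q))) * (b ^ 3 / a ^ 3) := by ring
  rw [h2, ha', mul_div_cancel₀]
  exact pow_ne_zero _ ha

end Pool.Agent.PTN
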