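import Pool.Agent.PTN.StG

/-!
# PTN_KEMB: the rational points and complex conjugation (statement of helper3)
-/

set_option autoImplicit false

namespace Pool.Agent.PTN.KEMB

open Pool.Agent.Lib_helper18 Pool.Agent.Lib_helper18.Eis Pool.Agent.Lib_helper84.Cub
open Pool.Agent.PT WeierstrassCurve.Affine

/-- the points over the rationals of the base change to the rationals are the rational points -/
noncomputable def idHom (A : ℤ) :
    CubeRank.GA A →+ (WeierstrassCurve.Affine.baseChange (CubeRank.EA A).toAffine ℚ).Point :=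
  AddMonoidHom.id _

theorem idHom_some (A : ℤ) (x y : ℚ) (h) : ∃ h', idHom A (.some x y h) = .some x y h' := ⟨h, rfl⟩

theorem idHom_injective (A : ℤ) : Function.Injective (idHom A) := fun _ _ h => h

variable {K : Type} [Field K] [CharZero K]

/-- an element fixed by the conjugation is rational -/
theorem rational_of_fixed {ι : Eis →+* K} {c : K →ₐ[ℚ] K} (hK : KF K ι c) {z : K} (hz : c z = z) :
    ∃ q : ℚ, z = (q : K) := by
  obtain ⟨e, d, hd, he⟩ := hK.frac z
  have hd' : (d : K) ≠ 0 := Int.cast_ne_zero.mpr hd
  have h1 : ι (conj e) = ι e := by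
    rw [← hK.conj e, ← he, map_mul, hz, map_intCast]
  have h2 : conj e = e := hK.inj h1
  have h3 : e.im = 0 := by
    have := congrArg Eis.im h2
    rw [conj_im] at this
    omega
  have h4 : e = (e.re : Eis) := by
    ext
    · simp
    · simp [h3]
  refine ⟨(e.re : ℚ) / (d : ℚ), ?_⟩
  rw [h4, map_intCast] at he
  push_cast
  rw [eq_div_iff hd', he]

theorem _root_.Pool.Agent.PTN.KEMB_thm : Stmt_KEMB := by
  intro K _ _ _ ι c A hK hA
  refine ⟨Point.map c, (Point.map (W' := (CubeRank.EA A).toAffine) (Algebra.ofId ℚ K)).comp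
    (idHom A), ?_, ?_, ?_, ?_, ?_⟩
  · intro x y h
    exact ⟨_, rfl⟩
  · intro x y h
    refine ⟨((CubeRank.EA A).toAffine.baseChange_nonsingular (Algebra.ofId ℚ K).injective ..).mpr
      h, rfl⟩
  · exact (Point.map_injective _).comp (idHom_injective A)
  · intro Q
    rcases Q with _ | ⟨x, y, h⟩
    · rfl
    · have hcc : ∀ z : K, c (c z) = z := by
        intro z
        obtain ⟨e, d, hd, he⟩ := hK.frac z
        have hd' : (d : K) ≠ 0 := Int.cast_ne_zero.mpr hd
        have h1 : c (c z) * d = z * d := by
          calc c (c z) * d = c (c (z * d)) := by simp only [map_mul, map_intCast]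
            _ = z * d := by rw [he, hK.conj, hK.conj, conj_conj]
        exact mul_right_cancel₀ hd' h1
      change Point.some _ _ _ = Point.some _ _ _
      simp only [Point.some.injEq]
      exact ⟨hcc x, hcc y⟩
  · intro Q
    constructor
    · intro hQ
      rcases Q with _ | ⟨x, y, h⟩
      · exact ⟨0, rfl⟩
      · change Point.some _ _ _ = Point.some _ _ _ at hQ
        simp only [Point.some.injEq] at hQ
        obtain ⟨q, rfl⟩ := rational_of_fixed hK hQ.1
        obtain ⟨r, rfl⟩ := rational_of_fixed hK hQ.2
        exact ⟨.some q r (((CubeRank.EA A).toAffine.baseChange_nonsingular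
          (Algebra.ofId ℚ K).injective ..).mp h), rfl⟩
    · rintro ⟨P, rfl⟩
      rcases P with _ | ⟨x, y, h⟩
      · rfl
      · change Point.some _ _ _ = Point.some _ _ _
        simp only [Point.some.injEq]
        exact ⟨c.commutes x, c.commutes y⟩

end Pool.Agent.PTN.KEMB
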