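import Pool.Agent.PTN.StG

/-!
# PTN_KEQ: the points of `y² = x³ - 432 A²` over `K = Q(w)`
-/

set_option autoImplicit false

namespace Pool.Agent.PTN

open Pool.Agent.Lib_helper18 Pool.Agent.Lib_helper18.Eis Pool.Agent.Lib_helper84.Cub
open Pool.Agent.PT WeierstrassCurve.Affine

namespace KEQ

/-- the base changed curve -/
abbrev WK (K : Type) [Field K] [CharZero K] (A : ℤ) : WeierstrassCurve.Affine K :=
  WeierstrassCurve.Affine.baseChange (CubeRank.EA A).toAffine K

theorem wk_a1 (K : Type) [Field K] [CharZero K] (A : ℤ) : (WK K A).a₁ = 0 :=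
  map_zero (algebraMap ℚ K)

theorem wk_a2 (K : Type) [Field K] [CharZero K] (A : ℤ) : (WK K A).a₂ = 0 :=
  map_zero (algebraMap ℚ K)

theorem wk_a3 (K : Type) [Field K] [CharZero K] (A : ℤ) : (WK K A).a₃ = 0 :=
  map_zero (algebraMap ℚ K)

theorem wk_a4 (K : Type) [Field K] [CharZero K] (A : ℤ) : (WK K A).a₄ = 0 :=
  map_zero (algebraMap ℚ K)

theorem wk_a6 (K : Type) [Field K] [CharZero K] (A : ℤ) : (WK K A).a₆ = -432 * (A : K) ^ 2 := by
  have h : (WK K A).a₆ = algebraMap ℚ K (-432 * (A : ℚ) ^ 2) := rfl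
  rw [h]
  simp

theorem ns_iff (K : Type) [Field K] [CharZero K] (A : ℤ) (hA : A ≠ 0) (x y : K) :
    (WeierstrassCurve.Affine.baseChange (CubeRank.EA A).toAffine K).Nonsingular x y ↔
      y ^ 2 = x ^ 3 - 432 * (A : K) ^ 2 := by
  have hAK : (A : K) ≠ 0 := by exact_mod_cast hA
  change (WK K A).Nonsingular x y ↔ y ^ 2 = x ^ 3 - 432 * (A : K) ^ 2
  have h1 : (WK K A).Equation x y ↔ y ^ 2 = x ^ 3 - 432 * (A : K) ^ 2 := by
    rw [WeierstrassCurve.Affine.equation_iff, wk_a1, wk_a2, wk_a3, wk_a4, wk_a6]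
    constructor
    · intro h; linear_combination h
    · intro h; linear_combination h
  rw [WeierstrassCurve.Affine.nonsingular_iff, h1, wk_a1, wk_a2, wk_a3, wk_a4]
  constructor
  · exact fun h => h.1
  · intro h
    refine ⟨h, ?_⟩
    by_contra hcon
    push Not at hcon
    obtain ⟨e1, e2⟩ := hcon
    have hx : x = 0 := by
      have : 3 * x ^ 2 = 0 := by linear_combination -e1
      rcases mul_eq_zero.mp this with h3 | h3
      · norm_num at h3
      · exact pow_eq_zero_iff (two_ne_zero) |>.mp h3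
    have hy : y = 0 := by
      have : 2 * y = 0 := by linear_combination e2
      rcases mul_eq_zero.mp this with h3 | h3
      · norm_num at h3
      · exact h3
    rw [hx, hy] at h
    have : 432 * (A : K) ^ 2 = 0 := by linear_combination h
    rcases mul_eq_zero.mp this with h3 | h3
    · norm_num at h3
    · exact hAK (pow_eq_zero_iff (two_ne_zero) |>.mp h3)

end KEQ

theorem KEQ_thm : Stmt_KEQ := by
  intro K _ _ _ ι c A hK hA
  have hAK : (A : K) ≠ 0 := by exact_mod_cast hA
  have hrel : (ι w) ^ 2 + ι w + 1 = 0 := by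
    have := congrArg ι w_rel
    simpa using this
  have hne : ι w ≠ 1 := by
    intro h
    rw [h] at hrel
    norm_num at hrel
  have hd : (ι w - ι w ^ 2) ^ 2 = -3 := by
    linear_combination (ι w ^ 2 - 3 * ι w + 3) * hrel
  have hd0 : ι w - ι w ^ 2 ≠ 0 := by
    intro h
    rw [h] at hd
    norm_num at hd
  have hcw : c (ι w) = ι w ^ 2 := by
    rw [hK.conj, conj_w, map_pow]
  have hcube : ι w ^ 3 = 1 := by
    linear_combination (ι w - 1) * hrel
  refine ⟨fun x y => KEQ.ns_iff K A hA x y, ?_, ?_, ?_, hrel, hne⟩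
  · unfold sD
    rw [mul_pow, hd]; ring
  · unfold sD
    refine mul_ne_zero (mul_ne_zero (by norm_num) hAK) hd0
  · unfold sD
    rw [map_mul, map_mul, map_sub, map_pow, hcw, map_intCast, map_ofNat]
    linear_combination (-12 * (A : K) * ι w) * hcube

end Pool.Agent.PTN
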