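import Pool.Agent.PTN.StG

/-!
# KEX: existence of the field `K = Q(w)`
-/

set_option autoImplicit false

namespace Pool.Agent.PTN

open Pool.Agent.Lib_helper18 Pool.Agent.Lib_helper18.Eis Pool.Agent.Lib_helper84.Cub
open Pool.Agent.PT WeierstrassCurve.Affine

namespace KEX

theorem alg_inj : Function.Injective (algebraMap Eis (FractionRing Eis)) :=
  IsFractionRing.injective Eis (FractionRing Eis)

theorem charZero : CharZero (FractionRing Eis) := by
  refine ⟨fun m n h => ?_⟩
  have h1 : algebraMap Eis (FractionRing Eis) (m : Eis) =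
      algebraMap Eis (FractionRing Eis) (n : Eis) := by
    rw [map_natCast, map_natCast]
    exact h
  have h2 := congrArg Eis.re (alg_inj h1)
  rw [natCast_re, natCast_re] at h2
  exact_mod_cast h2

theorem conj_inj : Function.Injective
    ((algebraMap Eis (FractionRing Eis)).comp Eis.conj) := by
  intro a b h
  have h1 : Eis.conj a = Eis.conj b := alg_inj h
  rw [← conj_conj a, ← conj_conj b, h1]

end KEX

open KEX in
theorem KEX_thm : Stmt_KEX := by
  classical
  refine ⟨FractionRing Eis, inferInstance, charZero, inferInstance,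
    algebraMap Eis (FractionRing Eis), ?_⟩
  have hc := charZero
  refine ⟨(IsFractionRing.lift conj_inj : FractionRing Eis →+* FractionRing Eis).toRatAlgHom,
    alg_inj, ?_, ?_⟩
  · intro e
    exact IsFractionRing.lift_algebraMap conj_inj e
  · intro z
    obtain ⟨a, b, hb, rfl⟩ := IsFractionRing.div_surjective (A := Eis) z
    have hb0 : b ≠ 0 := nonZeroDivisors.ne_zero hb
    have hbi : algebraMap Eis (FractionRing Eis) b ≠ 0 := fun h =>
      hb0 (alg_inj (h.trans (map_zero _).symm))
    refine ⟨a * Eis.conj b, b.norm, (norm_pos hb0).ne', ?_⟩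
    have h1 : ((b.norm : ℤ) : FractionRing Eis) =
        algebraMap Eis (FractionRing Eis) b * algebraMap Eis (FractionRing Eis) (Eis.conj b) := by
      rw [← map_mul, mul_conj, map_intCast]
    rw [h1, map_mul]
    field_simp

end Pool.Agent.PTN
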