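import Mathlib
import Pool.Agent.PTN.StG

/-!
# PTN_KIX: the index of `3 G` (pure group theory)
-/

set_option autoImplicit false

namespace Pool.Agent.PTN

namespace KIX

variable {G H : Type} [AddCommGroup G] [AddCommGroup H]

lemma om3 (om : H →+ H) (h1 : ∀ Q, Q + om Q + om (om Q) = 0) (Q : H) :
    om (om (om Q)) = Q := by
  have a := h1 Q
  have b := h1 (om Q)
  have c : om (om (om Q)) - Q = 0 := by
    have : om (om (om Q)) - Q =
      (om Q + om (om Q) + om (om (om Q))) - (Q + om Q + om (om Q)) := by abel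
    rw [this, a, b, sub_zero]
  exact sub_eq_zero.mp c

lemma theta2 (om : H →+ H) (h1 : ∀ Q, Q + om Q + om (om Q) = 0) (Q : H) :
    om (om Q - om (om Q)) - om (om (om Q - om (om Q))) = -(3 • Q) := by
  have c := om3 om h1
  have a := h1 Q
  simp only [map_sub]
  rw [c Q]
  have : om (om Q) - Q - (Q - om Q) = (Q + om Q + om (om Q)) - 3 • Q := by
    rw [show (3 : ℕ) = 2 + 1 from rfl, add_nsmul, two_nsmul, one_nsmul]; abel
  rw [this, a, zero_sub]

lemma ccom2 (om cc : H →+ H) (h1 : ∀ Q, Q + om Q + om (om Q) = 0)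
    (h2 : ∀ Q, cc (om Q) = om (om (cc Q))) (Q : H) : cc (om (om Q)) = om (cc Q) := by
  rw [h2, h2, om3 om h1]

lemma cctheta (om cc : H →+ H) (h1 : ∀ Q, Q + om Q + om (om Q) = 0)
    (h2 : ∀ Q, cc (om Q) = om (om (cc Q))) (R : H) :
    cc (om R - om (om R)) = -(om (cc R) - om (om (cc R))) := by
  rw [map_sub, ccom2 om cc h1 h2, h2]; abel

lemma threeT (om : H →+ H) (T : H) (h1 : ∀ Q, Q + om Q + om (om Q) = 0) (h5 : om T = T) :
    3 • T = 0 := by
  have := h1 T
  rw [h5, h5] at this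
  rw [show (3 : ℕ) = 2 + 1 from rfl, add_nsmul, two_nsmul, one_nsmul]
  exact this

lemma threeiT (om : H →+ H) (T : H) (h1 : ∀ Q, Q + om Q + om (om Q) = 0) (h5 : om T = T)
    (i : ℕ) : i • T + i • T + i • T = 0 := by
  have h := threeT om T h1 h5
  have : i • T + i • T + i • T = i • (3 • T) := by
    rw [show (3 : ℕ) = 2 + 1 from rfl, add_nsmul, two_nsmul, one_nsmul, nsmul_add, nsmul_add]
  rw [this, h, nsmul_zero]

lemma thetaT (om : H →+ H) (T : H) (h5 : om T = T) (i : ℕ) :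
    om (i • T) = i • T := by
  rw [map_nsmul, h5]

lemma partD (om cc : H →+ H) (T : H) (h1 : ∀ Q, Q + om Q + om (om Q) = 0)
    (h2 : ∀ Q, cc (om Q) = om (om (cc Q))) (h5 : om T = T) (h6 : cc T = -T)
    (h7 : ∀ R, om R = om (om R) → ∃ i : ℕ, R = i • T) (R : H)
    (h : cc (om R - om (om R)) = -(om R - om (om R))) :
    ∃ R', cc R' = R' ∧ om R' - om (om R') = om R - om (om R) := by
  rw [cctheta om cc h1 h2] at h
  have h' : om (cc R) - om (om (cc R)) = om R - om (om R) := neg_injective h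
  have h'' : om (cc R - R) = om (om (cc R - R)) := by
    simp only [map_sub]
    have : om (cc R) - om R - (om (om (cc R)) - om (om R)) = 0 := by
      have e : om (cc R) - om R - (om (om (cc R)) - om (om R)) =
        (om (cc R) - om (om (cc R))) - (om R - om (om R)) := by abel
      rw [e, h', sub_self]
    exact sub_eq_zero.mp this
  obtain ⟨i, hi⟩ := h7 _ h''
  have hc : cc R = R + i • T := by rw [← hi]; abel
  refine ⟨R - i • T, ?_, ?_⟩
  · rw [map_sub, map_nsmul, h6, hc, smul_neg]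
    have h3 := threeiT om T h1 h5 i
    have e : R + i • T - -(i • T) = (R - i • T) + (i • T + i • T + i • T) := by abel
    rw [e, h3, add_zero]
  · simp only [map_sub, thetaT om T h5 i]
    abel

lemma partE (om cc : H →+ H) (T : H) (h1 : ∀ Q, Q + om Q + om (om Q) = 0)
    (h2 : ∀ Q, cc (om Q) = om (om (cc Q))) (h3 : ∀ Q, cc (cc Q) = Q)
    (h5 : om T = T) (h6 : cc T = -T)
    (h7 : ∀ R, om R = om (om R) → ∃ i : ℕ, R = i • T) (R : H)
    (h : cc (om R - om (om R)) = om R - om (om R)) : cc R = -R := by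
  rw [cctheta om cc h1 h2] at h
  have h'' : om (cc R + R) = om (om (cc R + R)) := by
    simp only [map_add]
    have : om (cc R) + om R - (om (om (cc R)) + om (om R)) = 0 := by
      have e : om (cc R) + om R - (om (om (cc R)) + om (om R)) =
        (om (cc R) - om (om (cc R))) + (om R - om (om R)) := by abel
      rw [e, ← h, add_neg_cancel]
    exact sub_eq_zero.mp this
  obtain ⟨i, hi⟩ := h7 _ h''
  have hc : cc (cc R + R) = cc (i • T) := by rw [hi]
  rw [map_add, h3, map_nsmul, h6, smul_neg, add_comm, hi] at hc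
  have h3 := threeiT om T h1 h5 i
  have hz : i • T = 0 := by
    have : i • T + i • T = 0 := by nth_rw 1 [hc]; abel
    rw [this, zero_add] at h3
    exact h3
  rw [hz] at hi
  exact eq_neg_of_add_eq_zero_left hi

end KIX

open KIX in
theorem KIX_thm : Stmt_KIX := by
  intro G H _ _ j om cc T N W₁ W₂ _ _ Ψ₁ Ψ₂ hj h1 h2 h3 h4 h5 h6 h7 h8 h9 h10
  classical
  -- representatives
  let f1 : W₁ → G := fun α => if h : ∃ P, Ψ₁ P = α then h.choose else 0
  have hf1 : ∀ P, Ψ₁ (f1 (Ψ₁ P)) = Ψ₁ P := by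
    intro P
    have hex : ∃ P', Ψ₁ P' = Ψ₁ P := ⟨P, rfl⟩
    have : f1 (Ψ₁ P) = hex.choose := dif_pos hex
    rw [this]; exact hex.choose_spec
  have hS : ∀ β : W₂, ∃ S : G, ∀ Q, cc Q = -Q → Ψ₂ Q = β →
      ∃ Q', cc Q' = -Q' ∧ Ψ₂ Q' = β ∧ j S = om Q' - om (om Q') := by
    intro β
    by_cases hex : ∃ Q, cc Q = -Q ∧ Ψ₂ Q = β
    · obtain ⟨Q', hQ', hQ'2⟩ := hex
      have : cc (om Q' - om (om Q')) = om Q' - om (om Q') := by
        rw [cctheta om cc h1 h2, hQ']
        simp only [map_neg]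
        abel
      obtain ⟨S, hS⟩ := (h4 _).mp this
      exact ⟨S, fun _ _ _ => ⟨Q', hQ', hQ'2, hS⟩⟩
    · exact ⟨0, fun Q hQ hQ2 => absurd ⟨Q, hQ, hQ2⟩ hex⟩
  choose f2 hf2 using hS
  have key : ∀ P : G, ∃ (β : W₂) (U : G), P = f1 (Ψ₁ P) + f2 β - 3 • U := by
    intro P
    have hN := h9 P (f1 (Ψ₁ P)) (hf1 P).symm
    obtain ⟨Q, hQ⟩ := h8 _ hN
    have hfix : cc (om Q - om (om Q)) = om Q - om (om Q) := by
      rw [← hQ]; exact (h4 _).mpr ⟨_, rfl⟩
    have hQm := partE om cc T h1 h2 h3 h5 h6 h7 Q hfix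
    obtain ⟨Q', hQ', hQ'2, hS⟩ := hf2 (Ψ₂ Q) Q hQm rfl
    obtain ⟨i, hi⟩ := h10 Q Q' hQm hQ' hQ'2.symm
    obtain ⟨R, hR⟩ := h8 _ hi
    have hRm : cc (om R - om (om R)) = -(om R - om (om R)) := by
      rw [← hR]
      rw [map_sub, map_sub, map_nsmul, hQm, hQ', h6, smul_neg]
      abel
    obtain ⟨R', hR', hR'2⟩ := partD om cc T h1 h2 h5 h6 h7 R hRm
    obtain ⟨U, hU⟩ := (h4 _).mp hR'
    refine ⟨Ψ₂ Q, U, ?_⟩
    apply hj
    have hjP : j P = j (f1 (Ψ₁ P)) + (om Q - om (om Q)) := by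
      rw [← hQ, map_sub]; abel
    have hQe : Q = Q' + i • T + (om R' - om (om R')) := by
      rw [hR'2, ← hR]; abel
    have hth : om Q - om (om Q) = (om Q' - om (om Q')) +
        (om (om R' - om (om R')) - om (om (om R' - om (om R')))) := by
      conv_lhs => rw [hQe]
      simp only [map_add, thetaT om T h5 i]
      abel
    rw [hjP, hth, theta2 om h1, ← hS, ← hU, map_sub, map_add, map_nsmul]
    abel
  let F : W₁ × W₂ → G ⧸ (nsmulAddMonoidHom (α := G) 3).range :=
    fun p => QuotientAddGroup.mk (f1 p.1 + f2 p.2)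
  have hF : Function.Surjective F := by
    intro q
    obtain ⟨P, rfl⟩ := QuotientAddGroup.mk_surjective q
    obtain ⟨β, U, hU⟩ := key P
    refine ⟨(Ψ₁ P, β), ?_⟩
    refine (QuotientAddGroup.eq).mpr ?_
    refine ⟨-U, ?_⟩
    show 3 • (-U) = -(f1 (Ψ₁ P) + f2 β) + P
    generalize f1 (Ψ₁ P) = a at hU ⊢
    rw [hU, smul_neg]
    abel
  have : Finite (G ⧸ (nsmulAddMonoidHom (α := G) 3).range) := Finite.of_surjective F hF
  refine ⟨AddSubgroup.finiteIndex_of_finite_quotient, ?_⟩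
  have := Nat.card_le_card_of_surjective F hF
  rw [Nat.card_prod] at this
  exact this

end Pool.Agent.PTN
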