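import Pool.Agent.PTN.StG

/-!
# Module PTN_KOM: multiplication by `w`
-/

set_option autoImplicit false

namespace Pool.Agent.PTN

open Pool.Agent.Lib_helper18 Pool.Agent.Lib_helper18.Eis Pool.Agent.Lib_helper84.Cub
open Pool.Agent.PT WeierstrassCurve.Affine

namespace KOM

/-- The data of a curve `y² = x³ + B` with a cube root of unity. -/
structure Dt {K : Type} [Field K] (W : WeierstrassCurve.Affine K) (z B : K) : Prop where
  a1 : W.a₁ = 0
  a2 : W.a₂ = 0
  a3 : W.a₃ = 0
  a4 : W.a₄ = 0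
  B0 : B ≠ 0
  two : (2 : K) ≠ 0
  ns : ∀ x y : K, W.Nonsingular x y ↔ y ^ 2 = x ^ 3 + B
  rel : z ^ 2 + z + 1 = 0
  ne1 : z ≠ 1

variable {K : Type} [Field K] [DecidableEq K] {W : WeierstrassCurve.Affine K} {z B : K}

theorem Dt.cube (h : Dt W z B) : z ^ 3 = 1 := by
  have := h.rel
  linear_combination (z - 1) * this

theorem Dt.ns' (h : Dt W z B) {x y : K} (hxy : W.Nonsingular x y) : W.Nonsingular (z * x) y := by
  rw [h.ns] at hxy ⊢
  rw [hxy, mul_pow, h.cube, one_mul]

/-- multiplication by the root of unity on the points -/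
def omf (h : Dt W z B) : W.Point → W.Point
  | .zero => .zero
  | .some x y hxy => .some (z * x) y (h.ns' hxy)

theorem some_congr {x x' y y' : K} (hx : x = x') (hy : y = y') (h : W.Nonsingular x y)
    (h' : W.Nonsingular x' y') : Point.some x y h = Point.some x' y' h' := by
  subst hx hy
  rfl

theorem Dt.negY (h : Dt W z B) (x y : K) : W.negY x y = -y := by
  unfold WeierstrassCurve.Affine.negY
  rw [h.a1, h.a3]; ring

theorem Dt.addX (h : Dt W z B) (x y l : K) : W.addX x y l = l ^ 2 - x - y := by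
  unfold WeierstrassCurve.Affine.addX
  rw [h.a1, h.a2]; ring

theorem Dt.addY (h : Dt W z B) (x y u l : K) : W.addY x y u l =
    -(l * (l ^ 2 - x - y - x) + u) := by
  unfold WeierstrassCurve.Affine.addY WeierstrassCurve.Affine.negAddY
  rw [h.negY, h.addX]

theorem Dt.slope_same (h : Dt W z B) (x y y' : K) (hy : y ≠ -y') :
    W.slope x x y y' = 3 * x ^ 2 / (2 * y) := by
  unfold WeierstrassCurve.Affine.slope
  rw [if_pos rfl, h.negY, if_neg hy, h.a1, h.a2, h.a4, h.negY]
  congr 1 <;> ring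

theorem Dt.slope_ne (x x' y y' : K) (hx : x ≠ x') : W.slope x x' y y' = (y - y') / (x - x') := by
  unfold WeierstrassCurve.Affine.slope
  rw [if_neg hx]

theorem Dt.z0 (h : Dt W z B) : z ≠ 0 := by
  intro h0
  have := h.cube
  rw [h0] at this
  norm_num at this

theorem Dt.slope (h : Dt W z B) (x x' y y' : K) (hxy : ¬ (x = x' ∧ y = W.negY x' y')) :
    W.slope (z * x) (z * x') y y' = z ^ 2 * W.slope x x' y y' := by
  by_cases hx : x = x'
  · subst hx
    have hy : y ≠ -y' := fun hh => hxy ⟨rfl, by rw [h.negY]; exact hh⟩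
    rw [h.slope_same _ _ _ hy, h.slope_same _ _ _ hy]
    ring
  · have hx' : z * x ≠ z * x' := fun hh => hx (mul_left_cancel₀ h.z0 hh)
    rw [Dt.slope_ne _ _ _ _ hx, Dt.slope_ne _ _ _ _ hx']
    have h1 : x - x' ≠ 0 := sub_ne_zero.2 hx
    have h2 : z * x - z * x' ≠ 0 := sub_ne_zero.2 hx'
    rw [mul_div_assoc', div_eq_div_iff h2 h1]
    linear_combination (-(y - y') * (x - x')) * h.cube

/-- multiplication by the root of unity as a homomorphism -/
def om (h : Dt W z B) : W.Point →+ W.Point where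
  toFun := omf h
  map_zero' := rfl
  map_add' := by
    rintro (_ | ⟨x₁, y₁, h₁⟩) (_ | ⟨x₂, y₂, h₂⟩)
    any_goals rfl
    by_cases hxy : x₁ = x₂ ∧ y₁ = W.negY x₂ y₂
    · rw [Point.add_of_Y_eq hxy.1 hxy.2]
      show (0 : W.Point) = Point.some _ _ (h.ns' h₁) + Point.some _ _ (h.ns' h₂)
      rw [Point.add_of_Y_eq (by rw [hxy.1]) (by rw [hxy.2, h.negY, h.negY])]
    · rw [Point.add_some hxy]
      show Point.some _ _ _ = Point.some _ _ (h.ns' h₁) + Point.some _ _ (h.ns' h₂)
      have hxy' : ¬ (z * x₁ = z * x₂ ∧ y₁ = W.negY (z * x₂) y₂) := by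
        rintro ⟨e1, e2⟩
        exact hxy ⟨mul_left_cancel₀ h.z0 e1, by rw [h.negY] at e2 ⊢; exact e2⟩
      rw [Point.add_some hxy']
      apply some_congr
      · rw [h.addX, h.addX, h.slope _ _ _ _ hxy]
        linear_combination (-(z * W.slope x₁ x₂ y₁ y₂ ^ 2)) * h.cube
      · rw [h.addY, h.addY, h.slope _ _ _ _ hxy]
        have h3 := h.cube
        have h6 : z ^ 6 = 1 := by
          calc z ^ 6 = (z ^ 3) ^ 2 := by ring
            _ = 1 := by rw [h3]; ring
        linear_combination (W.slope x₁ x₂ y₁ y₂ ^ 3) * h6 -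
          (W.slope x₁ x₂ y₁ y₂ * (2 * x₁ + x₂)) * h3

theorem om_some (h : Dt W z B) (x y : K) (hxy : W.Nonsingular x y) :
    om h (.some x y hxy) = .some (z * x) y (h.ns' hxy) := rfl

theorem om_sum (h : Dt W z B) (Q : W.Point) : Q + om h Q + om h (om h Q) = 0 := by
  rcases Q with _ | ⟨x, y, hxy⟩
  · rfl
  · rw [om_some, om_some]
    have h0 := (h.ns x y).1 hxy
    have hx0 : x = z * x → x = 0 := by
      intro e
      have h1 : x * (1 - z) = 0 := by linear_combination e
      rcases mul_eq_zero.1 h1 with h2 | h2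
      · exact h2
      · exact absurd (sub_eq_zero.1 h2).symm h.ne1
    have hne : ¬ (x = z * x ∧ y = W.negY (z * x) y) := by
      rintro ⟨e1, e2⟩
      have e3 := hx0 e1
      rw [h.negY] at e2
      have e4 : (2 : K) * y = 0 := by linear_combination e2
      have e5 : y = 0 := (mul_eq_zero.1 e4).resolve_left h.two
      rw [e3, e5] at h0
      apply h.B0
      linear_combination -h0
    rw [Point.add_some hne]
    have hs : W.slope x (z * x) y y = 0 := by
      by_cases hx : x = z * x
      · have e3 := hx0 hx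
        have hy : y ≠ -y := by
          intro e
          exact hne ⟨hx, by rw [h.negY]; exact e⟩
        rw [e3, mul_zero, h.slope_same _ _ _ hy]
        simp
      · rw [Dt.slope_ne _ _ _ _ hx]
        simp
    apply Point.add_of_Y_eq
    · rw [h.addX, hs]
      linear_combination (-x) * h.rel
    · rw [h.addY, hs, h.negY]
      ring

end KOM

theorem KOM_thm (h0 : Stmt_KEQ) : Stmt_KOM := by
  intro K _ _ _ ι c A hKF hA
  obtain ⟨hns, -, -, -, hrel, hne⟩ := h0 K ι c A hKF hA
  have hB : (-432 * (A : K) ^ 2) ≠ 0 := by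
    have : (A : K) ≠ 0 := by exact_mod_cast hA
    have h4 : (432 : K) ≠ 0 := by norm_num
    simp [this]
  have D : KOM.Dt (WeierstrassCurve.Affine.baseChange (CubeRank.EA A).toAffine K) (ι w)
      (-432 * (A : K) ^ 2) := by
    refine ⟨?_, ?_, ?_, ?_, hB, two_ne_zero, ?_, hrel, hne⟩
    · show algebraMap ℚ K 0 = 0
      exact map_zero _
    · show algebraMap ℚ K 0 = 0
      exact map_zero _
    · show algebraMap ℚ K 0 = 0
      exact map_zero _
    · show algebraMap ℚ K 0 = 0
      exact map_zero _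
    · intro x y
      rw [hns x y]
      constructor
      · intro h; rw [h]; ring
      · intro h; rw [h]; ring
  have hc : c (ι w) = (ι w) ^ 2 := by
    rw [hKF.conj, conj_w, map_pow]
  refine ⟨KOM.om D, fun x y h => ⟨D.ns' h, rfl⟩, KOM.om_sum D, ?_⟩
  intro cc hcc Q
  rcases Q with _ | ⟨x, y, hxy⟩
  · show cc (KOM.om D 0) = KOM.om D (KOM.om D (cc 0))
    rw [map_zero, map_zero, map_zero, map_zero]
  · rw [KOM.om_some]
    obtain ⟨h1, e1⟩ := hcc _ _ (D.ns' hxy)
    obtain ⟨h2, e2⟩ := hcc _ _ hxy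
    rw [e1, e2, KOM.om_some, KOM.om_some]
    apply KOM.some_congr
    · rw [map_mul, hc]; ring
    · rfl

end Pool.Agent.PTN
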