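import Pool.Agent.PTN.StG
import Pool.Agent.PTN.KOM

/-!
# Module PTN_KKE: the kernel of the Kummer map
-/

set_option autoImplicit false

namespace Pool.Agent.PTN

open Pool.Agent.Lib_helper18 Pool.Agent.Lib_helper18.Eis Pool.Agent.Lib_helper84.Cub
open Pool.Agent.PT WeierstrassCurve.Affine

namespace KKE

/-- a rational integer whose cube root is in `K` is a cube -/
theorem int_cube {K : Type} [Field K] [CharZero K] {ι : Eis →+* K} {c : K →ₐ[ℚ] K}
    (hK : KF K ι c) {A : ℤ} (hA : A ≠ 0) {z : K} (hz : z ^ 3 = (A : K)) :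
    ∃ n : ℤ, n ^ 3 = A := by
  obtain ⟨e, d, hd, he⟩ := hK.frac z
  have h1 : ι (e ^ 3) = ι ((A * d ^ 3 : ℤ) : Eis) := by
    rw [map_pow, ← he, map_intCast]
    push_cast
    rw [← hz]
    ring
  have h2 : e ^ 3 = ((A * d ^ 3 : ℤ) : Eis) := hK.inj h1
  have h3 : norm e ^ 3 = (A * d ^ 3) ^ 2 := by
    have h4 := congrArg norm h2
    have h5 : norm (e ^ 3) = norm e ^ 3 := by
      rw [pow_succ, pow_succ, pow_one, norm_mul, norm_mul]
      ring
    rw [h5, norm_intCast] at h4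
    exact h4
  have hB : A * d ^ 3 ≠ 0 := mul_ne_zero hA (pow_ne_zero _ hd)
  generalize hBdef : A * d ^ 3 = B at *
  have h6 : norm e ^ 3 ∣ B ^ 3 := ⟨B, by rw [h3]; ring⟩
  have h7 : norm e ∣ B := (Int.pow_dvd_pow_iff (by norm_num)).1 h6
  obtain ⟨m, hm⟩ := h7
  have h8 : B = m ^ 3 := by
    have h9 : B ^ 2 * B = B ^ 2 * m ^ 3 := by
      rw [← h3]
      have : B ^ 2 * B = B ^ 3 := by ring
      rw [h3, this]
      conv_lhs => rw [hm]
      rw [← h3]
      ring
    exact mul_left_cancel₀ (pow_ne_zero 2 hB) h9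
  have h10 : d ^ 3 ∣ m ^ 3 := ⟨A, by rw [← h8, ← hBdef]; ring⟩
  have h11 : d ∣ m := (Int.pow_dvd_pow_iff (by norm_num)).1 h10
  obtain ⟨n, hn⟩ := h11
  refine ⟨n, ?_⟩
  have h12 : d ^ 3 * n ^ 3 = d ^ 3 * A := by
    have : A * d ^ 3 = (d * n) ^ 3 := by rw [hBdef, h8, hn]
    linear_combination -this
  exact mul_left_cancel₀ (pow_ne_zero 3 hd) h12

/-- the point of the isogeny -/
theorem theta {K : Type} [Field K] [DecidableEq K] {W : WeierstrassCurve.Affine K} {z s : K}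
    (D : KOM.Dt W z (s ^ 2)) (g h x y : K) (hx : x = g * h) (h1 : h ^ 3 = y + s)
    (h2 : g ^ 3 = y - s) (hxy : W.Nonsingular x y) :
    ∃ (X Y : K) (H0 : W.Nonsingular X Y) (H1 : W.Nonsingular (z * X) Y)
      (H2 : W.Nonsingular (z * (z * X)) Y),
      (Point.some x y hxy : W.Point) = Point.some (z * X) Y H1 - Point.some (z * (z * X)) Y H2 := by
  have two := D.two
  have hz := D.rel
  have hs : s ≠ 0 := by
    intro h0
    exact D.B0 (by rw [h0]; ring)
  have h3 : (h ^ 2 + h * g + g ^ 2) * (h - g) = 2 * s := by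
    linear_combination h1 - h2
  have hq : h ^ 2 + h * g + g ^ 2 ≠ 0 := by
    intro h0
    rw [h0, zero_mul] at h3
    exact mul_ne_zero two hs h3.symm
  set q := h ^ 2 + h * g + g ^ 2 with hqd
  have hne : ¬ (z * -q = z * (z * -q)) := by
    intro h0
    have h4 : (z * -q) * (1 - z) = 0 := by linear_combination h0
    rcases mul_eq_zero.1 h4 with h5 | h5
    · rcases mul_eq_zero.1 h5 with h6 | h6
      · exact D.z0 h6
      · exact hq (neg_eq_zero.1 h6)
    · exact D.ne1 (sub_eq_zero.1 h5).symm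
  have H0 : W.Nonsingular (-q) (-(z - z ^ 2) * q * (h + g) / 2) := by
    rw [D.ns]
    have hs' : s = q * (h - g) / 2 := by
      rw [eq_div_iff two]; linear_combination -h3
    have hd : (z - z ^ 2) ^ 2 = -3 := by
      linear_combination (z ^ 2 - 3 * z + 3) * hz
    have e1 : (-(z - z ^ 2) * q * (h + g) / 2) ^ 2 = (z - z ^ 2) ^ 2 * (q * (h + g) / 2) ^ 2 := by
      ring
    rw [e1, hd, hs', hqd]
    field_simp
    ring
  refine ⟨-q, -(z - z ^ 2) * q * (h + g) / 2, H0, D.ns' H0, D.ns' (D.ns' H0), ?_⟩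
  set Y := -(z - z ^ 2) * q * (h + g) / 2 with hY
  have hY2 : 2 * Y = -(z - z ^ 2) * q * (h + g) := by
    rw [hY]; field_simp
  rw [sub_eq_add_neg, Point.neg_some]
  have hne' : ¬ (z * -q = z * (z * -q) ∧ Y = W.negY (z * (z * -q)) (W.negY (z * (z * -q)) Y)) :=
    fun h0 => hne h0.1
  rw [Point.add_some hne']
  have hsl : W.slope (z * -q) (z * (z * -q)) Y (W.negY (z * (z * -q)) Y) = h + g := by
    rw [KOM.Dt.slope_ne _ _ _ _ hne, D.negY, div_eq_iff (sub_ne_zero.2 hne)]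
    linear_combination hY2
  apply KOM.some_congr
  · rw [D.addX, hsl, hx, hqd]
    linear_combination (-(h ^ 2 + h * g + g ^ 2)) * hz
  · rw [D.addY, hsl]
    apply mul_left_cancel₀ two
    have h5 : 2 * y = h ^ 3 + g ^ 3 := by linear_combination -h1 - h2
    have h6 : q = h ^ 2 + h * g + g ^ 2 := hqd
    linear_combination h5 + hY2 + 3 * (h + g) * q * hz - 3 * (h + g) * h6

end KKE

theorem KKE_thm (h0 : Stmt_KEQ) : Stmt_KKE := by
  intro K _ _ _ ι c A hK hA hcube om hom _ Q hQ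
  obtain ⟨hns, hs2, hs, -, hrel, hne⟩ := h0 K ι c A hK hA
  have hAK : (A : K) ≠ 0 := by exact_mod_cast hA
  obtain ⟨g, hg⟩ := hQ
  rcases Q with _ | ⟨x, y, hxy⟩
  · refine ⟨0, ?_⟩
    rw [map_zero, map_zero, sub_zero]
    rfl
  have hB : sD ι A ^ 2 ≠ 0 := pow_ne_zero 2 hs
  have D : KOM.Dt (WeierstrassCurve.Affine.baseChange (CubeRank.EA A).toAffine K) (ι w)
      (sD ι A ^ 2) := by
    refine ⟨?_, ?_, ?_, ?_, hB, two_ne_zero, ?_, hrel, hne⟩
    · show algebraMap ℚ K 0 = 0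
      exact map_zero _
    · show algebraMap ℚ K 0 = 0
      exact map_zero _
    · show algebraMap ℚ K 0 = 0
      exact map_zero _
    · show algebraMap ℚ K 0 = 0
      exact map_zero _
    · intro x y
      rw [hns x y, hs2]
      constructor
      · intro h; rw [h]; ring
      · intro h; rw [h]; ring
  have hE : y ^ 2 = x ^ 3 + sD ι A ^ 2 := (D.ns x y).1 hxy
  have hd2 : (ι w - ι w ^ 2) ^ 2 = -3 := by
    linear_combination (ι w ^ 2 - 3 * ι w + 3) * hrel
  have hd0 : ι w - ι w ^ 2 ≠ 0 := by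
    intro h
    rw [h] at hd2
    norm_num at hd2
  by_cases hy : y = sD ι A
  · exfalso
    apply hcube
    have e1 : kap ι (Point.some x y hxy : HH A K) = (y + sD ι A) ^ 2 := if_pos hy
    have e2 : g ^ 3 = -1728 * (A : K) ^ 2 := by
      rw [← hg, e1, hy]
      linear_combination 4 * hs2
    apply KKE.int_cube hK hA (z := (g / 12) ^ 2 / A)
    have e3 : ((g / 12) ^ 2 / (A : K)) ^ 3 = (g ^ 3) ^ 2 / (12 ^ 6 * (A : K) ^ 3) := by
      field_simp
    rw [e3, e2]
    field_simp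
    norm_num
  by_cases hy' : y = -sD ι A
  · exfalso
    apply hcube
    have e1 : kap ι (Point.some x y hxy : HH A K) = y - sD ι A := if_neg hy
    have e2 : g ^ 3 = -24 * (A : K) * (ι w - ι w ^ 2) := by
      rw [← hg, e1, hy', sD]
      ring
    apply KKE.int_cube hK hA (z := g / (2 * (ι w - ι w ^ 2)))
    rw [div_pow, e2, div_eq_iff (pow_ne_zero 3 (mul_ne_zero two_ne_zero hd0))]
    linear_combination (-8 * (A : K) * (ι w - ι w ^ 2)) * hd2
  have e1 : kap ι (Point.some x y hxy : HH A K) = y - sD ι A := if_neg hy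
  have e2 : g ^ 3 = y - sD ι A := by rw [← hg, e1]
  have hg0 : g ≠ 0 := by
    intro h
    rw [h] at e2
    apply hy
    linear_combination -e2
  have e3 : (x / g) ^ 3 = y + sD ι A := by
    rw [div_pow, div_eq_iff (pow_ne_zero 3 hg0), e2]
    linear_combination -hE
  have e4 : x = g * (x / g) := by field_simp
  obtain ⟨X, Y, H0, H1, H2, he⟩ := KKE.theta D g (x / g) x y e4 e3 e2 hxy
  refine ⟨Point.some X Y H0, ?_⟩
  obtain ⟨H1', k1⟩ := hom X Y H0
  obtain ⟨H2', k2⟩ := hom _ _ H1'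
  rw [k1, k2]
  exact he

end Pool.Agent.PTN
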