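import Pool.Agent.PTN.StG

/-! # PTN_KMI: the class of a rational point -/

set_option autoImplicit false

namespace Pool.Agent.PTN

open Pool.Agent.Lib_helper18 Pool.Agent.Lib_helper18.Eis Pool.Agent.Lib_helper84.Cub
open Pool.Agent.PT WeierstrassCurve.Affine

namespace KMI

/-- the polynomial identity behind the class -/
theorem ident {K : Type} [Field K] {o a b A z y d : K} (hw : o ^ 2 + o + 1 = 0)
    (hd : d = o - o ^ 2) (hab : a + b ≠ 0) (h3 : a ^ 3 + b ^ 3 = A * z ^ 3)
    (hy : y * (a + b) = 36 * A * (a - b)) :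
    (y - 12 * A * d) * z ^ 3 = o ^ 2 * ((a + o * b) * (a + o ^ 2 * b) ^ 2) * (-2 * d) ^ 3 := by
  have ho : o ^ 3 = 1 := by linear_combination (o - 1) * hw
  have hd2 : d ^ 2 = -3 := by
    rw [hd]
    linear_combination hw + (o - 2) * ho
  have hd3 : (-2 * d) ^ 3 = 24 * d := by linear_combination (-8 * d) * hd2
  have hf : (a + o * b) * (a + o ^ 2 * b) * (a + b) = a ^ 3 + b ^ 3 := by
    linear_combination ((a * b) * hw + b ^ 2 * ho) * (a + b)
  have hl : 3 * (a - b) - d * (a + b) = 2 * d * o ^ 2 * (a + o ^ 2 * b) := by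
    rw [hd]
    linear_combination (a - b) * hw - (2 * (1 - o) * a + 2 * (o ^ 2 - o ^ 3 - 1) * b) * ho
  apply mul_right_cancel₀ hab
  rw [hd3]
  linear_combination z ^ 3 * hy - (36 * (a - b) - 12 * d * (a + b)) * h3
    + 12 * (a ^ 3 + b ^ 3) * hl - o ^ 2 * (a + o ^ 2 * b) * (24 * d) * hf

end KMI

theorem KMI_thm (h0 : Stmt_KEQ) : Stmt_KMI := by
  intro K _ _ _ ι c A hK hA j hj P a b z hP
  obtain ⟨-, -, hs0, hcs, hw, -⟩ := h0 K ι c A hK hA
  obtain ⟨hz, hab, h3, x, y, h, rfl, hx, hy⟩ := hP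
  obtain ⟨h', hj'⟩ := hj x y h
  have hzK : (z : K) ≠ 0 := by exact_mod_cast hz
  have hAK : (A : K) ≠ 0 := by exact_mod_cast hA
  have h3K : (a : K) ^ 3 + (b : K) ^ 3 = (A : K) * (z : K) ^ 3 := by exact_mod_cast congrArg (fun t : ℤ => (t : K)) h3
  have habK : (a : K) + (b : K) ≠ 0 := by
    intro h1
    have h2 : (A : K) * (z : K) ^ 3 = 0 := by
      rw [← h3K]
      linear_combination ((a : K) ^ 2 - a * b + (b : K) ^ 2) * h1
    exact (mul_ne_zero hAK (pow_ne_zero 3 hzK)) h2
  have hyK : (y : K) * ((a : K) + b) = 36 * (A : K) * ((a : K) - b) := by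
    have := congrArg (fun t : ℚ => (t : K)) hy
    push_cast at this
    exact this
  have hys : (y : K) ≠ sD ι A := by
    intro h1
    have h2 : c (y : K) = (y : K) := by
      have := c.commutes y
      simpa using this
    rw [h1, hcs] at h2
    have h4 : (2 : K) * sD ι A = 0 := by linear_combination -h2
    rcases mul_eq_zero.mp h4 with h5 | h5
    · exact two_ne_zero h5
    · exact hs0 h5
  have hid := KMI.ident (K := K) (o := ι w) (a := a) (b := b) (A := A) (z := z) (y := y)
    (d := ι w - ι w ^ 2) hw rfl habK h3K hyK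
  have hd0 : (ι w - ι w ^ 2 : K) ≠ 0 := by
    intro h1
    apply hs0
    unfold sD
    rw [h1, mul_zero]
  refine ⟨(-2 * (ι w - ι w ^ 2)) / z, ?_, ?_⟩
  · exact div_ne_zero (mul_ne_zero (by norm_num) hd0) hzK
  · rw [hj']
    have hk : kap ι (.some (x : K) (y : K) h' : HH A K) = (y : K) - sD ι A := by
      unfold kap
      exact if_neg hys
    rw [hk, div_pow, map_mul, map_mul, map_pow, map_pow, map_add, map_add, map_mul, map_mul, map_pow,
      map_intCast, map_intCast, mul_div_assoc', eq_div_iff (pow_ne_zero 3 hzK)]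
    unfold sD
    exact hid

end Pool.Agent.PTN
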