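import Pool.Agent.PTN.StG

/-!
# PTN_KPL: the class of a point with `cc Q = -Q` (statement of helper3)
-/

set_option autoImplicit false

namespace Pool.Agent.PTN.KPL

open Pool.Agent.Lib_helper18 Pool.Agent.Lib_helper18.Eis Pool.Agent.Lib_helper84.Cub
open Pool.Agent.PT WeierstrassCurve.Affine

/-- a rational number `m` with `A m³` an integer is an integer if `A` is cube-free -/
theorem int_of_cube {A N : ℤ} (hf : CubeRank.CubeFree A) {m : ℚ} (h : (A : ℚ) * m ^ 3 = N) :
    ∃ n : ℤ, m = n := by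
  have hden : ((m.den : ℤ) : ℚ) ≠ 0 := by
    have := m.den_ne_zero
    exact_mod_cast this
  have hm : m * ((m.den : ℤ) : ℚ) = (m.num : ℚ) := by
    have := Rat.mul_den_eq_num m
    exact_mod_cast this
  have h1 : A * m.num ^ 3 = N * (m.den : ℤ) ^ 3 := by
    have h2 : (A : ℚ) * (m.num : ℚ) ^ 3 = N * ((m.den : ℤ) : ℚ) ^ 3 := by
      rw [← hm, ← h]; ring
    exact_mod_cast h2
  have hcop : IsCoprime ((m.den : ℤ) ^ 3) (m.num ^ 3) := by
    have := m.reduced
    have h3 : IsCoprime m.num (m.den : ℤ) := by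
      rw [Int.isCoprime_iff_gcd_eq_one, Int.gcd_eq_natAbs, Int.natAbs_natCast]
      exact this
    exact (h3.symm).pow
  have hdvd : (m.den : ℤ) ^ 3 ∣ A := by
    exact hcop.dvd_of_dvd_mul_right ⟨N, by rw [h1]; ring⟩
  by_cases h1' : m.den = 1
  · exact ⟨m.num, by rw [← hm, h1']; simp⟩
  · exfalso
    obtain ⟨q, hq, hqd⟩ := Nat.exists_prime_and_dvd h1'
    refine hf (q : ℤ) (Nat.prime_iff_prime_int.mp hq) ?_
    refine (pow_dvd_pow_of_dvd ?_ 3).trans hdvd
    exact_mod_cast hqd

/-- the primitive triple -/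
theorem triple {A : ℤ} (hA : A ≠ 0) (hf : CubeRank.CubeFree A) {u v x : ℚ} (hx : x ≠ 0)
    (h3 : x ^ 3 = 3 * u * v) (hs : u + v = 24 * A) :
    ∃ (a : Fin 3 → ℤ) (m : ℤ) (t : ℚ), t ≠ 0 ∧ (a 0 : ℚ) = t * u ∧ (a 1 : ℚ) = t * v ∧
      (∀ k, a k ≠ 0) ∧ a 0 + a 1 + a 2 = 0 ∧ a 0 * a 1 * a 2 = A * m ^ 3 ∧
      (∀ i j, i ≠ j → IsCoprime (a i) (a j)) := by
  have hu : u ≠ 0 := by
    rintro rfl
    apply hx
    have : x ^ 3 = 0 := by rw [h3]; ring
    exact pow_eq_zero_iff (three_ne_zero) |>.mp this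
  have hv : v ≠ 0 := by
    rintro rfl
    apply hx
    have : x ^ 3 = 0 := by rw [h3]; ring
    exact pow_eq_zero_iff (three_ne_zero) |>.mp this
  have hud : ((u.den : ℤ) : ℚ) ≠ 0 := by
    have := u.den_ne_zero
    exact_mod_cast this
  have hvd : ((v.den : ℤ) : ℚ) ≠ 0 := by
    have := v.den_ne_zero
    exact_mod_cast this
  have hum : u * ((u.den : ℤ) : ℚ) = (u.num : ℚ) := by
    have := Rat.mul_den_eq_num u
    exact_mod_cast this
  have hvm : v * ((v.den : ℤ) : ℚ) = (v.num : ℚ) := by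
    have := Rat.mul_den_eq_num v
    exact_mod_cast this
  set d : ℤ := (u.den : ℤ) * (v.den : ℤ) with hd
  set U : ℤ := u.num * (v.den : ℤ) with hU
  set V : ℤ := v.num * (u.den : ℤ) with hV
  have hd0 : (d : ℚ) ≠ 0 := by
    rw [hd]; push_cast; exact mul_ne_zero (by exact_mod_cast hud) (by exact_mod_cast hvd)
  have hUq : (U : ℚ) = d * u := by
    rw [hU, hd]; push_cast; rw [← hum]; push_cast; ring
  have hVq : (V : ℚ) = d * v := by
    rw [hV, hd]; push_cast; rw [← hvm]; push_cast; ring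
  have hU0 : U ≠ 0 := by
    intro h
    rw [h] at hUq
    exact (mul_ne_zero hd0 hu) (by rw [← hUq]; simp)
  have hV0 : V ≠ 0 := by
    intro h
    rw [h] at hVq
    exact (mul_ne_zero hd0 hv) (by rw [← hVq]; simp)
  obtain ⟨a0, a1, hcop, e0, e1⟩ : ∃ a0 a1 : ℤ, IsCoprime a0 a1 ∧ U = a0 * (Int.gcd U V : ℤ) ∧
      V = a1 * (Int.gcd U V : ℤ) := by
    have hg : 0 < Int.gcd U V := Int.gcd_pos_of_ne_zero_left _ hU0
    obtain ⟨a0, h0⟩ := Int.gcd_dvd_left U V
    obtain ⟨a1, h1⟩ := Int.gcd_dvd_right U V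
    refine ⟨a0, a1, ?_, by rw [mul_comm]; exact h0, by rw [mul_comm]; exact h1⟩
    have h2 : U / (Int.gcd U V : ℤ) = a0 := by
      apply Int.ediv_eq_of_eq_mul_right (by exact_mod_cast hg.ne') h0
    have h3 : V / (Int.gcd U V : ℤ) = a1 := by
      apply Int.ediv_eq_of_eq_mul_right (by exact_mod_cast hg.ne') h1
    have h4 := Int.gcd_ediv_gcd_ediv_gcd hg
    rw [h2, h3] at h4
    exact Int.isCoprime_iff_gcd_eq_one.mpr h4
  set g : ℤ := (Int.gcd U V : ℤ) with hgdef
  have hg0 : (g : ℚ) ≠ 0 := by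
    have : g ≠ 0 := by
      intro h
      rw [h, mul_zero] at e0
      exact hU0 e0
    exact_mod_cast this
  have ha0 : a0 ≠ 0 := by
    rintro rfl
    rw [zero_mul] at e0
    exact hU0 e0
  have ha1 : a1 ≠ 0 := by
    rintro rfl
    rw [zero_mul] at e1
    exact hV0 e1
  set t : ℚ := (d : ℚ) / g with ht
  have ht0 : t ≠ 0 := div_ne_zero hd0 hg0
  have q0 : (a0 : ℚ) = t * u := by
    rw [ht, div_mul_eq_mul_div, eq_div_iff hg0, ← hUq, e0]; push_cast; ring
  have q1 : (a1 : ℚ) = t * v := by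
    rw [ht, div_mul_eq_mul_div, eq_div_iff hg0, ← hVq, e1]; push_cast; ring
  have q2 : (a0 : ℚ) + a1 = 24 * A * t := by
    rw [q0, q1, ← mul_add, hs]; ring
  have hprod : (A : ℚ) * (-2 * x * t) ^ 3 = ((a0 * a1 * (-a0 - a1) : ℤ) : ℚ) := by
    push_cast
    have : (-(a0 : ℚ) - a1) = -(24 * A * t) := by rw [← q2]; ring
    rw [this, q0, q1]
    linear_combination (-8 * (A : ℚ) * t ^ 3) * h3
  obtain ⟨m, hm⟩ := int_of_cube hf hprod
  rw [hm] at hprod
  obtain ⟨p, q, hpq⟩ := hcop
  have c01 : IsCoprime a0 a1 := ⟨p, q, hpq⟩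
  have c02 : IsCoprime a0 (-a0 - a1) := ⟨p - q, -q, by linear_combination hpq⟩
  have c12 : IsCoprime a1 (-a0 - a1) := ⟨q - p, -p, by linear_combination hpq⟩
  have ha2 : -a0 - a1 ≠ 0 := by
    intro h
    have h' : (a0 : ℚ) + a1 = 0 := by
      have : a0 + a1 = 0 := by linear_combination -h
      exact_mod_cast this
    rw [q2] at h'
    have hAq : (A : ℚ) ≠ 0 := by exact_mod_cast hA
    exact (mul_ne_zero (mul_ne_zero (by norm_num) hAq) ht0) h'
  refine ⟨![a0, a1, -a0 - a1], m, t, ht0, q0, q1, ?_, ?_, ?_, ?_⟩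
  · intro k
    fin_cases k
    · exact ha0
    · exact ha1
    · exact ha2
  · simp
  · have : (a0 * a1 * (-a0 - a1) : ℤ) = A * m ^ 3 := by
      have := hprod.symm
      exact_mod_cast this
    simpa using this
  · intro i j hij
    fin_cases i <;> fin_cases j
    · exact absurd rfl hij
    · exact c01
    · exact c02
    · exact c01.symm
    · exact absurd rfl hij
    · exact c12
    · exact c02.symm
    · exact c12.symm
    · exact absurd rfl hij

/-- an element fixed by the conjugation is rational -/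
theorem rational_of_fixed {K : Type} [Field K] [CharZero K] {ι : Eis →+* K} {c : K →ₐ[ℚ] K}
    (hK : KF K ι c) {z : K} (hz : c z = z) : ∃ q : ℚ, z = (q : K) := by
  obtain ⟨e, d, hd, he⟩ := hK.frac z
  have hd' : (d : K) ≠ 0 := Int.cast_ne_zero.mpr hd
  have h1 : ι (conj e) = ι e := by
    rw [← hK.conj e, ← he, map_mul, hz, map_intCast]
  have h2 : conj e = e := hK.inj h1
  have h3 : e.im = 0 := by
    have := congrArg Eis.im h2
    rw [conj_im] at this
    omega
  have h4 : e = (e.re : Eis) := by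
    ext
    · simp
    · simp [h3]
  refine ⟨(e.re : ℚ) / (d : ℚ), ?_⟩
  rw [h4, map_intCast] at he
  push_cast
  rw [eq_div_iff hd', he]

theorem negY_eq (K : Type) [Field K] [CharZero K] (A : ℤ) (x y : K) :
    (WeierstrassCurve.Affine.baseChange (CubeRank.EA A).toAffine K).negY x y = -y := by
  have h1 : (WeierstrassCurve.Affine.baseChange (CubeRank.EA A).toAffine K).a₁ = 0 :=
    map_zero (algebraMap ℚ K)
  have h3 : (WeierstrassCurve.Affine.baseChange (CubeRank.EA A).toAffine K).a₃ = 0 :=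
    map_zero (algebraMap ℚ K)
  rw [WeierstrassCurve.Affine.negY, h1, h3]
  ring

theorem _root_.Pool.Agent.PTN.KPL_thm (h0 : Stmt_KEQ) : Stmt_KPL := by
  intro K _ _ _ ι c A hK hA hf cc hcc Q hQ
  obtain ⟨hns, hs2, hs0, hcs, hw, hw1⟩ := h0 K ι c A hK hA
  have hAK : (A : K) ≠ 0 := by exact_mod_cast hA
  rcases Q with _ | ⟨x, y, h⟩
  · left
    exact ⟨0, 1, one_ne_zero, by simp [kap]⟩
  obtain ⟨h', e⟩ := hcc x y h
  rw [e, WeierstrassCurve.Affine.Point.neg_some] at hQ
  simp only [Point.some.injEq, negY_eq] at hQ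
  obtain ⟨hx, hy⟩ := hQ
  have heq : y ^ 2 = x ^ 3 - 432 * (A : K) ^ 2 := (hns x y).mp h
  set δ : K := ι w - ι w ^ 2 with hδ
  have hsD : sD ι A = 12 * A * δ := rfl
  have hδ2 : δ ^ 2 = -3 := by
    rw [hδ]
    linear_combination (ι w ^ 2 - 3 * ι w + 3) * hw
  have hδ0 : δ ≠ 0 := by
    intro h1
    rw [h1] at hδ2
    norm_num at hδ2
  have hcδ : c δ = -δ := by
    rw [hsD, map_mul, map_mul, map_intCast] at hcs
    have h12 : c 12 = 12 := by
      have := map_ofNat c 12
      exact this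
    rw [h12] at hcs
    have : (12 * (A : K)) * c δ = (12 * (A : K)) * (-δ) := by rw [hcs]; ring
    exact mul_left_cancel₀ (mul_ne_zero (by norm_num) hAK) this
  obtain ⟨q, hq⟩ := rational_of_fixed hK hx
  obtain ⟨η, hη⟩ := rational_of_fixed (z := y / δ) hK (by
    rw [map_div₀, hcδ, hy, neg_div_neg_eq])
  have hyη : y = δ * η := by
    rw [← hη]; field_simp
  by_cases hx0 : x = 0
  · left
    have hys : (y - sD ι A) * (y + sD ι A) = 0 := by
      rw [hx0] at heq
      linear_combination heq - hs2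
    rcases mul_eq_zero.mp hys with h1 | h1
    · refine ⟨2, -12, by norm_num, ?_⟩
      have hy1 : y = sD ι A := sub_eq_zero.mp h1
      have : kap ι (Point.some x y h) = (y + sD ι A) ^ 2 := by
        simp only [kap]; rw [if_pos hy1]
      rw [this, hy1]
      linear_combination 4 * hs2
    · refine ⟨1, 2 * δ, mul_ne_zero two_ne_zero hδ0, ?_⟩
      have hy1 : y = - sD ι A := eq_neg_of_add_eq_zero_left h1
      have hne : y ≠ sD ι A := by
        intro h2
        rw [hy1] at h2
        have : 2 * sD ι A = 0 := by linear_combination -h2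
        rcases mul_eq_zero.mp this with h3 | h3
        · norm_num at h3
        · exact hs0 h3
      have : kap ι (Point.some x y h) = y - sD ι A := by
        simp only [kap]; rw [if_neg hne]
      rw [this, hy1, hsD]
      linear_combination (-8 * (A : K) * δ) * hδ2
  · right
    have hne : y ≠ sD ι A := by
      intro h2
      apply hx0
      have : x ^ 3 = 0 := by
        rw [h2] at heq
        linear_combination hs2 - heq
      exact pow_eq_zero_iff (three_ne_zero) |>.mp this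
    have hkap : kap ι (Point.some x y h) = y - sD ι A := by
      simp only [kap]; rw [if_neg hne]
    have hq0 : q ≠ 0 := by
      rintro rfl
      exact hx0 (by rw [hq]; simp)
    have hcub : q ^ 3 = 3 * (12 * (A : ℚ) - η) * (12 * A + η) := by
      have h1 : (q : K) ^ 3 = 3 * (12 * (A : K) - η) * (12 * A + η) := by
        rw [hq, hyη] at heq
        linear_combination (-(heq) + (η : K) ^ 2 * hδ2)
      exact_mod_cast h1
    obtain ⟨a, m, t, ht0, q0, q1, hne0, hsum, hprod, hcop⟩ :=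
      triple hA hf hq0 hcub (by ring : (12 * (A : ℚ) - η) + (12 * A + η) = 24 * A)
    have htK : (t : K) ≠ 0 := by exact_mod_cast ht0
    refine ⟨a, m, δ / (t * x), hne0, hsum, hprod, hcop,
      div_ne_zero hδ0 (mul_ne_zero htK hx0), ?_⟩
    have k0 : ((a 0 : ℤ) : K) = t * (12 * A - η) := by
      have := congrArg (fun z : ℚ => (z : K)) q0
      push_cast at this
      exact this
    have k1 : ((a 1 : ℤ) : K) = t * (12 * A + η) := by
      have := congrArg (fun z : ℚ => (z : K)) q1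
      push_cast at this
      exact this
    have hcubK : x ^ 3 = 3 * (12 * (A : K) - η) * (12 * A + η) := by
      rw [hq]
      exact_mod_cast hcub
    have hd3 : δ ^ 3 = -3 * δ := by
      linear_combination δ * hδ2
    have hg3 : (δ / ((t : K) * x)) ^ 3 =
        -3 * δ / ((t : K) ^ 3 * (3 * (12 * (A : K) - η) * (12 * A + η))) := by
      rw [div_pow, mul_pow, hd3, hcubK]
    rw [hkap, hsD, hyη, hg3]
    push_cast
    rw [k0, k1]
    have hx3 : (3 * (12 * (A : K) - η) * (12 * A + η)) ≠ 0 := by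
      rw [← hcubK]; exact pow_ne_zero _ hx0
    have hA1 : (12 * (A : K) - η) ≠ 0 := fun h1 => hx3 (by rw [h1]; ring)
    have hA2 : (12 * (A : K) + η) ≠ 0 := fun h1 => hx3 (by rw [h1]; ring)
    field_simp
    ring

end Pool.Agent.PTN.KPL
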