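import Pool.Agent.PTN.StQ
import Pool.Agent.PTL.FIN

/-!
# The law of the ranks of prime twists for every `n`: the theorem (module MAINQ)
-/

set_option autoImplicit false

open NumberField IsDedekindDomain Finset
open scoped nonZeroDivisors Pointwise

namespace Pool.Agent.PTN

open Pool.Agent.Lib_helper18 Pool.Agent.Lib_helper18.Eis Pool.Agent.Lib_helper84.Cub
open Pool.Agent.PT Pool.Agent.PTE Pool.Agent.PT3 Pool.Agent.PTL

namespace MAINQ

theorem tf_nn (P : Prop) : 0 ≤ tf P := by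
  unfold tf
  split_ifs
  · exact zero_le_one
  · exact le_refl _

/-! ### Comparison of sums -/

/-- the sum of the values at the small primes -/
noncomputable def small (n : ℤ) (M : ℕ) (F : ℤ → ℝ) : ℝ :=
  ∑ e ∈ ({1, 2} : Finset ℕ), ∑ q ∈ Finset.range (M + 1), F (n * (q : ℤ) ^ e)

theorem sum_le (n : ℤ) (a M : ℕ) (W W' : ℤ → Prop) (F : ℤ → ℝ) (hF : ∀ A, 0 ≤ F A)
    (h : ∀ e q : ℕ, (e = 1 ∨ e = 2) → q.Prime → M < q → W ((q : ℤ) ^ e) → W' ((q : ℤ) ^ e))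
    {σ : ℝ} (h1 : 1 < σ) (T : Finset ℕ) :
    SumA n a W F σ T ≤ SumA n a W' F σ T + small n M F := by
  classical
  unfold SumA small
  rw [← Finset.sum_add_distrib]
  refine Finset.sum_le_sum fun e he => ?_
  have he' : e = 1 ∨ e = 2 := by simpa using he
  have h0 : ∑ q ∈ T, (if q ∈ Finset.range (M + 1) then F (n * (q : ℤ) ^ e) else 0) ≤
      ∑ q ∈ Finset.range (M + 1), F (n * (q : ℤ) ^ e) := by
    rw [← Finset.sum_filter]
    exact Finset.sum_le_sum_of_subset_of_nonneg (fun q hq => (Finset.mem_filter.1 hq).2)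
      (fun _ _ _ => hF _)
  refine le_trans ?_ (add_le_add le_rfl h0)
  rw [← Finset.sum_add_distrib]
  refine Finset.sum_le_sum fun q _ => ?_
  have hpw : 0 ≤ (q : ℝ) ^ (-σ) := Real.rpow_nonneg (Nat.cast_nonneg q) _
  have hnn : 0 ≤ F (n * (q : ℤ) ^ e) * (q : ℝ) ^ (-σ) := mul_nonneg (hF _) hpw
  by_cases hW : q.Prime ∧ q % 3 = a ∧ W ((q : ℤ) ^ e)
  · rw [if_pos hW]
    by_cases hM : M < q
    · rw [if_pos ⟨hW.1, hW.2.1, h e q he' hW.1 hM hW.2.2⟩,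
        if_neg (fun h5 => absurd (Finset.mem_range.1 h5) (by omega)), add_zero]
    · rw [if_pos (Finset.mem_range.2 (by omega))]
      have h3 : (q : ℝ) ^ (-σ) ≤ 1 :=
        Real.rpow_le_one_of_one_le_of_nonpos (by exact_mod_cast hW.1.one_lt.le) (by linarith)
      have h4 : F (n * (q : ℤ) ^ e) * (q : ℝ) ^ (-σ) ≤ F (n * (q : ℤ) ^ e) :=
        mul_le_of_le_one_right (hF _) h3
      split_ifs
      · linarith
      · linarith
  · rw [if_neg hW]
    have h6 := hF (n * (q : ℤ) ^ e)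
    split_ifs <;> linarith

theorem above_of {n : ℤ} {a M : ℕ} {W W' : ℤ → Prop} {F : ℤ → ℝ} {x : ℝ} (hF : ∀ A, 0 ≤ F A)
    (h : ∀ e q : ℕ, (e = 1 ∨ e = 2) → q.Prime → M < q → W ((q : ℤ) ^ e) → W' ((q : ℤ) ^ e))
    (hA : AboveA n a W' F x) : AboveA n a W F x := by
  obtain ⟨K, hK⟩ := hA
  refine ⟨K + small n M F, fun σ h1 h2 T => ?_⟩
  have e1 := sum_le n a M W W' F hF h h1 T
  have e2 := hK σ h1 h2 T
  linarith

theorem below_of {n : ℤ} {a M : ℕ} {W W' : ℤ → Prop} {F : ℤ → ℝ} {x : ℝ} (hF : ∀ A, 0 ≤ F A)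
    (h : ∀ e q : ℕ, (e = 1 ∨ e = 2) → q.Prime → M < q → W' ((q : ℤ) ^ e) → W ((q : ℤ) ^ e))
    (hB : BelowA n a W' F x) : BelowA n a W F x := by
  obtain ⟨K, hK⟩ := hB
  refine ⟨K + small n M F, fun σ h1 h2 => ?_⟩
  obtain ⟨T, hT⟩ := hK σ h1 h2
  refine ⟨T, ?_⟩
  have e1 := sum_le n a M W' W F hF h h1 T
  linarith

/-! ### Units -/

/-- the class of a unit -/
noncomputable def clu (f : ℕ) {m : ℕ} (π : Fin m → PP) (u : (ZMod f)ˣ) :
    ZMod 3 × (Fin m → ZMod 3) :=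
  (wt ((((u : ZMod f).val : ℕ) : ℤ) ^ 2), fun i => sym (π i).1 ((((u : ZMod f).val : ℕ) : ℤ) : Eis))

theorem kl_clu (f : ℕ) {m : ℕ} (π : Fin m → PP) (u : (ZMod f)ˣ) :
    Kl π (clu f π u).1 (clu f π u).2 (((u : ZMod f).val : ℕ) : ℤ) := ⟨rfl, fun _ => rfl⟩

theorem kl_iff (f : ℕ) {m : ℕ} (π : Fin m → PP) (u : (ZMod f)ˣ) (w0 : ZMod 3)
    (c : Fin m → ZMod 3) :
    Kl π w0 c (((u : ZMod f).val : ℕ) : ℤ) ↔ clu f π u = (w0, c) := by
  unfold Kl clu
  rw [Prod.ext_iff, funext_iff]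

/-- sums over the units -/
theorem sum_clu {f m : ℕ} [NeZero f] (π : Fin m → PP)
    (h : ∀ (w0 : ZMod 3) (c : Fin m → ZMod 3),
      Nat.card {u : (ZMod f)ˣ // Kl π w0 c (((u : ZMod f).val : ℕ) : ℤ)} * 3 ^ (m + 1) =
        f.totient) (G : ZMod 3 × (Fin m → ZMod 3) → ℝ) :
    ∑ u : (ZMod f)ˣ, G (clu f π u) = (∑ x, G x) * ((f.totient : ℝ) / 3 ^ (m + 1)) := by
  classical
  rw [← Finset.sum_fiberwise (Finset.univ : Finset (ZMod f)ˣ) (clu f π), Finset.sum_mul]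
  refine Finset.sum_congr rfl fun x _ => ?_
  have h1 : ∀ u ∈ Finset.univ.filter (fun u : (ZMod f)ˣ => clu f π u = x), G (clu f π u) = G x :=
    fun u hu => by rw [(Finset.mem_filter.1 hu).2]
  rw [Finset.sum_congr rfl h1, Finset.sum_const, nsmul_eq_mul, mul_comm]
  congr 1
  have h2 := h x.1 x.2
  have h3 : Nat.card {u : (ZMod f)ˣ // Kl π x.1 x.2 (((u : ZMod f).val : ℕ) : ℤ)} =
      (Finset.univ.filter (fun u : (ZMod f)ˣ => clu f π u = x)).card := by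
    rw [Nat.card_eq_fintype_card, Fintype.card_subtype]
    congr 1
    ext u
    simp only [Finset.mem_filter, Finset.mem_univ, true_and]
    exact kl_iff f π u x.1 x.2
  rw [h3] at h2
  rw [eq_div_iff (by positivity)]
  exact_mod_cast h2

/-- numbers of units -/
theorem count {f m : ℕ} [NeZero f] (π : Fin m → PP)
    (h : ∀ (w0 : ZMod 3) (c : Fin m → ZMod 3),
      Nat.card {u : (ZMod f)ˣ // Kl π w0 c (((u : ZMod f).val : ℕ) : ℤ)} * 3 ^ (m + 1) =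
        f.totient) (P : ZMod 3 × (Fin m → ZMod 3) → Prop) :
    (Nat.card {u : (ZMod f)ˣ // P (clu f π u)} : ℝ) =
      Nat.card {x : ZMod 3 × (Fin m → ZMod 3) // P x} * ((f.totient : ℝ) / 3 ^ (m + 1)) := by
  classical
  have h1 := sum_clu π h (fun x => if P x then (1 : ℝ) else 0)
  have h2 : ∑ u : (ZMod f)ˣ, (if P (clu f π u) then (1 : ℝ) else 0) =
      Nat.card {u : (ZMod f)ˣ // P (clu f π u)} := by
    rw [← Finset.sum_filter, Finset.sum_const, nsmul_eq_mul, mul_one, Nat.card_eq_fintype_card,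
      Fintype.card_subtype]
  have h3 : ∑ x : ZMod 3 × (Fin m → ZMod 3), (if P x then (1 : ℝ) else 0) =
      Nat.card {x : ZMod 3 × (Fin m → ZMod 3) // P x} := by
    rw [← Finset.sum_filter, Finset.sum_const, nsmul_eq_mul, mul_one, Nat.card_eq_fintype_card,
      Fintype.card_subtype]
  rw [← h2, ← h3]
  exact h1

section

variable {h n m k : ℕ} {π : Fin m → PP} {p e : Fin m → ℕ} {r f : Fin k → ℕ}

/-- the condition modulo `9` -/
theorem nu1_iff (hN : NF n π p e r f) (u : (ZMod (9 * (3 ^ h * n)))ˣ) :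
    Nu1 (3 ^ h * n) u ↔ (h = 0 ∧ wt ((n : ℤ) ^ 2) + (clu (9 * (3 ^ h * n)) π u).1 = 0) := by
  have hcop : Nat.Coprime (u : ZMod (9 * (3 ^ h * n))).val (9 * (3 ^ h * n)) :=
    ZMod.val_coe_unit_coprime u
  have hn3 : ¬ 3 ∣ n := EADM.three_not hN
  unfold Nu1
  rcases Nat.eq_zero_or_pos h with rfl | hpos
  · have hU3 : ¬ 3 ∣ (u : ZMod (9 * (3 ^ 0 * n))).val := by
      intro h3
      have h4 : 3 ∣ 9 * (3 ^ 0 * n) := (by norm_num : 3 ∣ 9).mul_right _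
      have h5 := Nat.dvd_gcd h3 h4
      rw [hcop] at h5
      omega
    have e1 : (clu (9 * (3 ^ 0 * n)) π u).1 =
        wt ((((u : ZMod (9 * (3 ^ 0 * n))).val : ℕ) : ℤ) ^ 2) := rfl
    rw [e1]
    generalize (u : ZMod (9 * (3 ^ 0 * n))).val = U at *
    have hnz : ¬ (3 : ℤ) ∣ (n : ℤ) := by
      intro h3
      exact hn3 (by exact_mod_cast h3)
    have hUz : ¬ (3 : ℤ) ∣ (U : ℤ) := by
      intro h3
      exact hU3 (by exact_mod_cast h3)
    have hA : ¬ (3 : ℤ) ∣ (n : ℤ) * U := by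
      intro h3
      rcases Int.prime_three.dvd_or_dvd h3 with h4 | h4
      · exact hnz h4
      · exact hUz h4
    have h6 := FIN.cls_iff (a := 1) (A := (n : ℤ) * U) (Or.inl rfl) hA
    have w1 : wt ((1 : ℤ) ^ 2) = 0 := by
      rw [FIN.wt_res (c := 1) 0 0 (by norm_num) (by norm_num)]
      decide
    rw [w1, mul_pow, wt_mul (sq_mod_three hnz) (sq_mod_three hUz)] at h6
    unfold PTL.Cls at h6
    have h7 : ((3 ^ 0 * n * U % 9 = 1) ∨ (3 ^ 0 * n * U % 9 = 8)) ↔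
        ((n : ℤ) * U % 9 = 1 ∨ (n : ℤ) * U % 9 = 9 - 1) := by
      rw [pow_zero, one_mul]
      have h8 : (n : ℤ) * U = ((n * U : ℕ) : ℤ) := by push_cast; ring
      rw [h8]
      omega
    rw [h7, h6]
    exact ⟨fun h9 => ⟨rfl, h9⟩, fun h9 => h9.2⟩
  · constructor
    · intro h1
      exfalso
      have h2 : 3 ∣ 3 ^ h * n * (u : ZMod (9 * (3 ^ h * n))).val :=
        ((dvd_pow_self 3 (by omega)).mul_right _).mul_right _
      omega
    · rintro ⟨h1, -⟩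
      omega

/-- the relation between the dimensions -/
theorem dims (hNDIM : Stmt_NDIM) (hh : h ≤ 2) (w0 : ZMod 3) (c : Fin m → ZMod 3) :
    sN h n π p e r w0 c + (if h = 0 ∧ wt ((n : ℤ) ^ 2) + w0 = 0 then 1 else 0) =
      vN h n π p e r w0 c + k + (if h = 1 then 1 else 0) := by
  have h3 := hNDIM h n m k π p e r w0 c
  unfold actR at h3
  have hcase : h = 0 ∨ h = 1 ∨ h = 2 := by omega
  rcases hcase with rfl | rfl | rfl
  · simp only [true_and, if_true, OfNat.zero_ne_ofNat, false_or] at h3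
    rw [if_neg (by norm_num : ¬ (0 : ℕ) = 1)]
    by_cases hw : wt ((n : ℤ) ^ 2) + w0 = 0
    · rw [if_pos hw] at h3
      rw [if_pos ⟨rfl, hw⟩]
      exact h3
    · rw [if_neg hw] at h3
      rw [if_neg fun h => hw h.2]
      exact h3
  · rw [if_neg (by norm_num), if_neg (by norm_num : ¬ (1 : ℕ) = 0)] at h3
    rw [if_neg fun h => absurd h.1 (by norm_num), if_pos rfl]
    exact h3
  · rw [if_pos (Or.inl rfl), if_neg (by norm_num : ¬ (2 : ℕ) = 0)] at h3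
    rw [if_neg fun h => absurd h.1 (by norm_num), if_neg (by norm_num : ¬ (2 : ℕ) = 1)]
    omega

/-- the number `δ` -/
theorem delta_eq (hN : NF n π p e r f) (hh : h ≤ 2) :
    (3 ∣ 3 ^ h * n ∧ ¬ 9 ∣ 3 ^ h * n) ↔ h = 1 := by
  have hn3 : ¬ 3 ∣ n := EADM.three_not hN
  have hcase : h = 0 ∨ h = 1 ∨ h = 2 := by omega
  rcases hcase with rfl | rfl | rfl
  · rw [pow_zero, one_mul]
    exact ⟨fun h1 => absurd h1.1 hn3, fun h1 => absurd h1 (by norm_num)⟩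
  · rw [pow_one]
    refine ⟨fun _ => rfl, fun _ => ⟨dvd_mul_right _ _, fun h9 => hn3 ?_⟩⟩
    omega
  · refine ⟨fun h1 => absurd ?_ h1.2, fun h1 => absurd h1 (by norm_num)⟩
    exact dvd_mul_right _ _

end

theorem no_sol' : ∀ A : ℤ, A ≠ 0 → CubeRank.GenBy A (CubeRank.rr A) → CubeRank.rr A < 1 →
    ¬ ∃ X Y : ℚ, X ^ 3 + Y ^ 3 = (A : ℚ) := by
  intro A hA h1 h2
  have h3 : CubeRank.rr A = 0 := by omega
  rw [h3] at h1
  exact DOM.no_sol hA h1

theorem le_one : ∀ A : ℤ, A ≠ 0 → CubeRank.GenBy A (CubeRank.rr A) → CubeRank.rr A < 2 →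
    CubeRank.rr A ≤ 1 := by
  intro A _ _ h2
  omega

end MAINQ

open MAINQ in
theorem MAINQ_thm (hNFE : Stmt_NFE) (hNDIM : Stmt_NDIM) (hNSUM : Stmt_NSUM) (hNZER : Stmt_NZER)
    (hNSU1 : Stmt_NSU1) (hNZE1 : Stmt_NZE1) (hNZE0 : Stmt_NZE0) (hCAB : Stmt_CAB)
    (hCBE : Stmt_CBE) (hLAW : Stmt_LAW) (hALLQ : Stmt_ALLQ) (hTRU : Stmt_TRU)
    (hTRC : Stmt_TRC) (hCLN : Stmt_CLN) (hCLU : Stmt_CLU) (hSUMA : Stmt_SUMA) :
    Stmt_MAINQ := by
  classical
  intro N hN0 hcf m k δ μ hm hk hδ hμ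
  obtain ⟨h, n, m', k', π, p, e, r, f, hNF, hh, -, hNe, hm', hk'⟩ := hNFE N hN0 hcf
  have em : m' = m := hm'.trans hm.symm
  have ek : k' = k := hk'.trans hk.symm
  subst em ek
  clear hm hk hm' hk'
  subst hNe
  have hδ' : δ = if h = 1 then 1 else 0 := by
    rw [hδ]
    by_cases h1 : h = 1
    · rw [if_pos ((delta_eq hNF hh).2 h1), if_pos h1]
    · rw [if_neg fun h2 => h1 ((delta_eq hNF hh).1 h2), if_neg h1]
  clear hδ
  subst hδ'
  have hμ' : μ = m' + (if h = 1 then 0 else 1) := by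
    split_ifs at hμ ⊢ <;> omega
  have hf0 : 9 * (3 ^ h * n) ≠ 0 := by
    have := hN0
    omega
  have : NeZero (9 * (3 ^ h * n)) := ⟨hf0⟩
  obtain ⟨hT1, hT2⟩ := hTRU h n m' k' π p e r f hNF
  have hcopq : ∀ q e' : ℕ, q.Prime → 9 * (3 ^ h * n) < q →
      IsCoprime ((q : ℤ) ^ e') ((9 * (3 ^ h * n) : ℕ) : ℤ) := by
    intro q e' hq hlt
    apply IsCoprime.pow_left
    rw [Nat.isCoprime_iff_coprime]
    exact (Nat.Prime.coprime_iff_not_dvd hq).2 fun hd =>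
      absurd (Nat.le_of_dvd (Nat.pos_of_ne_zero hf0) hd) (by omega)
  have hCK : ∀ u : (ZMod (9 * (3 ^ h * n)))ˣ, ∀ e' q : ℕ, (e' = 1 ∨ e' = 2) → q.Prime →
      9 * (3 ^ h * n) < q → Cu (3 ^ h * n) u ((q : ℤ) ^ e') →
      Kl π (clu (9 * (3 ^ h * n)) π u).1 (clu (9 * (3 ^ h * n)) π u).2 ((q : ℤ) ^ e') := by
    rintro u e' q - hq hlt ⟨x, hx⟩
    exact hT2 u _ _ _ x (kl_clu _ π u) (hcopq q e' hq hlt) hx
  have hKC : ∀ u : (ZMod (9 * (3 ^ h * n)))ˣ, ∀ e' q : ℕ, (e' = 1 ∨ e' = 2) → q.Prime →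
      9 * (3 ^ h * n) < q →
      Kl π (clu (9 * (3 ^ h * n)) π u).1 (clu (9 * (3 ^ h * n)) π u).2 ((q : ℤ) ^ e') →
      Cu (3 ^ h * n) u ((q : ℤ) ^ e') := by
    rintro u e' q - hq hlt hy
    exact hTRC h n m' k' π p e r f hNF u _ _ _ (kl_clu _ π u) hy (hcopq q e' hq hlt)
  have hφ : (0 : ℝ) ≤ ((9 * (3 ^ h * n)).totient : ℝ) := Nat.cast_nonneg _
  refine ⟨⟨fun u => vN h n π p e r (clu (9 * (3 ^ h * n)) π u).1 (clu (9 * (3 ^ h * n)) π u).2,
    fun u => sN h n π p e r (clu (9 * (3 ^ h * n)) π u).1 (clu (9 * (3 ^ h * n)) π u).2,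
    ?_, ?_, ?_, ?_, ?_, ?_⟩, ?_, ?_⟩
  · -- the relation of the dimensions
    intro u
    have h1 := dims (π := π) (p := p) (e := e) (r := r) (n := n) hNDIM hh
      (clu (9 * (3 ^ h * n)) π u).1 (clu (9 * (3 ^ h * n)) π u).2
    by_cases h2 : Nu1 (3 ^ h * n) u
    · rw [if_pos h2]
      rw [if_pos ((nu1_iff hNF u).1 h2)] at h1
      exact h1
    · rw [if_neg h2]
      rw [if_neg fun h3 => h2 ((nu1_iff hNF u).2 h3)] at h1
      exact h1
  · -- the average of `3 ^ v`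
    rw [finsum_eq_sum_of_fintype,
      sum_clu π hT1 (fun x => (3 : ℝ) ^ vN h n π p e r x.1 x.2)]
    have hS : ∑ x : ZMod 3 × (Fin m' → ZMod 3), (3 : ℝ) ^ vN h n π p e r x.1 x.2 ≤
        (5 / 3) ^ μ * 3 ^ (m' + 1) := by
      by_cases h1 : h = 1
      · subst h1
        have h2 := hNSU1 n m' k' π p e r f hNF
        have h3 : ∑ x : ZMod 3 × (Fin m' → ZMod 3), (3 : ℝ) ^ vN 1 n π p e r x.1 x.2 ≤
            3 * 5 ^ m' := by exact_mod_cast h2
        rw [hμ', if_pos rfl, add_zero, div_pow, pow_succ]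
        refine h3.trans (le_of_eq ?_)
        field_simp
      · have h2 := hNSUM h n m' k' π p e r f hNF
        have h3 : ∑ x : ZMod 3 × (Fin m' → ZMod 3), (3 : ℝ) ^ vN h n π p e r x.1 x.2 ≤
            5 ^ (m' + 1) := by exact_mod_cast h2
        rw [hμ', if_neg h1, div_pow]
        refine h3.trans (le_of_eq ?_)
        field_simp
    calc _ ≤ ((5 / 3) ^ μ * 3 ^ (m' + 1)) * (((9 * (3 ^ h * n)).totient : ℝ) / 3 ^ (m' + 1)) :=
          mul_le_mul_of_nonneg_right hS (by positivity)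
      _ = (5 / 3) ^ μ * (9 * (3 ^ h * n)).totient := by field_simp
  · -- the units with `v = 0`
    have hC := count π hT1 (fun x => vN h n π p e r x.1 x.2 = 0 ∧
      ¬ (h = 0 ∧ wt ((n : ℤ) ^ 2) + x.1 = 0))
    have e1 : Nat.card {u : (ZMod (9 * (3 ^ h * n)))ˣ //
        vN h n π p e r (clu (9 * (3 ^ h * n)) π u).1 (clu (9 * (3 ^ h * n)) π u).2 = 0 ∧
          ¬ Nu1 (3 ^ h * n) u} =
        Nat.card {u : (ZMod (9 * (3 ^ h * n)))ˣ //
          vN h n π p e r (clu (9 * (3 ^ h * n)) π u).1 (clu (9 * (3 ^ h * n)) π u).2 = 0 ∧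
            ¬ (h = 0 ∧ wt ((n : ℤ) ^ 2) + (clu (9 * (3 ^ h * n)) π u).1 = 0)} :=
      Nat.card_congr (Equiv.subtypeEquivRight fun u => by rw [nu1_iff hNF u])
    rw [e1, hC]
    have hS : (2 / 3 : ℝ) ^ μ * 3 ^ (m' + 1) ≤
        Nat.card {x : ZMod 3 × (Fin m' → ZMod 3) // vN h n π p e r x.1 x.2 = 0 ∧
          ¬ (h = 0 ∧ wt ((n : ℤ) ^ 2) + x.1 = 0)} := by
      by_cases h1 : h = 1
      · subst h1
        have h2 := hNZE1 n m' k' π p e r f hNF
        have e2 : Nat.card {x : ZMod 3 × (Fin m' → ZMod 3) // vN 1 n π p e r x.1 x.2 = 0 ∧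
            ¬ (1 = 0 ∧ wt ((n : ℤ) ^ 2) + x.1 = 0)} =
            Nat.card {x : ZMod 3 × (Fin m' → ZMod 3) // vN 1 n π p e r x.1 x.2 = 0} :=
          Nat.card_congr (Equiv.subtypeEquivRight fun x =>
            ⟨fun h3 => h3.1, fun h3 => ⟨h3, fun h4 => absurd h4.1 one_ne_zero⟩⟩)
        rw [e2, hμ', if_pos rfl, add_zero, div_pow, pow_succ]
        have h3 : (3 : ℝ) * 2 ^ m' ≤
            Nat.card {x : ZMod 3 × (Fin m' → ZMod 3) // vN 1 n π p e r x.1 x.2 = 0} := by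
          exact_mod_cast h2
        refine le_trans (le_of_eq ?_) h3
        field_simp
      · have h2 := hNZER h n m' k' π p e r f hNF
        have h3 : (2 : ℝ) ^ (m' + 1) ≤
            Nat.card {x : ZMod 3 × (Fin m' → ZMod 3) // vN h n π p e r x.1 x.2 = 0 ∧
              ¬ (h = 0 ∧ wt ((n : ℤ) ^ 2) + x.1 = 0)} := by exact_mod_cast h2
        rw [hμ', if_neg h1, div_pow]
        refine le_trans (le_of_eq ?_) h3
        field_simp
    calc (2 / 3 : ℝ) ^ μ * (9 * (3 ^ h * n)).totient =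
        ((2 / 3 : ℝ) ^ μ * 3 ^ (m' + 1)) * (((9 * (3 ^ h * n)).totient : ℝ) / 3 ^ (m' + 1)) := by
          field_simp
      _ ≤ _ := mul_le_mul_of_nonneg_right hS (by positivity)
  · -- the units with `v = 0`, `N u = ± 1`
    rintro h3N ⟨l, hl, hlN, hl9⟩
    have hh0 : h = 0 := by
      by_contra h0
      exact h3N ((dvd_pow_self 3 h0).mul_right _)
    subst hh0
    have hj : ∃ j, wt ((r j : ℤ) ^ 2) ≠ 0 := by
      rw [pow_zero, one_mul] at hlN
      rcases EADM.prime_dvd hNF hl hlN with ⟨i, hi⟩ | ⟨j, hj⟩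
      · have := hNF.p1 i
        omega
      · refine ⟨j, (FIN.p_wt (hNF.r2 j)).2 ?_⟩
        omega
    have h2 := hNZE0 n m' k' π p e r f hNF hj
    have hC := count π hT1 (fun x => vN 0 n π p e r x.1 x.2 = 0 ∧ wt ((n : ℤ) ^ 2) + x.1 = 0)
    have e1 : Nat.card {u : (ZMod (9 * (3 ^ 0 * n)))ˣ //
        vN 0 n π p e r (clu (9 * (3 ^ 0 * n)) π u).1 (clu (9 * (3 ^ 0 * n)) π u).2 = 0 ∧
          Nu1 (3 ^ 0 * n) u} =
        Nat.card {u : (ZMod (9 * (3 ^ 0 * n)))ˣ //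
          vN 0 n π p e r (clu (9 * (3 ^ 0 * n)) π u).1 (clu (9 * (3 ^ 0 * n)) π u).2 = 0 ∧
            wt ((n : ℤ) ^ 2) + (clu (9 * (3 ^ 0 * n)) π u).1 = 0} :=
      Nat.card_congr (Equiv.subtypeEquivRight fun u => by
        rw [nu1_iff hNF u]
        exact ⟨fun h3 => ⟨h3.1, h3.2.2⟩, fun h3 => ⟨h3.1, rfl, h3.2⟩⟩)
    rw [e1, hC]
    have h3 : (2 : ℝ) ^ m' ≤
        Nat.card {x : ZMod 3 × (Fin m' → ZMod 3) // vN 0 n π p e r x.1 x.2 = 0 ∧
          wt ((n : ℤ) ^ 2) + x.1 = 0} := by exact_mod_cast h2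
    calc 1 / 3 * (2 / 3 : ℝ) ^ m' * (9 * (3 ^ 0 * n)).totient =
        2 ^ m' * (((9 * (3 ^ 0 * n)).totient : ℝ) / 3 ^ (m' + 1)) := by
          rw [div_pow, pow_succ]
          field_simp
      _ ≤ _ := mul_le_mul_of_nonneg_right h3 (by positivity)
  · -- averages
    intro u F hF h0
    have hnn : ∀ A : ℤ, 0 ≤ F (CubeRank.rr A) := fun A => h0.trans (hF (Nat.zero_le _))
    have h1 := hCAB h n m' k' π p e r f (clu (9 * (3 ^ h * n)) π u).1
      (clu (9 * (3 ^ h * n)) π u).2 hNF hh F hF h0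
    exact ⟨above_of hnn (hCK u) h1.1, above_of hnn (hCK u) h1.2⟩
  · -- lower bounds in a class
    obtain ⟨-, -, hL3, hL4, hL5, hL6, -, -⟩ := hLAW
    intro u hv
    have hv' : vN h n π p e r (clu (9 * (3 ^ h * n)) π u).1 (clu (9 * (3 ^ h * n)) π u).2 = 0 :=
      hv
    have hB := hCBE h n m' k' π p e r f (clu (9 * (3 ^ h * n)) π u).1
      (clu (9 * (3 ^ h * n)) π u).2 hNF hh
    rw [hv'] at hB
    have key : ∀ (a : ℕ) (R : ℤ → Prop) (x d : ℝ),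
        BelowA ((3 ^ h * n : ℕ) : ℤ) a (Kl π (clu (9 * (3 ^ h * n)) π u).1
          (clu (9 * (3 ^ h * n)) π u).2) (fun A => tf (R A)) ((1 - x) / 3 ^ (m' + 1)) →
        d ≤ 1 - x →
        BelowA ((3 ^ h * n : ℕ) : ℤ) a (Cu (3 ^ h * n) u) (fun A => tf (R A))
          (d / 3 ^ (m' + 1)) := by
      intro a R x d h1 h2
      refine below_of (fun A => tf_nn _) (hKC u) ?_
      exact (hSUMA _ a m' π _).2.2.2 _ _ _ (div_le_div_of_nonneg_right h2 (by positivity)) h1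
    refine ⟨fun hs => ⟨?_, ?_⟩, fun hs => ⟨?_, ?_⟩⟩
    · have h2 := hL3 _ hs
      exact key 2 _ _ _ (hB 1 _ no_sol').1 (by rw [Nat.sub_zero]; linarith)
    · have h2 := hL6 _ hs
      exact key 1 _ _ _ (hB 2 _ le_one).2 (by linarith)
    · have h2 := hL4 _ hs
      exact key 2 _ _ _ (hB 2 _ le_one).1 (by rw [Nat.sub_zero]; linarith)
    · have h2 := hL5 _ hs
      exact key 1 _ _ _ (hB 1 _ no_sol').2 (by linarith)
  · -- finite generation
    choose M1 hM1 using fun x : ZMod 3 × (Fin m' → ZMod 3) =>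
      (hCLN h n m' k' π p e r f x.1 x.2 hNF hh).1
    choose M2 hM2 using fun x : ZMod 3 × (Fin m' → ZMod 3) =>
      (hCLU h n m' k' π p e r f x.1 x.2 hNF hh).1
    refine ⟨3 + ∑ x, (M1 x + M2 x), fun q E hq hM hE => ?_⟩
    have hBB : ((3 ^ h * n : ℕ) : ℤ) * (q : ℤ) ^ E = BB h n E q := by
      unfold BB
      push_cast
      ring
    rw [hBB]
    let x : ZMod 3 × (Fin m' → ZMod 3) :=
      (wt (((q : ℤ) ^ E) ^ 2), fun i => (E : ZMod 3) * sym (π i).1 (q : Eis))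
    have hcl : InCT E π x.1 x.2 q := ⟨rfl, fun _ => rfl⟩
    have hx : M1 x + M2 x ≤ ∑ x, (M1 x + M2 x) :=
      Finset.single_le_sum (f := fun x => M1 x + M2 x) (fun _ _ => Nat.zero_le _)
        (Finset.mem_univ x)
    have hq3 : q % 3 = 1 ∨ q % 3 = 2 := by
      have h1 : ¬ 3 ∣ q := by
        intro h3
        have := (Nat.prime_dvd_prime_iff_eq Nat.prime_three hq).1 h3
        omega
      omega
    rcases hq3 with h1 | h2
    · exact CubeRank.gen_rr (hM2 x E q hE hq (by omega) h1 hcl)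
    · exact CubeRank.gen_rr (hM1 x E q hE hq (by omega) h2 hcl)
  · -- the averages over all `A`
    exact hALLQ h n m' k' π p e r f hNF hh μ hμ'

end Pool.Agent.PTN
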