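import Pool.Agent.PTN.StA
import Pool.Agent.PT3.EADT

/-!
# NADT: `AdN` and the local conditions, `q = 2 (mod 3)`

Follows `Pool/Agent/PT3/EADT.lean`.
-/

set_option autoImplicit false

namespace Pool.Agent.PTN

open Pool.Agent.Lib_helper18 Pool.Agent.Lib_helper18.Eis Pool.Agent.Lib_helper84.Cub
open Pool.Agent.PT Pool.Agent.PTE Pool.Agent.PT3

namespace NADT

open Pool.Agent.PT.EADM

theorem cast_two {h : ℕ} (hh : h ≤ 2) : (h : ZMod 3) = 2 ↔ h = 2 := by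
  have h1 : h = 0 ∨ h = 1 ∨ h = 2 := by omega
  rcases h1 with rfl | rfl | rfl <;> decide

theorem cast_zero {h : ℕ} (hh : h ≤ 2) : (h : ZMod 3) = 0 ↔ h = 0 := by
  have h1 : h = 0 ∨ h = 1 ∨ h = 2 := by omega
  rcases h1 with rfl | rfl | rfl <;> decide

section

variable {h n m k E q : ℕ} {π : Fin m → PP} {p e : Fin m → ℕ} {r f : Fin k → ℕ}
  {w0 : ZMod 3} {c : Fin m → ZMod 3}

theorem base_BG (hSPP : SPP) (hN : NF n π p e r f) (hE : E = 1 ∨ E = 2)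
    (hq : q.Prime) (hqn : ¬ q ∣ n) : BG (BB h n E q) := by
  have hn0 : n ≠ 0 := n_ne hN
  refine ⟨EADT.BB_ne hN hq, fun ϖ => ?_⟩
  obtain ⟨l, hl⟩ := EADT.below hSPP ϖ
  have hqE : q ^ E ≠ 0 := pow_ne_zero _ hq.ne_zero
  have h30 : 3 ^ h ≠ 0 := pow_ne_zero _ three_ne_zero
  rw [EADT.BB_eis, hl.V_nat (EADT.nat_ne hN hq), Nat.factorization_mul (mul_ne_zero h30 hn0) hqE,
    Nat.factorization_mul h30 hn0, Finsupp.add_apply, Finsupp.add_apply]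
  have h1 := fac_le hN l
  have h2 : (3 ^ h).factorization l = 0 := by
    apply Nat.factorization_eq_zero_of_not_dvd
    intro h4
    exact EADT.below_ne hl ((Nat.prime_dvd_prime_iff_eq hl.pr Nat.prime_three).1
      (hl.pr.dvd_of_dvd_pow h4))
  by_cases hlq : l = q
  · have h4 : n.factorization l = 0 := by
      rw [hlq]
      exact Nat.factorization_eq_zero_of_not_dvd hqn
    have h3 : (q ^ E).factorization l = E := by
      rw [hlq, hq.factorization_pow, Finsupp.single_eq_same]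
    omega
  · have h3 : (q ^ E).factorization l = 0 := by
      apply Nat.factorization_eq_zero_of_not_dvd
      intro h
      exact hlq ((Nat.prime_dvd_prime_iff_eq hl.pr hq).1 (hl.pr.dvd_of_dvd_pow h))
    omega

theorem base_Ty (hLCL : LCL) (hN : NF n π p e r f) (hh : h ≤ 2)
    (hq : q.Prime) (hq3 : q ≠ 3) (hw : wt (((q : ℤ) ^ E) ^ 2) = w0) :
    TyB h n w0 (BB h n E q) := by
  rcases Nat.eq_zero_or_pos h with rfl | hpos
  · obtain ⟨-, hmul, -, hunit, -⟩ := hLCL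
    have hn0 : (n : ℤ) ≠ 0 := by exact_mod_cast n_ne hN
    have hn3 : ¬ (3 : ℤ) ∣ (n : ℤ) := by
      intro h
      exact three_not hN (by exact_mod_cast h)
    have hq0 : (q : ℤ) ^ E ≠ 0 := pow_ne_zero _ (by exact_mod_cast hq.ne_zero)
    have hqE3 : ¬ (3 : ℤ) ∣ (q : ℤ) ^ E := by
      intro h
      have h1 : 3 ∣ q ^ E := by exact_mod_cast h
      exact hq3 ((Nat.prime_dvd_prime_iff_eq Nat.prime_three hq).1
        (Nat.prime_three.dvd_of_dvd_pow h1)).symm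
    have h2 := hmul (n : ℤ) ((q : ℤ) ^ E) hn0 hq0
    refine ⟨EADT.BB_ne hN hq, ?_, ?_⟩
    · unfold BB
      rw [pow_zero, one_mul, h2.1, (hunit _ hn3).1, (hunit _ hqE3).1, add_zero, Nat.cast_zero]
    · unfold BB
      rw [pow_zero, one_mul, h2.2, (hunit _ hn3).2, (hunit _ hqE3).2, hw]
  · exact EADT.base_Ty hLCL hN (by omega) hq hq3 hw

theorem unr_of (hSPP : SPP) {x : ℤ}
    (hsupp : ∀ l : ℕ, l.Prime → (l : ℤ) ∣ x → l ∣ 3 * n) (ϖ : PP)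
    (hϖ : ¬ ϖ.1 ∣ ((BB h n E q : ℤ) : Eis)) : ¬ ϖ.1 ∣ (x : Eis) := by
  intro h1
  obtain ⟨l, hl⟩ := EADT.below hSPP ϖ
  apply hϖ
  rw [EADT.BB_eis, hl.dvd_nat]
  have h2 : l ∣ n := by
    rcases hl.pr.dvd_mul.1 (hsupp l hl.pr ((hl.dvd_int x).1 h1)) with h3 | h3
    · exact absurd ((Nat.prime_dvd_prime_iff_eq hl.pr Nat.prime_three).1 h3) (EADT.below_ne hl)
    · exact h3
  exact (h2.mul_left _).mul_right _

/-- The local conditions at `3`. -/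
theorem loc_iff (hT : TyB h n w0 (BB h n E q)) (hh : h ≤ 2) (x : ℤ) :
    ((h = 2 → lw x + lv x * (wt ((n : ℤ) ^ 2) + w0) = 0) ∧
      (h = 0 → lv x = 0 ∧ (wt ((n : ℤ) ^ 2) + w0 = 0 → lw x = 0))) ↔
      Loc (BB h n E q) x := by
  obtain ⟨-, h1, h2⟩ := hT
  unfold Loc
  rw [h1, h2, cast_two hh, cast_zero hh]

end

end NADT

/-- NADT: `AdN` and the local conditions, `q = 2 (mod 3)`. -/
theorem NADT_thm (hSTM : STM) (hSPP : SPP) (hSCJ : SCJ) (hLCL : LCL) : Stmt_NADT := by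
  have _ := hSTM
  intro h n m k π p e r f w0 c E q hN hh hE hq hq3 hcl hqn
  obtain ⟨hqw, hqc⟩ := hcl
  have hq3' : q ≠ 3 := by rintro rfl; omega
  have hT := NADT.base_Ty hLCL hN hh hq hq3' hqw
  refine ⟨NADT.base_BG hSPP hN hE hq hqn, hT, fun x hsupp => ⟨?_, ?_⟩⟩
  · rintro ⟨⟨hx, _, hsym, hwild⟩, h0⟩
    exact ⟨⟨hx, fun ϖ => EADT.sym_of hSPP hSCJ hN hE hq hqn hqc hx hsupp hsym ϖ (Or.inl hq3),
      fun ϖ hϖ => NADT.unr_of hSPP hsupp ϖ hϖ⟩, (NADT.loc_iff hT hh x).1 ⟨hwild, h0⟩⟩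
  · rintro ⟨⟨hx, hsym, _⟩, hloc⟩
    obtain ⟨hwild, h0⟩ := (NADT.loc_iff hT hh x).2 hloc
    refine ⟨⟨hx, hsupp, fun i => ?_, hwild⟩, h0⟩
    rw [EADT.key hSPP hN hE hq hqn hqc hx i]
    exact hsym (π i)

end Pool.Agent.PTN
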