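import Pool.Agent.PTN.StA

/-!
# The law of the ranks of prime twists for every `n`: the relation between the dimensions
-/

set_option autoImplicit false

open NumberField IsDedekindDomain Finset
open scoped nonZeroDivisors Pointwise

namespace Pool.Agent.PTN

open Pool.Agent.Lib_helper18 Pool.Agent.Lib_helper18.Eis Pool.Agent.Lib_helper84.Cub
open Pool.Agent.PT Pool.Agent.PTE Pool.Agent.PT3

namespace NDIM

theorem ker_dim {α β : Type} [Fintype β] (M : Matrix α β (ZMod 3)) (R : α → Prop)
    (S : β → Prop) [DecidablePred S] [Fintype {b // S b}] (U : Submodule (ZMod 3) (β → ZMod 3))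
    (hU : ∀ u, u ∈ U ↔ (∀ a, R a → M.mulVec u a = 0) ∧ ∀ b, ¬ S b → u b = 0) :
    Module.finrank (ZMod 3) U +
      (M.submatrix (fun a : {a // R a} => a.1) (fun b : {b // S b} => b.1)).rank =
      Fintype.card {b // S b} := by
  set A : Matrix {a // R a} {b // S b} (ZMod 3) :=
    M.submatrix (fun a : {a // R a} => a.1) (fun b : {b // S b} => b.1) with hA
  have key : ∀ (u : β → ZMod 3), (∀ b, ¬ S b → u b = 0) → ∀ a : {a // R a},
      M.mulVec u a.1 = A.mulVec (fun b => u b.1) a := by
    intro u hu a
    rw [Matrix.mulVec, Matrix.mulVec, dotProduct, dotProduct]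
    rw [← Finset.sum_subset (Finset.subset_univ (Finset.univ.filter S))]
    · exact Finset.sum_subtype (Finset.univ.filter S) (p := S) (by simp)
        (fun b => M a.1 b * u b)
    · intro b _ hb
      rw [hu b (by simpa using hb), mul_zero]
  let e : U ≃ₗ[ZMod 3] LinearMap.ker A.mulVecLin :=
    { toFun := fun u => ⟨fun b => u.1 b.1, by
        rw [LinearMap.mem_ker, Matrix.mulVecLin_apply]
        funext a
        obtain ⟨h1, h2⟩ := (hU u.1).1 u.2
        rw [← key u.1 h2 a]
        exact h1 a.1 a.2⟩
      map_add' := fun u v => rfl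
      map_smul' := fun t u => rfl
      invFun := fun w => ⟨fun b => if h : S b then w.1 ⟨b, h⟩ else 0, by
        rw [hU]
        have h2 : ∀ b, ¬ S b → (fun b => if h : S b then w.1 ⟨b, h⟩ else 0) b = 0 := by
          intro b hb
          exact dif_neg hb
        refine ⟨fun a ha => ?_, h2⟩
        rw [key _ h2 ⟨a, ha⟩]
        have h3 : (fun b : {b // S b} => (if h : S b.1 then w.1 ⟨b.1, h⟩ else 0)) = w.1 := by
          funext b
          exact dif_pos b.2
        rw [h3]
        have h4 := w.2
        rw [LinearMap.mem_ker, Matrix.mulVecLin_apply] at h4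
        exact congrFun h4 ⟨a, ha⟩⟩
      left_inv := fun u => by
        apply Subtype.ext
        funext b
        show (if h : S b then u.1 b else 0) = u.1 b
        split_ifs with h
        · rfl
        · exact (((hU u.1).1 u.2).2 b h).symm
      right_inv := fun w => by
        apply Subtype.ext
        funext b
        exact dif_pos b.2 }
  have h1 := e.finrank_eq
  have h2 := LinearMap.finrank_range_add_finrank_ker A.mulVecLin
  have h3 : A.rank = Module.finrank (ZMod 3) (LinearMap.range A.mulVecLin) := rfl
  rw [h1, h3, Nat.add_comm, h2, Module.finrank_pi]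

end NDIM

open NDIM in
theorem NDIM_thm : Stmt_NDIM := by
  classical
  intro h n m k π p e r w0 c
  have h1 := ker_dim (Nm h n π p e r w0 c) (fun a => a ≠ 0 ∨ actR h n w0)
    (fun b => h ≠ 0 ∨ b ≠ Sum.inl 0) (US h n π p e r w0 c) (by
      intro u
      constructor
      · rintro ⟨g1, g2, g3⟩
        refine ⟨fun a ha => ?_, fun b hb => ?_⟩
        · rcases Fin.eq_zero_or_eq_succ a with rfl | ⟨i, rfl⟩
          · rcases ha with ha | ha
            · exact absurd rfl ha
            · exact g2 ha
          · exact g1 i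
        · push Not at hb
          rw [hb.2]
          exact g3 hb.1
      · rintro ⟨g1, g2⟩
        refine ⟨fun i => g1 _ (Or.inl (Fin.succ_ne_zero i)), fun ha => g1 0 (Or.inr ha),
          fun h0 => g2 _ ?_⟩
        push Not
        exact ⟨h0, rfl⟩)
  have h2 := ker_dim (Nm h n π p e r w0 c).transpose (fun b => h ≠ 0 ∨ b ≠ Sum.inl 0)
    (fun a => a ≠ 0 ∨ actR h n w0) (VS h n π p e r w0 c) (by
      intro y
      constructor
      · rintro ⟨g1, g2⟩
        refine ⟨fun b hb => ?_, fun a ha => ?_⟩
        · rw [Matrix.mulVec_transpose]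
          refine g2 b fun h0 => ?_
          rcases hb with hb | hb
          · exact absurd h0 hb
          · exact hb
        · push Not at ha
          rw [ha.1]
          exact g1 ha.2
      · rintro ⟨g1, g2⟩
        refine ⟨fun ha => g2 0 ?_, fun b hb => ?_⟩
        · push Not
          exact ⟨rfl, ha⟩
        · have h3 := g1 b (by
            by_cases h0 : h = 0
            · exact Or.inr (hb h0)
            · exact Or.inl h0)
          rw [Matrix.mulVec_transpose] at h3
          exact h3)
  have h3 : ((Nm h n π p e r w0 c).transpose.submatrix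
      (fun a : {b : Col m k // h ≠ 0 ∨ b ≠ Sum.inl 0} => a.1)
      (fun b : {a : Fin (m + 1) // a ≠ 0 ∨ actR h n w0} => b.1)).rank =
      ((Nm h n π p e r w0 c).submatrix
      (fun b : {a : Fin (m + 1) // a ≠ 0 ∨ actR h n w0} => b.1)
      (fun a : {b : Col m k // h ≠ 0 ∨ b ≠ Sum.inl 0} => a.1)).rank := by
    rw [← Matrix.rank_transpose]
    rfl
  rw [h3] at h2
  have hC : Fintype.card {b : Col m k // h ≠ 0 ∨ b ≠ Sum.inl 0} =
      m + k + (if h = 0 then 0 else 1) := by
    by_cases h0 : h = 0
    · rw [if_pos h0]
      have e1 : Fintype.card {b : Col m k // h ≠ 0 ∨ b ≠ Sum.inl 0} =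
          Fintype.card {b : Col m k // b ≠ Sum.inl 0} :=
        Fintype.card_congr (Equiv.subtypeEquivRight fun b => by simp [h0])
      rw [e1, Fintype.card_subtype_compl, Fintype.card_sum, Fintype.card_fin, Fintype.card_fin,
        Fintype.card_subtype_eq]
      omega
    · rw [if_neg h0]
      have e1 : Fintype.card {b : Col m k // h ≠ 0 ∨ b ≠ Sum.inl 0} = Fintype.card (Col m k) :=
        Fintype.card_congr (Equiv.subtypeUnivEquiv fun b => Or.inl h0)
      rw [e1, Fintype.card_sum, Fintype.card_fin, Fintype.card_fin]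
      omega
  have hR : Fintype.card {a : Fin (m + 1) // a ≠ 0 ∨ actR h n w0} =
      m + (if actR h n w0 then 1 else 0) := by
    by_cases h0 : actR h n w0
    · rw [if_pos h0]
      have e1 : Fintype.card {a : Fin (m + 1) // a ≠ 0 ∨ actR h n w0} =
          Fintype.card (Fin (m + 1)) :=
        Fintype.card_congr (Equiv.subtypeUnivEquiv fun b => Or.inr h0)
      rw [e1, Fintype.card_fin]
    · rw [if_neg h0]
      have e1 : Fintype.card {a : Fin (m + 1) // a ≠ 0 ∨ actR h n w0} =
          Fintype.card {a : Fin (m + 1) // a ≠ 0} :=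
        Fintype.card_congr (Equiv.subtypeEquivRight fun b => by simp [h0])
      rw [e1, Fintype.card_subtype_compl, Fintype.card_fin, Fintype.card_subtype_eq]
      omega
  have h4 : Module.finrank (ZMod 3) (US h n π p e r w0 c) = sN h n π p e r w0 c := rfl
  have h5 : Module.finrank (ZMod 3) (VS h n π p e r w0 c) = vN h n π p e r w0 c := rfl
  rw [h4] at h1
  rw [h5] at h2
  rw [← Fintype.card_congr (Equiv.refl {b : Col m k // h ≠ 0 ∨ b ≠ Sum.inl 0})] at h1
  have hC' := hC
  have hR' := hR
  generalize Fintype.card {b : Col m k // h ≠ 0 ∨ b ≠ Sum.inl 0} = cC at *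
  generalize Fintype.card {a : Fin (m + 1) // a ≠ 0 ∨ actR h n w0} = cR at *
  omega

end Pool.Agent.PTN
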