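import Pool.Agent.PTN.StF

set_option autoImplicit false

open NumberField IsDedekindDomain Finset
open scoped nonZeroDivisors Pointwise

namespace Pool.Agent.PTN

open Pool.Agent.Lib_helper18 Pool.Agent.Lib_helper18.Eis Pool.Agent.Lib_helper84.Cub
open Pool.Agent.PT Pool.Agent.PTE Pool.Agent.PT3 Pool.Agent.PTL

namespace NFE

theorem card_eq {N : ℕ} (hN : 0 < N) (hcf : ∀ p : ℕ, p.Prime → ¬ p ^ 3 ∣ N) (a : ℕ)
    (ha : a ≠ 0) :
    Nat.card {p : ℕ // p.Prime ∧ p % 3 = a ∧
      ¬ 3 ∣ (N / 3 ^ N.factorization 3).factorization p} =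
      (N.primeFactors.filter (fun p => p % 3 = a)).card := by
  apply Nat.subtype_card
  intro p
  rw [Finset.mem_filter]
  constructor
  · rintro ⟨hp, hpa⟩
    have hpr := Nat.prime_of_mem_primeFactors hp
    have h3 : p ≠ 3 := by
      rintro rfl
      exact ha hpa.symm
    refine ⟨hpr, hpa, ?_⟩
    rw [Nat.factorization_ordCompl, Finsupp.erase_ne h3]
    have h1 : 0 < N.factorization p :=
      hpr.factorization_pos_of_dvd hN.ne' (Nat.dvd_of_mem_primeFactors hp)
    have h2 : N.factorization p < 3 := by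
      by_contra hc
      exact hcf p hpr ((hpr.pow_dvd_iff_le_factorization hN.ne').2 (not_lt.1 hc))
    omega
  · rintro ⟨hpr, hpa, h⟩
    have h3 : p ≠ 3 := by
      rintro rfl
      exact ha hpa.symm
    rw [Nat.factorization_ordCompl, Finsupp.erase_ne h3] at h
    refine ⟨?_, hpa⟩
    rw [← Nat.support_factorization, Finsupp.mem_support_iff]
    intro h0
    rw [h0] at h
    exact h (dvd_zero 3)

end NFE

/-- NFE: normal form. -/
theorem NFE_thm (hENF : ENF) : Stmt_NFE := by
  intro N hN hcf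
  have h3 : ¬ 3 ∣ N / 3 ^ N.factorization 3 := Nat.not_dvd_ordCompl Nat.prime_three hN.ne'
  have hpos : 0 < N / 3 ^ N.factorization 3 := Nat.ordCompl_pos 3 hN.ne'
  have hle : N.factorization 3 ≤ 2 := by
    by_contra hc
    exact hcf 3 Nat.prime_three
      ((Nat.prime_three.pow_dvd_iff_le_factorization hN.ne').2 (by omega))
  obtain ⟨n, t, π, p, e, r, f, hn, ht, hNn, hNF, -⟩ := hENF _ hpos h3
  have ht1 : t = 1 := by
    by_contra hc
    obtain ⟨l, hl, hlt⟩ := Nat.exists_prime_and_dvd hc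
    apply hcf l hl
    have h1 : l ^ 3 ∣ N / 3 ^ N.factorization 3 := by
      rw [hNn]
      exact (pow_dvd_pow_of_dvd hlt 3).mul_left n
    exact h1.trans (Nat.ordCompl_dvd N 3)
  rw [ht1, one_pow, mul_one] at hNn
  refine ⟨N.factorization 3, n, _, _, π, p, e, r, f, hNF, hle, rfl, ?_, ?_, ?_⟩
  · rw [← hNn]
    exact (Nat.ordProj_mul_ordCompl_eq_self N 3).symm
  · exact NFE.card_eq hN hcf 1 (by norm_num)
  · exact NFE.card_eq hN hcf 2 (by norm_num)

end Pool.Agent.PTN
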