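import Pool.Agent.PTN.StA
import Pool.Agent.PT3.EHPT

/-!
# The law of the ranks of prime twists: bases adapted to a hyperplane (module PTN_NHPT)
-/

set_option autoImplicit false

namespace Pool.Agent.PTN

open Pool.Agent.Lib_helper18 Pool.Agent.Lib_helper18.Eis Pool.Agent.Lib_helper84.Cub
open Pool.Agent.PT Pool.Agent.PTE Pool.Agent.PT3

namespace NHPT

open Pool.Agent.PT.EBAS

/-! ### Linear algebra -/

/-- A basis adapted to two linear forms. -/
theorem fam {M : Type} [AddCommGroup M] [Module (ZMod 3) M] [Module.Finite (ZMod 3) M]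
    (A W : M →ₗ[ZMod 3] ZMod 3) (h : ℕ) (β : ZMod 3)
    (hh : h = 1 ∨ (h = 2 ∧ ∀ x, W x + A x * β = 0) ∨
      (h = 0 ∧ (∀ x, A x = 0) ∧ (β = 0 → ∀ x, W x = 0))) :
    ∃ (s : ℕ) (b : Fin s → M) (τ : Fin s → Fin 3), s = Module.finrank (ZMod 3) M ∧
      (∀ g : Fin s → ZMod 3, ∑ i, g i • b i = 0 → ∀ i, g i = 0) ∧
      (∀ x, ∃ g : Fin s → ZMod 3, x = ∑ i, g i • b i) ∧
      (∀ i, τ i = 0 → A (b i) = 0 ∧ W (b i) = 0) ∧
      (∀ i, τ i = 1 → A (b i) = (h : ZMod 3) ∧ W (b i) = β ∧ ¬ (A (b i) = 0 ∧ W (b i) = 0)) ∧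
      (∀ i, τ i = 2 → h = 1 ∧ ¬ (A (b i) = 0 ∧ W (b i) = 0)) ∧
      (∀ i j, τ i = τ j → τ i ≠ 0 → i = j) ∧
      (∀ i j, i ≠ j → A (b i) = 0 ∨ A (b j) = 0) := by
  rcases hh with h1 | ⟨h2, hw⟩ | ⟨h0, hA, hW⟩
  · have hβ : (h : ZMod 3) ≠ 0 := by
      rw [h1]
      decide
    obtain ⟨s, b, τ, hs, hli, hsp, ht0, ht1, ht2, hinj, hA'⟩ :=
      PT3.EHPT.family A W (h : ZMod 3) β hβ (h = 1) (Or.inl h1)
    exact ⟨s, b, τ, hs, hli, hsp, ht0, fun i hi => ⟨(ht1 i hi).1, (ht1 i hi).2,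
      fun h3 => hβ ((ht1 i hi).1.symm.trans h3.1)⟩, ht2, hinj, hA'⟩
  · have hβ : (h : ZMod 3) ≠ 0 := by
      rw [h2]
      decide
    obtain ⟨s, b, τ, hs, hli, hsp, ht0, ht1, ht2, hinj, hA'⟩ :=
      PT3.EHPT.family A W (h : ZMod 3) β hβ (h = 1) (Or.inr fun x => by
        have h5 : (h : ZMod 3) = -1 := by
          rw [h2]
          decide
        rw [h5, eq_neg_of_add_eq_zero_left (hw x)]
        ring)
    exact ⟨s, b, τ, hs, hli, hsp, ht0, fun i hi => ⟨(ht1 i hi).1, (ht1 i hi).2,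
      fun h3 => hβ ((ht1 i hi).1.symm.trans h3.1)⟩, ht2, hinj, hA'⟩
  · by_cases hβ : β = 0
    · obtain ⟨s, b, τ, hs, hli, hsp, ht0, ht1, ht2, hinj, -⟩ :=
        PT3.EHPT.family A W 1 0 one_ne_zero False (Or.inr fun x => by
          rw [hA x, hW hβ x]
          ring)
      refine ⟨s, b, τ, hs, hli, hsp, fun i _ => ⟨hA _, hW hβ _⟩, fun i hi => ?_,
        fun i hi => (ht2 i hi).1.elim, hinj, fun i j _ => Or.inl (hA _)⟩
      exfalso
      have h3 := (ht1 i hi).1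
      rw [hA] at h3
      exact zero_ne_one h3
    · obtain ⟨s, b, τ, hs, hli, hsp, ht0, ht1, ht2, hinj, -⟩ :=
        PT3.EHPT.family W A β 0 hβ False (Or.inr fun x => by
          rw [hA x]
          ring)
      refine ⟨s, b, τ, hs, hli, hsp, fun i hi => ⟨(ht0 i hi).2, (ht0 i hi).1⟩, fun i hi => ?_,
        fun i hi => (ht2 i hi).1.elim, hinj, fun i j _ => Or.inl (hA _)⟩
      obtain ⟨h3, h4⟩ := ht1 i hi
      refine ⟨?_, h3, fun h5 => hβ (h3.symm.trans h5.2)⟩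
      rw [h4, h0]
      rfl

/-! ### Exponent vectors -/

/-- exponent vectors as elements of `E3` -/
def toE {m k : ℕ} : (Col m k → ZMod 3) →ₗ[ZMod 3] PT3.EHPT.E3 m k where
  toFun u := (u (Sum.inl 0), (fun i => u (Sum.inl i.succ), fun j => u (Sum.inr j)))
  map_add' := by
    intro u v
    rfl
  map_smul' := by
    intro t u
    rfl

theorem toE_inj {m k : ℕ} {u v : Col m k → ZMod 3} (h : toE u = toE v) : u = v := by
  have h1 : u (Sum.inl 0) = v (Sum.inl 0) := congrArg Prod.fst h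
  have h2 : ∀ i : Fin m, u (Sum.inl i.succ) = v (Sum.inl i.succ) := fun i =>
    congrFun (congrArg (fun z => z.2.1) h) i
  have h3 : ∀ j : Fin k, u (Sum.inr j) = v (Sum.inr j) := fun j =>
    congrFun (congrArg (fun z => z.2.2) h) j
  funext b
  rcases b with a | j
  · induction a using Fin.cases with
    | zero => exact h1
    | succ i => exact h2 i
  · exact h3 j

theorem toE_exv {m k : ℕ} (p : Fin m → ℕ) (r : Fin k → ℕ) (x : ℤ) :
    toE (exv p r x) = PT3.EHPT.e3 p r x := rfl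

/-- the number with given exponents -/
def NC {m k : ℕ} (p : Fin m → ℕ) (r : Fin k → ℕ) (u : Col m k → ZMod 3) : ℤ :=
  PT3.EHPT.N3 p r (toE u)

section

variable {n m k : ℕ} {π : Fin m → PP} {p e : Fin m → ℕ} {r f : Fin k → ℕ}

theorem exv_NC (hLCL : LCL) (h : NF n π p e r f) (u : Col m k → ZMod 3) :
    exv p r (NC p r u) = u :=
  toE_inj (by rw [toE_exv]; exact PT3.EHPT.e3_N3 hLCL h (toE u))

theorem exv_prod (hLCL : LCL) (h : NF n π p e r f) {s : ℕ} (x : Fin s → ℤ)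
    (hx : ∀ i, x i ≠ 0) (g : Fin s → ℕ) :
    exv p r (∏ i, x i ^ g i) = ∑ i, (g i : ZMod 3) • exv p r (x i) := by
  refine toE_inj ?_
  rw [toE_exv, PT3.EHPT.e3_prod hLCL h x hx g, map_sum]
  exact Finset.sum_congr rfl fun i _ => by rw [map_smul, toE_exv]

theorem exv_cube (hLCL : LCL) (h : NF n π p e r f) (t : ℤ) (ht : t ≠ 0) :
    exv p r (t ^ 3) = 0 := by
  refine toE_inj ?_
  rw [toE_exv, PT3.EHPT.e3_cube hLCL h t ht, map_zero]

end

end NHPT

open NHPT in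
/-- NHPT: bases adapted to a hyperplane. -/
theorem NHPT_thm (hV : Stmt_NVEC) (hEVET : EVET) (_hSTM : STM) (hSPP : SPP) (hLPT : LPT)
    (hLCL : LCL) : Stmt_NHPT := by
  classical
  intro h n m k π p e r f w0 c hNF hh
  obtain ⟨hE1, hE2⟩ := hEVET h n m k π p e r f w0 c hNF
  obtain ⟨hV1, hV2, -⟩ := hV h n m k π p e r f w0 c hNF hh
  have hne : ∀ u : Col m k → ZMod 3, NC p r u ≠ 0 := fun u => PT3.EHPT.N3_ne hNF _
  have hsupp : ∀ (u : Col m k → ZMod 3) (l : ℕ), l.Prime → (l : ℤ) ∣ NC p r u → l ∣ 3 * n :=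
    fun u => PT3.EHPT.N3_supp hNF _
  have hex : ∀ u : Col m k → ZMod 3, exv p r (NC p r u) = u := exv_NC hLCL hNF
  set S : Submodule (ZMod 3) (Col m k → ZMod 3) := US h n π p e r w0 c with hS
  set β : ZMod 3 := wt ((n : ℤ) ^ 2) + w0 with hβdef
  have hadmB : ∀ u : S, AdN h n π w0 c (NC p r (u : Col m k → ZMod 3)) := by
    intro u
    rw [hV1 _ (hne _) (hsupp _), hex]
    exact u.2
  -- from equal exponents to equality up to cubes
  have hcub : ∀ x x' : ℤ, x ≠ 0 → x' ≠ 0 → (∀ l : ℕ, l.Prime → (l : ℤ) ∣ x → l ∣ 3 * n) →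
      (∀ l : ℕ, l.Prime → (l : ℤ) ∣ x' → l ∣ 3 * n) → exv p r x = exv p r x' →
      ∃ u v : ℤ, u ≠ 0 ∧ v ≠ 0 ∧ x * u ^ 3 = x' * v ^ 3 := fun x x' h1 h2 h3 h4 h5 =>
    (hV2 x x' h1 h2 h3 h4).mpr h5
  have hspan : ∀ (s : ℕ) (b : Fin s → S) (x : ℤ), AdN h n π w0 c x →
      (∃ g : Fin s → ZMod 3, exv p r x = ∑ i, g i • (b i : Col m k → ZMod 3)) →
      ∃ (g : Fin s → ℕ) (u t : ℤ), u ≠ 0 ∧ t ≠ 0 ∧
        x * u ^ 3 = (∏ i, NC p r (b i : Col m k → ZMod 3) ^ g i) * t ^ 3 := by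
    intro s b x hx hg
    obtain ⟨g, hg⟩ := hg
    have hne' : ∏ i : Fin s, NC p r (b i : Col m k → ZMod 3) ^ (g i).val ≠ 0 :=
      Finset.prod_ne_zero_iff.mpr fun i _ => pow_ne_zero _ (hne _)
    have h1 := exv_prod hLCL hNF (fun i : Fin s => NC p r (b i : Col m k → ZMod 3))
      (fun i => hne _) (fun i => (g i).val)
    simp only [hex, ZMod.natCast_zmod_val] at h1
    obtain ⟨u, t, hu, ht, hut⟩ := hcub x _ hx.1.ne hne' hx.1.supp (fun l hl hd => by
      obtain ⟨i, -, hi⟩ := (Nat.prime_iff_prime_int.mp hl).dvd_finsetProd_iff _ |>.mp hd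
      exact hsupp _ l hl ((Nat.prime_iff_prime_int.mp hl).dvd_of_dvd_pow hi)) (by rw [h1, hg])
    exact ⟨fun i => (g i).val, u, t, hu, ht, hut⟩
  -- the two forms
  have hLV0 : ∀ u : Col m k → ZMod 3, lv (NC p r u) = u (Sum.inl 0) := fun u =>
    PT3.EHPT.lv_N3 hLCL hNF _
  have hLW0 : ∀ u : Col m k → ZMod 3, lw (NC p r u) = EBAS.Wm p r (toE u).2 := by
    intro u
    rw [(hE1 _ (hne _) (hsupp _)).2]
    change EBAS.Wm p r (EBAS.ev p r (NC p r u)) = EBAS.Wm p r (toE u).2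
    have h1 : PT3.EHPT.e3 p r (NC p r u) = toE u := PT3.EHPT.e3_N3 hLCL hNF _
    have h2 : EBAS.ev p r (NC p r u) = (toE u).2 := congrArg Prod.snd h1
    rw [h2]
  let A : S →ₗ[ZMod 3] ZMod 3 := (LinearMap.proj (Sum.inl 0 : Col m k)).comp S.subtype
  let W : S →ₗ[ZMod 3] ZMod 3 := (EBAS.Wm p r).comp
    ((LinearMap.snd (ZMod 3) (ZMod 3) (EBAS.EV m k)).comp (toE.comp S.subtype))
  have hLV : ∀ u : S, lv (NC p r (u : Col m k → ZMod 3)) = A u := fun u => hLV0 _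
  have hLW : ∀ u : S, lw (NC p r (u : Col m k → ZMod 3)) = W u := fun u => hLW0 _
  have hAW : h = 1 ∨ (h = 2 ∧ ∀ x : S, W x + A x * β = 0) ∨
      (h = 0 ∧ (∀ x : S, A x = 0) ∧ (β = 0 → ∀ x : S, W x = 0)) := by
    have h3 : h = 1 ∨ h = 2 ∨ h = 0 := by omega
    rcases h3 with h3 | h3 | h3
    · exact Or.inl h3
    · refine Or.inr (Or.inl ⟨h3, fun x => ?_⟩)
      have h4 := (hadmB x).1.wild h3
      rw [hLV, hLW] at h4
      exact h4
    · refine Or.inr (Or.inr ⟨h3, fun x => ?_, fun hb x => ?_⟩)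
      · have h4 := ((hadmB x).2 h3).1
        rw [hLV] at h4
        exact h4
      · have h4 := ((hadmB x).2 h3).2 hb
        rw [hLW] at h4
        exact h4
  let B0 : Module.Basis (Fin (Module.finrank (ZMod 3) S)) (ZMod 3) S :=
    Module.finBasisOfFinrankEq (ZMod 3) S rfl
  refine ⟨_, fun i => NC p r (B0 i : Col m k → ZMod 3), rfl, fun i => hadmB _, fun x hx => ?_,
    fun δ hδ => ?_⟩
  · refine hspan _ (fun i => B0 i) x hx ⟨fun i => B0.repr ⟨exv p r x,
      (hV1 x hx.1.ne hx.1.supp).mp hx⟩ i, ?_⟩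
    have h3 := congrArg (fun z : S => (z : Col m k → ZMod 3))
      (B0.sum_repr ⟨exv p r x, (hV1 x hx.1.ne hx.1.supp).mp hx⟩)
    simp only [AddSubmonoidClass.coe_finsetSum] at h3
    exact h3.symm
  let D : S →ₗ[ZMod 3] ZMod 3 := B0.constr (ZMod 3) δ
  have hDB : ∀ i, D (B0 i) = δ i := fun i => B0.constr_basis (ZMod 3) δ i
  have hD : D ≠ 0 := by
    intro h0
    apply hδ
    funext i
    rw [← hDB i, h0]
    rfl
  obtain ⟨s, b', τ, hs, hli, hsp, ht0, ht1, ht2, hinj, hA'⟩ := fam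
    (M := LinearMap.ker D) (A.comp (LinearMap.ker D).subtype) (W.comp (LinearMap.ker D).subtype)
    h β (by
      rcases hAW with h1 | ⟨h1, h2⟩ | ⟨h1, h2, h3⟩
      · exact Or.inl h1
      · exact Or.inr (Or.inl ⟨h1, fun x => h2 (x : S)⟩)
      · exact Or.inr (Or.inr ⟨h1, fun x => h2 (x : S), fun hb x => h3 hb (x : S)⟩))
  have hrk : Module.finrank (ZMod 3) (LinearMap.ker D) + 1 = Module.finrank (ZMod 3) S := by
    have h1 := LinearMap.finrank_range_add_finrank_ker D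
    rw [LinearMap.range_eq_top.mpr (LinearMap.surjective hD), finrank_top,
      Module.finrank_self] at h1
    omega
  have hDb : ∀ i, D (b' i : S) = 0 := fun i => LinearMap.mem_ker.mp (b' i).2
  obtain ⟨y0, hy0⟩ : ∃ y, D y ≠ 0 := by
    by_contra hc
    push Not at hc
    exact hD (LinearMap.ext hc)
  obtain ⟨y, hy, hyA⟩ : ∃ y : S, D y ≠ 0 ∧ (A y = 0 ∨ ∀ i, A (b' i : S) = 0) := by
    by_cases h1 : ∀ i, A (b' i : S) = 0
    · exact ⟨y0, hy0, Or.inr h1⟩
    · push Not at h1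
      obtain ⟨i0, hi0⟩ := h1
      refine ⟨y0 - (A y0 / A (b' i0 : S)) • (b' i0 : S), ?_, Or.inl ?_⟩
      · rw [map_sub, map_smul, hDb, smul_zero, sub_zero]
        exact hy0
      · rw [map_sub, map_smul, smul_eq_mul, div_mul_cancel₀ _ hi0, sub_self]
  let b : Fin (s + 1) → S := Fin.snoc (α := fun _ => S) (fun i => (b' i : S)) y
  have hb1 : ∀ i : Fin s, b i.castSucc = (b' i : S) := fun i =>
    Fin.snoc_castSucc (α := fun _ => S) _ _ _
  have hb2 : b (Fin.last s) = y := Fin.snoc_last (α := fun _ => S) _ _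
  have hbli : ∀ g : Fin (s + 1) → ZMod 3, ∑ i, g i • b i = 0 → ∀ i, g i = 0 := by
    intro g hg
    rw [Fin.sum_univ_castSucc, hb2] at hg
    simp only [hb1] at hg
    have hl : g (Fin.last _) = 0 := by
      have h1 := congrArg D hg
      rw [map_add, map_sum, map_smul, map_zero, smul_eq_mul] at h1
      have h2 : ∑ i, D (g (Fin.castSucc i) • (b' i : S)) = 0 :=
        Finset.sum_eq_zero fun i _ => by rw [map_smul, hDb, smul_zero]
      rw [h2, zero_add] at h1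
      exact (mul_eq_zero.mp h1).resolve_right hy
    rw [hl, zero_smul, add_zero] at hg
    have h3 : ∑ i, g (Fin.castSucc i) • b' i = 0 := by
      apply Subtype.ext
      rw [AddSubmonoidClass.coe_finsetSum]
      exact hg
    have h4 := hli _ h3
    intro i
    induction i using Fin.lastCases with
    | last => exact hl
    | cast i => exact h4 i
  have hbA : ∀ i j, i ≠ j → A (b i) = 0 ∨ A (b j) = 0 := by
    intro i j hij
    induction i using Fin.lastCases with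
    | last =>
      induction j using Fin.lastCases with
      | last => exact absurd rfl hij
      | cast j =>
        rw [hb2, hb1]
        rcases hyA with h1 | h1
        · exact Or.inl h1
        · exact Or.inr (h1 j)
    | cast i =>
      induction j using Fin.lastCases with
      | last =>
        rw [hb2, hb1]
        rcases hyA with h1 | h1
        · exact Or.inr h1
        · exact Or.inl (h1 i)
      | cast j =>
        rw [hb1, hb1]
        exact hA' i j fun h1 => hij (congrArg _ h1)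
  have hXY : ∀ i : Fin s, ∃ X Y : ℤ, (τ i ≠ 2 → X = 1 ∧ Y = 0) ∧ (τ i = 2 → X ≠ 0 ∧ Y ≠ 0 ∧
      X ^ 3 + NC p r ((b' i : S) : Col m k → ZMod 3) * Y ^ 3 ≠ 0 ∧
      lv (NC p r ((b' i : S) : Col m k → ZMod 3) *
        (X ^ 3 + NC p r ((b' i : S) : Col m k → ZMod 3) * Y ^ 3)) = 1 ∧
      lw (NC p r ((b' i : S) : Col m k → ZMod 3) *
        (X ^ 3 + NC p r ((b' i : S) : Col m k → ZMod 3) * Y ^ 3)) = β) := by
    intro i
    by_cases hi : τ i = 2
    · obtain ⟨X, Y, h1⟩ := hLPT (NC p r ((b' i : S) : Col m k → ZMod 3)) β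
        (hne _) (by rw [hLV, hLW]; exact (ht2 i hi).2)
      exact ⟨X, Y, fun h2 => absurd hi h2, fun _ => h1⟩
    · exact ⟨1, 0, fun _ => ⟨rfl, rfl⟩, fun h2 => absurd h2 hi⟩
  choose X Y hXY1 hXY2 using hXY
  have h12 : (1 : Fin 3) ≠ 2 := by decide
  have hD3 : ∀ x : S, D x = 0 → ∃ g : Fin s → ZMod 3, x = ∑ i, g i • b i.castSucc := by
    intro x hx
    obtain ⟨g, hg⟩ := hsp ⟨x, LinearMap.mem_ker.mpr hx⟩
    refine ⟨g, ?_⟩
    simp only [hb1]
    have h3 := congrArg (fun z : LinearMap.ker D => (z : S)) hg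
    simp only [AddSubmonoidClass.coe_finsetSum] at h3
    exact h3
  refine ⟨s, τ, fun i => NC p r (b i : Col m k → ZMod 3), X, Y, by omega, fun i => hadmB _,
    fun i π' => PT3.EHPT.V_N3_le hSPP hNF _ π', fun g hg => ?_, fun i j hij => ?_,
    fun B hB => ?_, fun ρ hρ => ?_⟩
  · rintro ⟨t, ht⟩
    have hprod : ∏ i, NC p r (b i : Col m k → ZMod 3) ^ g i ≠ 0 :=
      Finset.prod_ne_zero_iff.mpr fun i _ => pow_ne_zero _ (hne _)
    have ht0 : t ≠ 0 := by
      rintro rfl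
      apply hprod
      rw [← ht]
      norm_num
    have h1 := exv_prod hLCL hNF (fun i => NC p r (b i : Col m k → ZMod 3)) (fun i => hne _) g
    rw [← ht, exv_cube hLCL hNF t ht0] at h1
    simp only [hex] at h1
    have h2 : ∑ i, (g i : ZMod 3) • b i = 0 := by
      apply Subtype.ext
      rw [AddSubmonoidClass.coe_finsetSum]
      exact h1.symm
    have h3 := hbli _ h2
    obtain ⟨i, hi⟩ := hg
    exact hi ((ZMod.natCast_eq_zero_iff _ _).mp (h3 i))
  · rcases hbA i j hij with h2 | h2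
    · exact Or.inl (PT3.EHPT.not_three_N3 hNF _ h2)
    · exact Or.inr (PT3.EHPT.not_three_N3 hNF _ h2)
  · obtain ⟨hB0, hB1, hB2⟩ := hB
    have hrv : ∀ i : Fin s, rv (fun i => NC p r (b i : Col m k → ZMod 3)) i =
        NC p r ((b' i : S) : Col m k → ZMod 3) := by
      intro i
      change NC p r (b i.castSucc : Col m k → ZMod 3) = _
      rw [hb1]
    refine ⟨fun i hi => ?_, fun i hi => ?_, fun i hi => ?_, fun i j hij hi => ?_⟩
    · rw [hrv, hLCL.1 _ (hne _), hLV, hLW]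
      exact ht0 i hi
    · obtain ⟨h1, h2, h3⟩ := ht1 i hi
      rw [hrv, hLCL.1 _ (hne _), hLV, hLW, hB1, hB2]
      exact ⟨h3, h1, h2, hXY1 i (by rw [hi]; exact h12)⟩
    · obtain ⟨h1, h2⟩ := ht2 i hi
      obtain ⟨h3, h4, h5, h6, h7⟩ := hXY2 i hi
      rw [hrv, hLCL.1 _ (hne _), hLV, hLW, hB1]
      refine ⟨h2, by rw [h1]; decide, ⟨h3, h4, h5, ?_, ?_⟩⟩
      · rw [h6, hB1, h1]
        decide
      · rw [h7, hB2]
    · exact hinj i j hij hi
  · let F : S →ₗ[ZMod 3] ZMod 3 := sym ρ.1 3 • A +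
      (PTE.EHPL.Fm (fun i => ch ρ.1 (p i : Eis)) (fun j => ch ρ.1 (r j : Eis))).comp
        ((LinearMap.snd (ZMod 3) (ZMod 3) (EBAS.EV m k)).comp (toE.comp S.subtype))
    have hFx : ∀ (x : ℤ) (hx : AdN h n π w0 c x),
        sym ρ.1 (x : Eis) = F ⟨exv p r x, (hV1 x hx.1.ne hx.1.supp).mp hx⟩ := by
      intro x hx
      rw [PT3.EHPT.sym_eq hSPP hNF ρ hρ hx.1.ne hx.1.supp]
      change (PT3.EHPT.e3 p r x).1 * sym ρ.1 3 + _ = sym ρ.1 3 * (PT3.EHPT.e3 p r x).1 + _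
      rw [mul_comm]
      rfl
    have hF : ∀ u : S, sym ρ.1 (NC p r (u : Col m k → ZMod 3) : Eis) = F u := by
      intro u
      rw [hFx _ (hadmB u)]
      congr 1
      exact Subtype.ext (hex _)
    refine ⟨⟨fun hρ2 => ?_, fun hε => ?_⟩, fun hρ0 hρ1 x hx hx0 => ?_⟩
    · obtain ⟨hρ0, hρ1⟩ := hρ2
      have hF0 : ∀ u : S, D u = 0 → F u = 0 := by
        intro u hu
        obtain ⟨g, hg⟩ := hD3 u hu
        rw [hg, map_sum]
        refine Finset.sum_eq_zero fun i _ => ?_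
        rw [map_smul, ← hF, hρ0 i, smul_zero]
      obtain ⟨ε, hε, hFD⟩ := PTE.EHPL.form_eq D F hF0 (b (Fin.last s)) (by rw [hb2]; exact hy)
        (by rw [← hF]; exact hρ1)
      exact ⟨ε, hε, fun i => by rw [hF, hFD, hDB]⟩
    · obtain ⟨ε, hε, hv⟩ := hε
      have hFD : F = ε • D := by
        refine B0.ext fun i => ?_
        rw [← hF, hv i, LinearMap.smul_apply, hDB, smul_eq_mul]
      refine ⟨fun i => ?_, ?_⟩
      · rw [hF, hFD, LinearMap.smul_apply, hb1, hDb, smul_zero]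
      · rw [hF, hFD, LinearMap.smul_apply, hb2, smul_eq_mul]
        exact mul_ne_zero hε hy
    · have hF0 : ∀ u : S, D u = 0 → F u = 0 := by
        intro u hu
        obtain ⟨g, hg⟩ := hD3 u hu
        rw [hg, map_sum]
        refine Finset.sum_eq_zero fun i _ => ?_
        rw [map_smul, ← hF, hρ0 i, smul_zero]
      obtain ⟨ε, hε, hFD⟩ := PTE.EHPL.form_eq D F hF0 (b (Fin.last s)) (by rw [hb2]; exact hy)
        (by rw [← hF]; exact hρ1)
      have hDx : D ⟨exv p r x, (hV1 x hx.1.ne hx.1.supp).mp hx⟩ = 0 := by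
        have h1 := hFD ⟨exv p r x, (hV1 x hx.1.ne hx.1.supp).mp hx⟩
        rw [← hFx x hx, hx0] at h1
        exact (mul_eq_zero.mp h1.symm).resolve_left hε
      obtain ⟨g, hg⟩ := hD3 _ hDx
      refine hspan s (fun i : Fin s => b i.castSucc) x hx ⟨g, ?_⟩
      have h3 := congrArg (fun z : S => (z : Col m k → ZMod 3)) hg
      simp only [AddSubmonoidClass.coe_finsetSum] at h3
      exact h3

end Pool.Agent.PTN
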