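import Pool.Agent.PTN.StA
import Pool.Agent.PT.FDC
import Pool.Agent.PT.FD2
import Pool.Agent.PT.FDX
import Pool.Agent.PT3.FD2T

/-!
# NPLU: the class of a point of the isogenous curve (every `n`)
-/

set_option autoImplicit false

namespace Pool.Agent.PTN

open Pool.Agent.Lib_helper18 Pool.Agent.Lib_helper18.Eis Pool.Agent.Lib_helper84.Cub
open Pool.Agent.PT Pool.Agent.PTE Pool.Agent.PT3

namespace NPLU

open Pool.Agent.PT.FD2 (s_cube s_cube' s_self mul_right s_neg)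
open Pool.Agent.PT.FDC (CF exists_cf cf_unique)
open Pool.Agent.PT3.FD2T (wild0 split9)

theorem cf_one : CF 1 := fun _ hp h =>
  hp.not_isUnit (isUnit_of_dvd_one ((dvd_pow_self _ (by norm_num)).trans h))

theorem cf_prime_pow {p : ℕ} (hp : p.Prime) {e : ℕ} (he : e ≤ 2) : CF ((p : ℤ) ^ e) := by
  intro ρ hρ h
  have hp' : Prime (p : ℤ) := Nat.prime_iff_prime_int.1 hp
  have h1 : ρ ∣ (p : ℤ) := hρ.dvd_of_dvd_pow ((dvd_pow_self ρ (by norm_num)).trans h)
  have h2 : Associated ρ (p : ℤ) := (hρ.dvd_prime_iff_associated hp').1 h1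
  have h3 : (p : ℤ) ^ 3 ∣ (p : ℤ) ^ e := ((h2.pow_pow (n := 3)).symm.dvd).trans h
  have h4 : 3 ≤ e := (pow_dvd_pow_iff hp'.ne_zero hp'.not_isUnit).1 h3
  omega

theorem cf_prod {ι : Type} (s : Finset ι) (f : ι → ℤ) (h : ∀ i ∈ s, CF (f i))
    (hc : ∀ i ∈ s, ∀ j ∈ s, i ≠ j → IsCoprime (f i) (f j)) : CF (∏ i ∈ s, f i) := by
  classical
  induction s using Finset.induction_on with
  | empty => simpa using cf_one
  | insert a s ha ih =>
    rw [Finset.prod_insert ha]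
    refine FDC.CF.mul (h a (Finset.mem_insert_self a s))
      (ih (fun i hi => h i (Finset.mem_insert_of_mem hi))
        (fun i hi j hj => hc i (Finset.mem_insert_of_mem hi) j (Finset.mem_insert_of_mem hj))) ?_
    refine IsCoprime.prod_right fun i hi => hc a (Finset.mem_insert_self a s) i
      (Finset.mem_insert_of_mem hi) ?_
    rintro rfl
    exact ha hi

theorem cop {p q : ℕ} (hp : p.Prime) (hq : q.Prime) (h : p ≠ q) (e f : ℕ) :
    IsCoprime ((p : ℤ) ^ e) ((q : ℤ) ^ f) := by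
  have h1 : Nat.Coprime p q := (Nat.coprime_primes hp hq).2 h
  exact (Nat.isCoprime_iff_coprime.2 h1).pow

theorem cf_B {h n m k : ℕ} {π : Fin m → PP} {p e : Fin m → ℕ} {r f : Fin k → ℕ} {E q : ℕ}
    (hN : NF n π p e r f) (hh : h ≤ 2) (hE : E = 1 ∨ E = 2) (hq : q.Prime) (hq3 : q ≠ 3)
    (hqn : ¬ q ∣ n) : CF (BB h n E q) := by
  have hn : (n : ℤ) = (∏ i, (p i : ℤ) ^ e i) * ∏ j, (r j : ℤ) ^ f j := by
    rw [hN.eq]
    push_cast
    rfl
  have hpr : ∀ i j, p i ≠ r j := fun i j h => by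
    have h1 := hN.p1 i
    have h2 := hN.r2 j
    rw [h] at h1
    omega
  have h3p : ∀ i, 3 ≠ p i := fun i h => by
    have h1 := hN.p1 i
    rw [← h] at h1
    omega
  have h3r : ∀ i, 3 ≠ r i := fun i h => by
    have h1 := hN.r2 i
    rw [← h] at h1
    omega
  have hcn : CF (n : ℤ) := by
    rw [hn]
    refine FDC.CF.mul (cf_prod _ _ (fun i _ => cf_prime_pow (hN.pp i) ?_) fun i _ j _ hij =>
      cop (hN.pp i) (hN.pp j) (fun h => hij (hN.pinj h)) _ _)
      (cf_prod _ _ (fun i _ => cf_prime_pow (hN.rp i) ?_) fun i _ j _ hij =>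
      cop (hN.rp i) (hN.rp j) (fun h => hij (hN.rinj h)) _ _) ?_
    · rcases hN.pe i with h | h <;> omega
    · rcases hN.rf i with h | h <;> omega
    · exact IsCoprime.prod_left fun i _ => IsCoprime.prod_right fun j _ =>
        cop (hN.pp i) (hN.rp j) (hpr i j) _ _
  have h3n : IsCoprime ((3 : ℤ) ^ h) (n : ℤ) := by
    rw [hn]
    refine IsCoprime.mul_right (IsCoprime.prod_right fun i _ => ?_)
      (IsCoprime.prod_right fun i _ => ?_)
    · exact_mod_cast cop Nat.prime_three (hN.pp i) (h3p i) h (e i)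
    · exact_mod_cast cop Nat.prime_three (hN.rp i) (h3r i) h (f i)
  have hqn' : IsCoprime (n : ℤ) ((q : ℤ) ^ E) := by
    have h1 : Nat.Coprime q n := (Nat.Prime.coprime_iff_not_dvd hq).2 hqn
    exact ((Nat.isCoprime_iff_coprime.2 h1).symm).pow_right
  unfold BB
  refine FDC.CF.mul (FDC.CF.mul ?_ hcn h3n) (cf_prime_pow hq ?_) (IsCoprime.mul_left ?_ hqn')
  · exact_mod_cast cf_prime_pow Nat.prime_three hh
  · rcases hE with h | h <;> omega
  · exact_mod_cast cop Nat.prime_three hq (Ne.symm hq3) h E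

/-- splitting into cells -/
theorem cells {B m : ℤ} {A : Fin 3 → ℤ} (hB : CF B) (hA : ∀ k, A k ≠ 0)
    (hprod : A 0 * A 1 * A 2 = B * m ^ 3) (hcop : ∀ i j, i ≠ j → IsCoprime (A i) (A j)) :
    ∃ a x : Fin 3 → ℤ, (∀ k, A k = a k * x k ^ 3) ∧ a 0 * a 1 * a 2 = B := by
  choose a x hax hcf using fun k => exists_cf (A k) (hA k)
  have hx0 : ∀ k, x k ≠ 0 := by
    intro k h
    apply hA k
    rw [hax k, h]; ring
  have hm0 : m ≠ 0 := by
    rintro rfl
    have : A 0 * A 1 * A 2 = 0 := by rw [hprod]; ring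
    exact mul_ne_zero (mul_ne_zero (hA 0) (hA 1)) (hA 2) this
  have hca : ∀ i j, i ≠ j → IsCoprime (a i) (a j) := by
    intro i j hij
    have h := hcop i j hij
    rw [hax i, hax j] at h
    exact h.of_mul_left_left.of_mul_right_left
  have hP : CF (a 0 * a 1 * a 2) := FDC.CF.mul
    (FDC.CF.mul (hcf 0) (hcf 1) (hca 0 1 (by decide))) (hcf 2)
    (IsCoprime.mul_left (hca 0 2 (by decide)) (hca 1 2 (by decide)))
  have hu := cf_unique hB hP hm0
    (mul_ne_zero (mul_ne_zero (hx0 0) (hx0 1)) (hx0 2)) (by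
      rw [← hprod, hax 0, hax 1, hax 2]; ring)
  rcases hu with hu | hu
  · exact ⟨a, x, hax, hu⟩
  · exact ⟨fun k => -a k, fun k => -x k, fun k => by rw [hax k]; ring,
      by linear_combination -hu⟩

theorem wt_zero {x : ℤ} (h3 : ¬ (3 : ℤ) ∣ x) : wt (x ^ 2) = 0 ↔ C9 x := by
  have h : x % 9 = 1 ∨ x % 9 = 2 ∨ x % 9 = 4 ∨ x % 9 = 5 ∨ x % 9 = 7 ∨ x % 9 = 8 := by omega
  have e : wt (x ^ 2) = wt ((x % 9) ^ 2) := by
    refine FDC.wt_congr ?_
    rw [pow_two, pow_two, Int.mul_emod]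
  rw [e, C9]
  rcases h with h | h | h | h | h | h <;> rw [h] <;> decide

/-- the main part -/
theorem main (hSTM : STM) (hSPP : SPP) (hLCL : LCL) {h n E q : ℕ} (hq : q.Prime)
    (hB : CF (BB h n E q)) (hB0 : BB h n E q ≠ 0)
    {a0 a1 a2 x0 x1 x2 : ℤ} (hx0 : x0 ≠ 0) (hx1 : x1 ≠ 0) (hx2 : x2 ≠ 0)
    (hs : a0 * x0 ^ 3 + a1 * x1 ^ 3 + a2 * x2 ^ 3 = 0) (hp : a0 * a1 * a2 = BB h n E q)
    (hc : IsCoprime (a0 * x0 ^ 3) (a1 * x1 ^ 3)) (hc02 : IsCoprime (a0 * x0 ^ 3) (a2 * x2 ^ 3))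
    (hc12 : IsCoprime (a1 * x1 ^ 3) (a2 * x2 ^ 3))
    (hq0 : ¬ (q : ℤ) ∣ a0) (hq1 : ¬ (q : ℤ) ∣ a1) :
    Pt (BB h n E q) (a0 ^ 2 * a1) (a0 * x0) x1 ∧ AG (BB h n E q) (a0 ^ 2 * a1) ∧
      Loc (BB h n E q) (a0 ^ 2 * a1) ∧
      ∀ l : ℕ, l.Prime → (l : ℤ) ∣ a0 ^ 2 * a1 → l ∣ 3 * n := by
  have hBB : BB h n E q = (3 : ℤ) ^ h * n * (q : ℤ) ^ E := rfl
  set B : ℤ := BB h n E q with hBd
  have h27 : ¬ (27 : ℤ) ∣ B := fun h => hB 3 Int.prime_three (by norm_num; exact h)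
  have ca : IsCoprime a0 a1 := hc.of_mul_left_left.of_mul_right_left
  have ca02 : IsCoprime a0 a2 := hc02.of_mul_left_left.of_mul_right_left
  have ca12 : IsCoprime a1 a2 := hc12.of_mul_left_left.of_mul_right_left
  have ha0 : a0 ≠ 0 := by
    rintro rfl
    exact hB0 (by rw [← hp]; ring)
  have ha1 : a1 ≠ 0 := by
    rintro rfl
    exact hB0 (by rw [← hp]; ring)
  have ha2 : a2 ≠ 0 := by
    rintro rfl
    exact hB0 (by rw [← hp]; ring)
  have hz0 : a0 ^ 2 * a1 ≠ 0 := mul_ne_zero (pow_ne_zero 2 ha0) ha1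
  have heq : a0 ^ 2 * a1 * ((a0 * x0) ^ 3 + a0 ^ 2 * a1 * x1 ^ 3) = B * (-a0 * x2) ^ 3 := by
    rw [← hp]
    linear_combination a0 ^ 4 * a1 * hs
  have hc0 : -a0 * x2 ≠ 0 := mul_ne_zero (neg_ne_zero.2 ha0) hx2
  refine ⟨⟨mul_ne_zero ha0 hx0, hx1, -a0 * x2, hc0, heq⟩, ⟨hz0, ?_, ?_⟩, ⟨?_, ?_⟩, ?_⟩
  · intro π
    have hs := hSTM π.1 π.2.1 (hSPP.2.2.2.1 π).1
    set z : Eis := ((a0 ^ 2 * a1 : ℤ) : Eis) with hz
    set n0 : ℤ := (a0 * x0) ^ 3 + a0 ^ 2 * a1 * x1 ^ 3 with hn0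
    have hn0' : n0 ≠ 0 := by
      intro h
      rw [h, mul_zero] at heq
      exact mul_ne_zero hB0 (pow_ne_zero 3 hc0) heq.symm
    have hzne : z ≠ 0 := FD2.cast_ne hz0
    have hBne : (B : Eis) ≠ 0 := FD2.cast_ne hB0
    have hcne : ((-a0 * x2 : ℤ) : Eis) ≠ 0 := FD2.cast_ne hc0
    have hnne : (n0 : Eis) ≠ 0 := FD2.cast_ne hn0'
    have hXne : ((a0 * x0 : ℤ) : Eis) ≠ 0 := FD2.cast_ne (mul_ne_zero ha0 hx0)
    have hYne : (x1 : Eis) ≠ 0 := FD2.cast_ne hx1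
    have e1 : z * (n0 : Eis) = (B : Eis) * ((-a0 * x2 : ℤ) : Eis) ^ 3 := by
      have := congrArg (fun m : ℤ => (m : Eis)) heq
      push_cast at this ⊢
      rw [hz]
      push_cast
      exact this
    have e2 : tm π.1 z (B : Eis) = tm π.1 z (z * (n0 : Eis)) := by
      rw [e1, mul_right hs hzne hBne (pow_ne_zero 3 hcne), s_cube' hs hzne hcne, add_zero]
    rw [e2, mul_right hs hzne hzne hnne, s_self hs hzne, zero_add]
    have e3 : ((a0 * x0 : ℤ) : Eis) ^ 3 + z * (x1 : Eis) ^ 3 + -(n0 : Eis) = 0 := by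
      rw [hz, hn0]
      push_cast
      ring
    have e4 := hs.stein _ _ _ (pow_ne_zero 3 hXne) (mul_ne_zero hzne (pow_ne_zero 3 hYne))
      (neg_ne_zero.2 hnne) e3
    rw [s_cube hs hXne (mul_ne_zero hzne (pow_ne_zero 3 hYne)),
      s_cube' hs (neg_ne_zero.2 hnne) hXne, zero_add, add_zero,
      s_neg hs (mul_ne_zero hzne (pow_ne_zero 3 hYne)) hnne,
      hs.mul _ _ _ hzne (pow_ne_zero 3 hYne) hnne, s_cube hs hYne hnne, add_zero] at e4
    exact e4
  · intro π hπ h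
    apply hπ
    have e1 : (B : Eis) = (a0 : Eis) * a1 * a2 := by
      rw [← hp]
      push_cast
      ring
    have e2 : ((a0 ^ 2 * a1 : ℤ) : Eis) = (a0 : Eis) ^ 2 * a1 := by
      push_cast
      ring
    rw [e2] at h
    rw [e1]
    rcases π.2.1.dvd_or_dvd h with h | h
    · exact ((π.2.1.dvd_of_dvd_pow h).mul_right _).mul_right _
    · exact (h.mul_left _).mul_right _
  · intro hlv
    obtain ⟨-, hmul, -, hpr, -⟩ := hLCL
    have m1 := hmul a0 a1 ha0 ha1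
    have m2 := hmul (a0 * a1) a2 (mul_ne_zero ha0 ha1) ha2
    have m3 := hmul a0 a0 ha0 ha0
    have m4 := hmul (a0 ^ 2) a1 (pow_ne_zero 2 ha0) ha1
    rw [← pow_two] at m3
    rw [hp, m1.1, m1.2] at m2
    rw [m3.1, m3.2] at m4
    have h9 : (9 : ℤ) ∣ B := by
      have hv1 : padicValInt 3 B < 3 := by
        by_contra hcon
        have : ((3 : ℕ) : ℤ) ^ 3 ∣ B := (padicValInt_dvd_iff 3 B).2 (Or.inr (by omega))
        exact h27 (by simpa using this)
      have hv2 : padicValInt 3 B = 2 := by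
        unfold lv at hlv
        generalize padicValInt 3 B = v at hlv hv1
        interval_cases v
        · exact absurd hlv (by decide)
        · exact absurd hlv (by decide)
        · rfl
      have : ((3 : ℕ) : ℤ) ^ 2 ∣ B := (padicValInt_dvd_iff 2 B).2 (Or.inr hv2.ge)
      simpa using this
    have h3d : (3 : ℤ) ∣ a0 ∨ (3 : ℤ) ∣ a1 ∨ (3 : ℤ) ∣ a2 := by
      have h3B : (3 : ℤ) ∣ a0 * a1 * a2 := by
        rw [hp]
        exact (Dvd.intro 3 (by norm_num)).trans h9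
      rcases Int.prime_three.dvd_or_dvd h3B with h | h
      · rcases Int.prime_three.dvd_or_dvd h with h | h
        · exact Or.inl h
        · exact Or.inr (Or.inl h)
      · exact Or.inr (Or.inr h)
    rw [m4.1, m4.2]
    rcases h3d with h3 | h3 | h3
    · obtain ⟨n1, n2, n3, n4⟩ := split9 hp ca ca02 h9 h27 h3
      have w := wild0 a1 a2 a0 n1 n3 n4 _ x1 x2 x0 le_rfl hx1 (by linear_combination hs) n2
      obtain ⟨v1, u1⟩ := hpr a1 n1
      obtain ⟨v2, u2⟩ := hpr a2 n2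
      rw [v1, v2, hlv] at m2
      rw [m2.2, u2, ← w, ← u1, v1]
      have v0 : lv a0 = 2 := by
        have := m2.1
        linear_combination -this
      rw [v0]
      generalize lw a0 = s
      generalize lw a1 = t
      revert s t
      decide
    · obtain ⟨n1, n2, n3, n4⟩ := split9 (a0 := a1) (a1 := a0) (a2 := a2)
        (by rw [← hp]; ring) ca.symm ca12 h9 h27 h3
      have w := wild0 a0 a2 a1 n1 n3 n4 _ x0 x2 x1 le_rfl hx0 (by linear_combination hs) n2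
      obtain ⟨v1, u1⟩ := hpr a0 n1
      obtain ⟨v2, u2⟩ := hpr a2 n2
      rw [v1, v2, hlv] at m2
      rw [m2.2, u2, ← w, ← u1, v1]
      have v0 : lv a1 = 2 := by
        have := m2.1
        linear_combination -this
      rw [v0]
      generalize lw a0 = s
      generalize lw a1 = t
      revert s t
      decide
    · obtain ⟨n1, n2, n3, n4⟩ := split9 (a0 := a2) (a1 := a0) (a2 := a1)
        (by rw [← hp]; ring) ca02.symm ca12.symm h9 h27 h3
      have w := wild0 a0 a1 a2 n1 n3 n4 _ x0 x1 x2 le_rfl hx0 hs n2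
      obtain ⟨v1, u1⟩ := hpr a0 n1
      obtain ⟨v2, u2⟩ := hpr a1 n2
      rw [u2, ← w, ← u1, v1, v2]
      generalize lw a0 = s
      generalize lw B = t
      revert s t
      decide
  · intro hlv
    obtain ⟨-, -, -, hpr, -⟩ := hLCL
    have h3B : ¬ (3 : ℤ) ∣ B := by
      intro h3
      have hv1 : padicValInt 3 B < 3 := by
        by_contra hcon
        have : ((3 : ℕ) : ℤ) ^ 3 ∣ B := (padicValInt_dvd_iff 3 B).2 (Or.inr (by omega))
        exact h27 (by simpa using this)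
      have hv0 : 1 ≤ padicValInt 3 B := by
        have := (padicValInt_dvd_iff (p := 3) 1 B).1 (by simpa using h3)
        exact this.resolve_left hB0
      unfold lv at hlv
      generalize padicValInt 3 B = v at hlv hv1 hv0
      interval_cases v
      · exact absurd hlv (by decide)
      · exact absurd hlv (by decide)
    have h3z : ¬ (3 : ℤ) ∣ a0 ^ 2 * a1 := by
      intro h3
      apply h3B
      rw [← hp]
      rcases Int.prime_three.dvd_or_dvd h3 with h | h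
      · exact ((Int.prime_three.dvd_of_dvd_pow h).mul_right _).mul_right _
      · exact (h.mul_left _).mul_right _
    refine ⟨(hpr _ h3z).1, fun hlw => ?_⟩
    rw [(hpr _ h3B).2, wt_zero h3B] at hlw
    rw [(hpr _ h3z).2, wt_zero h3z]
    have hnd : ∀ a b x y : ℤ, IsCoprime (a * x ^ 3) (b * y ^ 3) →
        ¬ ((x : ZMod 9) ^ 3 = 0 ∧ (y : ZMod 9) ^ 3 = 0) := by
      rintro a b x y hxy ⟨h1, h2⟩
      have h3 : (3 : ℤ) ∣ a * x ^ 3 :=
        ((FDX.three_dvd h1).trans (dvd_pow_self _ (by norm_num))).mul_left a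
      have h4 : (3 : ℤ) ∣ b * y ^ 3 :=
        ((FDX.three_dvd h2).trans (dvd_pow_self _ (by norm_num))).mul_left b
      exact Int.prime_three.not_isUnit (hxy.isUnit_of_dvd' h3 h4)
    rw [FDX.C9_iff] at hlw ⊢
    rw [← hp] at hlw
    push_cast at hlw ⊢
    refine FDX.mod9 a0 a1 a2 x0 x1 x2 ?_ hlw (hnd _ _ _ _ hc) (hnd _ _ _ _ hc02)
      (hnd _ _ _ _ hc12)
    have := congrArg (Int.cast : ℤ → ZMod 9) hs
    push_cast at this
    exact this
  · intro l hl h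
    have hl' : Prime (l : ℤ) := Nat.prime_iff_prime_int.1 hl
    have h1 : (l : ℤ) ∣ a0 ∨ (l : ℤ) ∣ a1 := by
      rcases hl'.dvd_or_dvd h with h | h
      · exact Or.inl (hl'.dvd_of_dvd_pow h)
      · exact Or.inr h
    have h3 : (l : ℤ) ∣ B := by
      rw [← hp]
      rcases h1 with h1 | h1
      · exact (h1.mul_right _).mul_right _
      · exact (h1.mul_left _).mul_right _
    rw [hBB] at h3
    rcases hl'.dvd_or_dvd h3 with h4 | h4
    · rcases hl'.dvd_or_dvd h4 with h5 | h5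
      · have h6 : (l : ℤ) ∣ 3 := hl'.dvd_of_dvd_pow h5
        have h7 : l ∣ 3 := by exact_mod_cast h6
        exact h7.mul_right _
      · have h7 : l ∣ n := by exact_mod_cast h5
        exact h7.mul_left _
    · exfalso
      have h5 : l ∣ q := by
        have := hl'.dvd_of_dvd_pow h4
        exact_mod_cast this
      have h6 : l = q := (Nat.prime_dvd_prime_iff_eq hl hq).1 h5
      rw [h6] at h1
      exact h1.elim hq0 hq1

end NPLU

open NPLU in
/-- NPLU: the class of a point of the isogenous curve. -/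
theorem NPLU_thm (hSTM : STM) (hSPP : SPP) (hLCL : LCL) : Stmt_NPLU := by
  intro h n m k π p e r f E q A m' hN hh hE hq hq3 hqn hA hsum hprod hcop
  have hCF : FDC.CF (BB h n E q) := cf_B hN hh hE hq hq3 hqn
  have hm0 : m' ≠ 0 := by
    rintro rfl
    have : A 0 * A 1 * A 2 = 0 := by rw [hprod]; ring
    exact mul_ne_zero (mul_ne_zero (hA 0) (hA 1)) (hA 2) this
  have hB0 : BB h n E q ≠ 0 := by
    intro h0
    have : A 0 * A 1 * A 2 = 0 := by rw [hprod, h0, zero_mul]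
    exact mul_ne_zero (mul_ne_zero (hA 0) (hA 1)) (hA 2) this
  obtain ⟨a, x, hax, hpa⟩ := cells hCF hA hprod hcop
  have hx0 : ∀ k, x k ≠ 0 := by
    intro k h
    apply hA k
    rw [hax k, h]; ring
  have hc' : ∀ i j, i ≠ j → IsCoprime (a i * x i ^ 3) (a j * x j ^ 3) := fun i j hij => by
    rw [← hax i, ← hax j]
    exact hcop i j hij
  have hs : a 0 * x 0 ^ 3 + a 1 * x 1 ^ 3 + a 2 * x 2 ^ 3 = 0 := by
    rw [← hax, ← hax, ← hax]
    exact hsum
  have hq' : Prime (q : ℤ) := Nat.prime_iff_prime_int.1 hq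
  have hqd : (q : ℤ) ∣ a 0 * a 1 * a 2 := by
    rw [hpa]
    have hE0 : E ≠ 0 := by rcases hE with h | h <;> omega
    exact (dvd_pow_self _ hE0).mul_left _
  have hnot : ∀ i j, i ≠ j → (q : ℤ) ∣ a i → ¬ (q : ℤ) ∣ a j := fun i j hij h1 h2 =>
    hq'.not_isUnit ((hc' i j hij).isUnit_of_dvd' (h1.mul_right _) (h2.mul_right _))
  have hk : (q : ℤ) ∣ a 0 ∨ (q : ℤ) ∣ a 1 ∨ (q : ℤ) ∣ a 2 := by
    rcases hq'.dvd_or_dvd hqd with h | h
    · rcases hq'.dvd_or_dvd h with h | h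
      · exact Or.inl h
      · exact Or.inr (Or.inl h)
    · exact Or.inr (Or.inr h)
  rcases hk with hk | hk | hk
  · obtain ⟨r1, r2, r3, r4⟩ := main hSTM hSPP hLCL (a0 := a 1) (a1 := a 2) (a2 := a 0) hq hCF hB0
      (hx0 1) (hx0 2) (hx0 0)
      (by linear_combination hs) (by linear_combination hpa) (hc' 1 2 (by decide))
      (hc' 1 0 (by decide)) (hc' 2 0 (by decide)) (hnot 0 1 (by decide) hk)
      (hnot 0 2 (by decide) hk)
    refine ⟨a 1 ^ 2 * a 2, a 1 * x 1, x 2, x 1 ^ 2 * x 2 * A 0, m', 1,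
      mul_ne_zero (mul_ne_zero (pow_ne_zero 2 (hx0 1)) (hx0 2)) (hA 0), hm0, ?_, r1, r2, r3, r4⟩
    have e : a 1 ^ 2 * a 2 * (x 1 ^ 2 * x 2 * A 0) ^ 3 = A 0 ^ 2 * A 1 * (A 0 * A 1 * A 2) := by
      rw [hax 1, hax 2]
      ring
    rw [e, hprod]
    ring
  · obtain ⟨r1, r2, r3, r4⟩ := main hSTM hSPP hLCL (a0 := a 2) (a1 := a 0) (a2 := a 1) hq hCF hB0
      (hx0 2) (hx0 0) (hx0 1)
      (by linear_combination hs) (by linear_combination hpa) (hc' 2 0 (by decide))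
      (hc' 2 1 (by decide)) (hc' 0 1 (by decide)) (hnot 1 2 (by decide) hk)
      (hnot 1 0 (by decide) hk)
    refine ⟨a 2 ^ 2 * a 0, a 2 * x 2, x 0, x 2 ^ 2 * x 0 * (A 0 * A 1), m' ^ 2, 2,
      mul_ne_zero (mul_ne_zero (pow_ne_zero 2 (hx0 2)) (hx0 0)) (mul_ne_zero (hA 0) (hA 1)),
      pow_ne_zero 2 hm0, ?_, r1, r2, r3, r4⟩
    have e : a 2 ^ 2 * a 0 * (x 2 ^ 2 * x 0 * (A 0 * A 1)) ^ 3 =
        A 0 ^ 2 * A 1 * (A 0 * A 1 * A 2) ^ 2 := by
      rw [mul_pow (x 2 ^ 2 * x 0)]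
      have e1 : a 2 ^ 2 * a 0 * ((x 2 ^ 2 * x 0) ^ 3) = A 2 ^ 2 * A 0 := by
        rw [hax 2, hax 0]
        ring
      rw [← mul_assoc, e1]
      ring
    rw [e, hprod]
    ring
  · obtain ⟨r1, r2, r3, r4⟩ := main hSTM hSPP hLCL (a0 := a 0) (a1 := a 1) (a2 := a 2) hq hCF hB0
      (hx0 0) (hx0 1) (hx0 2)
      (by linear_combination hs) (by linear_combination hpa) (hc' 0 1 (by decide))
      (hc' 0 2 (by decide)) (hc' 1 2 (by decide)) (hnot 2 0 (by decide) hk)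
      (hnot 2 1 (by decide) hk)
    refine ⟨a 0 ^ 2 * a 1, a 0 * x 0, x 1, x 0 ^ 2 * x 1, 1, 0,
      mul_ne_zero (pow_ne_zero 2 (hx0 0)) (hx0 1), one_ne_zero, ?_, r1, r2, r3, r4⟩
    rw [hax 0, hax 1]
    ring

end Pool.Agent.PTN
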