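import Pool.Agent.PTN.StA

/-!
# NSUM: the average of `3 ^ v` over the classes
-/

set_option autoImplicit false

open Finset

namespace Pool.Agent.PTN

namespace NSUM

open Pool.Agent.Lib_helper18 Pool.Agent.Lib_helper18.Eis Pool.Agent.Lib_helper84.Cub
open Pool.Agent.PT Pool.Agent.PTE Pool.Agent.PT3

variable {h n m k : ℕ} {π : Fin m → PP} {p e : Fin m → ℕ} {r : Fin k → ℕ}

theorem diff_succ (w0 w0' : ZMod 3) (c c' : Fin m → ZMod 3) (y : Fin (m + 1) → ZMod 3)
    (i : Fin m) :
    Matrix.vecMul y (Nm h n π p e r w0 c) (Sum.inl i.succ) -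
      Matrix.vecMul y (Nm h n π p e r w0' c') (Sum.inl i.succ) = y i.succ * (c' i - c i) := by
  unfold Matrix.vecMul dotProduct
  rw [← Finset.sum_sub_distrib, Finset.sum_eq_single i.succ]
  · simp [Nm]
    ring
  · intro a _ ha
    revert ha
    refine Fin.cases ?_ (fun i1 => ?_) a
    · intro _
      simp [Nm]
    · intro h1
      have h2 : i ≠ i1 := fun h => h1 (by rw [h])
      simp [Nm, h2]
  · intro h
    exact absurd (Finset.mem_univ _) h

theorem diff_zero (w0 w0' : ZMod 3) (c c' : Fin m → ZMod 3) (y : Fin (m + 1) → ZMod 3) :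
    Matrix.vecMul y (Nm h n π p e r w0 c) (Sum.inl 0) -
      Matrix.vecMul y (Nm h n π p e r w0' c') (Sum.inl 0) = y 0 * (w0 - w0') := by
  unfold Matrix.vecMul dotProduct
  rw [← Finset.sum_sub_distrib, Finset.sum_eq_single 0]
  · simp [Nm]
    ring
  · intro a _ ha
    revert ha
    refine Fin.cases ?_ (fun i1 => ?_) a
    · intro h1
      exact absurd rfl h1
    · intro _
      simp [Nm]
  · intro h
    exact absurd (Finset.mem_univ _) h

theorem det_succ {w0 w0' : ZMod 3} {c c' : Fin m → ZMod 3} {y : Fin (m + 1) → ZMod 3}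
    (h1 : y ∈ VS h n π p e r w0 c) (h2 : y ∈ VS h n π p e r w0' c') (i : Fin m)
    (hy : y i.succ ≠ 0) : c i = c' i := by
  have h3 := diff_succ (h := h) (n := n) (π := π) (p := p) (e := e) (r := r) w0 w0' c c' y i
  have hne : (Sum.inl i.succ : Col m k) ≠ Sum.inl 0 := by
    intro h4
    exact (Fin.succ_ne_zero i) (Sum.inl_injective h4)
  rw [h1.2 _ fun _ => hne, h2.2 _ fun _ => hne, sub_zero] at h3
  have h4 := (mul_eq_zero.1 h3.symm).resolve_left hy
  exact (sub_eq_zero.1 h4).symm

theorem det_zero {w0 w0' : ZMod 3} {c c' : Fin m → ZMod 3} {y : Fin (m + 1) → ZMod 3}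
    (h1 : y ∈ VS h n π p e r w0 c) (h2 : y ∈ VS h n π p e r w0' c')
    (hy : y 0 ≠ 0) : w0 = w0' := by
  have a1 : actR h n w0 := by
    by_contra h3
    exact hy (h1.1 h3)
  have a2 : actR h n w0' := by
    by_contra h3
    exact hy (h2.1 h3)
  unfold actR at a1 a2
  rcases a1 with a1 | a1
  · have h3 := diff_zero (h := h) (n := n) (π := π) (p := p) (e := e) (r := r) w0 w0' c c' y
    rw [h1.2 _ fun h0 => absurd h0 (by omega), h2.2 _ fun h0 => absurd h0 (by omega),
      sub_zero] at h3
    have h4 := (mul_eq_zero.1 h3.symm).resolve_left hy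
    exact sub_eq_zero.1 h4
  · rcases a2 with a2 | a2
    · omega
    · exact add_left_cancel (a1.2.trans a2.2.symm)

open Classical in
theorem card_bound (h n : ℕ) (π : Fin m → PP) (p e : Fin m → ℕ) (r : Fin k → ℕ)
    (y : Fin (m + 1) → ZMod 3) :
    (Finset.univ.filter fun x : ZMod 3 × (Fin m → ZMod 3) =>
      y ∈ VS h n π p e r x.1 x.2).card ≤ ∏ a, if y a = 0 then 3 else 1 := by
  by_cases hne : ∃ x0 : ZMod 3 × (Fin m → ZMod 3), y ∈ VS h n π p e r x0.1 x0.2
  · obtain ⟨x0, hx0⟩ := hne
    have hsub : (Finset.univ.filter fun x : ZMod 3 × (Fin m → ZMod 3) =>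
        y ∈ VS h n π p e r x.1 x.2) ⊆
        (if y 0 = 0 then Finset.univ else {x0.1}) ×ˢ
          Fintype.piFinset fun i : Fin m => if y i.succ = 0 then Finset.univ else {x0.2 i} := by
      intro x hx
      rw [Finset.mem_filter] at hx
      rw [Finset.mem_product]
      constructor
      · split_ifs with h1
        · exact Finset.mem_univ _
        · rw [Finset.mem_singleton]
          exact det_zero hx.2 hx0 h1
      · rw [Fintype.mem_piFinset]
        intro i
        split_ifs with h1
        · exact Finset.mem_univ _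
        · rw [Finset.mem_singleton]
          exact det_succ hx.2 hx0 i h1
    refine (Finset.card_le_card hsub).trans (le_of_eq ?_)
    rw [Finset.card_product, Fintype.card_piFinset, Fin.prod_univ_succ]
    congr 1
    · split_ifs
      · rw [Finset.card_univ, ZMod.card]
      · rfl
    · refine Finset.prod_congr rfl fun i _ => ?_
      split_ifs
      · rw [Finset.card_univ, ZMod.card]
      · rfl
  · rw [Finset.card_eq_zero.2]
    · exact Nat.zero_le _
    · rw [Finset.filter_eq_empty_iff]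
      intro x _ hx
      exact hne ⟨x, hx⟩

open Classical in
theorem pow_vN (h n : ℕ) (π : Fin m → PP) (p e : Fin m → ℕ) (r : Fin k → ℕ)
    (x : ZMod 3 × (Fin m → ZMod 3)) :
    3 ^ vN h n π p e r x.1 x.2 =
      (Finset.univ.filter fun y : Fin (m + 1) → ZMod 3 => y ∈ VS h n π p e r x.1 x.2).card := by
  haveI : Fact (Nat.Prime 3) := ⟨Nat.prime_three⟩
  have h1 := Module.natCard_eq_pow_finrank (K := ZMod 3) (V := VS h n π p e r x.1 x.2)
  rw [Nat.card_zmod] at h1
  unfold vN
  rw [← h1, Nat.card_eq_fintype_card, Fintype.card_subtype]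

theorem sum_prod (m : ℕ) :
    ∑ y : Fin (m + 1) → ZMod 3, ∏ a, (if y a = 0 then 3 else 1) = 5 ^ (m + 1) := by
  have h1 := Finset.prod_univ_sum (fun _ : Fin (m + 1) => (Finset.univ : Finset (ZMod 3)))
    (fun _ z => if z = 0 then 3 else 1)
  rw [Fintype.piFinset_univ] at h1
  rw [← h1]
  have h2 : ∑ z : ZMod 3, (if z = 0 then 3 else 1) = 5 := by decide
  rw [h2, Finset.prod_const, Finset.card_univ, Fintype.card_fin]

end NSUM

open NSUM

theorem NSUM_thm : Stmt_NSUM := by
  classical
  intro h n m k π p e r f _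
  have h1 : ∑ x : ZMod 3 × (Fin m → ZMod 3), 3 ^ vN h n π p e r x.1 x.2 =
      ∑ y : Fin (m + 1) → ZMod 3, (Finset.univ.filter fun x : ZMod 3 × (Fin m → ZMod 3) =>
        y ∈ VS h n π p e r x.1 x.2).card := by
    rw [Finset.sum_congr rfl fun x _ => pow_vN h n π p e r x]
    exact Finset.sum_card_bipartiteAbove_eq_sum_card_bipartiteBelow
      (fun (x : ZMod 3 × (Fin m → ZMod 3)) (y : Fin (m + 1) → ZMod 3) =>
        y ∈ VS h n π p e r x.1 x.2)
  rw [h1, ← sum_prod m]
  exact Finset.sum_le_sum fun y _ => card_bound h n π p e r y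

end Pool.Agent.PTN
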