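import Pool.Agent.PTN.StQ
import Pool.Agent.PTN.NSUM

/-!
# NSU1: the average of `3 ^ v` over the classes, `h = 1`
-/

set_option autoImplicit false

open Finset

namespace Pool.Agent.PTN

namespace NSU1

open Pool.Agent.Lib_helper18 Pool.Agent.Lib_helper18.Eis Pool.Agent.Lib_helper84.Cub
open Pool.Agent.PT Pool.Agent.PTE Pool.Agent.PT3

variable {n m k : ℕ} {π : Fin m → PP} {p e : Fin m → ℕ} {r : Fin k → ℕ}

theorem zero_of_mem {w0 : ZMod 3} {c : Fin m → ZMod 3} {y : Fin (m + 1) → ZMod 3}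
    (hy : y ∈ VS 1 n π p e r w0 c) : y 0 = 0 := by
  apply hy.1
  unfold actR
  omega

open Classical in
theorem card_bound (n : ℕ) (π : Fin m → PP) (p e : Fin m → ℕ) (r : Fin k → ℕ)
    (y : Fin (m + 1) → ZMod 3) :
    (Finset.univ.filter fun x : ZMod 3 × (Fin m → ZMod 3) =>
      y ∈ VS 1 n π p e r x.1 x.2).card ≤
      (if y 0 = 0 then 3 else 0) * ∏ i : Fin m, if y i.succ = 0 then 3 else 1 := by
  by_cases h0 : y 0 = 0
  · refine (NSUM.card_bound 1 n π p e r y).trans (le_of_eq ?_)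
    rw [Fin.prod_univ_succ, if_pos h0, if_pos h0]
  · rw [if_neg h0, zero_mul, Nat.le_zero, Finset.card_eq_zero, Finset.filter_eq_empty_iff]
    intro x _ hx
    exact h0 (zero_of_mem hx)

theorem sum_prod (m : ℕ) :
    ∑ y : Fin (m + 1) → ZMod 3, (if y 0 = 0 then 3 else 0) *
      ∏ i : Fin m, (if y i.succ = 0 then 3 else 1) = 3 * 5 ^ m := by
  have h1 := Finset.prod_univ_sum (fun _ : Fin (m + 1) => (Finset.univ : Finset (ZMod 3)))
    (fun a z => if a = 0 then (if z = 0 then 3 else 0) else (if z = 0 then 3 else 1))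
  rw [Fintype.piFinset_univ] at h1
  have h2 : ∀ y : Fin (m + 1) → ZMod 3, (if y 0 = 0 then 3 else 0) *
      ∏ i : Fin m, (if y i.succ = 0 then 3 else 1) =
      ∏ a : Fin (m + 1), if a = 0 then (if y a = 0 then 3 else 0) else
        (if y a = 0 then 3 else 1) := by
    intro y
    rw [Fin.prod_univ_succ, if_pos rfl]
    congr 1
  rw [Finset.sum_congr rfl fun y _ => h2 y, ← h1, Fin.prod_univ_succ]
  have h3 : ∑ z : ZMod 3, (if z = 0 then 3 else 1) = 5 := by decide
  have h4 : ∑ z : ZMod 3, (if z = 0 then 3 else 0) = 3 := by decide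
  simp only [if_true, Fin.succ_ne_zero, if_false, h3, h4, Finset.prod_const, Finset.card_univ,
    Fintype.card_fin]

end NSU1

open NSU1

theorem NSU1_thm : Stmt_NSU1 := by
  classical
  intro n m k π p e r f _
  have h1 : ∑ x : ZMod 3 × (Fin m → ZMod 3), 3 ^ vN 1 n π p e r x.1 x.2 =
      ∑ y : Fin (m + 1) → ZMod 3, (Finset.univ.filter fun x : ZMod 3 × (Fin m → ZMod 3) =>
        y ∈ VS 1 n π p e r x.1 x.2).card := by
    rw [Finset.sum_congr rfl fun x _ => NSUM.pow_vN 1 n π p e r x]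
    exact Finset.sum_card_bipartiteAbove_eq_sum_card_bipartiteBelow
      (fun (x : ZMod 3 × (Fin m → ZMod 3)) (y : Fin (m + 1) → ZMod 3) =>
        y ∈ VS 1 n π p e r x.1 x.2)
  rw [h1, ← sum_prod m]
  exact Finset.sum_le_sum fun y _ => NSU1.card_bound n π p e r y

end Pool.Agent.PTN
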