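import Pool.Agent.PTN.StA
import Pool.Agent.PT3.EBAT

/-!
# The law of the ranks of prime twists for every `n`: exponent vectors (module NVEC)
-/

set_option autoImplicit false

open Finset

namespace Pool.Agent.PTN

open Pool.Agent.Lib_helper18 Pool.Agent.Lib_helper18.Eis Pool.Agent.Lib_helper84.Cub
open Pool.Agent.PT Pool.Agent.PTE Pool.Agent.PT3

namespace NVEC

/-- row `i.succ` of the product with a vector -/
theorem row_succ (h n : ℕ) {m k : ℕ} (π : Fin m → PP) (p e : Fin m → ℕ) (r : Fin k → ℕ)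
    (w0 : ZMod 3) (c : Fin m → ZMod 3) (u : Col m k → ZMod 3) (i : Fin m) :
    ((Nm h n π p e r w0 c).mulVec u) i.succ =
      (e i : ZMod 3) * (u (Sum.inl 0) * sym (π i).1 3) +
        (e i : ZMod 3) * (∑ i', u (Sum.inl i'.succ) *
          (if i' = i then sym (π i).1 (conj (π i).1) else sym (π i).1 (p i' : Eis))) +
        (e i : ZMod 3) * (∑ j, u (Sum.inr j) * sym (π i).1 (r j : Eis)) -
        u (Sum.inl i.succ) * (ch (π i).1 ((3 ^ h * n : ℕ) : Eis) + c i) := by
  have h1 : ((Nm h n π p e r w0 c).mulVec u) i.succ =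
      ((e i : ZMod 3) * sym (π i).1 3 * u (Sum.inl 0) +
        ∑ i', (if i' = i then (e i : ZMod 3) * sym (π i).1 (conj (π i).1) -
              ch (π i).1 ((3 ^ h * n : ℕ) : Eis) - c i
          else (e i : ZMod 3) * sym (π i).1 (p i' : Eis)) * u (Sum.inl i'.succ)) +
        ∑ j, (e i : ZMod 3) * sym (π i).1 (r j : Eis) * u (Sum.inr j) := by
    change ∑ b : Col m k, Nm h n π p e r w0 c i.succ b * u b = _
    rw [Fintype.sum_sum_type, Fin.sum_univ_succ]
    rfl
  have h2 : ∀ i' : Fin m, (if i' = i then (e i : ZMod 3) * sym (π i).1 (conj (π i).1) -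
              ch (π i).1 ((3 ^ h * n : ℕ) : Eis) - c i
          else (e i : ZMod 3) * sym (π i).1 (p i' : Eis)) * u (Sum.inl i'.succ) =
      (e i : ZMod 3) * (u (Sum.inl i'.succ) *
          (if i' = i then sym (π i).1 (conj (π i).1) else sym (π i).1 (p i' : Eis))) -
        (if i' = i then u (Sum.inl i'.succ) * (ch (π i).1 ((3 ^ h * n : ℕ) : Eis) + c i)
          else 0) := by
    intro i'
    split_ifs with h3
    · ring
    · ring
  rw [h1, Finset.sum_congr rfl fun i' _ => h2 i', Finset.sum_sub_distrib, ← Finset.mul_sum,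
    Finset.sum_ite_eq' Finset.univ i, if_pos (Finset.mem_univ i)]
  have h4 : ∑ j, (e i : ZMod 3) * sym (π i).1 (r j : Eis) * u (Sum.inr j) =
      (e i : ZMod 3) * (∑ j, u (Sum.inr j) * sym (π i).1 (r j : Eis)) := by
    rw [Finset.mul_sum]
    exact Finset.sum_congr rfl fun j _ => by ring
  rw [h4]
  ring

/-- row `0` of the product with a vector -/
theorem row_zero (h n : ℕ) {m k : ℕ} (π : Fin m → PP) (p e : Fin m → ℕ) (r : Fin k → ℕ)
    (w0 : ZMod 3) (c : Fin m → ZMod 3) (u : Col m k → ZMod 3) :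
    ((Nm h n π p e r w0 c).mulVec u) 0 =
      (∑ i, u (Sum.inl i.succ) * wt ((p i : ℤ) ^ 2)) +
        (∑ j, u (Sum.inr j) * wt ((r j : ℤ) ^ 2)) +
        u (Sum.inl 0) * (wt ((n : ℤ) ^ 2) + w0) := by
  have h1 : ((Nm h n π p e r w0 c).mulVec u) 0 =
      ((wt ((n : ℤ) ^ 2) + w0) * u (Sum.inl 0) +
        ∑ i : Fin m, wt ((p i : ℤ) ^ 2) * u (Sum.inl i.succ)) +
        ∑ j : Fin k, wt ((r j : ℤ) ^ 2) * u (Sum.inr j) := by
    change ∑ b : Col m k, Nm h n π p e r w0 c 0 b * u b = _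
    rw [Fintype.sum_sum_type, Fin.sum_univ_succ]
    rfl
  rw [h1, Finset.sum_congr rfl fun i _ => mul_comm (wt ((p i : ℤ) ^ 2)) (u (Sum.inl i.succ)),
    Finset.sum_congr rfl fun j _ => mul_comm (wt ((r j : ℤ) ^ 2)) (u (Sum.inr j))]
  ring

end NVEC

theorem NVEC_thm (hEVET : EVET) (hSPP : SPP) : Stmt_NVEC := by
  intro h n m k π p e r f w0 c hN hh
  obtain ⟨hE1, hE2⟩ := hEVET h n m k π p e r f w0 c hN
  refine ⟨fun x hx hs => ?_, fun x x' hx hx' hs hs' => ?_, fun u => ?_⟩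
  · obtain ⟨hA, hW⟩ := hE1 x hx hs
    have hr : ∀ i : Fin m, ((Nm h n π p e r w0 c).mulVec (exv p r x)) i.succ =
        (e i : ZMod 3) * (lv x * sym (π i).1 3) +
        (e i : ZMod 3) * (∑ i', (padicValInt (p i') x : ZMod 3) *
          (if i' = i then sym (π i).1 (conj (π i).1) else sym (π i).1 (p i' : Eis))) +
        (e i : ZMod 3) * (∑ j, (padicValInt (r j) x : ZMod 3) * sym (π i).1 (r j : Eis)) -
        (padicValInt (p i) x : ZMod 3) * (ch (π i).1 ((3 ^ h * n : ℕ) : Eis) + c i) := by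
      intro i
      rw [NVEC.row_succ]
      rfl
    have h0 : ((Nm h n π p e r w0 c).mulVec (exv p r x)) 0 =
        (∑ i, (padicValInt (p i) x : ZMod 3) * wt ((p i : ℤ) ^ 2)) +
        (∑ j, (padicValInt (r j) x : ZMod 3) * wt ((r j : ℤ) ^ 2)) +
        lv x * (wt ((n : ℤ) ^ 2) + w0) := by
      rw [NVEC.row_zero]
      rfl
    have hv : exv p r x (Sum.inl 0) = lv x := rfl
    change (AdC h n π w0 c x ∧ (h = 0 → lv x = 0 ∧ (wt ((n : ℤ) ^ 2) + w0 = 0 → lw x = 0))) ↔
      (∀ i : Fin m, ((Nm h n π p e r w0 c).mulVec (exv p r x)) i.succ = 0) ∧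
        (actR h n w0 → ((Nm h n π p e r w0 c).mulVec (exv p r x)) 0 = 0) ∧
        (h = 0 → exv p r x (Sum.inl 0) = 0)
    rw [hA, h0, hv]
    constructor
    · rintro ⟨⟨h1, h2⟩, h3⟩
      refine ⟨fun i => by rw [hr i]; exact h1 i, ?_, fun h4 => (h3 h4).1⟩
      rintro (h5 | ⟨h5, h6⟩)
      · exact h2 h5
      · rw [h6, mul_zero, add_zero, ← hW]
        exact (h3 h5).2 h6
    · rintro ⟨h1, h2, h3⟩
      refine ⟨⟨fun i => by rw [← hr i]; exact h1 i, fun h4 => h2 (Or.inl h4)⟩, fun h4 =>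
        ⟨h3 h4, fun h5 => ?_⟩⟩
      have h6 := h2 (Or.inr ⟨h4, h5⟩)
      rw [h5, mul_zero, add_zero, ← hW] at h6
      exact h6
  · rw [hE2 x x' hx hx' hs hs']
    constructor
    · rintro ⟨h1, h2, h3⟩
      funext b
      rcases b with b | j
      · refine Fin.cases ?_ (fun i => ?_) b
        · exact h1
        · exact h2 i
      · exact h3 j
    · intro h1
      exact ⟨congrFun h1 (Sum.inl 0), fun i => congrFun h1 (Sum.inl i.succ),
        fun j => congrFun h1 (Sum.inr j)⟩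
  · set v : EBAT.EVT m k := (u (Sum.inl 0), ((fun i => u (Sum.inl i.succ)), fun j => u (Sum.inr j)))
      with hv
    have hev := EBAT.evT_toT hN v
    refine ⟨EBAT.toT p r v, EBAT.toT_ne hN v, EBAT.supp_toT hN v, ?_, EBAT.V_toT_le hSPP hN v,
      fun h1 => EBAT.three_toT hN v h1⟩
    funext b
    rcases b with b | j
    · refine Fin.cases ?_ (fun i => ?_) b
      · exact congrArg Prod.fst hev
      · exact congrFun (congrArg (fun z : EBAT.EVT m k => z.2.1) hev) i
    · exact congrFun (congrArg (fun z : EBAT.EVT m k => z.2.2) hev) j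

end Pool.Agent.PTN
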