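import Pool.Agent.PTN.StQ

/-!
# NZE0: the number of the classes with `v = 0` in the case `h = 0`, `B = ± 1 (mod 9)`
-/

set_option autoImplicit false

open NumberField IsDedekindDomain Finset
open scoped nonZeroDivisors Pointwise

namespace Pool.Agent.PTN

open Pool.Agent.Lib_helper18 Pool.Agent.Lib_helper18.Eis Pool.Agent.Lib_helper84.Cub
open Pool.Agent.PT Pool.Agent.PTE Pool.Agent.PT3

namespace NZE0

/-- the columns used: `inr j` and `inl i.succ` -/
def colN {m k : ℕ} (j : Fin k) (b : Fin (m + 1)) : Col m k :=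
  Fin.cases (motive := fun _ => Col m k) (Sum.inr j) (fun i => Sum.inl i.succ) b

variable (n : ℕ) {m k : ℕ} (π : Fin m → PP) (p e : Fin m → ℕ) (r : Fin k → ℕ)
    (w0 : ZMod 3) (c : Fin m → ZMod 3) (j : Fin k)

/-- the square matrix, without the diagonal `c` -/
noncomputable def Am : Matrix (Fin (m + 1)) (Fin (m + 1)) (ZMod 3) :=
  fun a b => Nm 0 n π p e r w0 0 a (colN j b)

theorem Am_sub (a b : Fin (m + 1)) :
    (Am n π p e r w0 j - Matrix.diagonal (Fin.cons 0 c : Fin (m + 1) → ZMod 3)) a b =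
      Nm 0 n π p e r w0 c a (colN j b) := by
  rw [Matrix.sub_apply]
  refine Fin.cases ?_ (fun i' => ?_) b
  · refine Fin.cases ?_ (fun i => ?_) a
    · rw [Matrix.diagonal_apply_eq, Fin.cons_zero, sub_zero]
      rfl
    · rw [Matrix.diagonal_apply_ne _ (Fin.succ_ne_zero i), sub_zero]
      rfl
  · refine Fin.cases ?_ (fun i => ?_) a
    · rw [Matrix.diagonal_apply_ne _ (Fin.succ_ne_zero i').symm, sub_zero]
      rfl
    · by_cases hi : i' = i
      · subst hi
        rw [Matrix.diagonal_apply_eq, Fin.cons_succ]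
        simp only [Am, colN, Nm, Fin.cases_succ, if_true, Pi.zero_apply, sub_zero]
      · have h1 : i.succ ≠ i'.succ := fun h0 => hi (Fin.succ_injective _ h0).symm
        rw [Matrix.diagonal_apply_ne _ h1, sub_zero]
        simp only [Am, colN, Nm, Fin.cases_succ, if_neg hi]

theorem vN_zero
    (hdet : (Am n π p e r w0 j - Matrix.diagonal (Fin.cons 0 c : Fin (m + 1) → ZMod 3)).det ≠ 0) :
    vN 0 n π p e r w0 c = 0 := by
  have : Fact (Nat.Prime 3) := ⟨Nat.prime_three⟩
  have h1 : VS 0 n π p e r w0 c = ⊥ := by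
    rw [Submodule.eq_bot_iff]
    intro y hy
    obtain ⟨-, h2⟩ := hy
    refine Matrix.eq_zero_of_vecMul_eq_zero hdet ?_
    funext b
    rw [Pi.zero_apply]
    have h3 := h2 (colN j b) (fun _ => by
      refine Fin.cases ?_ (fun i => ?_) b
      · exact fun h0 => nomatch h0
      · exact fun h0 => Fin.succ_ne_zero _ (Sum.inl.inj h0))
    refine Eq.trans ?_ h3
    change ∑ a, y a * (Am n π p e r w0 j -
      Matrix.diagonal (Fin.cons 0 c : Fin (m + 1) → ZMod 3)) a b =
        ∑ a, y a * Nm 0 n π p e r w0 c a (colN j b)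
    refine Finset.sum_congr rfl fun a _ => ?_
    rw [Am_sub]
  unfold vN
  rw [h1]
  exact finrank_bot _ _

end NZE0

open NZE0 in
/-- NZE0: the number of the classes with `v = 0`, `h = 0`, `B = ± 1 (mod 9)`. -/
theorem NZE0_thm (hEDC : EDC) : Stmt_NZE0 := by
  intro n m k π p e r f _ hj
  obtain ⟨j, hj⟩ := hj
  have h0 : (Am n π p e r (- wt ((n : ℤ) ^ 2)) j) 0 0 ≠ 0 := hj
  refine (hEDC m _ h0).trans (Nat.card_le_card_of_injective
    (fun x => (⟨(- wt ((n : ℤ) ^ 2), x.1), vN_zero n π p e r _ _ j x.2,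
      add_neg_cancel _⟩ : {x : ZMod 3 × (Fin m → ZMod 3) //
        vN 0 n π p e r x.1 x.2 = 0 ∧ wt ((n : ℤ) ^ 2) + x.1 = 0})) ?_)
  intro x1 x2 hx
  have h2 := congrArg Subtype.val hx
  exact Subtype.ext (Prod.ext_iff.1 h2).2

end Pool.Agent.PTN
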