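import Pool.Agent.PTN.StA

/-!
# NZER: the number of the classes with `v = 0`
-/

set_option autoImplicit false

open NumberField IsDedekindDomain Finset
open scoped nonZeroDivisors Pointwise

namespace Pool.Agent.PTN

open Pool.Agent.Lib_helper18 Pool.Agent.Lib_helper18.Eis Pool.Agent.Lib_helper84.Cub
open Pool.Agent.PT Pool.Agent.PTE Pool.Agent.PT3

namespace NZER

theorem vecMul_apply' {m : ℕ} {β : Type} (y : Fin (m + 1) → ZMod 3)
    (A : Matrix (Fin (m + 1)) β (ZMod 3)) (b : β) :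
    Matrix.vecMul y A b = y 0 * A 0 b + ∑ i : Fin m, y i.succ * A i.succ b := by
  change ∑ a, y a * A a b = _
  rw [Fin.sum_univ_succ]

theorem card_w0 (a : ZMod 3) : Nat.card {w : ZMod 3 // a + w ≠ 0} = 2 := by
  rw [Nat.card_eq_fintype_card]
  revert a
  decide

variable (h n : ℕ) {m k : ℕ} (π : Fin m → PP) (p e : Fin m → ℕ) (r : Fin k → ℕ)
    (w0 : ZMod 3) (c : Fin m → ZMod 3)

theorem eq_zero (hdet : (Mt h n π p e w0 c).det ≠ 0) (hw : wt ((n : ℤ) ^ 2) + w0 ≠ 0)
    (y : Fin (m + 1) → ZMod 3) (hy : y ∈ VS h n π p e r w0 c) : y = 0 := by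
  have : Fact (Nat.Prime 3) := ⟨Nat.prime_three⟩
  obtain ⟨h1, h2⟩ := hy
  by_cases hh : h = 2
  · refine Matrix.eq_zero_of_vecMul_eq_zero hdet ?_
    funext b
    have h3 := h2 (Sum.inl b) (fun h0 => by omega)
    rw [vecMul_apply'] at h3
    rw [vecMul_apply', Pi.zero_apply, ← h3]
    have h4 : Mt h n π p e w0 c 0 b = Nm h n π p e r w0 c 0 (Sum.inl b) := by
      refine Fin.cases ?_ (fun i' => ?_) b
      · simp only [Mt, Nm, Fin.cases_zero, if_pos hh]
      · simp only [Mt, Nm, Fin.cases_zero, Fin.cases_succ, if_pos hh]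
    have h5 : ∀ i : Fin m, Mt h n π p e w0 c i.succ b =
        Nm h n π p e r w0 c i.succ (Sum.inl b) := by
      intro i
      simp only [Mt, Nm, Fin.cases_succ]
    rw [h4]
    simp only [h5]
  · have hact : ¬ actR h n w0 := by
      rintro (h0 | ⟨-, h0⟩)
      · exact hh h0
      · exact hw h0
    have hy0 := h1 hact
    have h6 : (Fin.cons (- ∑ i : Fin m, y i.succ * Mt h n π p e w0 c i.succ 0)
        (fun i => y i.succ) : Fin (m + 1) → ZMod 3) = 0 := by
      refine Matrix.eq_zero_of_vecMul_eq_zero hdet ?_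
      funext b
      rw [vecMul_apply', Pi.zero_apply]
      simp only [Fin.cons_zero, Fin.cons_succ]
      refine Fin.cases ?_ (fun i' => ?_) b
      · have h7 : Mt h n π p e w0 c 0 0 = 1 := by
          simp only [Mt, Fin.cases_zero, if_neg hh]
        rw [h7, mul_one, neg_add_cancel]
      · have h7 : Mt h n π p e w0 c 0 i'.succ = 0 := by
          simp only [Mt, Fin.cases_zero, Fin.cases_succ, if_neg hh]
        have h3 := h2 (Sum.inl i'.succ) (fun _ h0 => Fin.succ_ne_zero _ (Sum.inl.inj h0))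
        rw [vecMul_apply', hy0, zero_mul, zero_add] at h3
        rw [h7, mul_zero, zero_add, ← h3]
        exact Finset.sum_congr rfl fun i _ => rfl
    funext a
    refine Fin.cases ?_ (fun i => ?_) a
    · exact hy0
    · have h8 := congrFun h6 i.succ
      rw [Fin.cons_succ] at h8
      exact h8

theorem vN_zero (hdet : (Mt h n π p e w0 c).det ≠ 0) (hw : wt ((n : ℤ) ^ 2) + w0 ≠ 0) :
    vN h n π p e r w0 c = 0 := by
  have h1 : VS h n π p e r w0 c = ⊥ := by
    rw [Submodule.eq_bot_iff]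
    exact eq_zero h n π p e r w0 c hdet hw
  unfold vN
  rw [h1]
  exact finrank_bot _ _

end NZER

open NZER in
theorem NZER_thm (hEMAX : EMAX) : Stmt_NZER := by
  intro h n m k π p e r f _
  let Z : Type := {w : ZMod 3 // wt ((n : ℤ) ^ 2) + w ≠ 0}
  let C : Z → Type := fun w => {c : Fin m → ZMod 3 // (Mt h n π p e w.1 c).det ≠ 0}
  have h1 : 2 ^ (m + 1) ≤ Nat.card (Σ w : Z, C w) := by
    rw [Nat.card_sigma]
    calc 2 ^ (m + 1) = ∑ w : Z, 2 ^ m := by
          rw [Finset.sum_const, Finset.card_univ, ← Nat.card_eq_fintype_card, card_w0,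
            smul_eq_mul, pow_succ, mul_comm]
      _ ≤ ∑ w : Z, Nat.card (C w) :=
          Finset.sum_le_sum fun w _ => hEMAX h n m π p e w.1 fun _ => w.2
  refine h1.trans (Nat.card_le_card_of_injective
    (fun x : Σ w : Z, C w => (⟨(x.1.1, x.2.1), vN_zero h n π p e r _ _ x.2.2 x.1.2,
      fun h0 => x.1.2 h0.2⟩ : {x : ZMod 3 × (Fin m → ZMod 3) //
        vN h n π p e r x.1 x.2 = 0 ∧ ¬ (h = 0 ∧ wt ((n : ℤ) ^ 2) + x.1 = 0)})) ?_)
  rintro ⟨⟨w1, hw1⟩, ⟨c1, hc1⟩⟩ ⟨⟨w2, hw2⟩, ⟨c2, hc2⟩⟩ hx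
  have h2 := congrArg Subtype.val hx
  obtain ⟨h3, h4⟩ := Prod.ext_iff.1 h2
  change w1 = w2 at h3
  change c1 = c2 at h4
  subst h3
  subst h4
  rfl

end Pool.Agent.PTN
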