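import Pool.Agent.PTN.StQ
import Pool.Agent.PTN.NZER

/-!
# NZE1: the number of the classes with `v = 0`, `h = 1`
-/

set_option autoImplicit false

open NumberField IsDedekindDomain Finset
open scoped nonZeroDivisors Pointwise

namespace Pool.Agent.PTN

open Pool.Agent.Lib_helper18 Pool.Agent.Lib_helper18.Eis Pool.Agent.Lib_helper84.Cub
open Pool.Agent.PT Pool.Agent.PTE Pool.Agent.PT3

namespace NZE1

variable (n : ℕ) {m k : ℕ} (π : Fin m → PP) (p e : Fin m → ℕ) (r : Fin k → ℕ)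
    (w0 : ZMod 3) (c : Fin m → ZMod 3)

theorem eq_zero (hdet : (Mt 1 n π p e w0 c).det ≠ 0)
    (y : Fin (m + 1) → ZMod 3) (hy : y ∈ VS 1 n π p e r w0 c) : y = 0 := by
  have : Fact (Nat.Prime 3) := ⟨Nat.prime_three⟩
  obtain ⟨h1, h2⟩ := hy
  have hh : ¬ (1 : ℕ) = 2 := by norm_num
  have hact : ¬ actR 1 n w0 := by
    rintro (h0 | ⟨h0, -⟩)
    · exact hh h0
    · exact absurd h0 (by norm_num)
  have hy0 := h1 hact
  have h6 : (Fin.cons (- ∑ i : Fin m, y i.succ * Mt 1 n π p e w0 c i.succ 0)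
      (fun i => y i.succ) : Fin (m + 1) → ZMod 3) = 0 := by
    refine Matrix.eq_zero_of_vecMul_eq_zero hdet ?_
    funext b
    rw [NZER.vecMul_apply', Pi.zero_apply]
    simp only [Fin.cons_zero, Fin.cons_succ]
    refine Fin.cases ?_ (fun i' => ?_) b
    · have h7 : Mt 1 n π p e w0 c 0 0 = 1 := by
        simp only [Mt, Fin.cases_zero, if_neg hh]
      rw [h7, mul_one, neg_add_cancel]
    · have h7 : Mt 1 n π p e w0 c 0 i'.succ = 0 := by
        simp only [Mt, Fin.cases_zero, Fin.cases_succ, if_neg hh]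
      have h3 := h2 (Sum.inl i'.succ) (fun _ h0 => Fin.succ_ne_zero _ (Sum.inl.inj h0))
      rw [NZER.vecMul_apply', hy0, zero_mul, zero_add] at h3
      rw [h7, mul_zero, zero_add, ← h3]
      exact Finset.sum_congr rfl fun i _ => rfl
  funext a
  refine Fin.cases ?_ (fun i => ?_) a
  · exact hy0
  · have h8 := congrFun h6 i.succ
    rw [Fin.cons_succ] at h8
    exact h8

theorem vN_zero (hdet : (Mt 1 n π p e w0 c).det ≠ 0) : vN 1 n π p e r w0 c = 0 := by
  have h1 : VS 1 n π p e r w0 c = ⊥ := by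
    rw [Submodule.eq_bot_iff]
    exact eq_zero n π p e r w0 c hdet
  unfold vN
  rw [h1]
  exact finrank_bot _ _

end NZE1

open NZE1 in
theorem NZE1_thm (hEMAX : EMAX) : Stmt_NZE1 := by
  intro n m k π p e r f _
  let C : ZMod 3 → Type := fun w => {c : Fin m → ZMod 3 // (Mt 1 n π p e w c).det ≠ 0}
  have h1 : 3 * 2 ^ m ≤ Nat.card (Σ w : ZMod 3, C w) := by
    rw [Nat.card_sigma]
    calc 3 * 2 ^ m = ∑ w : ZMod 3, 2 ^ m := by
          rw [Finset.sum_const, Finset.card_univ, smul_eq_mul, ZMod.card]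
      _ ≤ ∑ w : ZMod 3, Nat.card (C w) :=
          Finset.sum_le_sum fun w _ => hEMAX 1 n m π p e w fun h => absurd h (by norm_num)
  refine h1.trans (Nat.card_le_card_of_injective
    (fun x : Σ w : ZMod 3, C w => (⟨(x.1, x.2.1), vN_zero n π p e r _ _ x.2.2⟩ :
      {x : ZMod 3 × (Fin m → ZMod 3) // vN 1 n π p e r x.1 x.2 = 0})) ?_)
  rintro ⟨w1, ⟨c1, hc1⟩⟩ ⟨w2, ⟨c2, hc2⟩⟩ hx
  have h2 := congrArg Subtype.val hx
  obtain ⟨h3, h4⟩ := Prod.ext_iff.1 h2
  change w1 = w2 at h3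
  change c1 = c2 at h4
  subst h3
  subst h4
  rfl

end Pool.Agent.PTN
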