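import Pool.Agent.PTN.StD

/-!
# PTN_SMT: sets of primes covered twice
-/

open NumberField IsDedekindDomain Finset
open scoped nonZeroDivisors Pointwise

namespace Pool.Agent.PTN

namespace SMT

open Pool.Agent.PT Pool.Agent.PT.BDENS

/-- the constant from the terms up to `M` -/
noncomputable def cst (M : ℕ) (c : ℝ) (n : ℕ) : ℝ := if n ∈ Finset.range (M + 1) then c else 0

theorem cst_summable (M : ℕ) (c : ℝ) : Summable (cst M c) :=
  summable_of_ne_finset_zero (s := Finset.range (M + 1)) fun _ hn => if_neg hn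

theorem cst_tsum (M : ℕ) (c : ℝ) : ∑' n, cst M c n = (M + 1 : ℕ) * c := by
  have h : ∑' n, cst M c n = ∑ n ∈ Finset.range (M + 1), cst M c n :=
    tsum_eq_sum (s := Finset.range (M + 1)) fun _ hn => if_neg hn
  have h2 : ∀ n ∈ Finset.range (M + 1), cst M c n = c := fun _ hn => if_pos hn
  rw [h, Finset.sum_congr rfl h2, Finset.sum_const, Finset.card_range, nsmul_eq_mul]

/-- comparison of finite sums of the series term by term -/
theorem compare (M : ℕ) (c : ℝ) (f g : ℕ → ℝ) (hf : Summable f) (hg : Summable g)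
    (h : ∀ n, f n ≤ g n + cst M c n) : ∑' n, f n ≤ ∑' n, g n + (M + 1 : ℕ) * c := by
  rw [← cst_tsum M c, ← hg.tsum_add (cst_summable M c)]
  exact hf.tsum_le_tsum h (hg.add (cst_summable M c))

theorem ind_not_prime {S : Set ℕ} {σ : ℝ} {n : ℕ} (h : ¬ n.Prime) : ind S σ n = 0 :=
  ind_not fun h' => h h'.1

theorem ind_le {S : Set ℕ} {σ : ℝ} {n : ℕ} (h : n.Prime) : ind S σ n ≤ (n : ℝ) ^ (-σ) := by
  by_cases hS : n ∈ S
  · rw [ind_mem h hS]
  · rw [ind_not fun h' => hS h'.2]
    exact Real.rpow_nonneg (Nat.cast_nonneg n) _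

end SMT

open Pool.Agent.PT in
theorem SMT_thm : Stmt_SMT := by
  classical
  intro ι _ S T₁ T₂ T M
  refine ⟨fun H => ?_, fun H1 H2 => ?_, fun H => ?_⟩
  · refine ⟨(M + 1 : ℕ) * 2, fun σ hσ _ => ?_⟩
    rw [BDENS.sm_eq, ← tsum_mul_left]
    simp only [BDENS.sm_eq]
    rw [← Summable.tsum_finsetSum fun i _ => BDENS.ind_summable _ hσ]
    refine SMT.compare M 2 _ _ ((BDENS.ind_summable S hσ).mul_left 2)
      (summable_sum fun i _ => BDENS.ind_summable _ hσ) fun n => ?_
    have h0 : 0 ≤ ∑ i, BDENS.ind (T i) σ n := Finset.sum_nonneg fun i _ => BDENS.ind_nonneg _ _ _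
    by_cases hM : n ∈ Finset.range (M + 1)
    · have h1 := BDENS.ind_le_one (S := S) hσ n
      rw [SMT.cst, if_pos hM]
      linarith
    · rw [SMT.cst, if_neg hM, add_zero]
      by_cases hn : n.Prime ∧ n ∈ S
      · have hM' : M < n := by
          rw [Finset.mem_range] at hM
          omega
        obtain ⟨i, j, hij, hi, hj⟩ := H n hn.1 hM' hn.2
        rw [BDENS.ind_mem hn.1 hn.2]
        have h2 : ∑ k ∈ ({i, j} : Finset ι), BDENS.ind (T k) σ n ≤ ∑ k, BDENS.ind (T k) σ n :=
          Finset.sum_le_sum_of_subset_of_nonneg (Finset.subset_univ _)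
            fun k _ _ => BDENS.ind_nonneg _ _ _
        rw [Finset.sum_pair hij, BDENS.ind_mem hn.1 hi, BDENS.ind_mem hn.1 hj] at h2
        linarith
      · rw [BDENS.ind_not hn, mul_zero]
        exact h0
  · refine ⟨(M + 1 : ℕ) * Fintype.card ι, fun σ hσ _ => ?_⟩
    rw [BDENS.sm_eq S, ← tsum_mul_left]
    simp only [BDENS.sm_eq]
    rw [← Summable.tsum_finsetSum fun i _ => BDENS.ind_summable _ hσ]
    refine SMT.compare M _ _ _ (summable_sum fun i _ => BDENS.ind_summable _ hσ)
      ((BDENS.ind_summable S hσ).mul_left 2) fun n => ?_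
    have h0 : 0 ≤ BDENS.ind S σ n := BDENS.ind_nonneg _ _ _
    by_cases hM : n ∈ Finset.range (M + 1)
    · have h1 : ∑ i, BDENS.ind (T i) σ n ≤ ∑ _i : ι, (1 : ℝ) :=
        Finset.sum_le_sum fun i _ => BDENS.ind_le_one hσ n
      rw [Finset.sum_const, Finset.card_univ, nsmul_eq_mul, mul_one] at h1
      rw [SMT.cst, if_pos hM]
      linarith
    · rw [SMT.cst, if_neg hM, add_zero]
      by_cases hn : n.Prime
      · have hM' : M < n := by
          rw [Finset.mem_range] at hM
          omega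
        by_cases hex : ∃ i, n ∈ T i
        · obtain ⟨i, hi⟩ := hex
          have hS : n ∈ S := H1 n hn hM' i hi
          obtain ⟨i₁, i₂, h12⟩ := H2 n hn hM'
          have h3 : ∑ k, BDENS.ind (T k) σ n = ∑ k ∈ ({i₁, i₂} : Finset ι), BDENS.ind (T k) σ n := by
            symm
            refine Finset.sum_subset (Finset.subset_univ _) fun k _ hk => ?_
            refine BDENS.ind_not fun h' => hk ?_
            rw [Finset.mem_insert, Finset.mem_singleton]
            exact h12 k h'.2
          rw [h3, BDENS.ind_mem hn hS]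
          calc ∑ k ∈ ({i₁, i₂} : Finset ι), BDENS.ind (T k) σ n
              ≤ ∑ _k ∈ ({i₁, i₂} : Finset ι), (n : ℝ) ^ (-σ) :=
                Finset.sum_le_sum fun k _ => SMT.ind_le hn
            _ = (({i₁, i₂} : Finset ι).card : ℝ) * (n : ℝ) ^ (-σ) := by
                rw [Finset.sum_const, nsmul_eq_mul]
            _ ≤ 2 * (n : ℝ) ^ (-σ) := by
                refine mul_le_mul_of_nonneg_right ?_ (Real.rpow_nonneg (Nat.cast_nonneg n) _)
                exact_mod_cast Finset.card_le_two
        · have h4 : ∑ k, BDENS.ind (T k) σ n = 0 :=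
            Finset.sum_eq_zero fun k _ => BDENS.ind_not fun h' => hex ⟨k, h'.2⟩
          rw [h4]
          linarith
      · have h4 : ∑ k, BDENS.ind (T k) σ n = 0 :=
          Finset.sum_eq_zero fun k _ => BDENS.ind_not fun h' => hn h'.1
        rw [h4]
        linarith
  · refine ⟨(M + 1 : ℕ) * 1, fun σ hσ _ => ?_⟩
    rw [BDENS.sm_eq, BDENS.sm_eq, BDENS.sm_eq,
      ← (BDENS.ind_summable T₁ hσ).tsum_add (BDENS.ind_summable T₂ hσ)]
    refine SMT.compare M 1 _ _ (BDENS.ind_summable S hσ)
      ((BDENS.ind_summable T₁ hσ).add (BDENS.ind_summable T₂ hσ)) fun n => ?_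
    have h1 := BDENS.ind_nonneg T₁ σ n
    have h2 := BDENS.ind_nonneg T₂ σ n
    by_cases hM : n ∈ Finset.range (M + 1)
    · have h3 := BDENS.ind_le_one (S := S) hσ n
      rw [SMT.cst, if_pos hM]
      linarith
    · rw [SMT.cst, if_neg hM, add_zero]
      by_cases hn : n.Prime ∧ n ∈ S
      · have hM' : M < n := by
          rw [Finset.mem_range] at hM
          omega
        rw [BDENS.ind_mem hn.1 hn.2]
        rcases H n hn.1 hM' hn.2 with h | h
        · rw [BDENS.ind_mem hn.1 h]
          linarith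
        · rw [BDENS.ind_mem hn.1 h]
          linarith
      · rw [BDENS.ind_not hn]
        linarith

end Pool.Agent.PTN
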