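import Pool.Agent.PTN.StQ

/-!
# TRC: numbers of the same class differ by a cube modulo `9 N`
-/

set_option autoImplicit false

open NumberField IsDedekindDomain Finset
open scoped nonZeroDivisors Pointwise

namespace Pool.Agent.PTN

open Pool.Agent.Lib_helper18 Pool.Agent.Lib_helper18.Eis Pool.Agent.Lib_helper84.Cub
open Pool.Agent.PT Pool.Agent.PTE Pool.Agent.PT3 Pool.Agent.PTL

namespace TRC

/-- the number of the solutions of `x ^ 3 = 1` modulo `f` -/
noncomputable def N3 (f : ℕ) : ℕ := Nat.card {x : (ZMod f)ˣ // x ^ 3 = 1}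

theorem N3_mul {a b : ℕ} (ha : a ≠ 0) (hb : b ≠ 0) (h : a.Coprime b) :
    N3 (a * b) ≤ N3 a * N3 b := by
  have : NeZero a := ⟨ha⟩
  have : NeZero b := ⟨hb⟩
  have : NeZero (a * b) := ⟨mul_ne_zero ha hb⟩
  unfold N3
  rw [← Nat.card_prod]
  let e : (ZMod (a * b))ˣ ≃* (ZMod a)ˣ × (ZMod b)ˣ :=
    (Units.mapEquiv (ZMod.chineseRemainder h).toMulEquiv).trans MulEquiv.prodUnits
  refine Nat.card_le_card_of_injective
    (fun x : {x : (ZMod (a * b))ˣ // x ^ 3 = 1} =>
      ((⟨(e x.1).1, by rw [← Prod.pow_fst, ← map_pow, x.2, map_one, Prod.fst_one]⟩,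
        ⟨(e x.1).2, by rw [← Prod.pow_snd, ← map_pow, x.2, map_one, Prod.snd_one]⟩) :
        {x : (ZMod a)ˣ // x ^ 3 = 1} × {x : (ZMod b)ˣ // x ^ 3 = 1})) ?_
  intro x y hxy
  rw [Prod.ext_iff, Subtype.ext_iff, Subtype.ext_iff] at hxy
  exact Subtype.ext (e.injective (Prod.ext hxy.1 hxy.2))

theorem N3_prod {ι : Type} [DecidableEq ι] (s : Finset ι) (q : ι → ℕ) (hq : ∀ i, q i ≠ 0)
    (hc : ∀ i j, i ≠ j → (q i).Coprime (q j)) : N3 (∏ i ∈ s, q i) ≤ ∏ i ∈ s, N3 (q i) := by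
  induction s using Finset.induction_on with
  | empty =>
    rw [Finset.prod_empty, Finset.prod_empty]
    unfold N3
    have : Subsingleton (ZMod 1) := inferInstance
    have : Subsingleton (ZMod 1)ˣ := inferInstance
    exact Finite.card_le_one_iff_subsingleton.2 inferInstance
  | insert i s hi ih =>
    rw [Finset.prod_insert hi, Finset.prod_insert hi]
    refine (N3_mul (hq i) (Finset.prod_ne_zero_iff.2 fun j _ => hq j) ?_).trans
      (Nat.mul_le_mul_left _ ih)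
    refine Nat.Coprime.prod_right fun j hj => hc i j ?_
    rintro rfl
    exact hi hj

theorem N3_cyc {q : ℕ} (hq : q.Prime) (h2 : q ≠ 2) (j : ℕ) : N3 (q ^ j) ≤ 3 := by
  classical
  have : NeZero (q ^ j) := ⟨pow_ne_zero _ hq.ne_zero⟩
  have hcyc : IsCyclic (ZMod (q ^ j))ˣ := ZMod.isCyclic_units_of_prime_pow q hq h2 j
  unfold N3
  rw [Nat.card_eq_fintype_card, Fintype.card_subtype]
  exact IsCyclic.card_pow_eq_one_le (by norm_num)

theorem N3_one {q : ℕ} (hq : q.Prime) (h2 : q % 3 = 2) {j : ℕ} (hj : 0 < j) :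
    N3 (q ^ j) ≤ 1 := by
  classical
  have : NeZero (q ^ j) := ⟨pow_ne_zero _ hq.ne_zero⟩
  unfold N3
  refine Finite.card_le_one_iff_subsingleton.2 ⟨fun x y => ?_⟩
  have key : ∀ x : {x : (ZMod (q ^ j))ˣ // x ^ 3 = 1}, x.1 = 1 := by
    rintro ⟨x, hx⟩
    have h1 : orderOf x ∣ 3 := orderOf_dvd_of_pow_eq_one hx
    have h3 : orderOf x ∣ (q ^ j).totient := by
      rw [← ZMod.card_units_eq_totient]
      exact orderOf_dvd_card
    rw [Nat.totient_prime_pow hq hj] at h3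
    have hc : Nat.Coprime 3 (q ^ (j - 1) * (q - 1)) := by
      rw [Nat.Prime.coprime_iff_not_dvd Nat.prime_three]
      intro hd
      rcases (Nat.Prime.dvd_mul Nat.prime_three).1 hd with h | h
      · have h4 := Nat.Prime.dvd_of_dvd_pow Nat.prime_three h
        omega
      · omega
    have h4 : orderOf x ∣ 1 := by
      have h5 := Nat.dvd_gcd h1 h3
      rwa [hc] at h5
    exact orderOf_eq_one_iff.1 (Nat.dvd_one.1 h4)
  exact Subtype.ext ((key x).trans (key y).symm)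

/-- the number of the cubes -/
theorem card_cubes (f : ℕ) [NeZero f] (u : (ZMod f)ˣ) :
    f.totient = (Set.range fun x : (ZMod f)ˣ => u * x ^ 3).ncard * N3 f := by
  classical
  let g : (ZMod f)ˣ →* (ZMod f)ˣ := powMonoidHom 3
  have h1 : Nat.card g.ker * g.ker.index = Nat.card (ZMod f)ˣ := Subgroup.card_mul_index _
  rw [Subgroup.index_ker] at h1
  have h2 : Nat.card g.ker = N3 f := rfl
  have h3 : Nat.card g.range = (Set.range fun x : (ZMod f)ˣ => u * x ^ 3).ncard := by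
    have h4 : (Set.range fun x : (ZMod f)ˣ => u * x ^ 3) =
        (fun y => u * y) '' (g.range : Set (ZMod f)ˣ) := by
      ext z
      constructor
      · rintro ⟨x, rfl⟩
        exact ⟨x ^ 3, ⟨x, rfl⟩, rfl⟩
      · rintro ⟨y, ⟨x, rfl⟩, rfl⟩
        exact ⟨x, rfl⟩
    rw [h4, Set.ncard_image_of_injective _ (mul_right_injective u)]
    exact Nat.card_coe_set_eq _
  rw [← ZMod.card_units_eq_totient, ← Nat.card_eq_fintype_card, ← h1, h2, h3, mul_comm]

end TRC

open TRC in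
theorem TRC_thm (hTRU : Stmt_TRU) : Stmt_TRC := by
  classical
  intro h n m k π p e r f hNF u w0 c y hu hy hcop
  obtain ⟨hT1, hT2⟩ := hTRU h n m k π p e r f hNF
  have hp0 : ∀ i, p i ^ e i ≠ 0 := fun i => pow_ne_zero _ (hNF.pp i).ne_zero
  have hr0 : ∀ j, r j ^ f j ≠ 0 := fun j => pow_ne_zero _ (hNF.rp j).ne_zero
  have hn0 : n ≠ 0 := by
    rw [hNF.eq]
    exact mul_ne_zero (Finset.prod_ne_zero_iff.2 fun i _ => hp0 i)
      (Finset.prod_ne_zero_iff.2 fun j _ => hr0 j)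
  have hF0 : 9 * (3 ^ h * n) ≠ 0 := by positivity
  -- the number of the cube roots of unity
  have hN3 : N3 (9 * (3 ^ h * n)) ≤ 3 ^ (m + 1) := by
    have e1 : 9 * (3 ^ h * n) = 3 ^ (h + 2) * ((∏ i, p i ^ e i) * ∏ j, r j ^ f j) := by
      rw [← hNF.eq]
      ring
    rw [e1]
    have cpr : ∀ i j, (p i ^ e i).Coprime (r j ^ f j) := by
      intro i j
      refine Nat.Coprime.pow _ _ ((Nat.coprime_primes (hNF.pp i) (hNF.rp j)).2 fun hh => ?_)
      have a1 := hNF.p1 i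
      have a2 := hNF.r2 j
      rw [hh] at a1
      omega
    have cpp : ∀ i j, i ≠ j → (p i ^ e i).Coprime (p j ^ e j) := fun i j hij =>
      Nat.Coprime.pow _ _ ((Nat.coprime_primes (hNF.pp i) (hNF.pp j)).2
        fun hh => hij (hNF.pinj hh))
    have crr : ∀ i j, i ≠ j → (r i ^ f i).Coprime (r j ^ f j) := fun i j hij =>
      Nat.Coprime.pow _ _ ((Nat.coprime_primes (hNF.rp i) (hNF.rp j)).2
        fun hh => hij (hNF.rinj hh))
    have c3 : Nat.Coprime (3 ^ (h + 2)) ((∏ i, p i ^ e i) * ∏ j, r j ^ f j) := by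
      refine Nat.Coprime.mul_right ?_ ?_
      · refine Nat.Coprime.prod_right fun i _ => Nat.Coprime.pow _ _ ?_
        refine (Nat.coprime_primes Nat.prime_three (hNF.pp i)).2 fun hh => ?_
        have a1 := hNF.p1 i
        rw [← hh] at a1
        omega
      · refine Nat.Coprime.prod_right fun i _ => Nat.Coprime.pow _ _ ?_
        refine (Nat.coprime_primes Nat.prime_three (hNF.rp i)).2 fun hh => ?_
        have a1 := hNF.r2 i
        rw [← hh] at a1
        omega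
    have cprod : Nat.Coprime (∏ i, p i ^ e i) (∏ j, r j ^ f j) :=
      Nat.Coprime.prod_left fun i _ => Nat.Coprime.prod_right fun j _ => cpr i j
    have b1 : N3 (3 ^ (h + 2)) ≤ 3 := N3_cyc Nat.prime_three (by norm_num) _
    have b2 : N3 (∏ i, p i ^ e i) ≤ 3 ^ m := by
      refine (N3_prod univ _ hp0 cpp).trans ?_
      refine (Finset.prod_le_prod' fun i _ => N3_cyc (hNF.pp i) ?_ (e i)).trans ?_
      · intro hh
        have a1 := hNF.p1 i
        rw [hh] at a1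
        omega
      · rw [Finset.prod_const, Finset.card_univ, Fintype.card_fin]
    have b3 : N3 (∏ j, r j ^ f j) ≤ 1 := by
      refine (N3_prod univ _ hr0 crr).trans ?_
      refine (Finset.prod_le_prod' fun j _ => N3_one (hNF.rp j) (hNF.r2 j) ?_).trans ?_
      · rcases hNF.rf j with hh | hh <;> omega
      · rw [Finset.prod_const_one]
    have hA0 : (∏ i, p i ^ e i) ≠ 0 := Finset.prod_ne_zero_iff.2 fun i _ => hp0 i
    have hB0 : (∏ j, r j ^ f j) ≠ 0 := Finset.prod_ne_zero_iff.2 fun j _ => hr0 j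
    calc N3 (3 ^ (h + 2) * ((∏ i, p i ^ e i) * ∏ j, r j ^ f j))
        ≤ N3 (3 ^ (h + 2)) * N3 ((∏ i, p i ^ e i) * ∏ j, r j ^ f j) :=
          N3_mul (by positivity) (mul_ne_zero hA0 hB0) c3
      _ ≤ 3 * (3 ^ m * 1) := by
          refine Nat.mul_le_mul b1 ((N3_mul hA0 hB0 cprod).trans (Nat.mul_le_mul b2 b3))
      _ = 3 ^ (m + 1) := by ring
  have : NeZero (9 * (3 ^ h * n)) := ⟨hF0⟩
  -- the class of `u`
  let S : Set (ZMod (9 * (3 ^ h * n)))ˣ :=
    {v | Kl π w0 c (((v : ZMod (9 * (3 ^ h * n))).val : ℕ) : ℤ)}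
  let C : Set (ZMod (9 * (3 ^ h * n)))ˣ := Set.range fun x => u * x ^ 3
  have hCS : C ⊆ S := by
    rintro _ ⟨x, rfl⟩
    refine hT2 u w0 c _ (((x : ZMod (9 * (3 ^ h * n))).val : ℕ) : ℤ) hu ?_ ?_
    · exact Nat.isCoprime_iff_coprime.2 (ZMod.val_coe_unit_coprime _)
    · rw [← ZMod.intCast_zmod_eq_zero_iff_dvd]
      push_cast
      rw [ZMod.natCast_zmod_val, ZMod.natCast_zmod_val, ZMod.natCast_zmod_val, sub_self]
  have hcard : S.ncard ≤ C.ncard := by
    have h1 : S.ncard * 3 ^ (m + 1) = (9 * (3 ^ h * n)).totient := by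
      rw [← Nat.card_coe_set_eq]
      exact hT1 w0 c
    have h2 := card_cubes (9 * (3 ^ h * n)) u
    have h3 : S.ncard * 3 ^ (m + 1) ≤ C.ncard * 3 ^ (m + 1) := by
      rw [h1, h2]
      exact Nat.mul_le_mul_left _ hN3
    exact Nat.le_of_mul_le_mul_right h3 (by positivity)
  have hCSeq : C = S := Set.eq_of_subset_of_ncard_le hCS hcard S.toFinite
  -- the unit of `y`
  obtain ⟨Y, hY⟩ : IsUnit ((y : ℤ) : ZMod (9 * (3 ^ h * n))) :=
    (ZMod.coe_int_isUnit_iff_isCoprime _ _).2 hcop.symm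
  have hYS : Y ∈ S := by
    obtain ⟨g1, g2⟩ := hT2 Y (wt ((((Y : ZMod (9 * (3 ^ h * n))).val : ℕ) : ℤ) ^ 2))
      (fun i => sym (π i).1 ((((Y : ZMod (9 * (3 ^ h * n))).val : ℕ) : ℤ) : Eis)) y 1
      ⟨rfl, fun i => rfl⟩ hcop (by
        rw [← ZMod.intCast_zmod_eq_zero_iff_dvd]
        push_cast
        rw [ZMod.natCast_zmod_val, hY, mul_one, sub_self])
    exact ⟨g1.symm.trans hy.1, fun i => (g2 i).symm.trans (hy.2 i)⟩
  rw [← hCSeq] at hYS
  obtain ⟨x, hx⟩ := hYS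
  refine ⟨(((x : ZMod (9 * (3 ^ h * n))).val : ℕ) : ℤ), ?_⟩
  rw [← ZMod.intCast_zmod_eq_zero_iff_dvd]
  push_cast
  rw [ZMod.natCast_zmod_val, ZMod.natCast_zmod_val, ← hY, ← hx, sub_eq_zero]
  push_cast
  rfl

end Pool.Agent.PTN
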