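import Pool.Agent.PTN.StF
import Pool.Agent.PT.CLSC
import Pool.Agent.PTE.Stmts
import Pool.Agent.PTL.FIN

/-!
# TRU: the units modulo `9 N` and the classes
-/

set_option autoImplicit false

open NumberField IsDedekindDomain Finset
open scoped nonZeroDivisors Pointwise

namespace Pool.Agent.PTN

open Pool.Agent.Lib_helper18 Pool.Agent.Lib_helper18.Eis Pool.Agent.Lib_helper84.Cub
open Pool.Agent.PT Pool.Agent.PTE Pool.Agent.PT3 Pool.Agent.PTL

namespace TRU

theorem f_pos {n m k : ℕ} {π : Fin m → PP} {p e : Fin m → ℕ} {r f : Fin k → ℕ}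
    (hNF : NF n π p e r f) : 0 < n := by
  rw [hNF.eq]
  exact Nat.mul_pos (Finset.prod_pos fun i _ => pow_pos (hNF.pp i).pos _)
    (Finset.prod_pos fun j _ => pow_pos (hNF.rp j).pos _)

/-- the class of a unit is the value of `κ` -/
theorem kl_iff {f m : ℕ} [NeZero f] (π : Fin m → PP)
    (κ : (ZMod f)ˣ →* Multiplicative (Fin (m + 1) → ZMod 3))
    (hκ : ∀ (Q : ℕ) (hQ : Q.Coprime f), (κ (ZMod.unitOfCoprime Q hQ)).toAdd =
      Fin.cons (wt ((Q : ℤ) ^ 2)) (fun i => sym (π i).1 (Q : Eis)))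
    (u : (ZMod f)ˣ) (w0 : ZMod 3) (c : Fin m → ZMod 3) :
    Kl π w0 c (((u : ZMod f).val : ℕ) : ℤ) ↔
      (κ u).toAdd = (Fin.cons w0 c : Fin (m + 1) → ZMod 3) := by
  have hu : ZMod.unitOfCoprime (u : ZMod f).val (ZMod.val_coe_unit_coprime u) = u := by
    ext
    rw [ZMod.coe_unitOfCoprime, ZMod.natCast_zmod_val]
  have h1 := hκ (u : ZMod f).val (ZMod.val_coe_unit_coprime u)
  rw [hu] at h1
  rw [h1]
  unfold Kl
  constructor
  · rintro ⟨a, b⟩
    rw [← a]
    congr 1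
    funext i
    rw [← b i]
    push_cast
    rfl
  · intro H
    have h2 := congrFun H 0
    rw [Fin.cons_zero, Fin.cons_zero] at h2
    refine ⟨h2, fun i => ?_⟩
    have h3 := congrFun H i.succ
    rw [Fin.cons_succ, Fin.cons_succ] at h3
    rw [← h3]
    push_cast
    rfl

/-- every unit is `1` or `2` modulo `3` -/
theorem val_mod {f : ℕ} [NeZero f] (h3 : 3 ∣ f) (u : (ZMod f)ˣ) :
    (u : ZMod f).val % 3 = 1 ∨ (u : ZMod f).val % 3 = 2 := by
  have h1 := ZMod.val_coe_unit_coprime u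
  have h2 : ¬ 3 ∣ (u : ZMod f).val := by
    intro h
    have := Nat.Coprime.eq_one_of_dvd (h1.coprime_dvd_left h) h3
    omega
  omega

theorem card_split {f : ℕ} [NeZero f] (h3 : 3 ∣ f) (P : (ZMod f)ˣ → Prop) :
    Nat.card {a : (ZMod f)ˣ // P a} =
      Nat.card {a : (ZMod f)ˣ // M2 a ∧ P a} + Nat.card {a : (ZMod f)ˣ // M1 a ∧ P a} := by
  classical
  rw [Nat.card_eq_fintype_card, Nat.card_eq_fintype_card, Nat.card_eq_fintype_card,
    Fintype.card_subtype, Fintype.card_subtype, Fintype.card_subtype, ← Finset.card_union_of_disjoint]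
  · congr 1
    ext a
    simp only [Finset.mem_filter, Finset.mem_univ, true_and, Finset.mem_union]
    constructor
    · intro h
      rcases val_mod h3 a with h' | h'
      · exact Or.inr ⟨h', h⟩
      · exact Or.inl ⟨h', h⟩
    · rintro (h | h)
      · exact h.2
      · exact h.2
  · rw [Finset.disjoint_left]
    intro a ha hb
    simp only [Finset.mem_filter, Finset.mem_univ, true_and] at ha hb
    have h1 : (a : ZMod f).val % 3 = 2 := ha.1
    have h2 : (a : ZMod f).val % 3 = 1 := hb.1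
    omega

end TRU

open TRU in
theorem TRU_thm (hCLSC : CLSC) (hCLSCS : CLSCS) (hSPP : SPP) : Stmt_TRU := by
  intro h n m k π p e r f hNF
  have hn : 0 < n := f_pos hNF
  have hF0 : 0 < 9 * (3 ^ h * n) := by positivity
  have : NeZero (9 * (3 ^ h * n)) := ⟨hF0.ne'⟩
  have h9 : 9 ∣ 9 * (3 ^ h * n) := ⟨_, rfl⟩
  have h3 : 3 ∣ 9 * (3 ^ h * n) := (by norm_num : 3 ∣ 9).trans h9
  have hpn : ∀ i, p i ∣ n := by
    intro i
    rw [hNF.eq]
    refine Dvd.dvd.mul_right ?_ _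
    refine (dvd_pow_self _ ?_).trans (Finset.dvd_prod_of_mem _ (Finset.mem_univ i))
    rcases hNF.pe i with hh | hh <;> omega
  have hpf : ∀ i, p i ∣ 9 * (3 ^ h * n) := fun i =>
    ((hpn i).mul_left _).mul_left _
  constructor
  · intro w0 c
    obtain ⟨κ, hκ, hc2⟩ := hCLSC m π p hNF.pp hNF.p1 hNF.pπ hNF.pinj _ hF0 h9 hpf
    have hc1 := hCLSCS _ m κ hF0 h9 hc2
    have e1 : Nat.card {u : (ZMod (9 * (3 ^ h * n)))ˣ //
        Kl π w0 c (((u : ZMod (9 * (3 ^ h * n))).val : ℕ) : ℤ)} =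
        Nat.card {u : (ZMod (9 * (3 ^ h * n)))ˣ //
          (κ u).toAdd = (Fin.cons w0 c : Fin (m + 1) → ZMod 3)} :=
      Nat.card_congr (Equiv.subtypeEquivRight fun u => kl_iff π κ hκ u w0 c)
    rw [e1, card_split h3]
    have a1 := hc1 (Fin.cons w0 c)
    have a2 := hc2 (Fin.cons w0 c)
    set A := Nat.card {a : (ZMod (9 * (3 ^ h * n)))ˣ //
      M1 a ∧ (κ a).toAdd = (Fin.cons w0 c : Fin (m + 1) → ZMod 3)}
    set B := Nat.card {a : (ZMod (9 * (3 ^ h * n)))ˣ //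
      M2 a ∧ (κ a).toAdd = (Fin.cons w0 c : Fin (m + 1) → ZMod 3)}
    have : (B + A) * 3 ^ (m + 1) * 2 = (9 * (3 ^ h * n)).totient * 2 := by
      calc (B + A) * 3 ^ (m + 1) * 2 = B * (2 * 3 ^ (m + 1)) + A * (2 * 3 ^ (m + 1)) := by ring
        _ = _ := by rw [a1, a2]; ring
    omega
  · intro u w0 c y x hu hy hd
    set U : ℤ := (((u : ZMod (9 * (3 ^ h * n))).val : ℕ) : ℤ) with hU
    have hUc : IsCoprime U ((9 * (3 ^ h * n) : ℕ) : ℤ) :=
      Nat.isCoprime_iff_coprime.2 (ZMod.val_coe_unit_coprime u)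
    -- `U x ^ 3` is prime to `9 N`
    have hUx : IsCoprime (U * x ^ 3) ((9 * (3 ^ h * n) : ℕ) : ℤ) := by
      obtain ⟨t, ht⟩ := hd
      have : U * x ^ 3 = y + ((9 * (3 ^ h * n) : ℕ) : ℤ) * (-t) := by linarith
      rw [this]
      exact (IsCoprime.add_mul_left_left_iff).2 hy
    have hxc : IsCoprime x ((9 * (3 ^ h * n) : ℕ) : ℤ) := by
      have := IsCoprime.of_mul_left_right hUx
      exact (IsCoprime.pow_left_iff (by norm_num)).1 this
    have h9d : (9 : ℤ) ∣ ((9 * (3 ^ h * n) : ℕ) : ℤ) := by exact_mod_cast h9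
    have h3d : (3 : ℤ) ∣ ((9 * (3 ^ h * n) : ℕ) : ℤ) := by exact_mod_cast h3
    have n3 : ∀ z : ℤ, IsCoprime z ((9 * (3 ^ h * n) : ℕ) : ℤ) → ¬ (3 : ℤ) ∣ z := by
      intro z hz h3z
      have := (IsCoprime.of_isCoprime_of_dvd_left hz h3z).isUnit_of_dvd' (dvd_refl _) h3d
      exact absurd this (by decide)
    have np : ∀ (i : Fin m) (z : ℤ), IsCoprime z ((9 * (3 ^ h * n) : ℕ) : ℤ) →
        ¬ (p i : ℤ) ∣ z := by
      intro i z hz hpz
      have h1 : (p i : ℤ) ∣ ((9 * (3 ^ h * n) : ℕ) : ℤ) := by exact_mod_cast hpf i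
      have := (IsCoprime.of_isCoprime_of_dvd_left hz hpz).isUnit_of_dvd' (dvd_refl _) h1
      exact (Nat.prime_iff_prime_int.1 (hNF.pp i)).not_isUnit this
    obtain ⟨hw, hs⟩ := hu
    constructor
    · rw [← hw]
      have e1 : wt (y ^ 2) = wt ((U * x ^ 3) ^ 2) := by
        apply CLSC.wt_congr
        have : y ^ 2 - (U * x ^ 3) ^ 2 = (y - U * x ^ 3) * (y + U * x ^ 3) := by ring
        rw [this]
        exact Dvd.dvd.mul_right (h9d.trans hd) _
      have e2 : (U * x ^ 3) ^ 2 = U ^ 2 * (x ^ 2 * (x ^ 2 * x ^ 2)) := by ring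
      have hx2 := sq_mod_three (n3 x hxc)
      have hU2 := sq_mod_three (n3 U hUc)
      have m1 : ∀ a b : ℤ, a % 3 = 1 → b % 3 = 1 → (a * b) % 3 = 1 := by
        intro a b ha hb
        rw [Int.mul_emod, ha, hb]
        rfl
      rw [e1, e2, wt_mul hU2 (m1 _ _ hx2 (m1 _ _ hx2 hx2)), wt_mul hx2 (m1 _ _ hx2 hx2),
        wt_mul hx2 hx2]
      generalize wt (U ^ 2) = a
      generalize wt (x ^ 2) = b
      revert a b
      decide
    · intro i
      rw [← hs i]
      have : Fact (p i).Prime := ⟨hNF.pp i⟩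
      have hnm := CLSC.norm_of _ _ (hNF.pπ i)
      have hπ3 := (hSPP.2.2.2.1 (π i)).1
      have hU' : ¬ (π i).1 ∣ (U : Eis) := by
        rw [dvd_intCast_iff hnm]
        exact np i U hUc
      have hx' : ¬ (π i).1 ∣ (x : Eis) := by
        rw [dvd_intCast_iff hnm]
        exact np i x hxc
      have e1 : sym (π i).1 (y : Eis) = sym (π i).1 ((U : Eis) * (x : Eis) ^ 3) := by
        apply sym_congr
        have h1 : (p i : ℤ) ∣ y - U * x ^ 3 := by
          have h2 : (p i : ℤ) ∣ ((9 * (3 ^ h * n) : ℕ) : ℤ) := by exact_mod_cast hpf i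
          exact h2.trans hd
        obtain ⟨t, ht⟩ := h1
        have e : (y : Eis) - (U : Eis) * (x : Eis) ^ 3 = (p i : Eis) * (t : Eis) := by
          have : ((y - U * x ^ 3 : ℤ) : Eis) = (((p i : ℤ) * t : ℤ) : Eis) := by rw [ht]
          push_cast at this
          exact this
        rw [e, hNF.pπ i]
        exact ⟨conj (π i).1 * t, by ring⟩
      have hx3 : ¬ (π i).1 ∣ (x : Eis) ^ 3 := fun hh => hx' ((π i).2.1.dvd_of_dvd_pow hh)
      rw [e1, sym_mul (π i).2.1 hπ3 hU' hx3, sym_pow (π i).2.1 hπ3 hx']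
      generalize sym (π i).1 (U : Eis) = a
      generalize sym (π i).1 (x : Eis) = b
      revert a b
      decide

end Pool.Agent.PTN
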