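import Pool.Agent.PT3.Final
import Pool.Agent.PTL.MAIN
import Pool.Agent.PTN.KEX
import Pool.Agent.PTN.KEQ
import Pool.Agent.PTN.KEMB
import Pool.Agent.PTN.KOM
import Pool.Agent.PTN.KAD
import Pool.Agent.PTN.KKE
import Pool.Agent.PTN.KIX
import Pool.Agent.PTN.KMI
import Pool.Agent.PTN.KPL
import Pool.Agent.PTN.KID
import Pool.Agent.PTN.NDIM
import Pool.Agent.PTN.NSUM
import Pool.Agent.PTN.NZER
import Pool.Agent.PTN.NVEC
import Pool.Agent.PTN.NBAS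
import Pool.Agent.PTN.NHPT
import Pool.Agent.PTN.NADT
import Pool.Agent.PTN.NADU
import Pool.Agent.PTN.NKIN
import Pool.Agent.PTN.NPSI
import Pool.Agent.PTN.NPSU
import Pool.Agent.PTN.NPLU
import Pool.Agent.PTN.NBKN
import Pool.Agent.PTN.NBKU
import Pool.Agent.PTN.NBK0
import Pool.Agent.PTN.BDG
import Pool.Agent.PTN.GFRU
import Pool.Agent.PTN.GALDU
import Pool.Agent.PTN.EQX
import Pool.Agent.PTN.BDU
import Pool.Agent.PTN.BDL
import Pool.Agent.PTN.CLT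
import Pool.Agent.PTN.SMT
import Pool.Agent.PTN.CLN
import Pool.Agent.PTN.DLU
import Pool.Agent.PTN.DLL
import Pool.Agent.PTN.CLU
import Pool.Agent.PTN.DOMG
import Pool.Agent.PTN.LAW
import Pool.Agent.PTN.CAB
import Pool.Agent.PTN.CBE
import Pool.Agent.PTN.SUMA
import Pool.Agent.PTN.TRU
import Pool.Agent.PTN.NFE
import Pool.Agent.PTN.NSU1
import Pool.Agent.PTN.NZE1
import Pool.Agent.PTN.NZE0
import Pool.Agent.PTN.TRC
import Pool.Agent.PTN.ALLQ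
import Pool.Agent.PTN.MAINQ

/-!
# The law of the ranks of prime twists for every `n`: assembly
-/

namespace Pool.Agent.PTN.Final

open Pool.Agent.PT Pool.Agent.PT.Final Pool.Agent.PT.FinalB Pool.Agent.PTE Pool.Agent.PTE.Final
open Pool.Agent.PT3 Pool.Agent.PT3.Final Pool.Agent.PTN

theorem fKEX : Stmt_KEX := KEX_thm

theorem fKEQ : Stmt_KEQ := KEQ_thm

theorem fKEMB : Stmt_KEMB := KEMB_thm

theorem fKOM : Stmt_KOM := KOM_thm fKEQ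

theorem fKAD : Stmt_KAD := KAD_thm fKEQ

theorem fKKE : Stmt_KKE := KKE_thm fKEQ

theorem fKIX : Stmt_KIX := KIX_thm

theorem fKMI : Stmt_KMI := KMI_thm fKEQ

theorem fKPL : Stmt_KPL := KPL_thm fKEQ

theorem fKID : Stmt_KID := KID_thm fKEX fKEQ fKEMB fKOM fKAD fKKE fKIX fKMI fKPL

theorem fNDIM : Stmt_NDIM := NDIM_thm

theorem fNSUM : Stmt_NSUM := NSUM_thm

theorem fNZER : Stmt_NZER := NZER_thm fEMAX

theorem fNVEC : Stmt_NVEC := NVEC_thm fEVET fSPP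

theorem fNBAS : Stmt_NBAS := NBAS_thm fNVEC fEVET fSPP fLPT fLCL

theorem fNHPT : Stmt_NHPT := NHPT_thm fNVEC fEVET fSTM fSPP fLPT fLCL

theorem fNADT : Stmt_NADT := NADT_thm fSTM fSPP fSCJ fLCL

theorem fNADU : Stmt_NADU := NADU_thm fSTM fSPP fSCJ fSPLT fLCL

theorem fNKIN : Stmt_NKIN := NKIN_thm fSTM fSPP fSTAR fSLC fSSL fSCJ fLCL

theorem fNPSI : Stmt_NPSI := NPSI_thm fSTM fSPP fSSL fSLC fSREC fSCJ fLCI fLCL

theorem fNPSU : Stmt_NPSU := NPSU_thm fNVEC fSTM fSPP fSSL fSLC fSREC fSCJ fLCI fSPLT fLCL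

theorem fNPLU : Stmt_NPLU := NPLU_thm fSTM fSPP fLCL

theorem fNBKN : Stmt_NBKN := NBKN_thm fKID fNPSI fNKIN fNADT fNPLU fTENT fSPP

theorem fNBKU : Stmt_NBKU := NBKU_thm fKID fNPSU fNKIN fNADU fNPLU fTENT

theorem fNBK0 : Stmt_NBK0 := NBK0_thm fKID fNPSU fNKIN fNADU fNPLU fNVEC fSPP fSPLT

theorem fBDG : Stmt_BDG := BDG_thm fGALG fEQD fDIR

theorem fGFRU : Stmt_GFRU := GFRU_thm fSPLT fSPP

theorem fGALDU : Stmt_GALDU := GALDU_thm fGZEROG fGCHI fGCG fGKUM fGTS fGFRU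

theorem fEQX : Stmt_EQX := EQX_thm

theorem fBDU : Stmt_BDU := BDU_thm fGALDU fEQX fDIR

theorem fBDL : Stmt_BDL := BDL_thm fGALDU fSPLT

theorem fCLT : Stmt_CLT := CLT_thm fDIR fCLSC fCLSCS

theorem fSMT : Stmt_SMT := SMT_thm

theorem fCLN : Stmt_CLN := CLN_thm fNBAS fESYT fDCOT fCLSC fNBKN fBDG fTENT fNADT

theorem fDLU : Stmt_DLU := DLU_thm fESYT fDCOU fCLSC fCLSCS fNBKU fBDU fTENT fNADU fSPLT

theorem fDLL : Stmt_DLL := DLL_thm fESYT fCLSC fCLSCS fBDL fSPLT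

theorem fCLU : Stmt_CLU := CLU_thm fNHPT fDLU fDLL fCLT fSMT fNBK0 fSPLT

theorem fDOMG : Stmt_DOMG := DOMG_thm

theorem fLAW : Stmt_LAW := LAW_thm

theorem fCAB : Stmt_CAB := CAB_thm fSPP fCLN fCLU fDOMG fLAW

theorem fCBE : Stmt_CBE := CBE_thm fCLN fCLU fCLT fSPP

theorem fSUMA : Stmt_SUMA := SUMA_thm

theorem fTRU : Stmt_TRU := TRU_thm fCLSC fCLSCS fSPP

theorem fNFE : Stmt_NFE := NFE_thm fENF

theorem fNSU1 : Stmt_NSU1 := NSU1_thm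

theorem fNZE1 : Stmt_NZE1 := NZE1_thm fEMAX

theorem fNZE0 : Stmt_NZE0 := NZE0_thm fEDC

theorem fTRC : Stmt_TRC := TRC_thm fTRU

theorem fALLQ : Stmt_ALLQ := ALLQ_thm fCAB fCBE fLAW fSUMA fNDIM fNSUM fNZER fNSU1 fNZE1

theorem fMAINQ : Stmt_MAINQ := MAINQ_thm fNFE fNDIM fNSUM fNZER fNSU1 fNZE1 fNZE0 fCAB fCBE fLAW fALLQ fTRU fTRC fCLN fCLU fSUMA

end Pool.Agent.PTN.Final
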