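import Pool.Agent.PTN.StA
import Pool.Agent.PTN.StD
import Pool.Agent.PTL.Defs
import Pool.Agent.CubeRank.AvgFinal

/-!
# The law of the ranks of prime twists for every `n`: the classes and the final theorems

Everything in `PT`, `PTE`, `PT3`, `PTL` is proved and may be imported or taken as a hypothesis; the
statements of StG, StA, StD may be hypotheses.
-/

set_option autoImplicit false

open NumberField IsDedekindDomain Finset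
open scoped nonZeroDivisors Pointwise

namespace Pool.Agent.PTN

open Pool.Agent.Lib_helper18 Pool.Agent.Lib_helper18.Eis Pool.Agent.Lib_helper84.Cub
open Pool.Agent.PT Pool.Agent.PTE Pool.Agent.PT3 Pool.Agent.PTL

/-- the primes `q = a (mod 3)` with `q^E` in the class `(w0, c)` and rank at least `t` -/
def WR (h n : ℕ) {m : ℕ} (π : Fin m → PP) (w0 : ZMod 3) (c : Fin m → ZMod 3) (a E t : ℕ) :
    Set ℕ := {q : ℕ | q % 3 = a ∧ InCT E π w0 c q ∧ t ≤ CubeRank.rr (BB h n E q)}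

/-- the probability that the kernel of a skew-symmetric `s × s` matrix has dimension at least `t` -/
noncomputable def LI (s t : ℕ) : ℝ := (NK s t : ℝ) / Nat.card (Fin s → Fin s → ZMod 3)

/-- the bound for the tail of the distribution of the rank, `q = 1 (mod 3)` -/
noncomputable def LS (s v t : ℕ) : ℝ :=
  (1 - 1 / 3 ^ s) * LI (s - 1) (t - v) + 1 / 3 ^ s * (if t ≤ v + s + 1 then 1 else 0)

/-! ### Classes, `q = 2 (mod 3)` -/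

/-- PTN_CLN: the distribution of the rank in a class, `q = 2 (mod 3)`.
Proof. As `CLE_thm` in PTL/CL.lean. `s, τ, b, X, Y` from `NBAS`, `P Q P' Q'` from `ESYT`
(`AdN` implies `AdC`), `C`, `Φ` from `DCOT` for `N = 3 ^ h * n` and all pairs `j ≠ i`
(`(N : ℤ) * q ^ E = BB h n E q`), conductor `F = 9 (∏ p i) ∏ f₀ j i`, `κ` from `CLSC`. For `q` prime,
`q > M`, `q % 3 = 2`, `InCT E π w0 c q`: `NBKN` gives `GenBy B (vN + (s - rank M))`, `M = MaT ..`, so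
`rr B ≤ vN + (s - rank M)` (`CubeRank.rr_le`); `M` is alternating (`TENT`; `AG B (b i)` from `NADT`) with
entries from `DCOT`, `M = alt (C + E (Φ - τ))`. So `t ≤ rr B` implies
`t - vN ≤ s - rank M`, and `q` is in `SP`, resp. `SM`, for `t - vN` (for `E = 2` the class of `q` is
`-(w0, c)`). `BDG`. First part: `GenBy B d` for `d ≤ d'` implies `GenBy B d'` (`card ≤`).
`Fin.cons w0 c` is the class. -/
def Stmt_CLN : Prop := ∀ (h n m k : ℕ) (π : Fin m → PP) (p e : Fin m → ℕ) (r f : Fin k → ℕ)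
  (w0 : ZMod 3) (c : Fin m → ZMod 3), NF n π p e r f → h ≤ 2 →
  (∃ M : ℕ, ∀ E q : ℕ, (E = 1 ∨ E = 2) → q.Prime → M < q → q % 3 = 2 → InCT E π w0 c q →
    CubeRank.GenBy (BB h n E q) (vN h n π p e r w0 c + sN h n π p e r w0 c)) ∧
  ∀ t : ℕ, ∃ K : ℝ, ∀ σ : ℝ, 1 < σ → σ ≤ 2 →
    BDENS.sm (WR h n π w0 c 2 1 t) σ + BDENS.sm (WR h n π w0 c 2 2 t) σ ≤
      LI (sN h n π p e r w0 c) (t - vN h n π p e r w0 c) / 3 ^ (m + 1) *
        Real.log (1 / (σ - 1)) + K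

/-! ### Classes, `q = 1 (mod 3)` -/

/-- the conclusion of `NHPT` for the basis `v` -/
def HB (h n : ℕ) {m : ℕ} (π : Fin m → PP) (w0 : ZMod 3) (c : Fin m → ZMod 3) {d : ℕ}
    (v : Fin d → ℤ) : Prop :=
  (∀ i, AdN h n π w0 c (v i)) ∧
    (∀ x : ℤ, AdN h n π w0 c x → ∃ (g : Fin d → ℕ) (u t : ℤ), u ≠ 0 ∧ t ≠ 0 ∧
      x * u ^ 3 = (∏ i, v i ^ g i) * t ^ 3) ∧
    ∀ δ : Fin d → ZMod 3, δ ≠ 0 → ∃ (s : ℕ) (τ : Fin s → Fin 3) (b : Fin (s + 1) → ℤ)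
      (X Y : Fin s → ℤ), s + 1 = d ∧
      (∀ i, AdN h n π w0 c (b i)) ∧ (∀ i (π : PP), V π.1 (b i : Eis) ≤ 2) ∧
      (∀ g : Fin (s + 1) → ℕ, (∃ i, ¬ 3 ∣ g i) → ¬ ∃ t : ℤ, t ^ 3 = ∏ i, b i ^ g i) ∧
      (∀ i j, i ≠ j → ¬ (3 : ℤ) ∣ b i ∨ ¬ (3 : ℤ) ∣ b j) ∧
      (∀ B : ℤ, TyB h n w0 B → LamS B τ (rv b) X Y) ∧
      ∀ ρ : PP, ¬ ρ.1 ∣ (n : Eis) →
        (((∀ i : Fin s, sym ρ.1 (b i.castSucc : Eis) = 0) ∧
          sym ρ.1 (b (Fin.last s) : Eis) ≠ 0) ↔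
          ∃ ε : ZMod 3, ε ≠ 0 ∧ ∀ i, sym ρ.1 (v i : Eis) = ε * δ i) ∧
        ((∀ i : Fin s, sym ρ.1 (b i.castSucc : Eis) = 0) →
          sym ρ.1 (b (Fin.last s) : Eis) ≠ 0 →
          ∀ x : ℤ, AdN h n π w0 c x → sym ρ.1 (x : Eis) = 0 → ∃ (g : Fin s → ℕ) (u t : ℤ),
            u ≠ 0 ∧ t ≠ 0 ∧ x * u ^ 3 = (∏ i, b i.castSucc ^ g i) * t ^ 3)

/-- the primes whose pattern is `± δ` -/
def Pat {d : ℕ} (v : Fin d → ℤ) (δ : Fin d → ZMod 3) : Set ℕ :=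
  {q : ℕ | ∃ ρ : PP, (q : Eis) = ρ.1 * conj ρ.1 ∧
    ∃ ε : ZMod 3, ε ≠ 0 ∧ ∀ i, sym ρ.1 (v i : Eis) = ε * δ i}

/-- PTN_DLU: the distribution of the rank for a given pattern, upper bound.
Proof. `b, τ, X, Y` from `HB` for `δ`; `P Q P' Q'` from `ESYT` for `b` (`AdN` implies `AdC`);
`C`, `Φ`, `N₀` from `DCOU` for `N = 3 ^ h * n` and all pairs `j ≠ i` of `Fin s` (classes `rv b`, numbers
`rs P`, …), conductor `F = 9 (∏ p i) ∏ f₀ j i`, `κ` from `CLSC`, the hypothesis of `BDU` from `CLSCS`.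
For `q` prime, `q > M`, in `WR h n π w0 c 1 E t ∩ Pat v δ`: take `ρ` from `Pat`; `ρ ∤ n`; so
`(b i.castSucc)` have `sym ρ = 0`, `sym ρ (b last) ≠ 0` (`HB`). `NBKU` gives
`rr B ≤ vN + (s - rank M)`, and `M = MaT (rv b) ..` is alternating (`TENT`, `AG B (b i.castSucc)` from
`NADU`; `rv b, rs P, …` is a `SysG` with `SwS`, see `PT3/ECLU.lean`) with entries from `DCOU`:
`M = alt (C + E (Φ + τ))` (a root `r` with `q ∣ r ^ 3 - b j.castSucc` exists by `SPLT`). So `q` is in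
`SPU`, resp. `SMU`, for `t - vN`. `BDU`. `2 / 3 ^ (s + 1) = 2 / 3 ^ d`. -/
def Stmt_DLU : Prop := ∀ (h n m k : ℕ) (π : Fin m → PP) (p e : Fin m → ℕ) (r f : Fin k → ℕ)
  (w0 : ZMod 3) (c : Fin m → ZMod 3) (d : ℕ) (v : Fin d → ℤ), NF n π p e r f → h ≤ 2 →
  HB h n π w0 c v → ∀ (δ : Fin d → ZMod 3), δ ≠ 0 → ∀ t : ℕ,
  ∃ K : ℝ, ∀ σ : ℝ, 1 < σ → σ ≤ 2 →
    BDENS.sm (WR h n π w0 c 1 1 t ∩ Pat v δ) σ + BDENS.sm (WR h n π w0 c 1 2 t ∩ Pat v δ) σ ≤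
      2 / 3 ^ d * LI (d - 1) (t - vN h n π p e r w0 c) / 3 ^ (m + 1) *
        Real.log (1 / (σ - 1)) + K

/-- PTN_DLL: the number of the primes of a given pattern, lower bound.
Proof. `b` from `HB` for `δ`, `P Q P' Q'` from `ESYT`, `f = 9 ∏ p i`, `κ` from `CLSC`; `BDL`. For a prime
`q` (large) with `ClQ b κ (w0, c) q hQ ρ`: `ρ ∤ n`, `HB` gives the pattern, the class of `q` is
`(w0, c)`, so `q ∈ WR h n π w0 c 1 1 0 ∩ Pat v δ`; with `-(w0, c)`: `q ∈ WR h n π w0 c 1 2 0 ∩ Pat v δ`. -/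
def Stmt_DLL : Prop := ∀ (h n m k : ℕ) (π : Fin m → PP) (p e : Fin m → ℕ) (r f : Fin k → ℕ)
  (w0 : ZMod 3) (c : Fin m → ZMod 3) (d : ℕ) (v : Fin d → ℤ), NF n π p e r f → h ≤ 2 →
  HB h n π w0 c v → ∀ (δ : Fin d → ZMod 3), δ ≠ 0 →
  ∃ K : ℝ, ∀ σ : ℝ, 1 < σ → σ ≤ 2 →
    2 / 3 ^ d / 3 ^ (m + 1) * Real.log (1 / (σ - 1)) - K ≤
      BDENS.sm (WR h n π w0 c 1 1 0 ∩ Pat v δ) σ + BDENS.sm (WR h n π w0 c 1 2 0 ∩ Pat v δ) σ

/-- PTN_CLU: the distribution of the rank in a class, `q = 1 (mod 3)`.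
Proof. `d = sN`, `v` from `NHPT` (`HB` is its conclusion). Every prime `q % 3 = 1` has a `ρ` (`SPLT`), and the
vector `x = (sym ρ (v i))_i` is `0` or `Pat v x` holds for `q` (`ε = 1`). For two factors `ρ`, `ρ'` of `q`,
`ρ' = ρ` or `ρ' = conj ρ`, and `x' = ± x` (`SPLT`, `q` large). So the large primes `q % 3 = 1` with
`Pat v 0` (all symbols `0`) are exactly those in no `Pat v δ`, `δ ≠ 0`; every other one is in `Pat v δ`
for exactly two `δ ≠ 0` (`δ = ± x`, different). `ι = {δ // δ ≠ 0}`, `3 ^ d - 1` elements.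
(1) Nonzero pattern: `S_E = {q ∈ WR .. 1 E t, not Pat v 0}`, `SMT` (1) with
`T δ = WR .. 1 E t ∩ Pat v δ` and `DLU`: `2 (sm S_1 + sm S_2) ≤ (3^d - 1) (2 / 3^d) LI (d - 1) (t - v) / 3^(m+1) log + K`,
so `sm S_1 + sm S_2 ≤ (1 - 1 / 3^d) LI (d - 1) (t - v) / 3^(m+1) log + K'`. (2) Zero pattern: let
`Z_E = {q ∈ WR .. 1 E 0, Pat v 0}`, `N_E = {q ∈ WR .. 1 E 0, not Pat v 0}`: `SMT` (2) and `DLL`:
`2 (sm N_1 + sm N_2) ≥ (3^d - 1) (2 / 3^d) / 3^(m+1) log - K`; `CLT` (`a = 1`; the set there is `WR .. 1 E 0`):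
`sm Z_1 + sm Z_2 ≤ (1 / 3^d) / 3^(m+1) log + K` (`sm` is additive on disjoint unions). If
`t > v + d + 1` then `Z_E ∩ {t ≤ rr}` contains only small primes by `NBK0` (`rr ≤ vN + 1 + sN`).
(3) `WR .. 1 E t ⊆ S_E ∪ (Z_E ∩ {t ≤ rr})` (`SMT` (3)). First part of the statement: `NBK0`. -/
def Stmt_CLU : Prop := ∀ (h n m k : ℕ) (π : Fin m → PP) (p e : Fin m → ℕ) (r f : Fin k → ℕ)
  (w0 : ZMod 3) (c : Fin m → ZMod 3), NF n π p e r f → h ≤ 2 →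
  (∃ M : ℕ, ∀ E q : ℕ, (E = 1 ∨ E = 2) → q.Prime → M < q → q % 3 = 1 → InCT E π w0 c q →
    CubeRank.GenBy (BB h n E q) (vN h n π p e r w0 c + 1 + sN h n π p e r w0 c)) ∧
  ∀ t : ℕ, ∃ K : ℝ, ∀ σ : ℝ, 1 < σ → σ ≤ 2 →
    BDENS.sm (WR h n π w0 c 1 1 t) σ + BDENS.sm (WR h n π w0 c 1 2 t) σ ≤
      LS (sN h n π p e r w0 c) (vN h n π p e r w0 c) t / 3 ^ (m + 1) *
        Real.log (1 / (σ - 1)) + K

/-! ### Averages -/

open Classical in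
/-- PTN_DOMG: from tails to averages.
Proof. As `DOM.point`, `DOM.dom` in PTL/DOM.lean, which is the case `S E = WS r f w0 E 0`. For a prime
`q > M` in `S E`: `F (R E q) = F 0 + ∑_{t < N} (F (t + 1) - F t) 1(t + 1 ≤ R E q)`; the primes `≤ M`
contribute a constant. -/
def Stmt_DOMG : Prop := ∀ (S : ℕ → Set ℕ) (R : ℕ → ℕ → ℕ) (P : ℕ → ℝ) (M N : ℕ) (F : ℕ → ℝ),
  (∀ E q, (E = 1 ∨ E = 2) → q.Prime → M < q → q ∈ S E → R E q ≤ N) →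
  (∀ t, ∃ K : ℝ, ∀ σ : ℝ, 1 < σ → σ ≤ 2 →
    BDENS.sm {q | q ∈ S 1 ∧ t ≤ R 1 q} σ + BDENS.sm {q | q ∈ S 2 ∧ t ≤ R 2 q} σ ≤
      P t * Real.log (1 / (σ - 1)) + K) →
  Monotone F → 0 ≤ F 0 →
  ∃ K : ℝ, ∀ σ : ℝ, 1 < σ → σ ≤ 2 → ∀ T : Finset ℕ,
    ∑ E ∈ ({1, 2} : Finset ℕ), ∑ q ∈ T,
      (if q.Prime ∧ q ∈ S E then F (R E q) * (q : ℝ) ^ (-σ) else 0) ≤
      (F 0 * P 0 + ∑ t ∈ Finset.range N, (F (t + 1) - F t) * P (t + 1)) *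
        Real.log (1 / (σ - 1)) + K

/-- PTN_LAW: the sums of `DOMG` for the two laws.
Proof. `LI s 0 = 1` (`DOM.NK_zero`), `LI s t = 0` for `s < t`, and
`Esk s G = G 0 + ∑_{j < s} (G (j + 1) - G j) LI s (j + 1)` (`AL.Esk_sum`, see the end of `DOM.dom`). Split
the range `t < v + s` (resp. `v + s + 1`) at `v`; for `t < v` the factor is `LI s 0 = 1`, telescoping sum. For
the second identity write `LS` as the sum of its two parts; the part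
`1 / 3 ^ s * (if ..)` gives `1 / 3 ^ s * F (v + s + 1)` (telescoping). Tails: `AL.Esk_pos`, `AL.Esk_two` for
`LI s 1 ≤ 3 / 8` (`s` even), `LI s 2 ≤ 1 / 24` (`s` odd) (with `Esk s (fun c => if t ≤ c then 1 else 0) = LI s t`,
see `FIN.below`), `AL.Esk_pow`. (5): `s` odd, `x = 1 / 3 ^ s ≤ 1 / 3`:
`LI (s - 1) 1 ≤ 3 / 8 - 9 x / 8` (`AL.Esk_le`), `(1 - x) (3 / 8 - 9 x / 8) + x ≤ 3 / 8`. (6): `s` even: `s = 0`: `LS 0 0 2 = 0`; `s = 2`: `LI 1 2 = 0`,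
`LS 2 0 2 = 1 / 9`; `s ≥ 4`: `(1 - x) / 24 + x ≤ 1 / 9` for `x ≤ 1 / 81`. (7):
`(1 - 1 / 3 ^ s) (4 - 3 / 3 ^ (s - 1)) 3 ^ v + 3 ^ (v + s + 1) / 3 ^ s ≤ 7 · 3 ^ v`. -/
def Stmt_LAW : Prop :=
  (∀ (s v : ℕ) (F : ℕ → ℝ), F 0 * LI s (0 - v) +
    ∑ t ∈ Finset.range (v + s), (F (t + 1) - F t) * LI s (t + 1 - v) =
      Esk s (fun c => F (v + c))) ∧
  (∀ (s v : ℕ) (F : ℕ → ℝ), F 0 * LS s v 0 +
    ∑ t ∈ Finset.range (v + s + 1), (F (t + 1) - F t) * LS s v (t + 1) =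
      (1 - 1 / 3 ^ s) * Esk (s - 1) (fun c => F (v + c)) + 1 / 3 ^ s * F (v + s + 1)) ∧
  (∀ s, Even s → LI s 1 ≤ 3 / 8) ∧ (∀ s, Odd s → LI s 2 ≤ 1 / 24) ∧
  (∀ s, Odd s → LS s 0 1 ≤ 3 / 8) ∧ (∀ s, Even s → LS s 0 2 ≤ 1 / 9) ∧
  (∀ s v : ℕ, Esk s (fun c => (3 : ℝ) ^ (v + c)) ≤ 4 * 3 ^ v) ∧
  ∀ s v : ℕ, (1 - 1 / 3 ^ s) * Esk (s - 1) (fun c => (3 : ℝ) ^ (v + c)) +
    1 / 3 ^ s * (3 : ℝ) ^ (v + s + 1) ≤ 7 * 3 ^ v

/-! ### The sums of the final theorem -/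

open Classical in
/-- The sum of `F(A) / q ^ σ` over the pairs `(q, e)` with `e = 1, 2`, `q` in the finite set `T`, `q` prime,
`q = a (mod 3)`, for which `q ^ e` has the property `W`; `A = n q ^ e`. -/
noncomputable def SumA (n : ℤ) (a : ℕ) (W : ℤ → Prop) (F : ℤ → ℝ) (σ : ℝ) (T : Finset ℕ) : ℝ :=
  ∑ e ∈ ({1, 2} : Finset ℕ), ∑ q ∈ T,
    if q.Prime ∧ q % 3 = a ∧ W (q ^ e) then F (n * q ^ e) * (q : ℝ) ^ (-σ) else 0

/-- The sum of `F(A)` over the `A = n q ^ e` such that `q ^ e` has the property `W` is at most `x` times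
`log (1 / (σ - 1))`, up to a constant. -/
def AboveA (n : ℤ) (a : ℕ) (W : ℤ → Prop) (F : ℤ → ℝ) (x : ℝ) : Prop :=
  ∃ K : ℝ, ∀ σ : ℝ, 1 < σ → σ ≤ 2 → ∀ T : Finset ℕ,
    SumA n a W F σ T ≤ x * Real.log (1 / (σ - 1)) + K

/-- The sum of `F(A)` over the `A = n q ^ e` such that `q ^ e` has the property `W` is at least `x` times
`log (1 / (σ - 1))`, up to a constant. -/
def BelowA (n : ℤ) (a : ℕ) (W : ℤ → Prop) (F : ℤ → ℝ) (x : ℝ) : Prop :=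
  ∃ K : ℝ, ∀ σ : ℝ, 1 < σ → σ ≤ 2 → ∃ T : Finset ℕ,
    x * Real.log (1 / (σ - 1)) - K ≤ SumA n a W F σ T

/-- `y` is in the class `(w0, c)` -/
def Kl {m : ℕ} (π : Fin m → PP) (w0 : ZMod 3) (c : Fin m → ZMod 3) (y : ℤ) : Prop :=
  wt (y ^ 2) = w0 ∧ ∀ i, sym (π i).1 (y : Eis) = c i

open Classical in
/-- PTN_CAB: averages in a class.
Proof. `CLN` (`a = 2`), `CLU` (`a = 1`), `DOMG` with `S E = {q | q % 3 = a ∧ InCT E π w0 c q}` (which is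
`WR .. a E 0` up to the trivial condition), `R E q = rr (BB h n E q)`, `N = vN + sN` (resp.
`vN + sN + 1`; `CubeRank.rr_le`), `P t = LI sN (t - vN) / 3 ^ (m + 1)`, resp. `LS sN vN t / 3 ^ (m + 1)`, and `LAW`.
For large `q` (`q ≠ p i`, i.e. `q` prime to `n`): `Kl π w0 c (q ^ E)` iff `InCT E π w0 c q`
(`sym (π i) (q ^ E) = E sym (π i) q`); for `q = p i` both sides may differ, finitely many `q`: a
constant (bound the sum by the sum over the large `q` plus finitely many terms, each at most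
`F (R E q)`). -/
def Stmt_CAB : Prop := ∀ (h n m k : ℕ) (π : Fin m → PP) (p e : Fin m → ℕ) (r f : Fin k → ℕ)
  (w0 : ZMod 3) (c : Fin m → ZMod 3), NF n π p e r f → h ≤ 2 →
  ∀ F : ℕ → ℝ, Monotone F → 0 ≤ F 0 →
  AboveA ((3 ^ h * n : ℕ) : ℤ) 2 (Kl π w0 c) (fun A => F (CubeRank.rr A))
    (Esk (sN h n π p e r w0 c) (fun x => F (vN h n π p e r w0 c + x)) / 3 ^ (m + 1)) ∧
  AboveA ((3 ^ h * n : ℕ) : ℤ) 1 (Kl π w0 c) (fun A => F (CubeRank.rr A))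
    (((1 - 1 / 3 ^ sN h n π p e r w0 c) *
        Esk (sN h n π p e r w0 c - 1) (fun x => F (vN h n π p e r w0 c + x)) +
      1 / 3 ^ sN h n π p e r w0 c *
        F (vN h n π p e r w0 c + sN h n π p e r w0 c + 1)) / 3 ^ (m + 1))

/-- PTN_CBE: lower bounds in a class.
Proof. Tails from `CLN`, `CLU`, total number from `CLT` (both for the sets
`{q | q % 3 = a ∧ InCT E π w0 c q}`): as `DOM.low` in PTL/DOM.lean. The finite set `T` is obtained as in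
`DOM.approx`. For large primes `q` not in `WR .. t` the rank is `< t`, so `R A` holds by the hypothesis
(`GenBy B (rr B)` by `CubeRank.gen_rr` and the first parts of `CLN`, `CLU`). `Kl` and `InCT` as in
`CAB` (only large `q` are needed). -/
def Stmt_CBE : Prop := ∀ (h n m k : ℕ) (π : Fin m → PP) (p e : Fin m → ℕ) (r f : Fin k → ℕ)
  (w0 : ZMod 3) (c : Fin m → ZMod 3), NF n π p e r f → h ≤ 2 → ∀ (t : ℕ) (R : ℤ → Prop),
  (∀ A : ℤ, A ≠ 0 → CubeRank.GenBy A (CubeRank.rr A) → CubeRank.rr A < t → R A) →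
  BelowA ((3 ^ h * n : ℕ) : ℤ) 2 (Kl π w0 c) (fun A => tf (R A))
    ((1 - LI (sN h n π p e r w0 c) (t - vN h n π p e r w0 c)) / 3 ^ (m + 1)) ∧
  BelowA ((3 ^ h * n : ℕ) : ℤ) 1 (Kl π w0 c) (fun A => tf (R A))
    ((1 - LS (sN h n π p e r w0 c) (vN h n π p e r w0 c) t) / 3 ^ (m + 1))

/-- PTN_SUMA: sums over the classes.
Proof. For every `y` exactly one `(w0, c)` satisfies `Kl π w0 c y`. (1) the sums are additive over
the classes; add the bounds. (2) the same with the union of the finite sets `T` (the summands are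
`≥ 0`, see `FIN.Sum_mono`, `FIN.Below_all` in PTL/FIN.lean). (3), (4): `log (1 / (σ - 1)) ≥ 0`
(`FIN.log_nn`, `FIN.Above.mono`). -/
def Stmt_SUMA : Prop := ∀ (n : ℤ) (a m : ℕ) (π : Fin m → PP) (F : ℤ → ℝ),
  (∀ x : ZMod 3 × (Fin m → ZMod 3) → ℝ, (∀ y, AboveA n a (Kl π y.1 y.2) F (x y)) →
    AboveA n a (fun _ => True) F (∑ y, x y)) ∧
  (∀ x : ZMod 3 × (Fin m → ZMod 3) → ℝ, (∀ A, 0 ≤ F A) →
    (∀ y, BelowA n a (Kl π y.1 y.2) F (x y)) → BelowA n a (fun _ => True) F (∑ y, x y)) ∧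
  (∀ (W : ℤ → Prop) (x y : ℝ), x ≤ y → AboveA n a W F x → AboveA n a W F y) ∧
  ∀ (W : ℤ → Prop) (x y : ℝ), x ≤ y → BelowA n a W F y → BelowA n a W F x

open Classical in
/-- PTN_ALLA: the averages over all `A`.
Proof. `CAB` for `F = 3 ^ ·`, `LAW` (7), (8), `SUMA`, `NSUM`:
`∑ 4 · 3 ^ v / 3 ^ (m + 1) ≤ 4 (5 / 3) ^ (m + 1)`. Lower bounds: by `NZER` there are at least `2 ^ (m + 1)`
classes with `v = 0` and not (`h = 0` and `wt (n²) + w0 = 0`); for these `NDIM` gives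
`sN + [h = 2] = k + [h ≠ 0]` (`actR` is `h = 2` then), so `sN = k + [h = 1]`. `CBE` with
`R A = ¬ ∃ X Y, X ^ 3 + Y ^ 3 = A`, `t = 1` (`DOM.no_sol` in PTL/DOM.lean), or
`R A = rr A ≤ 1`, `t = 2`; `LAW` (3)-(6); the other classes have the lower bound `0` (empty `T`; or
`BelowA _ _ _ _ 0` by `T = ∅`). `1 - 3 / 8 = 5 / 8`, `1 - 1 / 24`, `1 - 1 / 9`. -/
def Stmt_ALLA : Prop := ∀ (h n m k : ℕ) (π : Fin m → PP) (p e : Fin m → ℕ) (r f : Fin k → ℕ),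
  NF n π p e r f → h ≤ 2 →
  AboveA ((3 ^ h * n : ℕ) : ℤ) 2 (fun _ => True) (fun A => 3 ^ CubeRank.rr A)
    (4 * (5 / 3) ^ (m + 1)) ∧
  AboveA ((3 ^ h * n : ℕ) : ℤ) 1 (fun _ => True) (fun A => 3 ^ CubeRank.rr A)
    (7 * (5 / 3) ^ (m + 1)) ∧
  (Even (k + if h = 1 then 1 else 0) →
    BelowA ((3 ^ h * n : ℕ) : ℤ) 2 (fun _ => True)
      (fun A => tf (¬ ∃ X Y : ℚ, X ^ 3 + Y ^ 3 = (A : ℚ))) (5 / 8 * (2 / 3) ^ (m + 1)) ∧
    BelowA ((3 ^ h * n : ℕ) : ℤ) 1 (fun _ => True) (fun A => tf (CubeRank.rr A ≤ 1))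
      (8 / 9 * (2 / 3) ^ (m + 1))) ∧
  (Odd (k + if h = 1 then 1 else 0) →
    BelowA ((3 ^ h * n : ℕ) : ℤ) 2 (fun _ => True) (fun A => tf (CubeRank.rr A ≤ 1))
      (23 / 24 * (2 / 3) ^ (m + 1)) ∧
    BelowA ((3 ^ h * n : ℕ) : ℤ) 1 (fun _ => True)
      (fun A => tf (¬ ∃ X Y : ℚ, X ^ 3 + Y ^ 3 = (A : ℚ))) (5 / 8 * (2 / 3) ^ (m + 1)))

/-! ### Units modulo `9 n` -/

/-- PTN_TRU: the units modulo `9 N`, `N = 3 ^ h n`, and the classes.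
Proof. `f = 9 N`: `9 ∣ f`, `p i ∣ f`; `κ` from `CLSC`: for a unit `u` with representative
`U = (u : ZMod f).val` (prime to `f`), `κ u = (wt (U²), sym (π i) U)`. (1): the number of the units with
`κ u = (w0, c)` is the sum of the numbers with `M2` and `M1` (every unit is `1` or `2` modulo `3`), by `CLSC` and
`CLSCS` `φ(f) / 3 ^ (m + 1)`. (2): if `9 N ∣ y - U x³` and `y` is prime to `9 N` then `x` is prime to
`9 N`, `wt (y²) = wt (U² x⁶)` (`wt` depends only on the class modulo `9`) `= wt (U²) + 3 wt (x²)`, and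
`sym (π i) y = sym (π i) (U x³) = sym (π i) U + 3 sym (π i) x` (`sym` depends only on the class modulo `π i`).
-/
def Stmt_TRU : Prop := ∀ (h n m k : ℕ) (π : Fin m → PP) (p e : Fin m → ℕ) (r f : Fin k → ℕ),
  NF n π p e r f →
  (∀ (w0 : ZMod 3) (c : Fin m → ZMod 3),
    Nat.card {u : (ZMod (9 * (3 ^ h * n)))ˣ //
      Kl π w0 c (((u : ZMod (9 * (3 ^ h * n))).val : ℕ) : ℤ)} * 3 ^ (m + 1) =
      (9 * (3 ^ h * n)).totient) ∧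
  ∀ (u : (ZMod (9 * (3 ^ h * n)))ˣ) (w0 : ZMod 3) (c : Fin m → ZMod 3) (y x : ℤ),
    Kl π w0 c (((u : ZMod (9 * (3 ^ h * n))).val : ℕ) : ℤ) →
    IsCoprime y ((9 * (3 ^ h * n) : ℕ) : ℤ) →
    ((9 * (3 ^ h * n) : ℕ) : ℤ) ∣ y - (((u : ZMod (9 * (3 ^ h * n))).val : ℕ) : ℤ) * x ^ 3 →
    Kl π w0 c y

/-- PTN_NFE: normal form.
Proof. As in PT3/MAI3.lean (or PT/MAIN, PTE/MAINS). Let `h` be the exponent of `3` in `N` (`≤ 2`),
`n = N / 3 ^ h`, `p` an enumeration of the primes `1 (mod 3)` dividing `N`, `e` their exponents, `π` from `SPLT` or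
`SPP`, `r`, `f` for the primes `2 (mod 3)`. -/
def Stmt_NFE : Prop := ∀ N : ℕ, 0 < N → (∀ p : ℕ, p.Prime → ¬ p ^ 3 ∣ N) →
  ∃ (h n m k : ℕ) (π : Fin m → PP) (p e : Fin m → ℕ) (r f : Fin k → ℕ), NF n π p e r f ∧
    h ≤ 2 ∧ h = N.factorization 3 ∧ N = 3 ^ h * n ∧
    m = (N.primeFactors.filter (fun p => p % 3 = 1)).card ∧
    k = (N.primeFactors.filter (fun p => p % 3 = 2)).card

open Classical in
/-- PTN_MAINN: the theorem.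
Proof. `NFE`, `NDIM`, `NSUM`, `NZER`, `CAB`, `ALLA`, `TRU`, `SUMA`, `CLN`, `CLU`. For a unit `u` put
`w0 = wt (U²)`, `c i = sym (π i) U`, `U = u.val`, `v u = vN .. w0 c`, `s u = sN .. w0 c`. The condition
`N u = ± 1 (mod 9)` (for `h = 0`) means `wt ((n U)²) = 0`, `wt (n²) + w0 = 0` (`FIN.wt_res`, `FIN.cls_iff` in
PTL/FIN.lean; `wt_mul`). `NDIM` gives (1) (cases `h = 0, 1, 2`). (2), (3): sum over the classes with `TRU` (1),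
`NSUM`, `NZER`. (4): `CAB` and `TRU` (2): for `q > 9 N` prime, `q ^ e = u x³ (mod 9 N)` implies
`Kl π w0 c (q ^ e)`; the finitely many other `q` contribute a constant (the summands are `≥ 0`:
`F` monotone, `F 0 ≥ 0`). (5): `CLN`, `CLU` for every class (finitely many), `CubeRank.gen_rr`. (6): `ALLA`. -/
def Stmt_MAINN : Prop := ∀ N : ℕ, 0 < N → (∀ p : ℕ, p.Prime → ¬ p ^ 3 ∣ N) →
  ∀ m k : ℕ, m = (N.primeFactors.filter (fun p => p % 3 = 1)).card →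
  k = (N.primeFactors.filter (fun p => p % 3 = 2)).card →
  (∃ v s : (ZMod (9 * N))ˣ → ℕ,
    (∀ u : (ZMod (9 * N))ˣ, s u + (if ¬ 3 ∣ N ∧ ((N * (u : ZMod (9 * N)).val) % 9 = 1 ∨
        (N * (u : ZMod (9 * N)).val) % 9 = 8) then 1 else 0) =
      v u + k + (if 3 ∣ N ∧ ¬ 9 ∣ N then 1 else 0)) ∧
    (∑ᶠ u : (ZMod (9 * N))ˣ, (3 : ℝ) ^ v u ≤ (5 / 3) ^ (m + 1) * (9 * N).totient) ∧
    ((2 / 3 : ℝ) ^ (m + 1) * (9 * N).totient ≤ Nat.card {u : (ZMod (9 * N))ˣ // v u = 0}) ∧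
    ∀ (u : (ZMod (9 * N))ˣ) (F : ℕ → ℝ), Monotone F → 0 ≤ F 0 →
      AboveA N 2 (fun y => ∃ x : ℤ, ((9 * N : ℕ) : ℤ) ∣ y - ((u : ZMod (9 * N)).val : ℤ) * x ^ 3)
        (fun A => F (CubeRank.rr A)) (Esk (s u) (fun x => F (v u + x)) / 3 ^ (m + 1)) ∧
      AboveA N 1 (fun y => ∃ x : ℤ, ((9 * N : ℕ) : ℤ) ∣ y - ((u : ZMod (9 * N)).val : ℤ) * x ^ 3)
        (fun A => F (CubeRank.rr A))
        (((1 - 1 / 3 ^ s u) * Esk (s u - 1) (fun x => F (v u + x)) +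
          1 / 3 ^ s u * F (v u + s u + 1)) / 3 ^ (m + 1))) ∧
  (∃ M : ℕ, ∀ q e : ℕ, q.Prime → M < q → (e = 1 ∨ e = 2) →
    CubeRank.GenBy (N * q ^ e) (CubeRank.rr (N * q ^ e))) ∧
  AboveA N 2 (fun _ => True) (fun A => 3 ^ CubeRank.rr A) (4 * (5 / 3) ^ (m + 1)) ∧
  AboveA N 1 (fun _ => True) (fun A => 3 ^ CubeRank.rr A) (7 * (5 / 3) ^ (m + 1)) ∧
  (Even (k + if 3 ∣ N ∧ ¬ 9 ∣ N then 1 else 0) →
    BelowA N 2 (fun _ => True)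
      (fun A => tf (¬ ∃ X Y : ℚ, X ^ 3 + Y ^ 3 = (A : ℚ))) (5 / 8 * (2 / 3) ^ (m + 1)) ∧
    BelowA N 1 (fun _ => True) (fun A => tf (CubeRank.rr A ≤ 1)) (8 / 9 * (2 / 3) ^ (m + 1))) ∧
  (Odd (k + if 3 ∣ N ∧ ¬ 9 ∣ N then 1 else 0) →
    BelowA N 2 (fun _ => True) (fun A => tf (CubeRank.rr A ≤ 1)) (23 / 24 * (2 / 3) ^ (m + 1)) ∧
    BelowA N 1 (fun _ => True)
      (fun A => tf (¬ ∃ X Y : ℚ, X ^ 3 + Y ^ 3 = (A : ℚ))) (5 / 8 * (2 / 3) ^ (m + 1)))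

end Pool.Agent.PTN
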