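import Pool.Agent.PTN.StF

/-!
# The law of the ranks of prime twists for every `n`: sharper final statements

Additions to StF: the sharper counts for `h = 1`, the classes with `N q^e = ± 1 (mod 9)`, lower bounds
for the single classes modulo `9 N`.
-/

set_option autoImplicit false

open NumberField IsDedekindDomain Finset
open scoped nonZeroDivisors Pointwise

namespace Pool.Agent.PTN

open Pool.Agent.Lib_helper18 Pool.Agent.Lib_helper18.Eis Pool.Agent.Lib_helper84.Cub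
open Pool.Agent.PT Pool.Agent.PTE Pool.Agent.PT3 Pool.Agent.PTL

/-- PTN_NSU1: the average of `3 ^ v` over the classes, `h = 1`.
Proof. As `NSUM` (see PTN/NSUM.lean): `actR` is false, so `y 0 = 0` for `y ∈ VS`; only the term
`3 · 5^m` remains. -/
def Stmt_NSU1 : Prop := ∀ (n m k : ℕ) (π : Fin m → PP) (p e : Fin m → ℕ) (r f : Fin k → ℕ),
  NF n π p e r f →
  ∑ x : ZMod 3 × (Fin m → ZMod 3), 3 ^ vN 1 n π p e r x.1 x.2 ≤ 3 * 5 ^ m

/-- PTN_NZE1: the number of the classes with `v = 0`, `h = 1`.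
Proof. As `NZER` (see PTN/NZER.lean): all three values of `w0` are allowed. -/
def Stmt_NZE1 : Prop := ∀ (n m k : ℕ) (π : Fin m → PP) (p e : Fin m → ℕ) (r f : Fin k → ℕ),
  NF n π p e r f →
  3 * 2 ^ m ≤ Nat.card {x : ZMod 3 × (Fin m → ZMod 3) // vN 1 n π p e r x.1 x.2 = 0}

/-- PTN_NZE0: the number of the classes with `v = 0`, `h = 0`, `B = ± 1 (mod 9)`.
Proof. Take `w0 = - wt (n²)`. `y ∈ VS` gives `vecMul y A = 0` for the square matrix `A` with the columns `inr j`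
(column `0`) and `inl i.succ` (column `i.succ`) of `Nm`; `A 0 0 = wt (r j ^ 2) ≠ 0`, and `A` depends
on `c` through `- c i` at the places `(i.succ, i.succ)`. `EDC` (PT3): `A` is invertible for at
least `2 ^ m` of the `c`; then `VS = ⊥`, `vN = 0`. -/
def Stmt_NZE0 : Prop := ∀ (n m k : ℕ) (π : Fin m → PP) (p e : Fin m → ℕ) (r f : Fin k → ℕ),
  NF n π p e r f → (∃ j, wt ((r j : ℤ) ^ 2) ≠ 0) →
  2 ^ m ≤ Nat.card {x : ZMod 3 × (Fin m → ZMod 3) // vN 0 n π p e r x.1 x.2 = 0 ∧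
    wt ((n : ℤ) ^ 2) + x.1 = 0}

/-- PTN_TRC: converse of `TRU`: numbers of the same class differ by a cube modulo `9 N`.
Proof. Let `G` be the group of units modulo `f = 9 N`, `N = 3 ^ h n`, `κ : G → F_3^(m+1)` from `CLSC` (`9 ∣ f`,
`p i ∣ f`), `κ u = (wt (U²), sym (π i) U)`. `κ` is surjective (`CLSC`: every fibre is nonempty, as
`φ(f) > 0`), so its kernel has `φ(f) / 3^(m+1)` elements, and it contains the group of cubes, which
has `φ(f) / #G[3]` elements, `G[3] = {x | x³ = 1}`. `#G[3] ≤ 3^(m+1)`: `x ∈ G[3]` is determined by its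
classes modulo `3^(h+2)`, `p i ^ e i`, `r j ^ f j` (pairwise coprime, product `f`); modulo an odd prime
power the units are cyclic, so there are at most `3` solutions of `x³ = 1` (`IsCyclic.card_pow_eq_one_le`,
`ZMod.isCyclic_units_of_prime_pow` or similar), and modulo `r j ^ f j` only `x = 1`, since `3` does not divide
`φ(r j ^ f j) = r j ^ (f j - 1) (r j - 1)`. So the kernel is the group of cubes. If `y` and `U` have
the same class then `y / U ∈ G` is in the kernel, `y = U x³`. -/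
def Stmt_TRC : Prop := ∀ (h n m k : ℕ) (π : Fin m → PP) (p e : Fin m → ℕ) (r f : Fin k → ℕ),
  NF n π p e r f →
  ∀ (u : (ZMod (9 * (3 ^ h * n)))ˣ) (w0 : ZMod 3) (c : Fin m → ZMod 3) (y : ℤ),
    Kl π w0 c (((u : ZMod (9 * (3 ^ h * n))).val : ℕ) : ℤ) → Kl π w0 c y →
    IsCoprime y ((9 * (3 ^ h * n) : ℕ) : ℤ) →
    ∃ x : ℤ, ((9 * (3 ^ h * n) : ℕ) : ℤ) ∣
      y - (((u : ZMod (9 * (3 ^ h * n))).val : ℕ) : ℤ) * x ^ 3

open Classical in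
/-- PTN_ALLQ: the averages over all `A`, sharper for `h = 1`.
Proof. As `ALLA` (see PTN/ALLA.lean), for `h = 1` with `NSU1`, `NZE1` in place of `NSUM`, `NZER`. -/
def Stmt_ALLQ : Prop := ∀ (h n m k : ℕ) (π : Fin m → PP) (p e : Fin m → ℕ) (r f : Fin k → ℕ),
  NF n π p e r f → h ≤ 2 → ∀ μ : ℕ, μ = m + (if h = 1 then 0 else 1) →
  AboveA ((3 ^ h * n : ℕ) : ℤ) 2 (fun _ => True) (fun A => 3 ^ CubeRank.rr A)
    (4 * (5 / 3) ^ μ) ∧
  AboveA ((3 ^ h * n : ℕ) : ℤ) 1 (fun _ => True) (fun A => 3 ^ CubeRank.rr A)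
    (7 * (5 / 3) ^ μ) ∧
  (Even (k + if h = 1 then 1 else 0) →
    BelowA ((3 ^ h * n : ℕ) : ℤ) 2 (fun _ => True)
      (fun A => tf (¬ ∃ X Y : ℚ, X ^ 3 + Y ^ 3 = (A : ℚ))) (5 / 8 * (2 / 3) ^ μ) ∧
    BelowA ((3 ^ h * n : ℕ) : ℤ) 1 (fun _ => True) (fun A => tf (CubeRank.rr A ≤ 1))
      (8 / 9 * (2 / 3) ^ μ)) ∧
  (Odd (k + if h = 1 then 1 else 0) →
    BelowA ((3 ^ h * n : ℕ) : ℤ) 2 (fun _ => True) (fun A => tf (CubeRank.rr A ≤ 1))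
      (23 / 24 * (2 / 3) ^ μ) ∧
    BelowA ((3 ^ h * n : ℕ) : ℤ) 1 (fun _ => True)
      (fun A => tf (¬ ∃ X Y : ℚ, X ^ 3 + Y ^ 3 = (A : ℚ))) (5 / 8 * (2 / 3) ^ μ))

/-- `y = u x³ (mod 9 N)` for some `x` -/
def Cu (N : ℕ) (u : (ZMod (9 * N))ˣ) (y : ℤ) : Prop :=
  ∃ x : ℤ, ((9 * N : ℕ) : ℤ) ∣ y - ((u : ZMod (9 * N)).val : ℤ) * x ^ 3

/-- `N u = ± 1 (mod 9)` -/
def Nu1 (N : ℕ) (u : (ZMod (9 * N))ˣ) : Prop :=
  (N * (u : ZMod (9 * N)).val) % 9 = 1 ∨ (N * (u : ZMod (9 * N)).val) % 9 = 8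

open Classical in
/-- PTN_MAINQ: the theorem.
Proof. As `MAINN` (see PTN/MAINN.lean; `Nu1 N u` implies `3 ∤ N`), with `ALLQ`, and for the
additional statements: the last part of the first block: `CBE` for the class of `u` (`v u = 0`,
`R A` the negation with `t = 1`, or `R A = rr A ≤ 1`, `t = 2`), `LAW` (3)-(6), and
`TRC`: for large `q` of the class, `Cu N u (q ^ e)`. The lower bound for the number of the `u` with
`Nu1 N u` and `v u = 0`: `NZE0` and `TRU` (1) (a prime `p ∣ N` with `p % 9 = 2` or `5` is one of the `r j`, and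
`wt (p ^ 2) ≠ 0`, `FIN.p_wt` in PTL/FIN.lean); each class has `φ(9 N) / 3 ^ (m + 1)` units. -/
def Stmt_MAINQ : Prop := ∀ N : ℕ, 0 < N → (∀ p : ℕ, p.Prime → ¬ p ^ 3 ∣ N) →
  ∀ m k δ μ : ℕ, m = (N.primeFactors.filter (fun p => p % 3 = 1)).card →
  k = (N.primeFactors.filter (fun p => p % 3 = 2)).card →
  δ = (if 3 ∣ N ∧ ¬ 9 ∣ N then 1 else 0) → μ + δ = m + 1 →
  (∃ v s : (ZMod (9 * N))ˣ → ℕ,
    (∀ u : (ZMod (9 * N))ˣ, s u + (if Nu1 N u then 1 else 0) = v u + k + δ) ∧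
    (∑ᶠ u : (ZMod (9 * N))ˣ, (3 : ℝ) ^ v u ≤ (5 / 3) ^ μ * (9 * N).totient) ∧
    ((2 / 3 : ℝ) ^ μ * (9 * N).totient ≤
      Nat.card {u : (ZMod (9 * N))ˣ // v u = 0 ∧ ¬ Nu1 N u}) ∧
    (¬ 3 ∣ N → (∃ p : ℕ, p.Prime ∧ p ∣ N ∧ (p % 9 = 2 ∨ p % 9 = 5)) →
      1 / 3 * (2 / 3 : ℝ) ^ m * (9 * N).totient ≤
        Nat.card {u : (ZMod (9 * N))ˣ // v u = 0 ∧ Nu1 N u}) ∧
    (∀ (u : (ZMod (9 * N))ˣ) (F : ℕ → ℝ), Monotone F → 0 ≤ F 0 →
      AboveA N 2 (Cu N u) (fun A => F (CubeRank.rr A))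
        (Esk (s u) (fun x => F (v u + x)) / 3 ^ (m + 1)) ∧
      AboveA N 1 (Cu N u) (fun A => F (CubeRank.rr A))
        (((1 - 1 / 3 ^ s u) * Esk (s u - 1) (fun x => F (v u + x)) +
          1 / 3 ^ s u * F (v u + s u + 1)) / 3 ^ (m + 1))) ∧
    ∀ u : (ZMod (9 * N))ˣ, v u = 0 →
      (Even (s u) →
        BelowA N 2 (Cu N u) (fun A => tf (¬ ∃ X Y : ℚ, X ^ 3 + Y ^ 3 = (A : ℚ)))
          (5 / 8 / 3 ^ (m + 1)) ∧
        BelowA N 1 (Cu N u) (fun A => tf (CubeRank.rr A ≤ 1)) (8 / 9 / 3 ^ (m + 1))) ∧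
      (Odd (s u) →
        BelowA N 2 (Cu N u) (fun A => tf (CubeRank.rr A ≤ 1)) (23 / 24 / 3 ^ (m + 1)) ∧
        BelowA N 1 (Cu N u) (fun A => tf (¬ ∃ X Y : ℚ, X ^ 3 + Y ^ 3 = (A : ℚ)))
          (5 / 8 / 3 ^ (m + 1)))) ∧
  (∃ M : ℕ, ∀ q e : ℕ, q.Prime → M < q → (e = 1 ∨ e = 2) →
    CubeRank.GenBy (N * q ^ e) (CubeRank.rr (N * q ^ e))) ∧
  AboveA N 2 (fun _ => True) (fun A => 3 ^ CubeRank.rr A) (4 * (5 / 3) ^ μ) ∧
  AboveA N 1 (fun _ => True) (fun A => 3 ^ CubeRank.rr A) (7 * (5 / 3) ^ μ) ∧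
  (Even (k + δ) →
    BelowA N 2 (fun _ => True)
      (fun A => tf (¬ ∃ X Y : ℚ, X ^ 3 + Y ^ 3 = (A : ℚ))) (5 / 8 * (2 / 3) ^ μ) ∧
    BelowA N 1 (fun _ => True) (fun A => tf (CubeRank.rr A ≤ 1)) (8 / 9 * (2 / 3) ^ μ)) ∧
  (Odd (k + δ) →
    BelowA N 2 (fun _ => True) (fun A => tf (CubeRank.rr A ≤ 1)) (23 / 24 * (2 / 3) ^ μ) ∧
    BelowA N 1 (fun _ => True)
      (fun A => tf (¬ ∃ X Y : ℚ, X ^ 3 + Y ^ 3 = (A : ℚ))) (5 / 8 * (2 / 3) ^ μ))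

end Pool.Agent.PTN
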