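import Pool.Agent.PTN.StA
import Pool.Agent.PT3.EBAT

/-!
# The law of the ranks of prime twists for every `n`: basis of the admissible classes (module NBAS)
-/

set_option autoImplicit false

open Finset

namespace Pool.Agent.PTN

open Pool.Agent.Lib_helper18 Pool.Agent.Lib_helper18.Eis Pool.Agent.Lib_helper84.Cub
open Pool.Agent.PT Pool.Agent.PTE Pool.Agent.PT3

namespace NBAS

open Pool.Agent.PT.EBAS Pool.Agent.PT3.EBAT

/-- An adapted basis when the image of the linear map is contained in a line. -/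
theorem adapted_line {S : Type} [AddCommGroup S] [Module (ZMod 3) S] [Module.Finite (ZMod 3) S]
    (Λ : S →ₗ[ZMod 3] (ZMod 3 × ZMod 3)) (w : ZMod 3 × ZMod 3)
    (hw : ∀ x, ∃ t : ZMod 3, Λ x = t • w) :
    ∃ (τ : Fin (Module.finrank (ZMod 3) S) → Fin 3)
      (b : Module.Basis (Fin (Module.finrank (ZMod 3) S)) (ZMod 3) S), Adp Λ w τ b := by
  have hF : Fact (Nat.Prime 3) := ⟨Nat.prime_three⟩
  by_cases h0 : ∀ x, Λ x = 0
  · refine adapted_aux Λ w (c := 0) (fun i => i.elim0) (fun i => i.elim0) (fun i => i.elim0)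
      ⟨fun i => i.elim0, fun i => i.elim0, fun i => i.elim0, fun i => i.elim0, fun i => i.elim0⟩
      (fun g _ i => i.elim0) (fun x => ⟨fun i => i.elim0, ?_⟩)
    rw [h0 x]
    simp
  push Not at h0
  obtain ⟨x₀, hx₀⟩ := h0
  obtain ⟨t, ht⟩ := hw x₀
  have ht0 : t ≠ 0 := by
    rintro rfl
    rw [zero_smul] at ht
    exact hx₀ ht
  have hw0 : w ≠ 0 := by
    rintro rfl
    rw [smul_zero] at ht
    exact hx₀ ht
  have hu : Λ (t⁻¹ • x₀) = w := by
    rw [map_smul, ht, smul_smul, inv_mul_cancel₀ ht0, one_smul]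
  refine adapted_aux Λ w (c := 1) (fun _ => t⁻¹ • x₀) (fun _ => 1) (fun _ => by decide)
    ⟨fun i hi => absurd hi (by decide), fun _ _ => hu, fun i hi => absurd hi (by decide),
      fun i j _ _ => Subsingleton.elim i j, fun i j hij => absurd (Subsingleton.elim i j) hij⟩
    (fun g hg i => ?_) (fun x => ?_)
  · rw [Fin.sum_univ_one, hu] at hg
    rw [Subsingleton.elim i 0]
    exact (smul_eq_zero.mp hg).resolve_right hw0
  · obtain ⟨t', ht'⟩ := hw x
    refine ⟨fun _ => t', ?_⟩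
    rw [Fin.sum_univ_one, hu, ht']

/-- The pair `(lv, lw)` in terms of exponent vectors. -/
noncomputable def La {m k : ℕ} (p : Fin m → ℕ) (r : Fin k → ℕ) :
    (Col m k → ZMod 3) →ₗ[ZMod 3] (ZMod 3 × ZMod 3) where
  toFun v := (v (Sum.inl 0), (∑ i : Fin m, v (Sum.inl i.succ) * wt ((p i : ℤ) ^ 2)) +
    ∑ j, v (Sum.inr j) * wt ((r j : ℤ) ^ 2))
  map_add' := by
    intro v v'
    refine Prod.ext rfl ?_
    simp only [Pi.add_apply, add_mul, Finset.sum_add_distrib, Prod.mk_add_mk]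
    ring
  map_smul' := by
    intro t v
    refine Prod.ext rfl ?_
    simp only [Pi.smul_apply, smul_eq_mul, mul_assoc, RingHom.id_apply, ← Finset.mul_sum,
      Prod.smul_mk]
    ring

/-- The row of the prime `3`. -/
theorem row0 (h n : ℕ) {m k : ℕ} (π : Fin m → PP) (p e : Fin m → ℕ) (r : Fin k → ℕ)
    (w0 : ZMod 3) (c : Fin m → ZMod 3) (u : Col m k → ZMod 3) :
    ((Nm h n π p e r w0 c).mulVec u) 0 =
      (wt ((n : ℤ) ^ 2) + w0) * u (Sum.inl 0) + (La p r u).2 := by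
  rw [Matrix.mulVec, dotProduct, Fintype.sum_sum_type, Fin.sum_univ_succ]
  change ((wt ((n : ℤ) ^ 2) + w0) * u (Sum.inl 0) +
    ∑ i : Fin m, wt ((p i : ℤ) ^ 2) * u (Sum.inl i.succ)) +
    ∑ j, wt ((r j : ℤ) ^ 2) * u (Sum.inr j) = (wt ((n : ℤ) ^ 2) + w0) * u (Sum.inl 0) +
    ((∑ i : Fin m, u (Sum.inl i.succ) * wt ((p i : ℤ) ^ 2)) +
      ∑ j, u (Sum.inr j) * wt ((r j : ℤ) ^ 2))
  rw [add_assoc]
  congr 2
  · exact Finset.sum_congr rfl fun i _ => mul_comm _ _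
  · exact Finset.sum_congr rfl fun i _ => mul_comm _ _

theorem dec_d : ∀ a b x : ZMod 3, b * a + x = 0 → x = (2 * a) * b := by decide

theorem dec_e : ((0 : ℕ) : ZMod 3) = 0 := by decide

/-- The image of the admissible vectors in a line, `h = 0` and `h = 2`. -/
theorem line (h n : ℕ) {m k : ℕ} (π : Fin m → PP) (p e : Fin m → ℕ) (r : Fin k → ℕ)
    (w0 : ZMod 3) (c : Fin m → ZMod 3) (h02 : h = 0 ∨ h = 2) (u : Col m k → ZMod 3)
    (hu : u ∈ US h n π p e r w0 c) :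
    ∃ t : ZMod 3, La p r u = t • ((h : ZMod 3), wt ((n : ℤ) ^ 2) + w0) := by
  have hF : Fact (Nat.Prime 3) := ⟨Nat.prime_three⟩
  obtain ⟨-, h1, h2⟩ := hu
  rcases h02 with rfl | rfl
  · have h3 : u (Sum.inl 0) = 0 := h2 rfl
    by_cases h4 : wt ((n : ℤ) ^ 2) + w0 = 0
    · have h5 := h1 (Or.inr ⟨rfl, h4⟩)
      rw [row0, h3, mul_zero, zero_add] at h5
      refine ⟨0, ?_⟩
      rw [zero_smul]
      exact Prod.ext h3 h5
    · refine ⟨(La p r u).2 / (wt ((n : ℤ) ^ 2) + w0), Prod.ext ?_ ?_⟩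
      · change u (Sum.inl 0) = _ * ((0 : ℕ) : ZMod 3)
        rw [h3, dec_e, mul_zero]
      · change (La p r u).2 = (La p r u).2 / (wt ((n : ℤ) ^ 2) + w0) * (wt ((n : ℤ) ^ 2) + w0)
        rw [div_mul_cancel₀ _ h4]
  · have h5 := h1 (Or.inl rfl)
    rw [row0] at h5
    refine ⟨2 * u (Sum.inl 0), Prod.ext ?_ ?_⟩
    · exact dec_a _
    · exact dec_d _ _ _ h5

section

variable {h n m k : ℕ} {π : Fin m → PP} {p e : Fin m → ℕ} {r f : Fin k → ℕ}

theorem prm_prime (hN : NF n π p e r f) (b : Col m k) : (prm p r b).Prime := by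
  rcases b with b | j
  · refine Fin.cases ?_ (fun i => ?_) b
    · exact Nat.prime_three
    · exact hN.pp i
  · exact hN.rp j

theorem exv_prod (hN : NF n π p e r f) {s : ℕ} (x : Fin s → ℤ) (hx : ∀ i, x i ≠ 0)
    (g : Fin s → ℕ) : exv p r (∏ i, x i ^ g i) = ∑ i, (g i : ZMod 3) • exv p r (x i) := by
  funext b
  rw [Finset.sum_apply]
  change ((padicValInt (prm p r b) (∏ i, x i ^ g i) : ℕ) : ZMod 3) =
      ∑ i, (g i : ZMod 3) * (padicValInt (prm p r b) (x i) : ZMod 3)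
  rw [padicInt_prod _ (prm_prime hN b) _ _ fun i => pow_ne_zero _ (hx i), Nat.cast_sum]
  refine Finset.sum_congr rfl fun i _ => ?_
  rw [padicInt_pow _ (prm_prime hN b) (hx i), Nat.cast_mul]

theorem exv_cube (hN : NF n π p e r f) (t : ℤ) (ht : t ≠ 0) : exv p r (t ^ 3) = 0 := by
  have h3 : ((3 : ℕ) : ZMod 3) = 0 := ZMod.natCast_self 3
  funext b
  change ((padicValInt (prm p r b) (t ^ 3) : ℕ) : ZMod 3) = 0
  rw [padicInt_pow _ (prm_prime hN b) ht, Nat.cast_mul, h3, zero_mul]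

theorem lv_eq (x : ℤ) : lv x = exv p r x (Sum.inl 0) := rfl

theorem lw_eq (hEVET : EVET) (hN : NF n π p e r f) (h : ℕ) (w0 : ZMod 3) (c : Fin m → ZMod 3)
    (x : ℤ) (h1 : x ≠ 0) (h2 : ∀ l : ℕ, l.Prime → (l : ℤ) ∣ x → l ∣ 3 * n) :
    lw x = (La p r (exv p r x)).2 := by
  obtain ⟨hE1, -⟩ := hEVET h n m k π p e r f w0 c hN
  exact (hE1 x h1 h2).2

/-- The adapted basis of a space of admissible exponent vectors. -/
theorem core (hEVET : EVET) (hLPT : LPT) (hLCL : LCL) (hN : NF n π p e r f)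
    (h2 : h ≤ 2) (w0 : ZMod 3) (c : Fin m → ZMod 3)
    (x : (Col m k → ZMod 3) → ℤ) (hx0 : ∀ u, x u ≠ 0)
    (hxs : ∀ u, ∀ l : ℕ, l.Prime → (l : ℤ) ∣ x u → l ∣ 3 * n)
    (hxe : ∀ u, exv p r (x u) = u)
    (T : Submodule (ZMod 3) (Col m k → ZMod 3)) (hT : T ≤ US h n π p e r w0 c) :
    ∃ (τ : Fin (Module.finrank (ZMod 3) T) → Fin 3)
      (u : Module.Basis (Fin (Module.finrank (ZMod 3) T)) (ZMod 3) T)
      (X Y : Fin (Module.finrank (ZMod 3) T) → ℤ),
      (∀ i j, i ≠ j → (u i : Col m k → ZMod 3) (Sum.inl 0) = 0 ∨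
        (u j : Col m k → ZMod 3) (Sum.inl 0) = 0) ∧
      ∀ B : ℤ, TyB h n w0 B → LamS B τ (fun i => x (u i : Col m k → ZMod 3)) X Y := by
  have hF : Fact (Nat.Prime 3) := ⟨Nat.prime_three⟩
  set β : ZMod 3 := wt ((n : ℤ) ^ 2) + w0 with hβ
  obtain ⟨τ, u, hA, hA1⟩ : ∃ (τ : Fin (Module.finrank (ZMod 3) T) → Fin 3)
      (u : Module.Basis (Fin (Module.finrank (ZMod 3) T)) (ZMod 3) T),
      Adp ((La p r).comp T.subtype) ((h : ZMod 3), β) τ u ∧
      ∀ i, τ i = 1 → ((h : ZMod 3), β) ≠ 0 := by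
    by_cases h1 : h = 1
    · have h3 : ((h : ZMod 3), β).1 ≠ 0 := by
        subst h1
        exact dec_one
      obtain ⟨τ, u, hA⟩ := adapted ((La p r).comp T.subtype) ((h : ZMod 3), β) h3
      refine ⟨τ, u, hA, fun _ _ h4 => h3 ?_⟩
      rw [h4]
      rfl
    · have h02 : h = 0 ∨ h = 2 := by omega
      have h3 : ∀ v, ∃ t : ZMod 3, ((La p r).comp T.subtype) v = t • ((h : ZMod 3), β) :=
        fun v => line h n π p e r w0 c h02 v (hT v.2)
      by_cases h4 : ((h : ZMod 3), β) = 0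
      · have d1 : ¬ (0 : Fin 3) = 1 := by decide
        have d2 : ¬ (0 : Fin 3) = 2 := by decide
        refine ⟨fun _ => 0, Module.finBasis (ZMod 3) T, ⟨fun i _ => ?_,
          fun i hi => absurd hi d1, fun i hi => absurd hi d2,
          fun i j _ hi => absurd rfl hi, fun i j _ => ?_⟩, fun i hi => absurd hi d1⟩
        · obtain ⟨t, ht⟩ := h3 (Module.finBasis (ZMod 3) T i)
          rw [ht, h4, smul_zero]
        · left
          obtain ⟨t, ht⟩ := h3 (Module.finBasis (ZMod 3) T i)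
          rw [ht, h4, smul_zero]
          rfl
      · obtain ⟨τ, u, hA⟩ := adapted_line ((La p r).comp T.subtype) ((h : ZMod 3), β) h3
        exact ⟨τ, u, hA, fun _ _ => h4⟩
  have hLa : ∀ i, ((La p r).comp T.subtype) (u i) =
      (lv (x (u i : Col m k → ZMod 3)), lw (x (u i : Col m k → ZMod 3))) := by
    intro i
    rw [lv_eq (p := p) (r := r), lw_eq hEVET hN h w0 c _ (hx0 _) (hxs _), hxe]
    rfl
  have hLC : ∀ i, LC lam (x (u i : Col m k → ZMod 3)) ↔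
      lv (x (u i : Col m k → ZMod 3)) = 0 ∧ lw (x (u i : Col m k → ZMod 3)) = 0 := fun i =>
    hLCL.1 _ (hx0 _)
  have hXY : ∀ i, ∃ X Y : ℤ, (τ i = 1 → X = 1 ∧ Y = 0) ∧
      (τ i = 2 → X ≠ 0 ∧ Y ≠ 0 ∧ X ^ 3 + x (u i : Col m k → ZMod 3) * Y ^ 3 ≠ 0 ∧
        lv (x (u i : Col m k → ZMod 3) * (X ^ 3 + x (u i : Col m k → ZMod 3) * Y ^ 3)) = 1 ∧
        lw (x (u i : Col m k → ZMod 3) * (X ^ 3 + x (u i : Col m k → ZMod 3) * Y ^ 3)) = β) := by
    intro i
    by_cases h2 : τ i = 2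
    · have h3 : ¬ (lv (x (u i : Col m k → ZMod 3)) = 0 ∧
          lw (x (u i : Col m k → ZMod 3)) = 0) := by
        rintro ⟨h4, h5⟩
        apply (hA.a2 i h2).1
        rw [hLa i, h4, h5]
        rfl
      obtain ⟨X, Y, hXY⟩ := hLPT _ β (hx0 (u i : Col m k → ZMod 3)) h3
      refine ⟨X, Y, fun h4 => ?_, fun _ => hXY⟩
      rw [h2] at h4
      exact absurd h4 (by decide)
    · exact ⟨1, 0, fun _ => ⟨rfl, rfl⟩, fun h3 => absurd h3 h2⟩
  choose X Y hX1 hX2 using hXY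
  refine ⟨τ, u, X, Y, hA.one, fun B hB => ⟨fun i hi => ?_, fun i hi => ?_, fun i hi => ?_,
    hA.inj⟩⟩
  · have h1 := hA.a0 i hi
    rw [hLa i, Prod.mk_eq_zero] at h1
    exact (hLC i).mpr h1
  · have h1 := hA.a1 i hi
    rw [hLa i, Prod.mk.injEq] at h1
    obtain ⟨-, hB1, hB2⟩ := hB
    refine ⟨fun h2 => ?_, ?_, ?_, (hX1 i hi).1, (hX1 i hi).2⟩
    · obtain ⟨h3, h4⟩ := (hLC i).mp h2
      apply hA1 i hi
      rw [Prod.mk_eq_zero, ← h1.1, ← h1.2]
      exact ⟨h3, h4⟩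
    · rw [hB1]
      exact h1.1
    · rw [hB2]
      exact h1.2
  · obtain ⟨-, hB1, hB2⟩ := hB
    have h1 := hA.a2 i hi
    have h3 : h = 1 := by
      by_contra h4
      have h02 : h = 0 ∨ h = 2 := by omega
      exact h1.2 (line h n π p e r w0 c h02 _ (hT (u i).2))
    have hB1' : lv B = 1 := by
      rw [hB1, h3, Nat.cast_one]
    obtain ⟨hx1, hx2, hx3, hx4, hx5⟩ := hX2 i hi
    refine ⟨fun h4 => ?_, hB1', ⟨hx1, hx2, hx3, ?_, ?_⟩⟩
    · apply h1.1
      have h5 := (hLC i).mp h4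
      rw [hLa i, h5.1, h5.2]
      rfl
    · rw [hB1']
      exact hx4
    · rw [hB2]
      exact hx5

end

end NBAS

open NBAS in
/-- NBAS: basis of the admissible classes with local points. -/
theorem NBAS_thm (hV : Stmt_NVEC) (hEVET : EVET) (hSPP : SPP) (hLPT : LPT) (hLCL : LCL) :
    Stmt_NBAS := by
  intro h n m k π p e r f w0 c hN h2
  obtain ⟨hV1, hV2, hV3⟩ := hV h n m k π p e r f w0 c hN h2
  choose x hx0 hxs hxe hxV hx3 using hV3
  obtain ⟨τ, u, X, Y, hone, hL⟩ := core hEVET hLPT hLCL hN h2 w0 c x hx0 hxs hxe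
    (US h n π p e r w0 c) le_rfl
  have hps : ∀ g : Fin (Module.finrank (ZMod 3) (US h n π p e r w0 c)) → ℕ,
      ∏ i, x (u i : Col m k → ZMod 3) ^ g i ≠ 0 := fun g =>
    Finset.prod_ne_zero_iff.mpr fun i _ => pow_ne_zero _ (hx0 _)
  have hpe : ∀ g : Fin (Module.finrank (ZMod 3) (US h n π p e r w0 c)) → ℕ,
      exv p r (∏ i, x (u i : Col m k → ZMod 3) ^ g i) =
        ∑ i, (g i : ZMod 3) • (u i : Col m k → ZMod 3) := by
    intro g
    rw [exv_prod hN (fun i => x (u i : Col m k → ZMod 3)) (fun i => hx0 _) g]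
    simp only [hxe]
  refine ⟨Module.finrank (ZMod 3) (US h n π p e r w0 c), τ, fun i => x (u i), X, Y, rfl,
    fun i => ?_, fun i π' => hxV _ π', fun g hg => ?_, fun i j hij => ?_, hL, fun y hy => ?_⟩
  · rw [hV1 _ (hx0 _) (hxs _), hxe]
    exact (u i).2
  · rintro ⟨t, ht⟩
    have ht0 : t ≠ 0 := by
      rintro rfl
      apply hps g
      rw [← ht]
      norm_num
    have h1 := hpe g
    rw [← ht, exv_cube hN t ht0] at h1
    obtain ⟨i, hi⟩ := hg
    apply hi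
    rw [← ZMod.natCast_eq_zero_iff]
    apply Fintype.linearIndependent_iff.mp u.linearIndependent (fun i => (g i : ZMod 3))
    apply Subtype.ext
    rw [AddSubmonoidClass.coe_finsetSum]
    exact h1.symm
  · rcases hone i j hij with h1 | h1
    · exact Or.inl (hx3 _ h1)
    · exact Or.inr (hx3 _ h1)
  · have hy0 : y ≠ 0 := hy.1.ne
    have hys := hy.1.supp
    have hyS : exv p r y ∈ US h n π p e r w0 c := (hV1 y hy0 hys).mp hy
    refine ⟨fun i => (u.repr ⟨exv p r y, hyS⟩ i).val, ?_⟩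
    rw [hV2 y _ hy0 (hps _) hys (fun l hl hd => ?_)]
    · rw [hpe]
      have h3 := congrArg (fun z : US h n π p e r w0 c => (z : Col m k → ZMod 3))
        (u.sum_repr ⟨exv p r y, hyS⟩)
      simp only [AddSubmonoidClass.coe_finsetSum] at h3
      refine h3.symm.trans (Finset.sum_congr rfl fun i _ => ?_)
      rw [ZMod.natCast_zmod_val]
      rfl
    · obtain ⟨i, -, hi⟩ := (Nat.prime_iff_prime_int.mp hl).dvd_finsetProd_iff _ |>.mp hd
      exact hxs _ l hl ((Nat.prime_iff_prime_int.mp hl).dvd_of_dvd_pow hi)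

end Pool.Agent.PTN
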