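import Pool.Agent.PTN.StQ

/-!
# The distribution of the ranks of `X³ + Y³ = n q` and `X³ + Y³ = n q²` over primes `q`, for every cube-free `n`
-/

set_option autoImplicit false

namespace Pool.Agent.PTN.Preview

open Pool.Agent.PTL

/-- The curve `y² = x³ - 432 A²`; it is the curve `X³ + Y³ = A` in the coordinates
`x = 12 A / (X + Y)`, `y = 36 A (X - Y) / (X + Y)`. -/
def C (A : ℤ) : WeierstrassCurve ℚ where
  a₁ := 0
  a₂ := 0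
  a₃ := 0
  a₄ := 0
  a₆ := -432 * (A : ℚ) ^ 2

/-- The group `C_A(ℚ)` is generated by at most `n` points. -/
def RankLE (A : ℤ) (n : ℕ) : Prop :=
  ∃ s : Finset (C A).toAffine.Point, s.card ≤ n ∧
    AddSubgroup.closure (s : Set (C A).toAffine.Point) = ⊤

/-- `r(A)`, the least size of a generating set of `C_A(ℚ)`. -/
noncomputable def r (A : ℤ) : ℕ := sInf {n : ℕ | RankLE A n}

open Classical in
/-- The sum of `F(A) / q ^ σ` over the pairs `(q, e)` with `e = 1, 2`, `q` in the finite set `T`, `q` prime, `q ≡ a (mod 3)`,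
for which `q ^ e` has the property `W`; `A = n q ^ e`. -/
noncomputable def Sum (n : ℤ) (a : ℕ) (W : ℤ → Prop) (F : ℤ → ℝ) (σ : ℝ) (T : Finset ℕ) : ℝ :=
  ∑ e ∈ ({1, 2} : Finset ℕ), ∑ q ∈ T,
    if q.Prime ∧ q % 3 = a ∧ W (q ^ e) then F (n * q ^ e) * (q : ℝ) ^ (-σ) else 0

/-- The sum of `F(A)` over these `A = n q ^ e` is at most `x` times `log (1 / (σ - 1))`, up to a constant. -/
def Above (n : ℤ) (a : ℕ) (W : ℤ → Prop) (F : ℤ → ℝ) (x : ℝ) : Prop :=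
  ∃ K : ℝ, ∀ σ : ℝ, 1 < σ → σ ≤ 2 → ∀ T : Finset ℕ, Sum n a W F σ T ≤ x * Real.log (1 / (σ - 1)) + K

/-- The sum of `F(A)` over these `A = n q ^ e` is at least `x` times `log (1 / (σ - 1))`, up to a constant. -/
def Below (n : ℤ) (a : ℕ) (W : ℤ → Prop) (F : ℤ → ℝ) (x : ℝ) : Prop :=
  ∃ K : ℝ, ∀ σ : ℝ, 1 < σ → σ ≤ 2 → ∃ T : Finset ℕ, x * Real.log (1 / (σ - 1)) - K ≤ Sum n a W F σ T

/-- `y ≡ u x³ (mod 9 n)` for some `x` -/
def Cl (n : ℕ) (u : (ZMod (9 * n))ˣ) (y : ℤ) : Prop :=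
  ∃ x : ℤ, ((9 * n : ℕ) : ℤ) ∣ y - ((u : ZMod (9 * n)).val : ℤ) * x ^ 3

/-- `n u ≡ ± 1 (mod 9)` -/
def N1 (n : ℕ) (u : (ZMod (9 * n))ˣ) : Prop :=
  (n * (u : ZMod (9 * n)).val) % 9 = 1 ∨ (n * (u : ZMod (9 * n)).val) % 9 = 8

/-- `A` is not a sum of two rational cubes. -/
def NoSum (A : ℤ) : Prop := ¬ ∃ X Y : ℚ, X ^ 3 + Y ^ 3 = (A : ℚ)

open Classical in
/-- Let `n` be cube-free, with `m` prime factors `≡ 1 (mod 3)` and `k` prime factors `≡ 2 (mod 3)`; `δ = 1` if `n` is divisible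
by `3` and not by `9`, otherwise `δ = 0`; `μ = m + 1 - δ`. Let `A = n q ^ e` with `q` prime and `e ∈ {1, 2}`; the weight of
`A` is `q ^ -σ`. The `A` with `q ≡ 2 (mod 3)`, and the `A` with `q ≡ 1 (mod 3)`, have total weight `log (1 / (σ - 1))`; those
with `q ^ e` in the class `u`, i.e. `q ^ e ≡ u x³ (mod 9 n)` for some `x`, have total weight `log (1 / (σ - 1)) / 3 ^ (m + 1)`. -/
theorem result (hMAINQ : Pool.Agent.PTN.Stmt_MAINQ) (n : ℕ) (hn : 0 < n) (hcf : ∀ p : ℕ, p.Prime → ¬ p ^ 3 ∣ n) (m k δ μ : ℕ)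
    (hm : m = (n.primeFactors.filter (fun p => p % 3 = 1)).card)
    (hk : k = (n.primeFactors.filter (fun p => p % 3 = 2)).card)
    (hδ : δ = (if 3 ∣ n ∧ ¬ 9 ∣ n then 1 else 0)) (hμ : μ + δ = m + 1) :
    -- the classes
    (∃ v s : (ZMod (9 * n))ˣ → ℕ,
      (∀ u : (ZMod (9 * n))ˣ, s u + (if N1 n u then 1 else 0) = v u + k + δ) ∧
      (∑ᶠ u : (ZMod (9 * n))ˣ, (3 : ℝ) ^ v u ≤ (5 / 3) ^ μ * (9 * n).totient) ∧
      ((2 / 3 : ℝ) ^ μ * (9 * n).totient ≤ Nat.card {u : (ZMod (9 * n))ˣ // v u = 0 ∧ ¬ N1 n u}) ∧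
      (¬ 3 ∣ n → (∃ p : ℕ, p.Prime ∧ p ∣ n ∧ (p % 9 = 2 ∨ p % 9 = 5)) →
        1 / 3 * (2 / 3 : ℝ) ^ m * (9 * n).totient ≤ Nat.card {u : (ZMod (9 * n))ˣ // v u = 0 ∧ N1 n u}) ∧
      (∀ (u : (ZMod (9 * n))ˣ) (F : ℕ → ℝ), Monotone F → 0 ≤ F 0 →
        Above n 2 (Cl n u) (fun A => F (r A)) (Esk (s u) (fun x => F (v u + x)) / 3 ^ (m + 1)) ∧
        Above n 1 (Cl n u) (fun A => F (r A)) (((1 - 1 / 3 ^ s u) * Esk (s u - 1) (fun x => F (v u + x)) +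
          1 / 3 ^ s u * F (v u + s u + 1)) / 3 ^ (m + 1))) ∧
      ∀ u : (ZMod (9 * n))ˣ, v u = 0 →
        (Even (s u) → Below n 2 (Cl n u) (fun A => tf (NoSum A)) (5 / 8 / 3 ^ (m + 1)) ∧
          Below n 1 (Cl n u) (fun A => tf (r A ≤ 1)) (8 / 9 / 3 ^ (m + 1))) ∧
        (Odd (s u) → Below n 2 (Cl n u) (fun A => tf (r A ≤ 1)) (23 / 24 / 3 ^ (m + 1)) ∧
          Below n 1 (Cl n u) (fun A => tf (NoSum A)) (5 / 8 / 3 ^ (m + 1)))) ∧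
    -- the groups are generated by `r(A)` points for all large `q`
    (∃ M : ℕ, ∀ q e : ℕ, q.Prime → M < q → (e = 1 ∨ e = 2) → RankLE (n * q ^ e) (r (n * q ^ e))) ∧
    -- all `A`
    Above n 2 (fun _ => True) (fun A => 3 ^ r A) (4 * (5 / 3) ^ μ) ∧
    Above n 1 (fun _ => True) (fun A => 3 ^ r A) (7 * (5 / 3) ^ μ) ∧
    (Even (k + δ) → Below n 2 (fun _ => True) (fun A => tf (NoSum A)) (5 / 8 * (2 / 3) ^ μ) ∧
      Below n 1 (fun _ => True) (fun A => tf (r A ≤ 1)) (8 / 9 * (2 / 3) ^ μ)) ∧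
    (Odd (k + δ) → Below n 2 (fun _ => True) (fun A => tf (r A ≤ 1)) (23 / 24 * (2 / 3) ^ μ) ∧
      Below n 1 (fun _ => True) (fun A => tf (NoSum A)) (5 / 8 * (2 / 3) ^ μ)) :=
  hMAINQ n hn hcf m k δ μ hm hk hδ hμ

end Pool.Agent.PTN.Preview
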